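import Pool.Agent.LibThin21.Defs

/-!
ROW C1. The columns coprime to `q = primorial z / p0`, `p0` large.

The `i ≤ h` coprime to `q` but not to `primorial z` are `i = p0 j`, `j ≤ h / p0` coprime to `q`. The others
are counted by `rough_count` (LibMaier/Rough.lean). The large sieve with `B = {p0}` bounds the number of `j` by
`36 (h / p0 + 1) / log √z`, at most `(ε / 3) * h / (2 log z)` as `p0 ≥ 2000 / ε`.
-/

namespace Pool.Agent.LibThin21

open Filter Topology
open Pool.Agent.LibMaier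

lemma c1_split {p0 q z : ℕ} (h : ℕ) (hp0 : p0.Prime) (hq : q * p0 = primorial z) :
    (cols q h).card ≤ ((Finset.Icc 1 h).filter (fun a => ∀ p ≤ z, p.Prime → ¬ p ∣ a)).card +
      (cols q (h / p0)).card := by
  classical
  have hsub : cols q h ⊆ ((Finset.Icc 1 h).filter (fun a => ∀ p ≤ z, p.Prime → ¬ p ∣ a)) ∪
      (cols q (h / p0)).image (fun j => p0 * j) := by
    intro i hi
    rw [cols, Finset.mem_filter, Finset.mem_Icc] at hi
    obtain ⟨⟨hi1, hih⟩, hcop⟩ := hi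
    rw [Finset.mem_union]
    by_cases hd : p0 ∣ i
    · right
      obtain ⟨j, rfl⟩ := hd
      rw [Finset.mem_image]
      refine ⟨j, ?_, rfl⟩
      rw [cols, Finset.mem_filter, Finset.mem_Icc]
      have hj : 1 ≤ j := by
        rcases Nat.eq_zero_or_pos j with rfl | h0
        · simp at hi1
        · exact h0
      refine ⟨⟨hj, ?_⟩, Nat.Coprime.coprime_mul_left hcop⟩
      rw [Nat.le_div_iff_mul_le hp0.pos, mul_comm]
      exact hih
    · left
      rw [Finset.mem_filter, Finset.mem_Icc]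
      refine ⟨⟨hi1, hih⟩, fun p hpz hp hpi => ?_⟩
      have h1 : p ∣ q * p0 := by rw [hq]; exact hp.dvd_primorial_iff.2 hpz
      rcases hp.dvd_mul.1 h1 with h2 | h2
      · have h3 := Nat.dvd_gcd hpi h2
        rw [Nat.coprime_iff_gcd_eq_one.1 hcop] at h3
        exact hp.one_lt.ne' (Nat.dvd_one.1 h3)
      · rw [(Nat.prime_dvd_prime_iff_eq hp hp0).1 h2] at hpi
        exact hd hpi
  exact (Finset.card_le_card hsub).trans ((Finset.card_union_le _ _).trans
    (Nat.add_le_add_left Finset.card_image_le _))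

lemma c1_sieve {p0 H M : ℕ} (hp0 : p0.Prime) (P : Finset ℕ) (hMH : M ^ 2 < H)
    (hP : ∀ n ∈ P, n < H) (hs : ∀ n ∈ P, ∀ p : ℕ, p.Prime → p ≤ M → p ≠ p0 → ¬ p ∣ n) :
    (P.card : ℝ) * Real.log M ≤ 36 * H := by
  classical
  have hH : 0 < H := by omega
  rcases P.eq_empty_or_nonempty with rfl | hne
  · simp
  have hB : ∀ p ∈ ({p0} : Finset ℕ), p.Prime := by
    intro p hp
    rw [Finset.mem_singleton] at hp
    rw [hp]; exact hp0
  have key := LSieve.sifted_large_sieve_nat ({()} : Finset Unit) (fun _ => 0) (fun _ => 0) H 1 M 1 0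
    ({p0} : Finset ℕ) hH (by simp) (by simp)
    (by
      intro i _ p hp hpd
      rw [addOrderOf_zero, Nat.dvd_one] at hpd
      exact absurd hpd hp.one_lt.ne')
    (by simp)
    (by
      have h1 : ((M : ℝ)) ^ 2 < H := by exact_mod_cast hMH
      have h2 : (0 : ℝ) < H := by exact_mod_cast hH
      simp only [Nat.cast_one, one_mul, mul_zero, add_zero]
      rw [mul_one_div, div_lt_one h2]
      exact h1)
    (fun _ _ => Finset.card_le_one_of_subsingleton _) 0 P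
    (by
      intro n hn
      rw [Finset.mem_Ico]
      have := hP n hn
      omega) (fun _ => 1)
    (by
      intro p hp hpM hpB
      refine ⟨0, fun n hn h0 => ?_⟩
      have h2 : (p : ℤ) ∣ n := Int.modEq_zero_iff_dvd.1 h0
      have h3 : p ∣ n := by exact_mod_cast h2
      refine hs n hn p hp hpM (fun h4 => hpB ?_) h3
      rw [Finset.mem_singleton]; exact h4)
  have hn : LSieve.nsum P (fun _ => 1) 0 = (P.card : ℂ) := by
    unfold LSieve.nsum
    simp
  simp only [Finset.sum_singleton, add_zero] at key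
  rw [hn] at key
  have h1 : ‖(P.card : ℂ)‖ = P.card := by simp
  rw [h1] at key
  simp only [one_pow, Finset.sum_const, nsmul_eq_mul, mul_one, Nat.cast_one] at key
  have hc : (0 : ℝ) < P.card := by exact_mod_cast Finset.card_pos.2 hne
  have h2 : LSieve.G {p0} M * P.card ≤ 9 * H := by
    have : (LSieve.G {p0} M * P.card) * P.card ≤ (9 * H) * P.card := by nlinarith [key]
    exact le_of_mul_le_mul_right this hc
  have h3 := LSieve.log_le_G ({p0} : Finset ℕ) M hB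
  have h4 : LSieve.V ({p0} : Finset ℕ) ≤ 2 := by
    unfold LSieve.V
    rw [Finset.prod_singleton]
    have : (2 : ℝ) ≤ p0 := by exact_mod_cast hp0.two_le
    rw [div_le_iff₀ (by linarith)]
    linarith
  have h5 : 0 ≤ LSieve.G {p0} M := LSieve.G_nonneg _ _
  have h6 : Real.log M ≤ 4 * LSieve.G {p0} M := by nlinarith
  nlinarith

lemma c1_totient {p0 q z : ℕ} (hp0 : p0.Prime) (hq : q * p0 = primorial z) :
    (q : ℝ) / (q.totient : ℝ) ≤ (primorial z : ℝ) / ((primorial z).totient : ℝ) := by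
  have hpos := primorial_pos z
  have hq0 : 0 < q := by
    rcases Nat.eq_zero_or_pos q with rfl | h
    · rw [zero_mul] at hq; omega
    · exact h
  have h1 : (q * p0).totient ≤ q.totient * p0 := by
    by_cases hd : p0 ∣ q
    · rw [mul_comm q p0, Nat.totient_mul_of_prime_of_dvd hp0 hd, mul_comm]
    · rw [mul_comm q p0, Nat.totient_mul_of_prime_of_not_dvd hp0 hd, mul_comm]
      exact Nat.mul_le_mul_left _ (Nat.sub_le _ _)
  have h2 : (0 : ℝ) < (q.totient : ℝ) := by exact_mod_cast Nat.totient_pos.2 hq0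
  have h3 : (0 : ℝ) < ((q * p0).totient : ℝ) := by
    exact_mod_cast Nat.totient_pos.2 (Nat.mul_pos hq0 hp0.pos)
  rw [← hq, div_le_div_iff₀ h2 h3]
  have h4 : ((q * p0).totient : ℝ) ≤ (q.totient : ℝ) * p0 := by exact_mod_cast h1
  push_cast
  have h5 : (0 : ℝ) ≤ q := by positivity
  nlinarith [mul_le_mul_of_nonneg_left h4 h5]

lemma c1_logsqrt {z : ℕ} (hz : 16 ≤ z) : Real.log z / 4 ≤ Real.log (Nat.sqrt z) := by
  have h1 : z < (Nat.sqrt z + 1) * (Nat.sqrt z + 1) := Nat.lt_succ_sqrt z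
  have h4 : 4 ≤ Nat.sqrt z := by
    rw [Nat.le_sqrt]; omega
  have h2 : z ≤ (Nat.sqrt z) ^ 4 := by
    set m := Nat.sqrt z
    have h3 : (m + 1) * (m + 1) ≤ m ^ 4 := by
      have : m + 1 ≤ m ^ 2 := by nlinarith
      calc (m + 1) * (m + 1) ≤ m ^ 2 * m ^ 2 := Nat.mul_le_mul this this
        _ = m ^ 4 := by ring
    omega
  have h5 : (z : ℝ) ≤ ((Nat.sqrt z : ℕ) : ℝ) ^ 4 := by exact_mod_cast h2
  have h6 : (0 : ℝ) < z := by
    have : 0 < z := by omega
    exact_mod_cast this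
  have h7 := Real.log_le_log h6 h5
  rw [Real.log_pow] at h7
  push_cast at h7
  linarith

theorem cols_bound {ε : ℝ} (hε : 0 < ε) (hε1 : ε < 1 / 100) :
    ∃ B : ℝ, 1 < B ∧ B < 2 ∧ ∀ lam : ℝ, 0 < lam → ∀ᶠ z : ℕ in atTop, ∀ p0 q : ℕ, p0.Prime →
      2000 / ε ≤ (p0 : ℝ) → q * p0 = primorial z → ∀ x : ℝ, (z : ℝ) ^ B ≤ x →
      x ≤ ((z : ℝ) + 1) ^ B →
        ((cols q ⌊lam * x ^ 2⌋₊).card : ℝ) * ((q : ℝ) / (q.totient : ℝ)) ≤
          (1 + ε) ^ 4 * (eg / 2) * (lam * x ^ 2) := by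
  obtain ⟨B₀, hB₀, hrough⟩ := rough_count hε
  have hm1 : 1 < min B₀ 2 := lt_min hB₀ (by norm_num)
  have hm2 : min B₀ 2 ≤ B₀ := min_le_left _ _
  have hm3 : min B₀ 2 ≤ 2 := min_le_right _ _
  refine ⟨(1 + min B₀ 2) / 2, by linarith, by linarith, ?_⟩
  set B : ℝ := (1 + min B₀ 2) / 2 with hB
  have hB1 : 1 < B := by rw [hB]; linarith
  have hB2 : B < 2 := by rw [hB]; linarith
  have hB3 : B < B₀ := by rw [hB]; linarith
  intro lam hlam
  have hcast : Tendsto (fun z : ℕ => (z : ℝ)) atTop atTop := tendsto_natCast_atTop_atTop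
  have e1 := hrough B hB1 hB3 (lam * (1 + ε)) (by positivity)
  have e2 := primorial_div_totient hε
  have e3 : ∀ᶠ z : ℕ in atTop, (1 : ℝ) / lam ≤ (z : ℝ) ^ (2 * B - 2) :=
    ((tendsto_rpow_atTop (by linarith : 0 < 2 * B - 2)).comp hcast).eventually_ge_atTop _
  have e4 : ∀ᶠ z : ℕ in atTop, ((1 : ℝ) + 1 / z) ^ (2 * B) ≤ 1 + ε := by
    have h1 : Tendsto (fun z : ℕ => ((1 : ℝ) + 1 / z)) atTop (𝓝 (1 + 0)) :=
      tendsto_const_nhds.add tendsto_one_div_atTop_nhds_zero_nat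
    have h2 := h1.rpow_const (p := 2 * B) (Or.inl (by norm_num))
    rw [add_zero, Real.one_rpow] at h2
    have h3 := h2.eventually (eventually_lt_nhds (show (1 : ℝ) < 1 + ε by linarith))
    filter_upwards [h3] with z hz
    exact hz.le
  filter_upwards [e1, e2, e3, e4, eventually_ge_atTop 16] with z hz1 hz2 hz3 hz4 hz16
  intro p0 q hp0 hp0b hq x hx1 hx2
  have hz0 : (0 : ℝ) < z := by
    have : 0 < z := by omega
    exact_mod_cast this
  have hzB : (0 : ℝ) < (z : ℝ) ^ B := Real.rpow_pos_of_pos hz0 _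
  have hx0 : 0 < x := lt_of_lt_of_le hzB hx1
  have hzB2 : (z : ℝ) ^ (2 * B) = ((z : ℝ) ^ B) ^ 2 := by
    rw [← Real.rpow_natCast, ← Real.rpow_mul hz0.le]
    congr 1
    push_cast; ring
  have hxz : (z : ℝ) ^ (2 * B) ≤ x ^ 2 := by
    rw [hzB2]
    exact pow_le_pow_left₀ hzB.le hx1 2
  have hxz2 : x ^ 2 ≤ (1 + ε) * (z : ℝ) ^ (2 * B) := by
    have h1 : ((z : ℝ) + 1) = z * (1 + 1 / z) := by field_simp
    have h2 : ((z : ℝ) + 1) ^ (2 * B) = (z : ℝ) ^ (2 * B) * ((1 : ℝ) + 1 / z) ^ (2 * B) := by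
      rw [h1, Real.mul_rpow hz0.le (by positivity)]
    have h3 : x ^ 2 ≤ ((z : ℝ) + 1) ^ (2 * B) := by
      have : ((z : ℝ) + 1) ^ (2 * B) = (((z : ℝ) + 1) ^ B) ^ 2 := by
        rw [← Real.rpow_natCast, ← Real.rpow_mul (by positivity)]
        congr 1
        push_cast; ring
      rw [this]
      exact pow_le_pow_left₀ hx0.le hx2 2
    have h4 : 0 < (z : ℝ) ^ (2 * B) := Real.rpow_pos_of_pos hz0 _
    calc x ^ 2 ≤ ((z : ℝ) + 1) ^ (2 * B) := h3
      _ = (z : ℝ) ^ (2 * B) * ((1 : ℝ) + 1 / z) ^ (2 * B) := h2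
      _ ≤ (z : ℝ) ^ (2 * B) * (1 + ε) := by gcongr
      _ = _ := by ring
  have hl : 0 < Real.log (z : ℝ) := by
    apply Real.log_pos
    have : 1 < z := by omega
    exact_mod_cast this
  -- the two parts
  have hF := hz1 (lam * x ^ 2) (by nlinarith [mul_le_mul_of_nonneg_left hxz2 hlam.le])
  have hsplit := c1_split (p0 := p0) (q := q) (z := z) ⌊lam * x ^ 2⌋₊ hp0 hq
  have hp0z : p0 ≤ z := hp0.dvd_primorial_iff.1 (Dvd.intro_left q hq)
  have hp0r : (0 : ℝ) < p0 := by exact_mod_cast hp0.pos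
  set Y : ℝ := lam * x ^ 2 with hY
  have hY0 : 0 < Y := by rw [hY]; positivity
  have hYp : (z : ℝ) ≤ Y / p0 := by
    rw [le_div_iff₀ hp0r]
    have h1 : (z : ℝ) * p0 ≤ z * z := by
      have : (p0 : ℝ) ≤ z := by exact_mod_cast hp0z
      gcongr
    have h2 : (z : ℝ) * z ≤ lam * (z : ℝ) ^ (2 * B) := by
      have h3 : (z : ℝ) ^ (2 * B) = (z : ℝ) ^ (2 * B - 2) * (z * z) := by
        have : (z : ℝ) * z = (z : ℝ) ^ (2 : ℝ) := by
          rw [Real.rpow_two]; ring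
        rw [this, ← Real.rpow_add hz0]
        congr 1; ring
      rw [h3]
      rw [div_le_iff₀ hlam] at hz3
      nlinarith [mul_pos hz0 hz0]
    have h4 : lam * (z : ℝ) ^ (2 * B) ≤ Y := by rw [hY]; gcongr
    linarith
  have hT : ((cols q (⌊Y⌋₊ / p0)).card : ℝ) * Real.log (Nat.sqrt z) ≤
      36 * ((⌊Y / p0⌋₊ + 1 : ℕ) : ℝ) := by
    apply c1_sieve hp0
    · have h1 : (Nat.sqrt z) ^ 2 ≤ z := by
        have := Nat.sqrt_le z
        nlinarith
      have h2 : z ≤ ⌊Y / p0⌋₊ := Nat.le_floor hYp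
      omega
    · intro n hn
      rw [cols, Finset.mem_filter, Finset.mem_Icc] at hn
      have h1 : ⌊Y⌋₊ / p0 ≤ ⌊Y / p0⌋₊ := by
        rw [Nat.floor_div_natCast]
      omega
    · intro n hn p hp hpM hne hd
      rw [cols, Finset.mem_filter, Finset.mem_Icc] at hn
      have hpz : p ≤ z := hpM.trans (Nat.sqrt_le_self z)
      have h1 : p ∣ q * p0 := by rw [hq]; exact hp.dvd_primorial_iff.2 hpz
      rcases hp.dvd_mul.1 h1 with h2 | h2
      · have h3 := Nat.dvd_gcd hd h2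
        rw [Nat.coprime_iff_gcd_eq_one.1 hn.2] at h3
        exact hp.one_lt.ne' (Nat.dvd_one.1 h3)
      · exact hne ((Nat.prime_dvd_prime_iff_eq hp hp0).1 h2)
  have hls := c1_logsqrt hz16
  have hT2 : ((cols q (⌊Y⌋₊ / p0)).card : ℝ) * Real.log z ≤ 288 * (Y / p0) := by
    have h1 : ((⌊Y / p0⌋₊ + 1 : ℕ) : ℝ) ≤ 2 * (Y / p0) := by
      push_cast
      have h2 : (⌊Y / p0⌋₊ : ℝ) ≤ Y / p0 := Nat.floor_le (by positivity)
      have h3 : (16 : ℝ) ≤ z := by exact_mod_cast hz16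
      linarith
    have h4 : (0 : ℝ) ≤ ((cols q (⌊Y⌋₊ / p0)).card : ℝ) := by positivity
    have h5 := mul_le_mul_of_nonneg_left hls h4
    linarith
  have hT3 : ((cols q (⌊Y⌋₊ / p0)).card : ℝ) * Real.log z ≤ (288 / 2000 * ε) * Y := by
    have h1 : Y / p0 ≤ Y * (ε / 2000) := by
      rw [div_le_iff₀ hp0r]
      rw [div_le_iff₀ hε] at hp0b
      have h2 : 1 ≤ ε / 2000 * p0 := by linarith
      nlinarith
    linarith
  have hT4 : ((cols q (⌊Y⌋₊ / p0)).card : ℝ) ≤ (288 / 2000 * ε) * Y / Real.log z := by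
    rw [le_div_iff₀ hl]; exact hT3
  have hcard : ((cols q ⌊Y⌋₊).card : ℝ) ≤ ((1 + ε) ^ 2 + ε) * Y / (2 * Real.log z) := by
    have h1 : ((cols q ⌊Y⌋₊).card : ℝ) ≤
        (((Finset.Icc 1 ⌊Y⌋₊).filter (fun a => ∀ p ≤ z, p.Prime → ¬ p ∣ a)).card : ℝ) +
          ((cols q (⌊Y⌋₊ / p0)).card : ℝ) := by exact_mod_cast hsplit
    have h2 : (1 + ε) * (lam * (1 + ε) * (z : ℝ) ^ (2 * B)) / (2 * Real.log z) ≤
        (1 + ε) ^ 2 * Y / (2 * Real.log z) := by
      apply div_le_div_of_nonneg_right _ (by positivity)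
      have h3 : lam * (z : ℝ) ^ (2 * B) ≤ Y := by rw [hY]; gcongr
      have h4 : (0 : ℝ) ≤ (1 + ε) ^ 2 := by positivity
      nlinarith [mul_le_mul_of_nonneg_left h3 h4]
    have h5 : (288 / 2000 * ε) * Y / Real.log z ≤ ε * Y / (2 * Real.log z) := by
      rw [div_le_div_iff₀ hl (by positivity)]
      have h6 : 0 < ε * Y * Real.log z := by positivity
      nlinarith
    calc ((cols q ⌊Y⌋₊).card : ℝ) ≤ _ := h1
      _ ≤ (1 + ε) ^ 2 * Y / (2 * Real.log z) + ε * Y / (2 * Real.log z) := by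
          linarith
      _ = _ := by ring
  have htot := (c1_totient hp0 hq).trans hz2
  have htot0 : 0 ≤ (q : ℝ) / (q.totient : ℝ) := by positivity
  have heg := eg_pos
  calc ((cols q ⌊Y⌋₊).card : ℝ) * ((q : ℝ) / (q.totient : ℝ))
      ≤ (((1 + ε) ^ 2 + ε) * Y / (2 * Real.log z)) * ((1 + ε) * eg * Real.log z) := by
        apply mul_le_mul hcard htot htot0
        positivity
    _ = ((1 + ε) * ((1 + ε) ^ 2 + ε)) * (eg / 2) * Y := by
        field_simp
    _ ≤ (1 + ε) ^ 4 * (eg / 2) * Y := by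
        have h1 : (1 + ε) * ((1 + ε) ^ 2 + ε) ≤ (1 + ε) ^ 4 := by
          nlinarith [mul_pos hε hε, pow_pos hε 3, pow_pos hε 4]
        have h2 : 0 < (eg / 2) * Y := by positivity
        nlinarith [mul_le_mul_of_nonneg_right h1 h2.le]

end Pool.Agent.LibThin21
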