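import Pool.Agent.LibThin21.S1

/-!
A set of primes with a convergent sum of reciprocals is thin.
-/

namespace Pool.Agent.LibThin21

open Filter Topology

open Classical in
/-- `1 / p` for the primes of `E`, `0` otherwise -/
noncomputable def rE (E : Set ℕ) (p : ℕ) : ℝ := if p.Prime ∧ p ∈ E then 1 / (p : ℝ) else 0

lemma rE_nonneg (E : Set ℕ) (p : ℕ) : 0 ≤ rE E p := by
  unfold rE
  split_ifs
  · positivity
  · exact le_rfl

lemma SE_eq_rE (E : Set ℕ) {u v : ℝ} (hv : 0 ≤ v) : SE E u v = ∑ p ∈ EP E u v, rE E p := by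
  unfold SE
  apply Finset.sum_congr rfl
  intro p hp
  rw [mem_EP hv] at hp
  unfold rE
  rw [if_pos ⟨hp.1, hp.2.1⟩]

lemma SE_le_tsum {E : Set ℕ} (h : Summable (rE E)) {u v : ℝ} (hv : 0 ≤ v) :
    SE E u v ≤ ∑' p, rE E p := by
  rw [SE_eq_rE E hv]
  exact h.sum_le_tsum _ fun p _ => rE_nonneg E p

theorem thin_of_summable {E : Set ℕ} (h : Summable (rE E)) : Thin E := by
  unfold Thin
  rw [Metric.tendsto_nhds]
  intro ε hε
  obtain ⟨s, hs⟩ := summable_iff_vanishing_norm.1 h ε hε
  obtain ⟨M, hM⟩ : ∃ M : ℕ, ∀ p ∈ s, p ≤ M := ⟨s.sup id, fun p hp => Finset.le_sup (f := id) hp⟩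
  have h1 : Tendsto (fun x : ℝ => Real.exp (x / Real.log x)) atTop atTop := by
    apply Real.tendsto_exp_atTop.comp
    have h2 : Tendsto (fun x : ℝ => Real.log x / x) atTop (𝓝[>] 0) := by
      rw [tendsto_nhdsWithin_iff]
      constructor
      · have := Real.isLittleO_log_id_atTop.tendsto_div_nhds_zero
        simpa using this
      · filter_upwards [eventually_gt_atTop (1 : ℝ)] with x hx
        exact div_pos (Real.log_pos hx) (by linarith)
    have h3 := h2.inv_tendsto_nhdsGT_zero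
    refine h3.congr fun x => ?_
    simp
  filter_upwards [h1.eventually_ge_atTop (M : ℝ)] with x hx
  rw [SE_eq_rE E (Real.exp_pos _).le, dist_zero_right]
  apply hs
  rw [Finset.disjoint_left]
  intro p hp hps
  rw [mem_EP (Real.exp_pos _).le] at hp
  have h2 : (p : ℝ) ≤ (M : ℝ) := by exact_mod_cast hM p hps
  linarith [hp.2.2.1]

end Pool.Agent.LibThin21
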