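import Pool.Agent.LibThin21.S6

/-!
The integers which survive the class `0` modulo the primes outside `E`, and Rankin's trick for arbitrary
finite sets.
-/

namespace Pool.Agent.LibThin21

open Filter Topology

open Classical in
/-- The integers `1 ≤ n ≤ N` without prime factor `p ∉ E`, `p ^ 2 ≤ n`. -/
noncomputable def Sv (E : Set ℕ) (N : ℕ) : Finset ℕ :=
  (Finset.Icc 1 N).filter (fun n => ∀ p : ℕ, p.Prime → p ∉ E → p ^ 2 ≤ n → ¬ p ∣ n)

lemma mem_Sv {E : Set ℕ} {N n : ℕ} : n ∈ Sv E N ↔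
    (1 ≤ n ∧ n ≤ N) ∧ ∀ p : ℕ, p.Prime → p ∉ E → p ^ 2 ≤ n → ¬ p ∣ n := by
  classical
  unfold Sv
  simp only [Finset.mem_filter, Finset.mem_Icc]

theorem rankin' {E : Set ℕ} (h : Thin E) {δ : ℝ} (hδ : 0 < δ) :
    ∀ᶠ x : ℝ in atTop, ∀ S : Finset ℕ, (∀ f ∈ S, f ∈ ESm E ∧
          (∀ p : ℕ, p.Prime → p ∣ f → (p : ℝ) ≤ Real.exp (x / Real.log x)) ∧
          Real.exp (δ * x) < (f : ℝ)) → ∑ f ∈ S, 1 / (f : ℝ) ≤ 1 / x ^ 2 := by
  set K : ℝ := 6 / δ with hK
  have hK0 : 0 < K := by positivity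
  have hη : 0 < 1 / (3 * Real.exp K) := by positivity
  have hlim : Tendsto (fun x : ℝ => K * (Real.log x / x)) atTop (𝓝 (K * 0)) :=
    (Real.isLittleO_log_id_atTop.tendsto_div_nhds_zero).const_mul K
  rw [mul_zero] at hlim
  filter_upwards [SE_small h hη, hlim.eventually (ge_mem_nhds (show (0 : ℝ) < 1 / 4 by norm_num)),
    eventually_ge_atTop (Real.exp 1)] with x hSE hσ hx
  have hx1 : 1 < x := lt_of_lt_of_le (by
    have := Real.add_one_lt_exp (one_ne_zero (α := ℝ))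
    linarith) hx
  have hx0 : 0 < x := by linarith
  have hlog1 : 1 ≤ Real.log x := by
    rw [Real.le_log_iff_exp_le hx0]
    exact hx
  have hlog0 : 0 < Real.log x := by linarith
  set σ : ℝ := K * (Real.log x / x) with hσd
  have hσ0 : 0 < σ := by positivity
  set Y : ℝ := Real.exp (x / Real.log x) with hY
  have hY0 : 0 < Y := Real.exp_pos _
  have hYx : Y ≤ Real.exp x := by
    apply Real.exp_le_exp.2
    exact div_le_self hx0.le hlog1
  set P : Finset ℕ := EP E 1 Y with hPd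
  have hP : ∀ p ∈ P, p.Prime := fun p hp => ((mem_EP hY0.le).1 hp).1
  intro S hSS
  have hS : ∀ e ∈ S, e ≠ 0 ∧ ∀ p : ℕ, p.Prime → p ∣ e → p ∈ P := by
    intro e he
    have he2 := hSS e he
    refine ⟨he2.1.1, fun p hp hpe => ?_⟩
    rw [hPd, mem_EP hY0.le]
    exact ⟨hp, he2.1.2 p hp hpe, by exact_mod_cast hp.one_lt, he2.2.1 p hp hpe⟩
  have h1 : ∀ f ∈ S, 1 / (f : ℝ) ≤ 1 / x ^ 6 * (f : ℝ) ^ (σ - 1) := by
    intro f hf
    have hf2 := hSS f hf
    have hf0 : (0 : ℝ) < f := lt_trans (Real.exp_pos _) hf2.2.2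
    have e1 : x ^ 6 ≤ (f : ℝ) ^ σ := by
      have e2 : (Real.exp (δ * x)) ^ σ ≤ (f : ℝ) ^ σ :=
        Real.rpow_le_rpow (Real.exp_pos _).le hf2.2.2.le hσ0.le
      have e3 : (Real.exp (δ * x)) ^ σ = x ^ 6 := by
        rw [← Real.exp_mul]
        have : δ * x * σ = ((6 : ℕ) : ℝ) * Real.log x := by
          rw [hσd, hK]
          field_simp
          norm_num
        rw [this, Real.exp_nat_mul, Real.exp_log hx0]
      linarith
    rw [Real.rpow_sub hf0, Real.rpow_one, div_mul_div_comm, one_mul, div_le_div_iff₀ hf0 (by positivity)]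
    have := mul_le_mul_of_nonneg_right e1 hf0.le
    linarith
  have h2 : ∑ f ∈ S, 1 / (f : ℝ) ≤ 1 / x ^ 6 * ∏ p ∈ P, (1 - (p : ℝ) ^ (σ - 1))⁻¹ := by
    refine (Finset.sum_le_sum h1).trans ?_
    rw [← Finset.mul_sum]
    exact mul_le_mul_of_nonneg_left (sum_rpow_le_prod P hP hσ S hS) (by positivity)
  have h3 : ∏ p ∈ P, (1 - (p : ℝ) ^ (σ - 1))⁻¹ ≤ ∏ p ∈ P, Real.exp (3 * (Real.exp K * (1 / (p : ℝ)))) := by
    refine Finset.prod_le_prod (fun p hp => ?_) (fun p hp => ?_)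
    · have := s6_two (hP p hp) hσ
      exact inv_nonneg.2 (by linarith)
    · have hp0 : (0 : ℝ) < p := by exact_mod_cast (hP p hp).pos
      refine (s6_factor (Real.rpow_nonneg hp0.le _) (s6_two (hP p hp) hσ)).trans ?_
      apply Real.exp_le_exp.2
      refine mul_le_mul_of_nonneg_left ?_ (by norm_num)
      rw [Real.rpow_sub hp0, Real.rpow_one, div_eq_mul_one_div]
      refine mul_le_mul_of_nonneg_right ?_ (by positivity)
      have e1 : (p : ℝ) ^ σ ≤ Y ^ σ :=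
        Real.rpow_le_rpow hp0.le ((mem_EP hY0.le).1 hp).2.2.2 hσ0.le
      have e2 : Y ^ σ = Real.exp K := by
        rw [hY, ← Real.exp_mul]
        congr 1
        rw [hσd]
        field_simp
      linarith
  have h4 : ∏ p ∈ P, Real.exp (3 * (Real.exp K * (1 / (p : ℝ)))) = Real.exp (3 * (Real.exp K * SE E 1 Y)) := by
    rw [← Real.exp_sum, SE, Finset.mul_sum, Finset.mul_sum]
  have h5 : Real.exp (3 * (Real.exp K * SE E 1 Y)) ≤ x := by
    have e1 : SE E 1 Y ≤ 1 / (3 * Real.exp K) * Real.log x := (SE_mono E le_rfl hYx).trans hSE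
    have e2 : 3 * (Real.exp K * SE E 1 Y) ≤ Real.log x := by
      have := mul_le_mul_of_nonneg_left e1 (show 0 ≤ 3 * Real.exp K by positivity)
      have e3 : 3 * Real.exp K * (1 / (3 * Real.exp K) * Real.log x) = Real.log x := by
        field_simp
      rw [e3] at this
      linarith
    calc Real.exp (3 * (Real.exp K * SE E 1 Y)) ≤ Real.exp (Real.log x) := Real.exp_le_exp.2 e2
      _ = x := Real.exp_log hx0
  have h6 : ∑ f ∈ S, 1 / (f : ℝ) ≤ 1 / x ^ 6 * x :=
    h2.trans (mul_le_mul_of_nonneg_left ((h3.trans h4.le).trans h5) (by positivity))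
  refine h6.trans ?_
  rw [div_mul_eq_mul_div, one_mul, div_le_div_iff₀ (by positivity) (by positivity), one_mul]
  calc x * x ^ 2 = x ^ 3 := by ring
    _ ≤ x ^ 6 := pow_le_pow_right₀ hx1.le (by norm_num)

end Pool.Agent.LibThin21
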