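import Pool.Agent.LibThin21.Defs

/-!
ROW J0. Probability that two integers both avoid the random classes modulo the primes of `P`: product over `p ∈ P` of
`1 - (number of classes) / p` (`iIndepFun.meas_biInter` or `iIndepFun.measure_inter_preimage_eq_mul`, and `unif`).
-/

namespace Pool.Agent.LibThin21

open Filter Topology MeasureTheory ProbabilityTheory

variable {Ω : Type*} [MeasurableSpace Ω] {μ : Measure Ω} [IsProbabilityMeasure μ] {E : Set ℕ}
  {a : ℕ → Ω → ℕ}

open Classical in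
theorem J0_single (hM : Model μ E a) {p : ℕ} (hp : p.Prime) (hE : p ∈ E) (A : Set ℕ) :
    μ.real {ω | a p ω ∈ A} = (((Finset.range p).filter (fun x => x ∈ A)).card : ℝ) / (p : ℝ) := by
  classical
  have hp0 : (p : ℝ) ≠ 0 := by exact_mod_cast hp.pos.ne'
  have hfin : ∀ T : Finset ℕ, T ⊆ Finset.range p →
      μ.real {ω | a p ω ∈ T} = (T.card : ℝ) / (p : ℝ) := by
    intro T hT
    have h1 : {ω | a p ω ∈ T} = ⋃ r ∈ T, {ω | a p ω = r} := by
      ext ω; simp
    rw [h1, measureReal_biUnion_finset]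
    · have h2 : ∀ r ∈ T, μ.real {ω | a p ω = r} = (p : ℝ)⁻¹ := by
        intro r hr
        have := hM.unif p hp hE r (Finset.mem_range.1 (hT hr))
        rw [Measure.real, this]; simp
      rw [Finset.sum_congr rfl h2]
      simp [div_eq_mul_inv]
    · intro r _ s _ hrs
      simp only [Function.onFun]
      rw [Set.disjoint_left]
      intro ω h3 h4
      exact hrs (h3.symm.trans h4)
    · intro r _
      exact hM.meas p (measurableSet_singleton r)
  have hall : μ.real {ω | a p ω ∈ Finset.range p} = 1 := by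
    rw [hfin _ (Finset.Subset.refl _), Finset.card_range, div_self hp0]
  have hmeas : MeasurableSet {ω | a p ω ∈ Finset.range p} :=
    hM.meas p (Finset.measurableSet _)
  have hnull : μ.real {ω | a p ω ∈ Finset.range p}ᶜ = 0 := by
    rw [probReal_compl_eq_one_sub hmeas, hall, sub_self]
  rw [← hfin _ (Finset.filter_subset _ _)]
  apply le_antisymm
  · have h5 : {ω | a p ω ∈ A} ⊆ {ω | a p ω ∈ (Finset.range p).filter (fun x => x ∈ A)} ∪
        {ω | a p ω ∈ Finset.range p}ᶜ := by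
      intro ω hω
      by_cases h6 : a p ω ∈ Finset.range p
      · left
        have h7 : a p ω ∈ A := hω
        show a p ω ∈ (Finset.range p).filter (fun x => x ∈ A)
        rw [Finset.mem_filter]; exact ⟨h6, h7⟩
      · right; exact h6
    calc μ.real {ω | a p ω ∈ A} ≤ μ.real ({ω | a p ω ∈ (Finset.range p).filter (fun x => x ∈ A)} ∪
        {ω | a p ω ∈ Finset.range p}ᶜ) := measureReal_mono h5
      _ ≤ μ.real {ω | a p ω ∈ (Finset.range p).filter (fun x => x ∈ A)} +
          μ.real {ω | a p ω ∈ Finset.range p}ᶜ := measureReal_union_le _ _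
      _ = _ := by rw [hnull, add_zero]
  · refine measureReal_mono ?_ (measure_ne_top _ _)
    intro ω hω
    have h7 : a p ω ∈ (Finset.range p).filter (fun x => x ∈ A) := hω
    rw [Finset.mem_filter] at h7
    exact h7.2

open Classical in
theorem J0_prod (hM : Model μ E a) {P : Finset ℕ} (hP : ∀ p ∈ P, p.Prime ∧ p ∈ E)
    (A : ℕ → Set ℕ) :
    μ.real {ω | ∀ p ∈ P, a p ω ∈ A p} =
      ∏ p ∈ P, (((Finset.range p).filter (fun x => x ∈ A p)).card : ℝ) / (p : ℝ) := by
  have h1 : {ω | ∀ p ∈ P, a p ω ∈ A p} = ⋂ p ∈ P, a p ⁻¹' A p := by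
    ext ω; simp
  have h2 := hM.indep.measure_inter_preimage_eq_mul P (sets := A)
    (fun p _ => MeasurableSet.of_discrete)
  rw [h1, Measure.real, h2, ENNReal.toReal_prod]
  apply Finset.prod_congr rfl
  intro p hp
  rw [← J0_single hM (hP p hp).1 (hP p hp).2 (A p)]
  rfl

theorem avoid_one (hM : Model μ E a) {P : Finset ℕ} (hP : ∀ p ∈ P, p.Prime ∧ p ∈ E) (n : ℕ) :
    μ.real {ω | ∀ p ∈ P, ¬ n ≡ a p ω [MOD p]} = ∏ p ∈ P, (1 - 1 / (p : ℝ)) := by
  classical
  have h := J0_prod hM hP (fun p => {x | ¬ n ≡ x [MOD p]})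
  simp only [Set.mem_ofPred_eq] at h
  rw [h]
  apply Finset.prod_congr rfl
  intro p hp
  have hpp := (hP p hp).1.pos
  have hp0 : (p : ℝ) ≠ 0 := by exact_mod_cast hpp.ne'
  have h1 : (Finset.range p).filter (fun x => ¬ n ≡ x [MOD p]) = (Finset.range p).erase (n % p) := by
    ext x
    simp only [Finset.mem_filter, Finset.mem_range, Finset.mem_erase]
    constructor
    · rintro ⟨h2, h3⟩
      refine ⟨fun h4 => h3 ?_, h2⟩
      rw [h4]; exact (Nat.mod_modEq n p).symm
    · rintro ⟨h2, h3⟩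
      refine ⟨h3, fun h4 => h2 ?_⟩
      rw [Nat.ModEq, Nat.mod_eq_of_lt h3] at h4
      exact h4.symm
  rw [h1, Finset.card_erase_of_mem (Finset.mem_range.2 (Nat.mod_lt _ hpp)), Finset.card_range,
    Nat.cast_sub hpp]
  field_simp
  simp

open Classical in
theorem avoid_two (hM : Model μ E a) {P : Finset ℕ} (hP : ∀ p ∈ P, p.Prime ∧ p ∈ E) (n m : ℕ) :
    μ.real {ω | (∀ p ∈ P, ¬ n ≡ a p ω [MOD p]) ∧ ∀ p ∈ P, ¬ m ≡ a p ω [MOD p]} =
      ∏ p ∈ P, (1 - (if n ≡ m [MOD p] then 1 else 2) / (p : ℝ)) := by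
  have h := J0_prod hM hP (fun p => {x | ¬ n ≡ x [MOD p] ∧ ¬ m ≡ x [MOD p]})
  simp only [Set.mem_ofPred_eq] at h
  have h0 : {ω | (∀ p ∈ P, ¬ n ≡ a p ω [MOD p]) ∧ ∀ p ∈ P, ¬ m ≡ a p ω [MOD p]} =
      {ω | ∀ p ∈ P, ¬ n ≡ a p ω [MOD p] ∧ ¬ m ≡ a p ω [MOD p]} := by
    ext ω
    simp only [Set.mem_ofPred_eq]
    exact ⟨fun h p hp => ⟨h.1 p hp, h.2 p hp⟩, fun h => ⟨fun p hp => (h p hp).1,
      fun p hp => (h p hp).2⟩⟩
  rw [h0, h]
  apply Finset.prod_congr rfl
  intro p hp
  have hpp := (hP p hp).1.pos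
  have hp2 := (hP p hp).1.two_le
  have hp0 : (p : ℝ) ≠ 0 := by exact_mod_cast hpp.ne'
  have h1 : (Finset.range p).filter (fun x => ¬ n ≡ x [MOD p] ∧ ¬ m ≡ x [MOD p]) =
      Finset.range p \ {n % p, m % p} := by
    ext x
    simp only [Finset.mem_filter, Finset.mem_range, Finset.mem_sdiff, Finset.mem_insert,
      Finset.mem_singleton, not_or]
    constructor
    · rintro ⟨h2, h3, h5⟩
      refine ⟨h2, fun h4 => h3 ?_, fun h4 => h5 ?_⟩
      · rw [h4]; exact (Nat.mod_modEq n p).symm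
      · rw [h4]; exact (Nat.mod_modEq m p).symm
    · rintro ⟨h3, h2, h5⟩
      refine ⟨h3, fun h4 => h2 ?_, fun h4 => h5 ?_⟩
      · rw [Nat.ModEq, Nat.mod_eq_of_lt h3] at h4
        exact h4.symm
      · rw [Nat.ModEq, Nat.mod_eq_of_lt h3] at h4
        exact h4.symm
  have hsub : ({n % p, m % p} : Finset ℕ) ⊆ Finset.range p := by
    intro x hx
    rw [Finset.mem_insert, Finset.mem_singleton] at hx
    rw [Finset.mem_range]
    rcases hx with rfl | rfl <;> exact Nat.mod_lt _ hpp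
  rw [h1, Finset.card_sdiff_of_subset hsub, Finset.card_range]
  by_cases hnm : n ≡ m [MOD p]
  · rw [if_pos hnm]
    have : n % p = m % p := hnm
    rw [this, Finset.pair_eq_singleton, Finset.card_singleton, Nat.cast_sub hpp]
    field_simp
    simp
  · rw [if_neg hnm]
    have : n % p ≠ m % p := hnm
    rw [Finset.card_pair this, Nat.cast_sub hp2]
    field_simp
    simp

end Pool.Agent.LibThin21
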