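import Pool.Agent.LibThin21.D0
import Pool.Agent.LibThin21.J0

/-!
ROW D1. Expected number of elements of the sifted set up to `N`.
-/

namespace Pool.Agent.LibThin21

open Filter Topology MeasureTheory ProbabilityTheory

variable {Ω : Type*} [MeasurableSpace Ω] {μ : Measure Ω} [IsProbabilityMeasure μ] {E : Set ℕ}
  {a : ℕ → Ω → ℕ}

lemma D1_meas (ha : ∀ p, Measurable (a p)) (j : ℕ) :
    MeasurableSet {ω | j ∈ sifted (fun p => a p ω)} := by
  have h1 : {ω | j ∈ sifted (fun p => a p ω)} =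
      ⋂ p : ℕ, {ω | p.Prime → p ^ 2 ≤ j → ¬ j ≡ a p ω [MOD p]} := by
    ext ω
    simp [sifted]
  rw [h1]
  refine MeasurableSet.iInter fun p => ?_
  have h2 : {ω | p.Prime → p ^ 2 ≤ j → ¬ j ≡ a p ω [MOD p]} =
      a p ⁻¹' {r | p.Prime → p ^ 2 ≤ j → ¬ j ≡ r [MOD p]} := rfl
  rw [h2]
  exact ha p (MeasurableSet.of_discrete)

lemma D1_in (hM : Model μ E a) {N n : ℕ} (hn : n ∈ Sv E N) :
    μ.real {ω | n ∈ sifted (fun p => a p ω)} =
      ∏ p ∈ EP E 0 (Real.sqrt n), (1 - 1 / (p : ℝ)) := by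
  rw [← avoid_one hM (fun p hp => ?_) n]
  · congr 1
    ext ω
    simp only [Set.mem_setOf_eq, sifted]
    constructor
    · intro h p hp
      obtain ⟨h1, _, _, h4⟩ := (mem_EP (Real.sqrt_nonneg _)).1 hp
      refine h p h1 ?_
      rw [Real.le_sqrt (by positivity) (by positivity)] at h4
      exact_mod_cast h4
    · intro h p hp hpn
      by_cases hE : p ∈ E
      · refine h p ((mem_EP (Real.sqrt_nonneg _)).2 ⟨hp, hE, by exact_mod_cast hp.pos, ?_⟩)
        rw [Real.le_sqrt (by positivity) (by positivity)]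
        exact_mod_cast hpn
      · have h5 := (mem_Sv.1 hn).2 p hp hE hpn
        rw [hM.zero p hE ω]
        intro h6
        exact h5 ((Nat.modEq_zero_iff_dvd).1 h6)
  · obtain ⟨h1, h2, _, _⟩ := (mem_EP (Real.sqrt_nonneg _)).1 hp
    exact ⟨h1, h2⟩

lemma D1_out (hM : Model μ E a) {N n : ℕ} (hn1 : n ∈ Finset.Icc 1 N) (hn : n ∉ Sv E N) :
    μ.real {ω | n ∈ sifted (fun p => a p ω)} = 0 := by
  rw [mem_Sv, not_and, not_forall] at hn
  obtain ⟨p, hp⟩ := hn (Finset.mem_Icc.1 hn1)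
  push Not at hp
  obtain ⟨h1, h2, h3, h4⟩ := hp
  have : {ω | n ∈ sifted (fun p => a p ω)} = ∅ := by
    rw [Set.eq_empty_iff_forall_notMem]
    intro ω hω
    have h5 := hω p h1 h3
    apply h5
    show n ≡ a p ω [MOD p]
    rw [hM.zero p h2 ω]
    exact (Nat.modEq_zero_iff_dvd).2 h4
  rw [this]
  simp

open Classical in
theorem integral_count (hM : Model μ E a) (N : ℕ) :
    ∫ ω, (((Finset.Icc 1 N).filter (fun n => n ∈ sifted (fun p => a p ω))).card : ℝ) ∂μ =
      ∑ n ∈ Sv E N, ∏ p ∈ EP E 0 (Real.sqrt n), (1 - 1 / (p : ℝ)) := by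
  have h1 : ∀ ω, (((Finset.Icc 1 N).filter (fun n => n ∈ sifted (fun p => a p ω))).card : ℝ) =
      ∑ n ∈ Finset.Icc 1 N, ({ω | n ∈ sifted (fun p => a p ω)}.indicator (fun _ => (1 : ℝ)) ω) := by
    intro ω
    rw [Finset.card_filter, Nat.cast_sum]
    refine Finset.sum_congr rfl fun n _ => ?_
    by_cases h : n ∈ sifted (fun p => a p ω)
    · rw [if_pos h, Set.indicator_of_mem (by exact h)]
      simp
    · rw [if_neg h, Set.indicator_of_notMem (by exact h)]
      simp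
  simp only [h1]
  rw [integral_finset_sum]
  · have h2 : ∀ n ∈ Finset.Icc 1 N, ∫ ω, ({ω | n ∈ sifted (fun p => a p ω)}.indicator
        (fun _ => (1 : ℝ)) ω) ∂μ = μ.real {ω | n ∈ sifted (fun p => a p ω)} := by
      intro n _
      rw [integral_indicator (D1_meas hM.meas n)]
      simp
    rw [Finset.sum_congr rfl h2]
    have h3 : Sv E N ⊆ Finset.Icc 1 N := by
      intro n hn
      exact Finset.mem_Icc.2 (mem_Sv.1 hn).1
    rw [← Finset.sum_subset h3 (fun n hn1 hn2 => D1_out hM hn1 hn2)]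
    exact Finset.sum_congr rfl fun n hn => D1_in hM hn
  · intro n _
    exact (integrable_const (1 : ℝ)).indicator (D1_meas hM.meas n)

end Pool.Agent.LibThin21
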