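import Pool.Agent.LibThin21.S2

/-!
ROW S3. The product `DQ` over all primes of `E` up to `exp x` not dividing `q` is, up to a factor
`(1 + ε) ^ 4`, the product over the primes of `E` in `(x ^ 8, exp (x / 3)]`.

Proof: `p ∈ EQ E q x` divides no `q`, so `p = p0` or `p > z ≥ √x` (a prime `p ≤ z` divides
`primorial z = q * p0`). Hence `EQ ⊆ {p0} ∪ EP E (x^(1/4)) (x^8) ∪ EP E (x^8) (exp (x/3)) ∪
EP E (exp (x/3)) (exp x)`, and `V` of a union is at most the product (`V_mono`, and for disjoint sets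
`V (A ∪ B) = V A * V B`), `V {p0} = p0 / (p0 - 1) ≤ 1 / (1 - ε)`, `V (EP E u v) ≤ exp (2 * SE E u v)`.
-/

namespace Pool.Agent.LibThin21

open Filter Topology

lemma V_le_exp {B : Finset ℕ} (hB : ∀ p ∈ B, p.Prime) :
    LSieve.V B ≤ Real.exp (2 * ∑ p ∈ B, 1 / (p : ℝ)) := by
  unfold LSieve.V
  rw [Finset.mul_sum, Real.exp_sum]
  apply Finset.prod_le_prod
  · intro p hp
    have h2 : (2 : ℝ) ≤ p := by exact_mod_cast (hB p hp).two_le
    exact div_nonneg (by linarith) (by linarith)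
  · intro p hp
    have h2 : (2 : ℝ) ≤ p := by exact_mod_cast (hB p hp).two_le
    have h3 : (p : ℝ) / ((p : ℝ) - 1) ≤ 1 + 2 * (1 / (p : ℝ)) := by
      rw [div_le_iff₀ (by linarith)]
      have hp0 : (0 : ℝ) < p := by linarith
      have : (1 + 2 * (1 / (p : ℝ))) * ((p : ℝ) - 1) = (p : ℝ) + 1 - 2 / p := by
        field_simp
        ring
      rw [this]
      have : 2 / (p : ℝ) ≤ 1 := by
        rw [div_le_one hp0]
        exact h2
      linarith
    have h4 := Real.add_one_le_exp (2 * (1 / (p : ℝ)))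
    linarith

lemma V_union_le {A B : Finset ℕ} (hA : ∀ p ∈ A, p.Prime) (hB : ∀ p ∈ B, p.Prime) :
    LSieve.V (A ∪ B) ≤ LSieve.V A * LSieve.V B := by
  have h1 : LSieve.V (A ∪ B) * LSieve.V (A ∩ B) = LSieve.V A * LSieve.V B := by
    unfold LSieve.V
    exact Finset.prod_union_inter
  have h2 : 1 ≤ LSieve.V (A ∩ B) :=
    LSieve.one_le_V fun p hp => hA p (Finset.mem_inter.1 hp).1
  have h3 : 0 < LSieve.V (A ∪ B) := LSieve.V_pos fun p hp => by
    rcases Finset.mem_union.1 hp with h | h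
    · exact hA p h
    · exact hB p h
  rw [← h1]
  nlinarith

/-- `1 / V = ∏ (1 - 1 / p)` -/
lemma prod_one_sub_eq {B : Finset ℕ} (hB : ∀ p ∈ B, p.Prime) :
    ∏ p ∈ B, (1 - 1 / (p : ℝ)) = 1 / LSieve.V B := by
  unfold LSieve.V
  rw [one_div, ← Finset.prod_inv_distrib]
  apply Finset.prod_congr rfl
  intro p hp
  have h2 : (2 : ℝ) ≤ p := by exact_mod_cast (hB p hp).two_le
  have h3 : (p : ℝ) ≠ 0 := by linarith
  have h4 : (p : ℝ) - 1 ≠ 0 := by linarith
  field_simp

/-- a prime which does not divide `q` is `p0` or larger than `√x` -/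
lemma GoodScale.prime_large {ε lam v0 x : ℝ} {z p0 q k1 k2 : ℕ}
    (hs : GoodScale ε lam v0 x z p0 q k1 k2) {p : ℕ} (hp : p.Prime) (hpq : ¬ p ∣ q) :
    p = p0 ∨ z < p := by
  by_contra hcon
  rw [not_or, not_lt] at hcon
  have h1 : p ∣ primorial z := hp.dvd_primorial_iff.2 hcon.2
  rw [← hs.hq] at h1
  rcases (hp.dvd_mul).1 h1 with h | h
  · exact hpq h
  · exact hcon.1 ((Nat.prime_dvd_prime_iff_eq hp hs.hp0).1 h)

lemma s3_EP_prime {E : Set ℕ} {u v : ℝ} : ∀ p ∈ EP E u v, p.Prime := by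
  classical
  intro p hp
  unfold EP at hp
  exact (Finset.mem_filter.1 hp).2.1

lemma s3_V_EP_le (E : Set ℕ) (u v : ℝ) : LSieve.V (EP E u v) ≤ Real.exp (2 * SE E u v) :=
  V_le_exp s3_EP_prime

theorem DQ_le {E : Set ℕ} (h : Thin E) {ε lam v0 : ℝ} (hε : 0 < ε) (hε1 : ε < 1 / 100) :
    ∀ᶠ x : ℝ in atTop, ∀ z p0 q k1 k2 : ℕ, GoodScale ε lam v0 x z p0 q k1 k2 →
      DQ E q x ≤ (1 + ε) ^ 4 * LSieve.V (EP E (x ^ 8) (Real.exp (x / 3))) := by
  classical
  have hη : 0 < ε / 4 := by positivity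
  filter_upwards [SE_poly h hη, SE_top' h hη (show (0 : ℝ) < 1 / 3 by norm_num),
    eventually_ge_atTop (1 : ℝ)] with x h1 h2 hx z p0 q k1 k2 hs
  have hx0 : 0 < x := by linarith
  set A : Finset ℕ := {p0} with hA
  set B : Finset ℕ := EP E (x ^ (1 / 4 : ℝ)) (x ^ 8) with hB
  set C : Finset ℕ := EP E (x ^ 8) (Real.exp (x / 3)) with hC
  set D : Finset ℕ := EP E (Real.exp (1 / 3 * x)) (Real.exp (2 * x)) with hD
  have hzlow : x ^ (1 / 4 : ℝ) ≤ (z : ℝ) := by
    have h3 : x ^ (1 / 4 : ℝ) ≤ x ^ (1 / 2 : ℝ) :=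
      Real.rpow_le_rpow_of_exponent_le hx (by norm_num)
    have h4 : x ^ (1 / 2 : ℝ) ≤ (z : ℝ) := by
      rw [← Real.sqrt_eq_rpow]
      exact Real.sqrt_le_iff.2 ⟨by positivity, hs.hxz⟩
    linarith
  have hsub : EQ E q x ⊆ (A ∪ B) ∪ (C ∪ D) := by
    intro p hp
    unfold EQ at hp
    rw [Finset.mem_filter, mem_EP (Real.exp_pos x).le] at hp
    obtain ⟨⟨hpp, hpE, -, hpx⟩, hpq⟩ := hp
    rw [Finset.mem_union, Finset.mem_union, Finset.mem_union]
    rcases hs.prime_large hpp hpq with h3 | h3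
    · left; left
      rw [hA, Finset.mem_singleton]
      exact h3
    · have h4 : x ^ (1 / 4 : ℝ) < (p : ℝ) := by
        have : (z : ℝ) < p := by exact_mod_cast h3
        linarith
      by_cases h5 : (p : ℝ) ≤ x ^ 8
      · left; right
        rw [hB, mem_EP (by positivity)]
        exact ⟨hpp, hpE, h4, h5⟩
      · rw [not_le] at h5
        right
        by_cases h6 : (p : ℝ) ≤ Real.exp (x / 3)
        · left
          rw [hC, mem_EP (Real.exp_pos _).le]
          exact ⟨hpp, hpE, h5, h6⟩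
        · rw [not_le] at h6
          right
          rw [hD, mem_EP (Real.exp_pos _).le]
          refine ⟨hpp, hpE, ?_, ?_⟩
          · have : (1 : ℝ) / 3 * x = x / 3 := by ring
            rw [this]
            exact h6
          · refine hpx.trans (Real.exp_le_exp.2 (by linarith))
  have hAp : ∀ p ∈ A, p.Prime := by
    intro p hp
    rw [hA, Finset.mem_singleton] at hp
    rw [hp]
    exact hs.hp0
  have hBp : ∀ p ∈ B, p.Prime := s3_EP_prime
  have hCp : ∀ p ∈ C, p.Prime := s3_EP_prime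
  have hDp : ∀ p ∈ D, p.Prime := s3_EP_prime
  have hABp : ∀ p ∈ A ∪ B, p.Prime := fun p hp => by
    rcases Finset.mem_union.1 hp with h | h
    · exact hAp p h
    · exact hBp p h
  have hCDp : ∀ p ∈ C ∪ D, p.Prime := fun p hp => by
    rcases Finset.mem_union.1 hp with h | h
    · exact hCp p h
    · exact hDp p h
  have hall : ∀ p ∈ (A ∪ B) ∪ (C ∪ D), p.Prime := fun p hp => by
    rcases Finset.mem_union.1 hp with h | h
    · exact hABp p h
    · exact hCDp p h
  have hVA : LSieve.V A ≤ 1 + 2 * ε := by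
    have hp0 : 1 / ε ≤ (p0 : ℝ) := hs.hp0big
    have hbig : (100 : ℝ) ≤ (p0 : ℝ) := by
      have : (100 : ℝ) ≤ 1 / ε := by
        rw [le_div_iff₀ hε]
        linarith
      linarith
    have h3 : LSieve.V A = (p0 : ℝ) / ((p0 : ℝ) - 1) := by
      unfold LSieve.V
      rw [hA, Finset.prod_singleton]
    rw [h3, div_le_iff₀ (by linarith)]
    have h4 : 1 ≤ ε * (p0 : ℝ) := by
      rw [div_le_iff₀ hε] at hp0
      linarith
    nlinarith
  have hVB : LSieve.V B ≤ Real.exp (ε / 2) := by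
    refine (s3_V_EP_le E _ _).trans (Real.exp_le_exp.2 ?_)
    linarith
  have hVD : LSieve.V D ≤ Real.exp (ε / 2) := by
    refine (s3_V_EP_le E _ _).trans (Real.exp_le_exp.2 ?_)
    linarith
  have hexp : Real.exp (ε / 2) ≤ 1 + ε := by
    have h3 := Real.exp_bound_div_one_sub_of_interval (x := ε / 2) (by positivity) (by linarith)
    refine h3.trans ?_
    rw [div_le_iff₀ (by linarith)]
    nlinarith
  have hpA : 0 < LSieve.V A := LSieve.V_pos hAp
  have hpB : 0 < LSieve.V B := LSieve.V_pos hBp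
  have hpC : 0 < LSieve.V C := LSieve.V_pos hCp
  have hpD : 0 < LSieve.V D := LSieve.V_pos hDp
  calc DQ E q x = LSieve.V (EQ E q x) := rfl
    _ ≤ LSieve.V ((A ∪ B) ∪ (C ∪ D)) := LSieve.V_mono hsub hall
    _ ≤ LSieve.V (A ∪ B) * LSieve.V (C ∪ D) := V_union_le hABp hCDp
    _ ≤ (LSieve.V A * LSieve.V B) * (LSieve.V C * LSieve.V D) := by
        have h3 := V_union_le hAp hBp
        have h4 := V_union_le hCp hDp
        have h5 : 0 < LSieve.V (C ∪ D) := LSieve.V_pos hCDp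
        exact mul_le_mul h3 h4 h5.le (by positivity)
    _ = (LSieve.V A * LSieve.V B * LSieve.V D) * LSieve.V C := by ring
    _ ≤ (1 + ε) ^ 4 * LSieve.V C := by
        refine mul_le_mul_of_nonneg_right ?_ hpC.le
        have h3 : LSieve.V B ≤ 1 + ε := hVB.trans hexp
        have h4 : LSieve.V D ≤ 1 + ε := hVD.trans hexp
        have h5 : (1 + 2 * ε) ≤ (1 + ε) ^ 2 := by nlinarith
        calc LSieve.V A * LSieve.V B * LSieve.V D ≤ (1 + 2 * ε) * (1 + ε) * (1 + ε) := by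
              gcongr
          _ ≤ (1 + ε) ^ 2 * (1 + ε) * (1 + ε) := by gcongr
          _ = (1 + ε) ^ 4 := by ring

end Pool.Agent.LibThin21
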