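import Pool.Agent.LibThin21.D0
import Pool.Agent.LibThin21.S3

/-!
ROW D2. The sum of `1 / e` over the integers composed of primes of a thin set.

`esm_upper`: `sum_inv_le_prod` (S4). `esm_tail`: let `Y = exp (x / log x)`; the `e ∈ S` which have a prime factor
`π > Y` contribute at most `∑_{π ∈ EP E Y (exp x)} (1/π) * V(EP E 0 (exp x))` (write `e = π e'`, `sum_inv_le_prod`), small by
`SE_top`; the others are `Y`-smooth and contribute `≤ 1 / x ^ 2` by `rankin'`, and `1 ≤ V`.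
`esm_lower`: `V(P) = ∑' 1/e` over the integers with all prime factors in `P`
(`EulerProduct.summable_and_hasSum_factoredNumbers_prod_filter_prime_geometric`, as in `sum_inv_le_prod` of S4), so some finite
subset has sum `≥ (1 - η/2) V(P)`; its elements `> exp (δ x)` contribute `≤ (η/2) V(P)` by `esm_tail`.
-/

namespace Pool.Agent.LibThin21

open Filter Topology

lemma one_le_V {P : Finset ℕ} (hP : ∀ p ∈ P, p.Prime) : 1 ≤ LSieve.V P := by
  exact LSieve.one_le_V hP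

lemma d2_prime {E : Set ℕ} {u x : ℝ} : ∀ p ∈ EP E u (Real.exp x), p.Prime := fun p hp =>
  ((mem_EP (Real.exp_pos x).le).1 hp).1

open Classical in
theorem esm_upper (E : Set ℕ) (x : ℝ) :
    ∑ e ∈ (Finset.Icc 1 ⌊Real.exp x⌋₊).filter (fun e => e ∈ ESm E), 1 / (e : ℝ) ≤
      LSieve.V (EP E 0 (Real.exp x)) := by
  apply sum_inv_le_prod _ d2_prime
  intro e he
  obtain ⟨h1, h2⟩ := Finset.mem_filter.1 he
  obtain ⟨h3, h4⟩ := Finset.mem_Icc.1 h1
  refine ⟨h2.1, fun p hp hpe => (mem_EP (Real.exp_pos x).le).2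
    ⟨hp, h2.2 p hp hpe, by exact_mod_cast hp.pos, ?_⟩⟩
  have h5 : p ≤ ⌊Real.exp x⌋₊ := (Nat.le_of_dvd (by omega) hpe).trans h4
  exact (Nat.cast_le.2 h5).trans (Nat.floor_le (Real.exp_pos x).le)

lemma d2_sum_le {α β : Type} (s : Finset α) (t : Finset β) (i : α → β) (hi : ∀ a ∈ s, i a ∈ t)
    (inj : ∀ a ∈ s, ∀ b ∈ s, i a = i b → a = b) (f : α → ℝ) (g : β → ℝ)
    (hfg : ∀ a ∈ s, f a ≤ g (i a)) (hg : ∀ b ∈ t, 0 ≤ g b) : ∑ a ∈ s, f a ≤ ∑ b ∈ t, g b := by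
  classical
  calc ∑ a ∈ s, f a ≤ ∑ a ∈ s, g (i a) := Finset.sum_le_sum hfg
    _ = ∑ b ∈ s.image i, g b := (Finset.sum_image (fun a ha b hb h => inj a ha b hb h)).symm
    _ ≤ ∑ b ∈ t, g b := Finset.sum_le_sum_of_subset_of_nonneg
        (fun b hb => by
          obtain ⟨a, ha, rfl⟩ := Finset.mem_image.1 hb
          exact hi a ha)
        (fun b hb _ => hg b hb)

theorem esm_tail {E : Set ℕ} (h : Thin E) {δ η : ℝ} (hδ : 0 < δ) (hη : 0 < η) :
    ∀ᶠ x : ℝ in atTop, ∀ S : Finset ℕ, (∀ e ∈ S, e ∈ ESm E ∧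
        (∀ p : ℕ, p.Prime → p ∣ e → (p : ℝ) ≤ Real.exp x) ∧ Real.exp (δ * x) < (e : ℝ)) →
      ∑ e ∈ S, 1 / (e : ℝ) ≤ η * LSieve.V (EP E 0 (Real.exp x)) := by
  classical
  filter_upwards [SE_top h (half_pos hη), rankin' h hδ, eventually_ge_atTop (1 : ℝ),
    eventually_ge_atTop (2 / η)] with x hSE hR hx1 hx2 S hS
  set Y := Real.exp (x / Real.log x) with hY
  set V := LSieve.V (EP E 0 (Real.exp x)) with hV
  have hV1 : 1 ≤ V := one_le_V d2_prime
  have hx0 : 0 < x := by linarith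
  have hx3 : 1 / x ^ 2 ≤ η / 2 := by
    rw [div_le_iff₀ (by positivity)]
    have h1 : 1 ≤ η / 2 * x := by
      have := mul_le_mul_of_nonneg_left hx2 (half_pos hη).le
      have h2 : η / 2 * (2 / η) = 1 := by field_simp
      linarith
    nlinarith
  have hSE' : SE E Y (Real.exp x) ≤ η / 2 :=
    (SE_mono E le_rfl (Real.exp_le_exp.2 (by linarith))).trans hSE
  rw [← Finset.sum_filter_add_sum_filter_not S (fun e => ∃ p : ℕ, p.Prime ∧ p ∣ e ∧ Y < (p : ℝ))]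
  set A := S.filter (fun e => ∃ p : ℕ, p.Prime ∧ p ∣ e ∧ Y < (p : ℝ)) with hA
  have hB : ∑ e ∈ S.filter (fun e => ¬ ∃ p : ℕ, p.Prime ∧ p ∣ e ∧ Y < (p : ℝ)), 1 / (e : ℝ) ≤
      η / 2 * V := by
    have h1 := hR (S.filter (fun e => ¬ ∃ p : ℕ, p.Prime ∧ p ∣ e ∧ Y < (p : ℝ))) (by
      intro f hf
      obtain ⟨h2, h3⟩ := Finset.mem_filter.1 hf
      obtain ⟨h4, h5, h6⟩ := hS f h2
      refine ⟨h4, fun p hp hpf => ?_, h6⟩
      by_contra hcon
      exact h3 ⟨p, hp, hpf, not_le.1 hcon⟩)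
    nlinarith
  have hch : ∀ e : ℕ, ∃ p : ℕ, e ∈ A → p.Prime ∧ p ∣ e ∧ Y < (p : ℝ) := by
    intro e
    by_cases he : e ∈ A
    · obtain ⟨p, hp⟩ := (Finset.mem_filter.1 he).2
      exact ⟨p, fun _ => hp⟩
    · exact ⟨0, fun h' => absurd h' he⟩
  choose P hP using hch
  set T := A.image (fun e => e / P e) with hT
  have hTV : ∑ m ∈ T, 1 / (m : ℝ) ≤ V := by
    apply sum_inv_le_prod _ d2_prime
    intro m hm
    obtain ⟨e, he, rfl⟩ := Finset.mem_image.1 hm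
    obtain ⟨h1, h2, h3⟩ := hP e he
    obtain ⟨h4, h5, h6⟩ := hS e (Finset.mem_filter.1 he).1
    have he0 : 0 < e := Nat.pos_of_ne_zero h4.1
    refine ⟨(Nat.div_pos (Nat.le_of_dvd he0 h2) h1.pos).ne', fun p hp hpm => ?_⟩
    have hpe : p ∣ e := hpm.trans (Nat.div_dvd_of_dvd h2)
    exact (mem_EP (Real.exp_pos x).le).2 ⟨hp, h4.2 p hp hpe, by exact_mod_cast hp.pos, h5 p hp hpe⟩
  have hA1 : ∑ e ∈ A, 1 / (e : ℝ) ≤ ∑ b ∈ EP E Y (Real.exp x) ×ˢ T,
      (1 / (b.1 : ℝ)) * (1 / (b.2 : ℝ)) := by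
    apply d2_sum_le A _ (fun e => (P e, e / P e))
    · intro e he
      obtain ⟨h1, h2, h3⟩ := hP e he
      obtain ⟨h4, h5, h6⟩ := hS e (Finset.mem_filter.1 he).1
      rw [Finset.mem_product]
      exact ⟨(mem_EP (Real.exp_pos x).le).2 ⟨h1, h4.2 _ h1 h2, h3, h5 _ h1 h2⟩,
        Finset.mem_image_of_mem _ he⟩
    · intro a ha b hb hab
      have h1 := (hP a ha).2.1
      have h2 := (hP b hb).2.1
      simp only [Prod.mk.injEq] at hab
      calc a = P a * (a / P a) := (Nat.mul_div_cancel' h1).symm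
        _ = P b * (b / P b) := by rw [hab.2, hab.1]
        _ = b := Nat.mul_div_cancel' h2
    · intro e he
      have h2 := (hP e he).2.1
      have h13 : (e : ℝ) = (P e : ℝ) * ((e / P e : ℕ) : ℝ) := by
        exact_mod_cast (Nat.mul_div_cancel' h2).symm
      simp only
      conv_lhs => rw [h13]
      apply le_of_eq
      rw [div_mul_div_comm, one_mul]
    · intro b _
      positivity
  have hA2 : ∑ b ∈ EP E Y (Real.exp x) ×ˢ T, (1 / (b.1 : ℝ)) * (1 / (b.2 : ℝ)) =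
      SE E Y (Real.exp x) * ∑ m ∈ T, 1 / (m : ℝ) := by
    rw [SE, Finset.sum_mul_sum, Finset.sum_product]
  have hT0 : 0 ≤ ∑ m ∈ T, 1 / (m : ℝ) := Finset.sum_nonneg fun m _ => by positivity
  have hA3 : ∑ e ∈ A, 1 / (e : ℝ) ≤ η / 2 * V := by
    refine hA1.trans (hA2.le.trans ?_)
    exact mul_le_mul hSE' hTV hT0 (half_pos hη).le
  calc _ ≤ η / 2 * V + η / 2 * V := add_le_add hA3 hB
    _ = η * V := by ring

lemma d2_hasSum (P : Finset ℕ) (hP : ∀ p ∈ P, p.Prime) :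
    HasSum (Set.indicator (Nat.factoredNumbers P) (fun n : ℕ => (n : ℝ)⁻¹)) (LSieve.V P) := by
  let f : ℕ →* ℝ :=
    { toFun := fun n => ((n : ℝ))⁻¹
      map_one' := by simp
      map_mul' := fun a b => by push_cast; rw [mul_inv] }
  have hf : ∀ n : ℕ, f n = (n : ℝ)⁻¹ := fun n => rfl
  have h := (EulerProduct.summable_and_hasSum_factoredNumbers_prod_filter_prime_geometric (f := f)
    (fun {p} hp => by
      rw [hf, norm_inv, Real.norm_natCast]
      exact inv_lt_one_of_one_lt₀ (by exact_mod_cast hp.one_lt)) P).2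
  have hprod : ∏ p ∈ P with p.Prime, (1 - f p)⁻¹ = LSieve.V P := by
    rw [Finset.filter_true_of_mem hP]
    unfold LSieve.V
    apply Finset.prod_congr rfl
    intro p hp
    have hp2 : (2 : ℝ) ≤ p := by exact_mod_cast (hP p hp).two_le
    rw [hf]
    have : (p : ℝ) ≠ 0 := by linarith
    have h3 : (p : ℝ) - 1 ≠ 0 := by linarith
    rw [show (1 - (p : ℝ)⁻¹) = ((p : ℝ) - 1) / p by field_simp]
    rw [inv_div]
  rw [hprod] at h
  rw [← hasSum_subtype_iff_indicator]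
  exact h

open Classical in
theorem esm_lower {E : Set ℕ} (h : Thin E) {δ η : ℝ} (hδ : 0 < δ) (hη : 0 < η) :
    ∀ᶠ x : ℝ in atTop, (1 - η) * LSieve.V (EP E 0 (Real.exp x)) ≤
      ∑ e ∈ (Finset.Icc 1 ⌊Real.exp (δ * x)⌋₊).filter (fun e => e ∈ ESm E), 1 / (e : ℝ) := by
  filter_upwards [esm_tail h hδ (half_pos hη)] with x hx
  set P := EP E 0 (Real.exp x) with hP
  have hPp : ∀ p ∈ P, p.Prime := d2_prime
  set V := LSieve.V P with hV
  have hV1 : 1 ≤ V := one_le_V hPp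
  have hlt : V - η / 2 * V < V := by
    have : 0 < η / 2 * V := by positivity
    linarith
  obtain ⟨s, hs⟩ := ((d2_hasSum P hPp).eventually (lt_mem_nhds hlt)).exists
  set T := s.filter (fun e => e ∈ Nat.factoredNumbers P) with hT
  have hsT : ∑ e ∈ s, Set.indicator (Nat.factoredNumbers P) (fun n : ℕ => (n : ℝ)⁻¹) e =
      ∑ e ∈ T, 1 / (e : ℝ) := by
    rw [hT, Finset.sum_filter]
    refine Finset.sum_congr rfl fun e _ => ?_
    by_cases he : e ∈ Nat.factoredNumbers P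
    · rw [Set.indicator_of_mem he, if_pos he, one_div]
    · rw [Set.indicator_of_notMem he, if_neg he]
  rw [hsT] at hs
  have hmem : ∀ e ∈ T, e ≠ 0 ∧ ∀ p : ℕ, p.Prime → p ∣ e → p ∈ P := by
    intro e he
    have he2 := (Finset.mem_filter.1 he).2
    refine ⟨he2.1, fun p hp hpe => he2.2 p ?_⟩
    exact (Nat.mem_primeFactorsList he2.1).2 ⟨hp, hpe⟩
  have hESm : ∀ e ∈ T, e ∈ ESm E := by
    intro e he
    refine ⟨(hmem e he).1, fun p hp hpe => ?_⟩
    exact ((mem_EP (Real.exp_pos x).le).1 ((hmem e he).2 p hp hpe)).2.1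
  have htail := hx (T.filter (fun e : ℕ => ¬ ((e : ℕ) : ℝ) ≤ Real.exp (δ * x))) (by
    intro e he
    obtain ⟨h1, h2⟩ := Finset.mem_filter.1 he
    refine ⟨hESm e h1, fun p hp hpe => ?_, not_le.1 h2⟩
    exact ((mem_EP (Real.exp_pos x).le).1 ((hmem e h1).2 p hp hpe)).2.2.2)
  have hsplit := Finset.sum_filter_add_sum_filter_not T (fun e : ℕ => ((e : ℕ) : ℝ) ≤
    Real.exp (δ * x)) (fun e => 1 / (e : ℝ))
  have hsub : T.filter (fun e : ℕ => ((e : ℕ) : ℝ) ≤ Real.exp (δ * x)) ⊆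
      (Finset.Icc 1 ⌊Real.exp (δ * x)⌋₊).filter (fun e => e ∈ ESm E) := by
    intro e he
    obtain ⟨h1, h2⟩ := Finset.mem_filter.1 he
    rw [Finset.mem_filter, Finset.mem_Icc]
    exact ⟨⟨Nat.pos_of_ne_zero (hmem e h1).1, Nat.le_floor h2⟩, hESm e h1⟩
  have hle := Finset.sum_le_sum_of_subset_of_nonneg (f := fun e : ℕ => 1 / (e : ℝ)) hsub
    (fun e _ _ => by positivity)
  have : (1 - η) * V = V - η / 2 * V - η / 2 * V := by ring
  rw [this]
  linarith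

end Pool.Agent.LibThin21
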