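import Pool.Agent.LibThin21.D2

/-!
ROW D3. Lower bound for the number of survivors up to `exp x`.

Let `δ = η / 8 < 1/8` and `N = ⌊exp x⌋`. For `e ∈ ESm E`, `e ≤ exp (δ x)` and a prime `π` with
`exp (x / 2) < π ≤ exp x / e`, `e π ∈ Sv E N`: a prime `p ∣ e π` is in `E` (if `p ∣ e`) or equals `π`, and
`π ^ 2 > exp x ≥ e π`. The map `(e, π) ↦ e π` is injective (`π` is the only prime factor `> exp (x/2)`, as
`e ≤ exp (δ x)`). For each `e` the number of `π` is at least
`π(exp x / e) - exp (x/2) ≥ (1 - δ) (exp x / e) / x - exp (x / 2) ≥ (1 - 2 δ) exp x / (e x)` by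
`LibPNT.primeCounting_tendsto` at `t = exp x / e ≥ exp ((1 - δ) x)`, `log t ≤ x`. Sum over `e` with `esm_lower`.
-/

namespace Pool.Agent.LibThin21

open Filter Topology

open Classical in
/-- the primes in `(exp (x / 2), exp x / e]` -/
noncomputable def d3_Q (x : ℝ) (e : ℕ) : Finset ℕ :=
  (Finset.range (⌊Real.exp x / e⌋₊ + 1)).filter (fun p => p.Prime ∧ Real.exp (x / 2) < (p : ℝ))

lemma mem_d3_Q {x : ℝ} {e p : ℕ} : p ∈ d3_Q x e ↔
    p.Prime ∧ Real.exp (x / 2) < (p : ℝ) ∧ (p : ℝ) ≤ Real.exp x / e := by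
  classical
  have h0 : 0 ≤ Real.exp x / (e : ℝ) := by positivity
  unfold d3_Q
  rw [Finset.mem_filter, Finset.mem_range, Nat.lt_add_one_iff, Nat.le_floor_iff h0]
  tauto

lemma d3_card_Q (x : ℝ) (e : ℕ) :
    (Nat.primeCounting ⌊Real.exp x / e⌋₊ : ℝ) ≤ ((d3_Q x e).card : ℝ) + Real.exp (x / 2) := by
  classical
  set n := ⌊Real.exp x / (e : ℝ)⌋₊ with hn
  have h1 : Nat.primeCounting n = ((Finset.range (n + 1)).filter Nat.Prime).card := by
    rw [Nat.primeCounting, Nat.primeCounting', Nat.count_eq_card_filter_range]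
  have h2 : (Finset.range (n + 1)).filter Nat.Prime ⊆
      d3_Q x e ∪ Finset.Icc 1 ⌊Real.exp (x / 2)⌋₊ := by
    intro p hp
    rw [Finset.mem_filter, Finset.mem_range] at hp
    rw [Finset.mem_union]
    by_cases h : Real.exp (x / 2) < (p : ℝ)
    · left
      unfold d3_Q
      rw [Finset.mem_filter, Finset.mem_range]
      exact ⟨hp.1, hp.2, h⟩
    · right
      rw [Finset.mem_Icc]
      exact ⟨hp.2.one_lt.le, Nat.le_floor (not_lt.1 h)⟩
  have h3 := (Finset.card_le_card h2).trans (Finset.card_union_le _ _)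
  rw [← h1, Nat.card_Icc, Nat.add_sub_cancel] at h3
  have h4 : (⌊Real.exp (x / 2)⌋₊ : ℝ) ≤ Real.exp (x / 2) := Nat.floor_le (Real.exp_pos _).le
  have h5 : (Nat.primeCounting n : ℝ) ≤ ((d3_Q x e).card : ℝ) + (⌊Real.exp (x / 2)⌋₊ : ℝ) := by
    exact_mod_cast h3
  linarith

/-- elements of the image -/
lemma d3_mem {E : Set ℕ} {x : ℝ} {e p : ℕ} (he : e ∈ ESm E) (hp : p ∈ d3_Q x e) :
    e * p ∈ Sv E ⌊Real.exp x⌋₊ := by
  rw [mem_d3_Q] at hp
  obtain ⟨hp1, hp2, hp3⟩ := hp
  have he0 : 0 < e := Nat.pos_of_ne_zero he.1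
  have he0' : (0 : ℝ) < e := by exact_mod_cast he0
  have hle : ((e * p : ℕ) : ℝ) ≤ Real.exp x := by
    rw [le_div_iff₀ he0'] at hp3
    push_cast
    linarith
  rw [mem_Sv]
  refine ⟨⟨Nat.mul_pos he0 hp1.pos, Nat.le_floor hle⟩, ?_⟩
  intro r hr hrE hr2 hrd
  rcases hr.dvd_mul.1 hrd with h | h
  · exact hrE (he.2 r hr h)
  · have hrp : r = p := (Nat.prime_dvd_prime_iff_eq hr hp1).1 h
    rw [hrp] at hr2
    have h1 : ((p ^ 2 : ℕ) : ℝ) ≤ ((e * p : ℕ) : ℝ) := by exact_mod_cast hr2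
    have h2 : Real.exp x = Real.exp (x / 2) * Real.exp (x / 2) := by
      rw [← Real.exp_add]
      congr 1
      ring
    have h3 : Real.exp (x / 2) * Real.exp (x / 2) < (p : ℝ) * p :=
      mul_lt_mul'' hp2 hp2 (Real.exp_pos _).le (Real.exp_pos _).le
    push_cast at h1 hle
    nlinarith

open Classical in
lemma d3_sum_card {E : Set ℕ} {x δ : ℝ} (hx : 0 < x) (hδ : δ < 1 / 2) :
    ∑ e ∈ (Finset.Icc 1 ⌊Real.exp (δ * x)⌋₊).filter (fun e => e ∈ ESm E), (d3_Q x e).card ≤
      (Sv E ⌊Real.exp x⌋₊).card := by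
  set F := (Finset.Icc 1 ⌊Real.exp (δ * x)⌋₊).filter (fun e => e ∈ ESm E) with hF
  have hlt : Real.exp (δ * x) < Real.exp (x / 2) := by
    apply Real.exp_lt_exp.2
    nlinarith
  have hcard : ∀ e ∈ F, ((d3_Q x e).image (fun p => e * p)).card = (d3_Q x e).card := by
    intro e he
    rw [hF, Finset.mem_filter, Finset.mem_Icc] at he
    apply Finset.card_image_of_injective
    intro a b hab
    exact Nat.eq_of_mul_eq_mul_left (by omega) hab
  have hdisj : ∀ e ∈ F, ∀ e' ∈ F, e ≠ e' →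
      Disjoint ((d3_Q x e).image (fun p => e * p)) ((d3_Q x e').image (fun p => e' * p)) := by
    intro e he e' he' hne
    rw [Finset.disjoint_left]
    intro n hn hn'
    rw [Finset.mem_image] at hn hn'
    obtain ⟨p, hp, rfl⟩ := hn
    obtain ⟨p', hp', hpp⟩ := hn'
    rw [mem_d3_Q] at hp hp'
    rw [hF, Finset.mem_filter, Finset.mem_Icc] at he he'
    have h1 : p ∣ e' * p' := by rw [hpp]; exact Dvd.intro_left e rfl
    rcases hp.1.dvd_mul.1 h1 with h | h
    · have h2 : p ≤ e' := Nat.le_of_dvd (by omega) h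
      have h3 : (p : ℝ) ≤ (e' : ℝ) := by exact_mod_cast h2
      have h4 : (e' : ℝ) ≤ Real.exp (δ * x) :=
        (Nat.le_floor_iff (Real.exp_pos _).le).1 he'.1.2
      linarith [hp.2.1]
    · have h2 : p = p' := (Nat.prime_dvd_prime_iff_eq hp.1 hp'.1).1 h
      rw [← h2] at hpp
      exact hne (Nat.eq_of_mul_eq_mul_right hp.1.pos hpp).symm
  calc ∑ e ∈ F, (d3_Q x e).card = ∑ e ∈ F, ((d3_Q x e).image (fun p => e * p)).card :=
        Finset.sum_congr rfl fun e he => (hcard e he).symm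
    _ = (F.biUnion (fun e => (d3_Q x e).image (fun p => e * p))).card :=
        (Finset.card_biUnion hdisj).symm
    _ ≤ (Sv E ⌊Real.exp x⌋₊).card := by
        apply Finset.card_le_card
        intro n hn
        rw [Finset.mem_biUnion] at hn
        obtain ⟨e, he, hn⟩ := hn
        rw [Finset.mem_image] at hn
        obtain ⟨p, hp, rfl⟩ := hn
        rw [hF, Finset.mem_filter] at he
        exact d3_mem he.2 hp

theorem sv_lower {E : Set ℕ} (h : Thin E) {η : ℝ} (hη : 0 < η) :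
    ∀ᶠ x : ℝ in atTop, (1 - η) * LSieve.V (EP E 0 (Real.exp x)) * (Real.exp x / x) ≤
      ((Sv E ⌊Real.exp x⌋₊).card : ℝ) := by
  classical
  have hV : ∀ x : ℝ, 1 ≤ LSieve.V (EP E 0 (Real.exp x)) := fun x =>
    one_le_V fun p hp => ((mem_EP (Real.exp_pos x).le).1 hp).1
  rcases le_or_gt 1 η with h1 | h1
  · filter_upwards [eventually_gt_atTop 0] with x hx
    have h2 : (1 - η) * LSieve.V (EP E 0 (Real.exp x)) * (Real.exp x / x) ≤ 0 := by
      have h3 : 0 ≤ LSieve.V (EP E 0 (Real.exp x)) * (Real.exp x / x) :=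
        mul_nonneg (by linarith [hV x]) (by positivity)
      have h4 : (1 - η) * (LSieve.V (EP E 0 (Real.exp x)) * (Real.exp x / x)) ≤ 0 :=
        mul_nonpos_of_nonpos_of_nonneg (by linarith) h3
      rw [mul_assoc]
      exact h4
    exact h2.trans (Nat.cast_nonneg _)
  set δ : ℝ := η / 8 with hδ
  have hδ0 : 0 < δ := by positivity
  have hδ1 : δ < 1 / 8 := by rw [hδ]; linarith
  -- the prime number theorem
  have hpnt : ∀ᶠ t : ℝ in atTop, 1 - δ < (Nat.primeCounting ⌊t⌋₊ : ℝ) * Real.log t / t :=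
    LibPNT.primeCounting_tendsto.eventually (lt_mem_nhds (by linarith))
  obtain ⟨T, hT⟩ := eventually_atTop.1 (hpnt.and (eventually_gt_atTop (1 : ℝ)))
  have hTx : ∀ᶠ x : ℝ in atTop, T ≤ Real.exp ((1 - δ) * x) := by
    have h2 : Tendsto (fun x : ℝ => Real.exp ((1 - δ) * x)) atTop atTop :=
      Real.tendsto_exp_atTop.comp (tendsto_id.const_mul_atTop (by linarith))
    exact h2.eventually_ge_atTop T
  have hsmall : ∀ᶠ x : ℝ in atTop, x / δ ≤ Real.exp (3 / 8 * x) := by
    have h2 : Tendsto (fun x : ℝ => Real.exp (3 / 8 * x) / (3 / 8 * x)) atTop atTop := by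
      have h3 := (Real.tendsto_exp_div_pow_atTop 1).comp
        (tendsto_id.const_mul_atTop (show (0 : ℝ) < 3 / 8 by norm_num))
      refine h3.congr fun x => ?_
      simp
    filter_upwards [h2.eventually_ge_atTop (8 / 3 / δ), eventually_gt_atTop 0] with x hx hx0
    rw [le_div_iff₀ (by positivity)] at hx
    have : 8 / 3 / δ * (3 / 8 * x) = x / δ := by
      field_simp
    linarith
  filter_upwards [esm_lower h hδ0 (show 0 < η / 2 by positivity), hTx, hsmall,
    eventually_gt_atTop 0] with x hx1 hx2 hx3 hx4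
  have hmain : ∀ e ∈ (Finset.Icc 1 ⌊Real.exp (δ * x)⌋₊).filter (fun e => e ∈ ESm E),
      (1 - 2 * δ) * (Real.exp x / x) * (1 / (e : ℝ)) ≤ ((d3_Q x e).card : ℝ) := by
    intro e he
    rw [Finset.mem_filter, Finset.mem_Icc] at he
    have he1 : (1 : ℝ) ≤ e := by exact_mod_cast he.1.1
    have he2 : (e : ℝ) ≤ Real.exp (δ * x) := (Nat.le_floor_iff (Real.exp_pos _).le).1 he.1.2
    have he0 : (0 : ℝ) < e := by linarith
    set t : ℝ := Real.exp x / e with ht
    have ht1 : Real.exp ((1 - δ) * x) ≤ t := by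
      rw [ht, le_div_iff₀ he0]
      calc Real.exp ((1 - δ) * x) * e ≤ Real.exp ((1 - δ) * x) * Real.exp (δ * x) :=
            mul_le_mul_of_nonneg_left he2 (Real.exp_pos _).le
        _ = Real.exp x := by
            rw [← Real.exp_add]
            congr 1
            ring
    have ht2 : t ≤ Real.exp x := div_le_self (Real.exp_pos _).le he1
    obtain ⟨g1, g2⟩ := hT t (hx2.trans ht1)
    have ht0 : 0 < t := by linarith
    have hlog0 : 0 < Real.log t := Real.log_pos g2
    have hlog : Real.log t ≤ x := by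
      rw [Real.log_le_iff_le_exp ht0]
      exact ht2
    have g3 : (1 - δ) * t ≤ (Nat.primeCounting ⌊t⌋₊ : ℝ) * x := by
      rw [lt_div_iff₀ ht0] at g1
      exact g1.le.trans (mul_le_mul_of_nonneg_left hlog (Nat.cast_nonneg _))
    have g4 : (1 - δ) * (t / x) ≤ (Nat.primeCounting ⌊t⌋₊ : ℝ) := by
      rw [mul_div_assoc', div_le_iff₀ hx4]
      exact g3
    have g5 := d3_card_Q x e
    have g6 : Real.exp (x / 2) ≤ δ * (t / x) := by
      have k1 : Real.exp (x / 2) * Real.exp (3 / 8 * x) ≤ t := by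
        refine le_trans ?_ ht1
        rw [← Real.exp_add]
        apply Real.exp_le_exp.2
        nlinarith
      have k2 : Real.exp (x / 2) * (x / δ) ≤ t :=
        (mul_le_mul_of_nonneg_left hx3 (Real.exp_pos _).le).trans k1
      rw [mul_div_assoc', le_div_iff₀ hx4]
      rw [mul_div_assoc', div_le_iff₀ hδ0] at k2
      linarith
    have g7 : (1 - 2 * δ) * (Real.exp x / x) * (1 / (e : ℝ)) = (1 - 2 * δ) * (t / x) := by
      rw [ht]
      field_simp
    rw [g7]
    have g8 : (1 - 2 * δ) * (t / x) = (1 - δ) * (t / x) - δ * (t / x) := by ring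
    rw [g8]
    linarith
  have hsum := Finset.sum_le_sum hmain
  rw [← Finset.mul_sum] at hsum
  have hc : (∑ e ∈ (Finset.Icc 1 ⌊Real.exp (δ * x)⌋₊).filter (fun e => e ∈ ESm E),
      ((d3_Q x e).card : ℝ)) ≤ ((Sv E ⌊Real.exp x⌋₊).card : ℝ) := by
    exact_mod_cast d3_sum_card (E := E) hx4 (show δ < 1 / 2 by linarith)
  have hpos : 0 ≤ (1 - 2 * δ) * (Real.exp x / x) := by
    have : 0 < 1 - 2 * δ := by linarith
    positivity
  have hfin := (mul_le_mul_of_nonneg_left hx1 hpos).trans (hsum.trans hc)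
  refine le_trans ?_ hfin
  have hVp : 0 ≤ LSieve.V (EP E 0 (Real.exp x)) * (Real.exp x / x) :=
    mul_nonneg (by linarith [hV x]) (by positivity)
  have e1 : (1 - 2 * δ) * (Real.exp x / x) * ((1 - η / 2) * LSieve.V (EP E 0 (Real.exp x))) =
      ((1 - 2 * δ) * (1 - η / 2)) * (LSieve.V (EP E 0 (Real.exp x)) * (Real.exp x / x)) := by ring
  rw [e1, mul_assoc]
  apply mul_le_mul_of_nonneg_right _ hVp
  rw [hδ]
  nlinarith

end Pool.Agent.LibThin21
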