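import Pool.Agent.LibThin21.T0

/-!
ROW T4a. Sieve bound for the rows with `π ∣ k q + b` and no prime factor `≤ M` outside `E` (large sieve).

The `k ∈ [k1, k2)` with `π ∣ k q + b` are `k = κ + π j` (`π ∤ q`), `j` in an interval of length
`X = (k2 - k1) / π + 1`. For a prime `p ≤ M`, `p ∤ q`, `p ∉ E` (so `p ≠ π`), `p ∤ k q + b` excludes one class of `j`
modulo `p`. Apply `LSieve.sifted_large_sieve` exactly as in the proof of `LSieve.brun_titchmarsh`
(copy that proof) with `B = q.primeFactors ∪ (EQ E q x)`, `M ^ 2 < X`: `G B M * N ≤ 9 X`, and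
`LSieve.log_le_G`: `log M ≤ 2 V(B) G B M`, `V(B) ≤ V(q.primeFactors) V(EQ) = q/φ(q) * DQ`.
Here `M` is any natural number with `M ≤ exp x` so that primes `p ≤ M` in `E`, `p ∤ q` are in `EQ`.
-/

namespace Pool.Agent.LibThin21

open Filter Topology
open Pool.Agent.LibMaier

open Classical in
lemma t4a_mem_EQ {E : Set ℕ} {q p : ℕ} {x : ℝ} : p ∈ EQ E q x ↔
    (p ≤ ⌊Real.exp x⌋₊ ∧ p.Prime ∧ p ∈ E ∧ 0 < (p : ℝ)) ∧ ¬ p ∣ q := by
  unfold EQ EP
  rw [Finset.mem_filter, Finset.mem_filter, Finset.mem_range, Nat.lt_succ_iff]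

open Classical in
theorem sieve_count {E : Set ℕ} {q π b k1 k2 M : ℕ} {x : ℝ} (hq : 1 ≤ q) (hπ : π.Prime)
    (hπE : π ∈ E) (hπq : ¬ π ∣ q) (hM : (M : ℝ) ≤ Real.exp x) (hMX : M ^ 2 < (k2 - k1) / π + 1) :
    (((Finset.Ico k1 k2).filter (fun k => π ∣ k * q + b ∧ ∀ p : ℕ, p.Prime → p ∉ E → p ≤ M →
        ¬ p ∣ k * q + b)).card : ℝ) * Real.log M ≤
      18 * ((q : ℝ) / q.totient) * DQ E q x * (((k2 - k1) / π + 1 : ℕ) : ℝ) := by
  set P : Finset ℕ := (Finset.Ico k1 k2).filter (fun k => π ∣ k * q + b ∧ ∀ p : ℕ, p.Prime →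
    p ∉ E → p ≤ M → ¬ p ∣ k * q + b) with hPdef
  set X : ℕ := (k2 - k1) / π + 1 with hX
  have hq0 : 0 < q := hq
  have hEQp : ∀ p ∈ EQ E q x, p.Prime := fun p hp => (t4a_mem_EQ.mp hp).1.2.1
  have hDQ : 0 < DQ E q x := LSieve.V_pos hEQp
  rcases P.eq_empty_or_nonempty with hemp | hne
  · rw [hemp, Finset.card_empty, Nat.cast_zero, zero_mul]
    positivity
  have hmem : ∀ k ∈ P, (k1 ≤ k ∧ k < k2) ∧ π ∣ k * q + b ∧ ∀ p : ℕ, p.Prime →
      p ∉ E → p ≤ M → ¬ p ∣ k * q + b := by
    intro k hk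
    rw [hPdef, Finset.mem_filter, Finset.mem_Ico] at hk
    exact hk
  have hXpos : 0 < X := by omega
  obtain ⟨k0, hk0, hmin⟩ := P.exists_min_image id hne
  simp only [id] at hmin
  have hdiv : ∀ k ∈ P, k = k0 + π * ((k - k0) / π) := by
    intro k hk
    have h0 := hmin k hk
    have h1 : π ∣ (k * q + b) - (k0 * q + b) :=
      (Nat.dvd_sub (hmem k hk).2.1 (hmem k0 hk0).2.1)
    have h2 : (k * q + b) - (k0 * q + b) = (k - k0) * q := by
      rw [Nat.sub_mul]
      omega
    rw [h2] at h1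
    have h3 : π ∣ k - k0 := (hπ.dvd_mul.mp h1).resolve_right hπq
    rw [Nat.mul_div_cancel' h3]
    omega
  set s : Finset ℤ := P.image (fun k => (((k - k0) / π : ℕ) : ℤ)) with hs
  have hcard : s.card = P.card := by
    rw [hs]
    apply Finset.card_image_of_injOn
    intro a ha b' hb hab
    have hab' : (a - k0) / π = (b' - k0) / π := Nat.cast_injective (R := ℤ) hab
    rw [hdiv a ha, hdiv b' hb, hab']
  have hsub : s ⊆ Finset.Ico (0 : ℤ) (0 + X) := by
    intro n hn
    rw [hs, Finset.mem_image] at hn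
    obtain ⟨k, hk, rfl⟩ := hn
    rw [Finset.mem_Ico]
    refine ⟨by positivity, ?_⟩
    have h1 : (k - k0) / π < X := by
      rw [hX, Nat.lt_succ_iff]
      apply Nat.div_le_div_right
      have := (hmem k hk).1
      have := (hmem k0 hk0).1
      omega
    rw [zero_add]
    exact_mod_cast h1
  set B : Finset ℕ := q.primeFactors ∪ EQ E q x with hB
  have hBp : ∀ p ∈ B, p.Prime := by
    intro p hp
    rw [hB, Finset.mem_union] at hp
    rcases hp with h | h
    · exact Nat.prime_of_mem_primeFactors h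
    · exact hEQp p h
  have key := LSieve.sifted_large_sieve ({()} : Finset Unit) (fun _ => 0) (fun _ => 0) X 1 M 1 0
    B hXpos (by simp) (by simp)
    (by
      intro i _ p hp hpd
      rw [addOrderOf_zero, Nat.dvd_one] at hpd
      exact absurd hpd hp.one_lt.ne')
    (by simp)
    (by
      have h1 : ((M : ℝ)) ^ 2 < X := by exact_mod_cast hMX
      have h2 : (0 : ℝ) < X := by exact_mod_cast hXpos
      simp only [Nat.cast_one, one_mul, mul_zero, add_zero]
      rw [mul_one_div, div_lt_one h2]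
      exact h1)
    (fun _ _ => Finset.card_le_one_of_subsingleton _) 0 s hsub (fun _ => 1) (by
      intro ϖ hϖ hϖM hϖB
      have hϖq : ¬ ϖ ∣ q := by
        intro hd
        exact hϖB (Finset.mem_union_left _ (Nat.mem_primeFactors.2 ⟨hϖ, hd, by omega⟩))
      have hϖE : ϖ ∉ E := by
        intro hE
        apply hϖB
        apply Finset.mem_union_right
        rw [t4a_mem_EQ]
        refine ⟨⟨?_, hϖ, hE, by exact_mod_cast hϖ.pos⟩, hϖq⟩
        apply Nat.le_floor
        exact le_trans (by exact_mod_cast hϖM) hM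
      have hϖπ : ϖ ≠ π := fun h => hϖE (h ▸ hπE)
      have hcop : IsCoprime ((π * q : ℕ) : ℤ) (ϖ : ℤ) := by
        rw [Nat.isCoprime_iff_coprime, Nat.coprime_comm, Nat.Prime.coprime_iff_not_dvd hϖ]
        intro hd
        rcases hϖ.dvd_mul.mp hd with h | h
        · exact hϖπ ((Nat.prime_dvd_prime_iff_eq hϖ hπ).mp h)
        · exact hϖq h
      obtain ⟨u, v, huv⟩ := hcop
      -- u * (π q) + v * ϖ = 1
      refine ⟨-((k0 * q + b : ℕ) : ℤ) * u, ?_⟩
      intro n hn _ hcong
      rw [hs, Finset.mem_image] at hn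
      obtain ⟨k, hk, rfl⟩ := hn
      have h1 : (ϖ : ℤ) ∣ ((k * q + b : ℕ) : ℤ) := by
        have h2 : (k : ℤ) = k0 + π * (((k - k0) / π : ℕ) : ℤ) := by
          exact_mod_cast hdiv k hk
        have h3 := Int.modEq_iff_dvd.1 hcong
        obtain ⟨c, hc⟩ := h3
        have h4 : (((k - k0) / π : ℕ) : ℤ) = -((k0 * q + b : ℕ) : ℤ) * u - ϖ * c := by linarith
        rw [Nat.cast_add, Nat.cast_mul, h2, h4]
        refine ⟨((k0 * q + b : ℕ) : ℤ) * v - (π * q : ℕ) * c, ?_⟩
        push_cast at huv ⊢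
        linear_combination (-((k0 : ℤ) * q + b)) * huv
      have h5 : ϖ ∣ k * q + b := by exact_mod_cast h1
      exact (hmem k hk).2.2 ϖ hϖ hϖE hϖM h5)
  have h1 : LSieve.expSum s (fun _ => 1) ((0 : UnitAddCircle) + 0) = P.card := by
    unfold LSieve.expSum
    simp [hcard]
  simp only [Finset.sum_singleton] at key
  rw [h1] at key
  simp only [Complex.norm_natCast, norm_one, one_pow, Finset.sum_const, nsmul_eq_mul, mul_one,
    Nat.cast_one, hcard] at key
  have hPpos : (0 : ℝ) < P.card := by exact_mod_cast hne.card_pos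
  have h2 : LSieve.G B M * P.card ≤ 9 * X := by
    have : (LSieve.G B M * P.card) * P.card ≤ (9 * X) * P.card := by nlinarith
    exact le_of_mul_le_mul_right this hPpos
  have h3 := LSieve.log_le_G B M hBp
  have hV : LSieve.V B = ((q : ℝ) / q.totient) * DQ E q x := by
    rw [← LSieve.V_primeFactors q hq0]
    unfold DQ LSieve.V
    rw [hB]
    apply Finset.prod_union
    rw [Finset.disjoint_left]
    intro p hp hp'
    exact (t4a_mem_EQ.mp hp').2 (Nat.dvd_of_mem_primeFactors hp)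
  have hVpos := (LSieve.V_pos hBp).le
  calc (P.card : ℝ) * Real.log M ≤ P.card * (2 * LSieve.V B * LSieve.G B M) :=
        mul_le_mul_of_nonneg_left h3 hPpos.le
    _ = 2 * LSieve.V B * (LSieve.G B M * P.card) := by ring
    _ ≤ 2 * LSieve.V B * (9 * X) :=
        mul_le_mul_of_nonneg_left h2 (mul_nonneg (by norm_num) hVpos)
    _ = _ := by
        rw [hV]
        ring

end Pool.Agent.LibThin21
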