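import Pool.Agent.LibThin21.D2
import Pool.Agent.LibThin21.T4a

/-!
ROW D4b. Types (IIa) and (IIb), above `exp (x/2)`.

(IIa): sum of `sieve_count` (T4a) with `q = 1`, `b = 0`, `k1 = 0`, `k2 = ⌊exp x⌋ + 1`, `M = ⌊exp (x/5)⌋` over the
primes `π ∈ EP E (exp (x / log x)) (exp (x/2))` (`π ^ 2 ≤ m ≤ exp x`): `M ^ 2 ≤ exp (2x/5) < k2 / π + 1`,
`M ^ 2 ≤ exp (x/2) < m`, so `p ^ 2 ≤ m` for `p ≤ M`; `DQ E 1 x = V (EP E 0 (exp x))` (`¬ p ∣ 1`), `totient 1 = 1`,
`log M ≥ x / 6`; each count is `≤ 18 * 6 / x * V * (3 exp x / π)`; `SE_top` with `η / 324`.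
(IIb): `m ∈ (exp (x/2), exp x]` in `ESm E` and `Y`-smooth: `1 ≤ exp x / m`, `rankin'` with `δ = 1/2`, so
`≤ exp x / x ^ 2 ≤ η V exp x / x`.
-/

namespace Pool.Agent.LibThin21

open Filter Topology

lemma d4b_DQ (E : Set ℕ) (x : ℝ) : DQ E 1 x = LSieve.V (EP E 0 (Real.exp x)) := by
  unfold DQ EQ
  congr 1
  rw [Finset.filter_true_of_mem]
  intro p hp hd
  have h1 := ((mem_EP (Real.exp_pos x).le).1 hp).1
  exact h1.one_lt.ne' (Nat.dvd_one.1 hd)

open Classical in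
/-- one prime -/
lemma d4b_one {E : Set ℕ} {x : ℝ} {π : ℕ} (hx : 60 ≤ x)
    (hM6 : Real.exp (x / 6) ≤ Real.exp (x / 5) - 1) (hπ : π.Prime) (hπE : π ∈ E)
    (hπx : (π : ℝ) ≤ Real.exp (x / 2)) :
    (((Finset.Ico 0 (⌊Real.exp x⌋₊ + 1)).filter (fun k => π ∣ k * 1 + 0 ∧ ∀ p : ℕ, p.Prime →
      p ∉ E → p ≤ ⌊Real.exp (x / 5)⌋₊ → ¬ p ∣ k * 1 + 0)).card : ℝ) ≤
      324 * LSieve.V (EP E 0 (Real.exp x)) * (Real.exp x / x) * (1 / π) := by
  set M := ⌊Real.exp (x / 5)⌋₊ with hM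
  set N := ⌊Real.exp x⌋₊ with hN
  have hx0 : 0 < x := by linarith
  have hπ0 : (0 : ℝ) < π := by exact_mod_cast hπ.pos
  have hMle : (M : ℝ) ≤ Real.exp (x / 5) := Nat.floor_le (Real.exp_pos _).le
  have hMge : Real.exp (x / 6) ≤ M := by
    have := Nat.lt_floor_add_one (Real.exp (x / 5))
    rw [← hM] at this
    linarith
  have hMx : (M : ℝ) ≤ Real.exp x := hMle.trans (Real.exp_le_exp.2 (by linarith))
  have hN1 : Real.exp x < (N : ℝ) + 1 := Nat.lt_floor_add_one _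
  have hN2 : (N : ℝ) ≤ Real.exp x := Nat.floor_le (Real.exp_pos _).le
  have hsq : Real.exp (x / 2) * Real.exp (x / 2) = Real.exp x := by
    rw [← Real.exp_add]
    congr 1
    ring
  have hMX : M ^ 2 < (N + 1 - 0) / π + 1 := by
    rw [Nat.sub_zero]
    have h1 : ((M : ℝ)) ^ 2 * π ≤ Real.exp x := by
      have h2 : (M : ℝ) ^ 2 ≤ Real.exp (x / 2) := by
        have h3 : (M : ℝ) ^ 2 ≤ Real.exp (x / 5) ^ 2 := pow_le_pow_left₀ (Nat.cast_nonneg _) hMle 2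
        refine h3.trans ?_
        rw [← Real.exp_nat_mul]
        apply Real.exp_le_exp.2
        push_cast
        linarith
      rw [← hsq]
      exact mul_le_mul h2 hπx hπ0.le (Real.exp_pos _).le
    have h4 : M ^ 2 * π ≤ N + 1 := by
      have : ((M ^ 2 * π : ℕ) : ℝ) ≤ ((N + 1 : ℕ) : ℝ) := by
        push_cast
        linarith
      exact_mod_cast this
    have h5 : M ^ 2 ≤ (N + 1) / π := (Nat.le_div_iff_mul_le hπ.pos).2 h4
    omega
  have hsv := sieve_count (E := E) (q := 1) (π := π) (b := 0) (k1 := 0) (k2 := N + 1) (M := M)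
    (x := x) le_rfl hπ hπE (fun h => hπ.one_lt.ne' (Nat.dvd_one.1 h)) hMx hMX
  set F := (Finset.Ico 0 (N + 1)).filter (fun k => π ∣ k * 1 + 0 ∧ ∀ p : ℕ, p.Prime →
      p ∉ E → p ≤ M → ¬ p ∣ k * 1 + 0) with hF
  rw [d4b_DQ] at hsv
  set V := LSieve.V (EP E 0 (Real.exp x)) with hV
  have hV0 : 0 < V := LSieve.V_pos d2_prime
  have hlogM : x / 6 ≤ Real.log M := by
    rw [Real.le_log_iff_exp_le (lt_of_lt_of_le (Real.exp_pos _) hMge)]
    exact hMge
  have hNle : (((N + 1 - 0) / π + 1 : ℕ) : ℝ) ≤ 3 * Real.exp x / π := by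
    rw [Nat.sub_zero]
    have h1 : (((N + 1) / π : ℕ) : ℝ) ≤ ((N + 1 : ℕ) : ℝ) / π := Nat.cast_div_le
    push_cast at h1 ⊢
    have h2 : 1 ≤ Real.exp x := Real.one_le_exp hx0.le
    have h3 : ((N : ℝ) + 1) / π ≤ 2 * Real.exp x / π :=
      div_le_div_of_nonneg_right (by linarith) hπ0.le
    have h4 : 1 ≤ Real.exp x / π := by
      rw [one_le_div hπ0]
      refine hπx.trans (Real.exp_le_exp.2 (by linarith))
    have h5 : 3 * Real.exp x / π = 2 * Real.exp x / π + Real.exp x / π := by ring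
    linarith
  have h18 : (18 : ℝ) * (((1 : ℕ) : ℝ) / (Nat.totient 1 : ℝ)) * V = 18 * V := by
    rw [Nat.totient_one]
    simp
  rw [h18] at hsv
  have hcnt : (F.card : ℝ) * (x / 6) ≤ 18 * V * (3 * Real.exp x / π) := by
    calc (F.card : ℝ) * (x / 6) ≤ F.card * Real.log M :=
          mul_le_mul_of_nonneg_left hlogM (Nat.cast_nonneg _)
      _ ≤ _ := hsv
      _ ≤ _ := mul_le_mul_of_nonneg_left hNle (by positivity)
  have h8 : (F.card : ℝ) = (F.card : ℝ) * (x / 6) * (6 / x) := by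
    field_simp
  rw [h8]
  calc (F.card : ℝ) * (x / 6) * (6 / x) ≤ 18 * V * (3 * Real.exp x / π) * (6 / x) :=
        mul_le_mul_of_nonneg_right hcnt (by positivity)
    _ = 324 * V * (Real.exp x / x) * (1 / π) := by
        field_simp
        ring

open Classical in
theorem type_IIa_count {E : Set ℕ} (h : Thin E) {η : ℝ} (hη : 0 < η) :
    ∀ᶠ x : ℝ in atTop,
      (((Finset.Icc 1 ⌊Real.exp x⌋₊).filter (fun m : ℕ => Real.exp (x / 2) < (m : ℝ) ∧
        (∀ p : ℕ, p.Prime → p ∉ E → p ^ 2 ≤ m → ¬ p ∣ m) ∧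
        ∃ π : ℕ, π.Prime ∧ π ∈ E ∧ Real.exp (x / Real.log x) < (π : ℝ) ∧ π ^ 2 ≤ m ∧ π ∣ m)).card : ℝ) ≤
        η * LSieve.V (EP E 0 (Real.exp x)) * (Real.exp x / x) := by
  have hM6 : ∀ᶠ x : ℝ in atTop, Real.exp (x / 6) ≤ Real.exp (x / 5) - 1 := by
    filter_upwards [eventually_ge_atTop (60 : ℝ)] with x h3
    have h4 : Real.exp (x / 5) = Real.exp (x / 6) * Real.exp (x / 30) := by
      rw [← Real.exp_add]
      congr 1
      ring
    have h5 : 1 + x / 30 ≤ Real.exp (x / 30) := by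
      have := Real.add_one_le_exp (x / 30)
      linarith
    have h6 : (1 : ℝ) ≤ Real.exp (x / 6) := Real.one_le_exp (by linarith)
    rw [h4]
    nlinarith
  filter_upwards [SE_top h (η := η / 324) (by positivity), hM6, eventually_ge_atTop (60 : ℝ)]
    with x hSE hM6 hx
  have hx0 : 0 < x := by linarith
  set M := ⌊Real.exp (x / 5)⌋₊ with hM
  set N := ⌊Real.exp x⌋₊ with hN
  set V := LSieve.V (EP E 0 (Real.exp x)) with hV
  have hV0 : 0 < V := LSieve.V_pos d2_prime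
  have hMle : (M : ℝ) ≤ Real.exp (x / 5) := Nat.floor_le (Real.exp_pos _).le
  have hN2 : (N : ℝ) ≤ Real.exp x := Nat.floor_le (Real.exp_pos _).le
  set P := EP E (Real.exp (x / Real.log x)) (Real.exp (x / 2)) with hP
  set f : ℕ → Finset ℕ := fun π => (Finset.Ico 0 (N + 1)).filter (fun k => π ∣ k * 1 + 0 ∧
    ∀ p : ℕ, p.Prime → p ∉ E → p ≤ M → ¬ p ∣ k * 1 + 0) with hf
  have hsub : (Finset.Icc 1 N).filter (fun m : ℕ => Real.exp (x / 2) < (m : ℝ) ∧
        (∀ p : ℕ, p.Prime → p ∉ E → p ^ 2 ≤ m → ¬ p ∣ m) ∧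
        ∃ π : ℕ, π.Prime ∧ π ∈ E ∧ Real.exp (x / Real.log x) < (π : ℝ) ∧ π ^ 2 ≤ m ∧ π ∣ m) ⊆
      P.biUnion f := by
    intro m hm
    obtain ⟨h1, h2, h3, π, hπ, hπE, hπx, hπm, hπd⟩ := Finset.mem_filter.1 hm
    obtain ⟨h4, h5⟩ := Finset.mem_Icc.1 h1
    have hmx : (m : ℝ) ≤ Real.exp x := (Nat.cast_le.2 h5).trans hN2
    have hπle : (π : ℝ) ≤ Real.exp (x / 2) := by
      have h6 : (π : ℝ) ^ 2 ≤ Real.exp (x / 2) ^ 2 := by
        have h7 : (π : ℝ) ^ 2 ≤ m := by exact_mod_cast hπm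
        have h8 : Real.exp (x / 2) ^ 2 = Real.exp x := by
          rw [← Real.exp_nat_mul]
          congr 1
          push_cast
          ring
        rw [h8]
        linarith
      exact (abs_le_of_sq_le_sq' h6 (Real.exp_pos _).le).2
    refine Finset.mem_biUnion.2 ⟨π, (mem_EP (Real.exp_pos _).le).2 ⟨hπ, hπE, hπx, hπle⟩,
      Finset.mem_filter.2 ⟨Finset.mem_Ico.2 ⟨Nat.zero_le _, by omega⟩, ?_, ?_⟩⟩
    · simpa using hπd
    · intro p hp hpE hpM
      rw [mul_one, add_zero]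
      refine h3 p hp hpE ?_
      have h7 : (p : ℝ) ^ 2 < m := by
        have h8 : (p : ℝ) ≤ Real.exp (x / 5) := (Nat.cast_le.2 hpM).trans hMle
        have h9 : (p : ℝ) ^ 2 ≤ Real.exp (x / 5) ^ 2 := pow_le_pow_left₀ (Nat.cast_nonneg _) h8 2
        have h10 : Real.exp (x / 5) ^ 2 ≤ Real.exp (x / 2) := by
          rw [← Real.exp_nat_mul]
          apply Real.exp_le_exp.2
          push_cast
          linarith
        linarith
      have h8 : p ^ 2 < m := by exact_mod_cast h7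
      exact h8.le
  have hcard := (Finset.card_le_card hsub).trans Finset.card_biUnion_le
  have hcardR : (((Finset.Icc 1 N).filter (fun m : ℕ => Real.exp (x / 2) < (m : ℝ) ∧
        (∀ p : ℕ, p.Prime → p ∉ E → p ^ 2 ≤ m → ¬ p ∣ m) ∧
        ∃ π : ℕ, π.Prime ∧ π ∈ E ∧ Real.exp (x / Real.log x) < (π : ℝ) ∧ π ^ 2 ≤ m ∧
          π ∣ m)).card : ℝ) ≤ ∑ π ∈ P, ((f π).card : ℝ) := by
    exact_mod_cast hcard
  refine hcardR.trans ?_
  have hterm : ∀ π ∈ P, ((f π).card : ℝ) ≤ 324 * V * (Real.exp x / x) * (1 / π) := by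
    intro π hπ
    obtain ⟨hπp, hπE, -, hπx⟩ := (mem_EP (Real.exp_pos _).le).1 hπ
    exact d4b_one hx hM6 hπp hπE hπx
  refine (Finset.sum_le_sum hterm).trans ?_
  rw [← Finset.mul_sum]
  have hSE2 : ∑ π ∈ P, 1 / (π : ℝ) ≤ η / 324 :=
    (SE_mono E le_rfl (Real.exp_le_exp.2 (by linarith))).trans hSE
  calc 324 * V * (Real.exp x / x) * ∑ π ∈ P, 1 / (π : ℝ) ≤
      324 * V * (Real.exp x / x) * (η / 324) := mul_le_mul_of_nonneg_left hSE2 (by positivity)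
    _ = η * V * (Real.exp x / x) := by ring

open Classical in
theorem type_IIb_count {E : Set ℕ} (h : Thin E) {η : ℝ} (hη : 0 < η) :
    ∀ᶠ x : ℝ in atTop,
      (((Finset.Icc 1 ⌊Real.exp x⌋₊).filter (fun m : ℕ => Real.exp (x / 2) < (m : ℝ) ∧
        m ∈ ESm E ∧ ∀ p : ℕ, p.Prime → p ∣ m → (p : ℝ) ≤ Real.exp (x / Real.log x))).card : ℝ) ≤
        η * LSieve.V (EP E 0 (Real.exp x)) * (Real.exp x / x) := by
  filter_upwards [rankin' h (δ := 1 / 2) (by norm_num), eventually_ge_atTop (1 : ℝ),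
    eventually_ge_atTop (1 / η)] with x hR hx1 hx2
  have hx0 : 0 < x := by linarith
  set V := LSieve.V (EP E 0 (Real.exp x)) with hV
  have hV1 : 1 ≤ V := one_le_V d2_prime
  set S := (Finset.Icc 1 ⌊Real.exp x⌋₊).filter (fun m : ℕ => Real.exp (x / 2) < (m : ℝ) ∧
        m ∈ ESm E ∧ ∀ p : ℕ, p.Prime → p ∣ m → (p : ℝ) ≤ Real.exp (x / Real.log x)) with hS
  have h1 := hR S (by
    intro m hm
    obtain ⟨h2, h3, h4, h5⟩ := Finset.mem_filter.1 hm
    refine ⟨h4, h5, ?_⟩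
    have : (1 : ℝ) / 2 * x = x / 2 := by ring
    rw [this]
    exact h3)
  have h2 : (S.card : ℝ) ≤ Real.exp x * ∑ m ∈ S, 1 / (m : ℝ) := by
    rw [Finset.mul_sum]
    have : (S.card : ℝ) = ∑ _m ∈ S, (1 : ℝ) := by simp
    rw [this]
    refine Finset.sum_le_sum fun m hm => ?_
    obtain ⟨h2, h3, h4, h5⟩ := Finset.mem_filter.1 hm
    have hm0 : (0 : ℝ) < m := lt_trans (Real.exp_pos _) h3
    have hmx : (m : ℝ) ≤ Real.exp x :=
      (Nat.cast_le.2 (Finset.mem_Icc.1 h2).2).trans (Nat.floor_le (Real.exp_pos _).le)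
    rw [mul_one_div, one_le_div hm0]
    exact hmx
  have hη1 : 1 ≤ η * x := by
    have := mul_le_mul_of_nonneg_left hx2 hη.le
    have h3 : η * (1 / η) = 1 := by field_simp
    linarith
  have hex := Real.exp_pos x
  calc (S.card : ℝ) ≤ Real.exp x * (1 / x ^ 2) :=
        h2.trans (mul_le_mul_of_nonneg_left h1 hex.le)
    _ = 1 * (1 / x) * (Real.exp x / x) := by
        field_simp
    _ ≤ (η * x) * (1 / x) * (Real.exp x / x) := by
        gcongr
    _ = η * 1 * (Real.exp x / x) := by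
        field_simp
    _ ≤ η * V * (Real.exp x / x) := by
        gcongr

end Pool.Agent.LibThin21
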