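import Pool.Agent.LibThin21.Defs

/-!
ROW T1. Classification of the integers free of the primes outside `E` up to their square root.

Let `m ≥ 2` have no prime factor `p ∉ E` with `p ^ 2 ≤ m`. If `m` has a prime factor `π` with `m < π ^ 2`,
then `m = e π` with `e < π`; every prime factor `p` of `e` satisfies `p ≤ e < √m`, so `p ∈ E`: type (I),
which is split according to `e ≤ u` or `u < e`. Otherwise all prime factors `p` have `p ^ 2 ≤ m`, hence
are in `E`; if one of them is `> Y` we are in case (IIa), otherwise in case (IIb).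
-/

namespace Pool.Agent.LibThin21

theorem classify {E : Set ℕ} {m : ℕ} (hm : 2 ≤ m) (u Y : ℝ)
    (h : ∀ p : ℕ, p.Prime → p ∉ E → p ^ 2 ≤ m → ¬ p ∣ m) :
    (∃ e π : ℕ, e ∈ ESm E ∧ (e : ℝ) ≤ u ∧ π.Prime ∧ e < π ∧ m = e * π) ∨
    (∃ e π : ℕ, e ∈ ESm E ∧ u < (e : ℝ) ∧ π.Prime ∧ e < π ∧ m = e * π) ∨
    (∃ π : ℕ, π.Prime ∧ π ∈ E ∧ Y < (π : ℝ) ∧ π ^ 2 ≤ m ∧ π ∣ m) ∨
    (m ∈ ESm E ∧ ∀ p : ℕ, p.Prime → p ∣ m → (p : ℝ) ≤ Y) := by
  have hE : ∀ p : ℕ, p.Prime → p ∣ m → p ^ 2 ≤ m → p ∈ E := by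
    intro p hp hpm hp2
    by_contra hpE
    exact h p hp hpE hp2 hpm
  by_cases hA : ∃ π : ℕ, π.Prime ∧ π ∣ m ∧ m < π ^ 2
  · obtain ⟨π, hπ, ⟨e, he⟩, hlt⟩ := hA
    have hπ0 : 0 < π := hπ.pos
    have heπ : e < π := by
      by_contra hcon
      have h1 : π * π ≤ π * e := Nat.mul_le_mul_left π (not_lt.mp hcon)
      rw [← he] at h1
      rw [pow_two] at hlt
      exact absurd h1 (not_le.mpr hlt)
    have he0 : e ≠ 0 := by
      rintro rfl
      rw [mul_zero] at he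
      omega
    have heE : e ∈ ESm E := by
      refine ⟨he0, fun p hp hpe => ?_⟩
      have hple : p ≤ e := Nat.le_of_dvd (Nat.pos_of_ne_zero he0) hpe
      refine hE p hp (he ▸ hpe.mul_left π) ?_
      calc p ^ 2 = p * p := pow_two p
        _ ≤ π * e := Nat.mul_le_mul (hple.trans heπ.le) hple
        _ = m := he.symm
    have hme : m = e * π := by rw [he, mul_comm]
    rcases le_or_gt (e : ℝ) u with hu | hu
    · exact Or.inl ⟨e, π, heE, hu, hπ, heπ, hme⟩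
    · exact Or.inr (Or.inl ⟨e, π, heE, hu, hπ, heπ, hme⟩)
  · push Not at hA
    have hall : ∀ p : ℕ, p.Prime → p ∣ m → p ∈ E := fun p hp hpm => hE p hp hpm (hA p hp hpm)
    by_cases hB : ∃ π : ℕ, π.Prime ∧ π ∣ m ∧ Y < (π : ℝ)
    · obtain ⟨π, hπ, hπm, hY⟩ := hB
      exact Or.inr (Or.inr (Or.inl ⟨π, hπ, hall π hπ hπm, hY, hA π hπ hπm, hπm⟩))
    · push Not at hB
      exact Or.inr (Or.inr (Or.inr ⟨⟨by omega, hall⟩, hB⟩))

end Pool.Agent.LibThin21
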