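import Pool.Agent.LibThin21.D4a
import Pool.Agent.LibThin21.D4b
import Pool.Agent.LibThin21.T1

/-!
Upper bound for the number of survivors up to `exp x`.
-/

namespace Pool.Agent.LibThin21

open Filter Topology

open Classical in
lemma sv_subset {E : Set ℕ} {x δ : ℝ} (hx : 2 ≤ x) :
    Sv E ⌊Real.exp x⌋₊ ⊆ Finset.Icc 1 ⌊Real.exp (x / 2)⌋₊ ∪
      ((Finset.Icc 1 ⌊Real.exp x⌋₊).filter (fun m : ℕ => ∃ e π : ℕ, e ∈ ESm E ∧
        (e : ℝ) ≤ Real.exp (δ * x) ∧ π.Prime ∧ e < π ∧ m = e * π) ∪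
      ((Finset.Icc 1 ⌊Real.exp x⌋₊).filter (fun m : ℕ => ∃ e π : ℕ, e ∈ ESm E ∧
        Real.exp (δ * x) < (e : ℝ) ∧ π.Prime ∧ e < π ∧ m = e * π) ∪
      ((Finset.Icc 1 ⌊Real.exp x⌋₊).filter (fun m : ℕ => Real.exp (x / 2) < (m : ℝ) ∧
        (∀ p : ℕ, p.Prime → p ∉ E → p ^ 2 ≤ m → ¬ p ∣ m) ∧
        ∃ π : ℕ, π.Prime ∧ π ∈ E ∧ Real.exp (x / Real.log x) < (π : ℝ) ∧ π ^ 2 ≤ m ∧ π ∣ m) ∪
      (Finset.Icc 1 ⌊Real.exp x⌋₊).filter (fun m : ℕ => Real.exp (x / 2) < (m : ℝ) ∧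
        m ∈ ESm E ∧ ∀ p : ℕ, p.Prime → p ∣ m → (p : ℝ) ≤ Real.exp (x / Real.log x))))) := by
  intro m hm
  obtain ⟨⟨h1, h2⟩, h3⟩ := mem_Sv.1 hm
  simp only [Finset.mem_union, Finset.mem_filter, Finset.mem_Icc]
  rcases le_or_gt ((m : ℕ) : ℝ) (Real.exp (x / 2)) with h4 | h4
  · left
    exact ⟨h1, Nat.le_floor h4⟩
  · right
    have hm2 : 2 ≤ m := by
      have h5 : (1 : ℝ) < (m : ℝ) := by
        refine lt_of_lt_of_le ?_ h4.le
        rw [Real.one_lt_exp_iff]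
        linarith
      have h6 : 1 < m := by exact_mod_cast h5
      exact h6
    rcases classify hm2 (Real.exp (δ * x)) (Real.exp (x / Real.log x)) h3 with h | h | h | h
    · exact Or.inl ⟨⟨h1, h2⟩, h⟩
    · exact Or.inr (Or.inl ⟨⟨h1, h2⟩, h⟩)
    · exact Or.inr (Or.inr (Or.inl ⟨⟨h1, h2⟩, h4, h3, h⟩))
    · exact Or.inr (Or.inr (Or.inr ⟨⟨h1, h2⟩, h4, h.1, h.2⟩))

theorem sv_upper {E : Set ℕ} (h : Thin E) {η : ℝ} (hη : 0 < η) :
    ∀ᶠ x : ℝ in atTop, ((Sv E ⌊Real.exp x⌋₊).card : ℝ) ≤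
      (1 + η) * LSieve.V (EP E 0 (Real.exp x)) * (Real.exp x / x) := by
  classical
  set δ : ℝ := min (η / 32) (1 / 4) with hδd
  have hδ : 0 < δ := lt_min (by positivity) (by norm_num)
  have hδ1 : δ ≤ 1 / 4 := min_le_right _ _
  have hδ2 : 4 * δ ≤ η / 8 := by
    have : δ ≤ η / 32 := min_le_left _ _
    linarith
  have hη8 : 0 < η / 8 := by positivity
  have hsmall : ∀ᶠ x : ℝ in atTop, Real.exp (x / 2) ≤ η / 8 * (Real.exp x / x) := by
    have h1 : Tendsto (fun x : ℝ => Real.exp (x / 2) / (x / 2) ^ 1) atTop atTop :=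
      (Real.tendsto_exp_div_pow_atTop 1).comp (tendsto_id.atTop_div_const (by norm_num))
    filter_upwards [h1.eventually_ge_atTop (16 / η), eventually_gt_atTop (0 : ℝ)] with x hx hx0
    rw [pow_one, div_le_div_iff₀ hη (by positivity)] at hx
    have h2 : Real.exp x = Real.exp (x / 2) * Real.exp (x / 2) := by
      rw [← Real.exp_add]
      congr 1
      ring
    have h3 : 0 < Real.exp (x / 2) := Real.exp_pos _
    rw [h2]
    have h4 : x ≤ η / 8 * Real.exp (x / 2) := by linarith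
    calc Real.exp (x / 2) = x * Real.exp (x / 2) / x := by field_simp
      _ ≤ η / 8 * Real.exp (x / 2) * Real.exp (x / 2) / x := by gcongr
      _ = η / 8 * (Real.exp (x / 2) * Real.exp (x / 2) / x) := by ring
  filter_upwards [type_I_count (E := E) hδ hδ1, type_I'_count h hδ hη8, type_IIa_count h hη8,
    type_IIb_count h hη8, hsmall, eventually_ge_atTop (2 : ℝ)] with x h1 h2 h3 h4 h5 hx
  have hV : 1 ≤ LSieve.V (EP E 0 (Real.exp x)) :=
    one_le_V fun p hp => ((mem_EP (Real.exp_pos _).le).1 hp).1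
  have hy : 0 < Real.exp x / x := by
    have : 0 < x := by linarith
    positivity
  set V := LSieve.V (EP E 0 (Real.exp x)) with hVd
  have hc0 : ((Finset.Icc 1 ⌊Real.exp (x / 2)⌋₊).card : ℝ) ≤ η / 8 * V * (Real.exp x / x) := by
    rw [Nat.card_Icc]
    have h6 : ((⌊Real.exp (x / 2)⌋₊ + 1 - 1 : ℕ) : ℝ) ≤ Real.exp (x / 2) := by
      rw [Nat.add_sub_cancel]
      exact Nat.floor_le (Real.exp_pos _).le
    calc ((⌊Real.exp (x / 2)⌋₊ + 1 - 1 : ℕ) : ℝ) ≤ Real.exp (x / 2) := h6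
      _ ≤ η / 8 * (Real.exp x / x) := h5
      _ ≤ η / 8 * V * (Real.exp x / x) := by
          apply mul_le_mul_of_nonneg_right _ hy.le
          nlinarith
  have hcard := (Finset.card_le_card (sv_subset (E := E) (δ := δ) hx)).trans
    ((Finset.card_union_le _ _).trans (Nat.add_le_add_left ((Finset.card_union_le _ _).trans
      (Nat.add_le_add_left ((Finset.card_union_le _ _).trans
        (Nat.add_le_add_left (Finset.card_union_le _ _) _)) _)) _))
  have hcard' : ((Sv E ⌊Real.exp x⌋₊).card : ℝ) ≤ η / 8 * V * (Real.exp x / x) +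
      ((1 + 4 * δ) * V * (Real.exp x / x) + (η / 8 * V * (Real.exp x / x) +
      (η / 8 * V * (Real.exp x / x) + η / 8 * V * (Real.exp x / x)))) := by
    refine (Nat.cast_le (α := ℝ).2 hcard).trans ?_
    push_cast
    exact add_le_add hc0 (add_le_add h1 (add_le_add h2 (add_le_add h3 h4)))
  refine hcard'.trans ?_
  have hVy : 0 < V * (Real.exp x / x) := mul_pos (by linarith) hy
  nlinarith

end Pool.Agent.LibThin21
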