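import Pool.Agent.LibThin21.D2

/-!
ROW D4a. Types (I) and (I').

(I): `m = e π ≤ exp x` with `e ∈ ESm E`, `e ≤ exp (δ x)`, `π` prime: at most `∑_e π(exp x / e)` and
`π(t) ≤ (1 + δ) t / log t` for `t ≥ exp ((1 - δ) x)`, `log t ≥ (1 - δ) x`; `esm_upper`. Take `δ = η / 8 `.. here
`(1 + δ) / (1 - δ) ≤ 1 + 4 δ` for `δ ≤ 1/4`.
(I'): `e < π` so `e ^ 2 ≤ exp x`, `t = exp x / e ≥ exp (x/2)`, `π(t) ≤ 2 t / log t ≤ 4 exp x / (e x)`; the sum of
`1 / e` over `exp (δ x) < e ≤ exp (x/2)` is at most `(η / 4) V` by `esm_tail`.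
-/

namespace Pool.Agent.LibThin21

open Filter Topology

open Classical in
/-- products `e π ≤ exp x` with `e` in a finite set -/
lemma D4a_count (x : ℝ) (D F : Finset ℕ) (hD : ∀ e ∈ D, 1 ≤ e)
    (hF : ∀ m ∈ F, m ≤ ⌊Real.exp x⌋₊ ∧ ∃ e ∈ D, ∃ π : ℕ, π.Prime ∧ m = e * π) :
    (F.card : ℝ) ≤ ∑ e ∈ D, (Nat.primeCounting ⌊Real.exp x / e⌋₊ : ℝ) := by
  have hsub : F ⊆ D.biUnion (fun e => ((Finset.range (⌊Real.exp x / (e : ℝ)⌋₊ + 1)).filter
      Nat.Prime).image (fun π => e * π)) := by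
    intro m hm
    obtain ⟨h1, e, he, π, hπ, rfl⟩ := hF m hm
    rw [Finset.mem_biUnion]
    refine ⟨e, he, ?_⟩
    rw [Finset.mem_image]
    refine ⟨π, ?_, rfl⟩
    rw [Finset.mem_filter, Finset.mem_range, Nat.lt_succ_iff]
    refine ⟨Nat.le_floor ?_, hπ⟩
    have he0 : (0 : ℝ) < e := by exact_mod_cast hD e he
    rw [le_div_iff₀ he0]
    have h2 : ((e * π : ℕ) : ℝ) ≤ Real.exp x := (Nat.le_floor_iff (Real.exp_pos x).le).1 h1
    push_cast at h2
    linarith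
  have h1 := (Finset.card_le_card hsub).trans Finset.card_biUnion_le
  have h2 : (F.card : ℝ) ≤ ∑ e ∈ D, ((((Finset.range (⌊Real.exp x / (e : ℝ)⌋₊ + 1)).filter
      Nat.Prime).image (fun π => e * π)).card : ℝ) := by exact_mod_cast h1
  refine h2.trans (Finset.sum_le_sum fun e _ => ?_)
  rw [Nat.cast_le]
  refine Finset.card_image_le.trans (le_of_eq ?_)
  rw [Nat.primeCounting, Nat.primeCounting', Nat.count_eq_card_filter_range]

open Classical in
theorem type_I_count {E : Set ℕ} {δ : ℝ} (hδ : 0 < δ) (hδ1 : δ ≤ 1 / 4) :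
    ∀ᶠ x : ℝ in atTop,
      (((Finset.Icc 1 ⌊Real.exp x⌋₊).filter (fun m : ℕ => ∃ e π : ℕ, e ∈ ESm E ∧
        (e : ℝ) ≤ Real.exp (δ * x) ∧ π.Prime ∧ e < π ∧ m = e * π)).card : ℝ) ≤
        (1 + 4 * δ) * LSieve.V (EP E 0 (Real.exp x)) * (Real.exp x / x) := by
  obtain ⟨T₀, hT₀⟩ := eventually_atTop.1 (Pool.Agent.LibMaier.primeCounting_le hδ)
  have h1δ : 0 < 1 - δ := by linarith
  have hlim : Tendsto (fun x : ℝ => Real.exp ((1 - δ) * x)) atTop atTop :=
    Real.tendsto_exp_atTop.comp (tendsto_id.const_mul_atTop h1δ)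
  filter_upwards [hlim.eventually (eventually_ge_atTop T₀), eventually_gt_atTop (0 : ℝ)] with
    x hx hx0
  set D : Finset ℕ := (Finset.Icc 1 ⌊Real.exp (δ * x)⌋₊).filter (fun e => e ∈ ESm E) with hD
  have hD1 : ∀ e ∈ D, 1 ≤ e ∧ (e : ℝ) ≤ Real.exp (δ * x) ∧ e ∈ ESm E := by
    intro e he
    rw [hD, Finset.mem_filter, Finset.mem_Icc] at he
    exact ⟨he.1.1, (Nat.le_floor_iff (Real.exp_pos _).le).1 he.1.2, he.2⟩
  have hc := D4a_count x D ((Finset.Icc 1 ⌊Real.exp x⌋₊).filter (fun m : ℕ => ∃ e π : ℕ,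
    e ∈ ESm E ∧ (e : ℝ) ≤ Real.exp (δ * x) ∧ π.Prime ∧ e < π ∧ m = e * π))
    (fun e he => (hD1 e he).1) (by
      intro m hm
      rw [Finset.mem_filter, Finset.mem_Icc] at hm
      obtain ⟨hm1, e, π, he, he2, hπ, hlt, rfl⟩ := hm
      refine ⟨hm1.2, e, ?_, π, hπ, rfl⟩
      rw [hD, Finset.mem_filter, Finset.mem_Icc]
      exact ⟨⟨Nat.one_le_iff_ne_zero.2 he.1, Nat.le_floor he2⟩, he⟩)
  refine hc.trans ?_
  have hterm : ∀ e ∈ D, (Nat.primeCounting ⌊Real.exp x / e⌋₊ : ℝ) ≤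
      (1 + 4 * δ) * (Real.exp x / x) * (1 / (e : ℝ)) := by
    intro e he
    obtain ⟨he1, he2, -⟩ := hD1 e he
    have he0 : (0 : ℝ) < e := by exact_mod_cast he1
    have ht : Real.exp ((1 - δ) * x) ≤ Real.exp x / e := by
      rw [le_div_iff₀ he0]
      calc Real.exp ((1 - δ) * x) * e ≤ Real.exp ((1 - δ) * x) * Real.exp (δ * x) :=
            mul_le_mul_of_nonneg_left he2 (Real.exp_pos _).le
        _ = Real.exp x := by rw [← Real.exp_add]; congr 1; ring
    have hl : (1 - δ) * x ≤ Real.log (Real.exp x / e) := by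
      have := Real.log_le_log (Real.exp_pos _) ht
      rwa [Real.log_exp] at this
    have hl0 : 0 < (1 - δ) * x := by positivity
    have h1 := hT₀ (Real.exp x / e) (hx.trans ht)
    refine h1.trans ?_
    have h2 : (1 + δ) * (Real.exp x / e) / Real.log (Real.exp x / e) ≤
        (1 + δ) * (Real.exp x / e) / ((1 - δ) * x) := by
      apply div_le_div_of_nonneg_left (by positivity) hl0 hl
    refine h2.trans ?_
    have h3 : (1 + δ) * (Real.exp x / e) / ((1 - δ) * x) =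
        (1 + δ) / (1 - δ) * ((Real.exp x / x) * (1 / (e : ℝ))) := by
      field_simp
    rw [h3, mul_assoc (1 + 4 * δ)]
    apply mul_le_mul_of_nonneg_right _ (by positivity)
    rw [div_le_iff₀ h1δ]
    nlinarith
  refine (Finset.sum_le_sum hterm).trans ?_
  rw [← Finset.mul_sum]
  have hsum : ∑ e ∈ D, 1 / (e : ℝ) ≤ LSieve.V (EP E 0 (Real.exp x)) := by
    refine le_trans ?_ (esm_upper E x)
    apply Finset.sum_le_sum_of_subset_of_nonneg
    · intro e he
      obtain ⟨h1, h2, h3⟩ := hD1 e he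
      rw [Finset.mem_filter, Finset.mem_Icc]
      refine ⟨⟨h1, Nat.le_floor (h2.trans ?_)⟩, h3⟩
      apply Real.exp_le_exp.2
      nlinarith
    · intro e _ _
      positivity
  calc (1 + 4 * δ) * (Real.exp x / x) * ∑ e ∈ D, 1 / (e : ℝ)
      ≤ (1 + 4 * δ) * (Real.exp x / x) * LSieve.V (EP E 0 (Real.exp x)) :=
        mul_le_mul_of_nonneg_left hsum (by positivity)
    _ = _ := by ring

open Classical in
theorem type_I'_count {E : Set ℕ} (h : Thin E) {δ η : ℝ} (hδ : 0 < δ) (hη : 0 < η) :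
    ∀ᶠ x : ℝ in atTop,
      (((Finset.Icc 1 ⌊Real.exp x⌋₊).filter (fun m : ℕ => ∃ e π : ℕ, e ∈ ESm E ∧
        Real.exp (δ * x) < (e : ℝ) ∧ π.Prime ∧ e < π ∧ m = e * π)).card : ℝ) ≤
        η * LSieve.V (EP E 0 (Real.exp x)) * (Real.exp x / x) := by
  obtain ⟨T₀, hT₀⟩ := eventually_atTop.1 (Pool.Agent.LibMaier.primeCounting_le one_pos)
  have hlim : Tendsto (fun x : ℝ => Real.exp ((1 / 2) * x)) atTop atTop :=
    Real.tendsto_exp_atTop.comp (tendsto_id.const_mul_atTop (by norm_num))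
  filter_upwards [hlim.eventually (eventually_ge_atTop T₀), eventually_gt_atTop (0 : ℝ),
    esm_tail h hδ (show 0 < η / 4 by positivity)] with x hx hx0 htail
  set D : Finset ℕ := (Finset.Icc 1 ⌊Real.exp ((1 / 2) * x)⌋₊).filter
    (fun e => e ∈ ESm E ∧ Real.exp (δ * x) < (e : ℝ)) with hD
  have hD1 : ∀ e ∈ D, 1 ≤ e ∧ (e : ℝ) ≤ Real.exp ((1 / 2) * x) ∧ e ∈ ESm E ∧
      Real.exp (δ * x) < (e : ℝ) := by
    intro e he
    rw [hD, Finset.mem_filter, Finset.mem_Icc] at he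
    exact ⟨he.1.1, (Nat.le_floor_iff (Real.exp_pos _).le).1 he.1.2, he.2⟩
  have hc := D4a_count x D ((Finset.Icc 1 ⌊Real.exp x⌋₊).filter (fun m : ℕ => ∃ e π : ℕ,
    e ∈ ESm E ∧ Real.exp (δ * x) < (e : ℝ) ∧ π.Prime ∧ e < π ∧ m = e * π))
    (fun e he => (hD1 e he).1) (by
      intro m hm
      rw [Finset.mem_filter, Finset.mem_Icc] at hm
      obtain ⟨hm1, e, π, he, he2, hπ, hlt, rfl⟩ := hm
      refine ⟨hm1.2, e, ?_, π, hπ, rfl⟩
      rw [hD, Finset.mem_filter, Finset.mem_Icc]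
      refine ⟨⟨Nat.one_le_iff_ne_zero.2 he.1, Nat.le_floor ?_⟩, he, he2⟩
      have h2 : ((e * π : ℕ) : ℝ) ≤ Real.exp x :=
        (Nat.le_floor_iff (Real.exp_pos x).le).1 hm1.2
      push_cast at h2
      have h3 : (e : ℝ) ≤ π := by exact_mod_cast hlt.le
      have h4 : (e : ℝ) * e ≤ Real.exp ((1 / 2) * x) * Real.exp ((1 / 2) * x) := by
        rw [← Real.exp_add]
        have h5 : 1 / 2 * x + 1 / 2 * x = x := by ring
        rw [h5]
        refine le_trans ?_ h2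
        exact mul_le_mul_of_nonneg_left h3 (Nat.cast_nonneg e)
      exact (mul_self_le_mul_self_iff (Nat.cast_nonneg e) (Real.exp_pos _).le).2 h4)
  refine hc.trans ?_
  have hterm : ∀ e ∈ D, (Nat.primeCounting ⌊Real.exp x / e⌋₊ : ℝ) ≤
      4 * (Real.exp x / x) * (1 / (e : ℝ)) := by
    intro e he
    obtain ⟨he1, he2, -, -⟩ := hD1 e he
    have he0 : (0 : ℝ) < e := by exact_mod_cast he1
    have ht : Real.exp ((1 / 2) * x) ≤ Real.exp x / e := by
      rw [le_div_iff₀ he0]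
      calc Real.exp ((1 / 2) * x) * e ≤ Real.exp ((1 / 2) * x) * Real.exp ((1 / 2) * x) :=
            mul_le_mul_of_nonneg_left he2 (Real.exp_pos _).le
        _ = Real.exp x := by rw [← Real.exp_add]; congr 1; ring
    have hl : (1 / 2) * x ≤ Real.log (Real.exp x / e) := by
      have := Real.log_le_log (Real.exp_pos _) ht
      rwa [Real.log_exp] at this
    have hl0 : 0 < (1 / 2) * x := by positivity
    have h1 := hT₀ (Real.exp x / e) (hx.trans ht)
    refine h1.trans ?_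
    have h2 : (1 + 1) * (Real.exp x / e) / Real.log (Real.exp x / e) ≤
        (1 + 1) * (Real.exp x / e) / ((1 / 2) * x) := by
      apply div_le_div_of_nonneg_left (by positivity) hl0 hl
    refine h2.trans (le_of_eq ?_)
    field_simp
    norm_num
  refine (Finset.sum_le_sum hterm).trans ?_
  rw [← Finset.mul_sum]
  have hsum : ∑ e ∈ D, 1 / (e : ℝ) ≤ η / 4 * LSieve.V (EP E 0 (Real.exp x)) := by
    apply htail
    intro e he
    obtain ⟨h1, h2, h3, h4⟩ := hD1 e he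
    refine ⟨h3, fun p hp hpe => ?_, h4⟩
    have h5 : (p : ℝ) ≤ e := by exact_mod_cast Nat.le_of_dvd (by omega) hpe
    refine h5.trans (h2.trans (Real.exp_le_exp.2 (by linarith)))
  calc 4 * (Real.exp x / x) * ∑ e ∈ D, 1 / (e : ℝ)
      ≤ 4 * (Real.exp x / x) * (η / 4 * LSieve.V (EP E 0 (Real.exp x))) :=
        mul_le_mul_of_nonneg_left hsum (by positivity)
    _ = _ := by ring

end Pool.Agent.LibThin21
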