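import Pool.Agent.LibThin21.D1
import Pool.Agent.LibThin21.D3
import Pool.Agent.LibThin21.D4

/-!
The expected number of elements up to `N` is asymptotic to `N / log N`.
-/

namespace Pool.Agent.LibThin21

open Filter Topology MeasureTheory ProbabilityTheory

variable {Ω : Type*} [MeasurableSpace Ω] {μ : Measure Ω} [IsProbabilityMeasure μ] {E : Set ℕ}
  {a : ℕ → Ω → ℕ}

lemma EP_factor {E : Set ℕ} {u v : ℝ} (hv : 0 ≤ v) {p : ℕ} (hp : p ∈ EP E u v) :
    0 ≤ 1 - 1 / (p : ℝ) ∧ 1 - 1 / (p : ℝ) ≤ 1 := by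
  have h1 := ((mem_EP hv).1 hp).1
  have h2 : (1 : ℝ) ≤ (p : ℝ) := by exact_mod_cast h1.one_lt.le
  have h3 : 1 / (p : ℝ) ≤ 1 := by
    rw [div_le_one (by linarith)]
    exact h2
  have h4 : 0 ≤ 1 / (p : ℝ) := by positivity
  constructor <;> linarith

lemma EP_prod_anti {E : Set ℕ} {v w : ℝ} (hv : 0 ≤ v) (hvw : v ≤ w) :
    ∏ p ∈ EP E 0 w, (1 - 1 / (p : ℝ)) ≤ ∏ p ∈ EP E 0 v, (1 - 1 / (p : ℝ)) := by
  have hw : 0 ≤ w := hv.trans hvw
  have hsub : EP E 0 v ⊆ EP E 0 w := by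
    intro p hp
    rw [mem_EP hv] at hp
    rw [mem_EP hw]
    exact ⟨hp.1, hp.2.1, hp.2.2.1, hp.2.2.2.trans hvw⟩
  rw [← Finset.prod_sdiff hsub]
  have h1 : ∏ p ∈ EP E 0 w \ EP E 0 v, (1 - 1 / (p : ℝ)) ≤ 1 := by
    apply Finset.prod_le_one
    · intro p hp
      exact (EP_factor hw (Finset.mem_sdiff.1 hp).1).1
    · intro p hp
      exact (EP_factor hw (Finset.mem_sdiff.1 hp).1).2
  have h2 : 0 ≤ ∏ p ∈ EP E 0 v, (1 - 1 / (p : ℝ)) :=
    Finset.prod_nonneg fun p hp => (EP_factor hv hp).1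
  calc (∏ p ∈ EP E 0 w \ EP E 0 v, (1 - 1 / (p : ℝ))) * ∏ p ∈ EP E 0 v, (1 - 1 / (p : ℝ))
      ≤ 1 * ∏ p ∈ EP E 0 v, (1 - 1 / (p : ℝ)) := mul_le_mul_of_nonneg_right h1 h2
    _ = ∏ p ∈ EP E 0 v, (1 - 1 / (p : ℝ)) := one_mul _

lemma V_top {E : Set ℕ} (hE : Thin E) {η : ℝ} (hη : 0 < η) :
    ∀ᶠ x : ℝ in atTop, LSieve.V (EP E 0 (Real.exp x)) ≤
      (1 + η) * LSieve.V (EP E 0 (Real.exp (x / 4))) := by
  have hl : 0 < Real.log (1 + η) / 2 := by
    have := Real.log_pos (show 1 < 1 + η by linarith)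
    linarith
  filter_upwards [SE_top' hE hl (show (0 : ℝ) < 1 / 4 by norm_num), eventually_ge_atTop (0 : ℝ)]
    with x hx hx0
  have hA : ∀ p ∈ EP E 0 (Real.exp (x / 4)), p.Prime := fun p hp =>
    ((mem_EP (Real.exp_pos _).le).1 hp).1
  have hB : ∀ p ∈ EP E (Real.exp (x / 4)) (Real.exp x), p.Prime := fun p hp =>
    ((mem_EP (Real.exp_pos _).le).1 hp).1
  have hAB : EP E 0 (Real.exp x) = EP E 0 (Real.exp (x / 4)) ∪
      EP E (Real.exp (x / 4)) (Real.exp x) := by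
    ext p
    rw [Finset.mem_union, mem_EP (Real.exp_pos _).le, mem_EP (Real.exp_pos _).le,
      mem_EP (Real.exp_pos _).le]
    have h1 : Real.exp (x / 4) ≤ Real.exp x := Real.exp_le_exp.2 (by linarith)
    constructor
    · rintro ⟨h2, h3, h4, h5⟩
      rcases le_or_gt (p : ℝ) (Real.exp (x / 4)) with h6 | h6
      · exact Or.inl ⟨h2, h3, h4, h6⟩
      · exact Or.inr ⟨h2, h3, h6, h5⟩
    · rintro (⟨h2, h3, h4, h5⟩ | ⟨h2, h3, h4, h5⟩)
      · exact ⟨h2, h3, h4, h5.trans h1⟩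
      · exact ⟨h2, h3, by exact_mod_cast h2.pos, h5⟩
  have h1 : LSieve.V (EP E (Real.exp (x / 4)) (Real.exp x)) ≤ 1 + η := by
    refine (V_le_exp hB).trans ?_
    have h2 : ∑ p ∈ EP E (Real.exp (x / 4)) (Real.exp x), 1 / (p : ℝ) ≤ Real.log (1 + η) / 2 := by
      have h3 : SE E (Real.exp (x / 4)) (Real.exp x) ≤
          SE E (Real.exp (1 / 4 * x)) (Real.exp (2 * x)) := by
        apply SE_mono
        · apply le_of_eq
          congr 1
          ring
        · exact Real.exp_le_exp.2 (by linarith)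
      exact h3.trans hx
    calc Real.exp (2 * ∑ p ∈ EP E (Real.exp (x / 4)) (Real.exp x), 1 / (p : ℝ)) ≤
          Real.exp (Real.log (1 + η)) := Real.exp_le_exp.2 (by linarith)
      _ = 1 + η := Real.exp_log (by linarith)
  have hVA : 1 ≤ LSieve.V (EP E 0 (Real.exp (x / 4))) := one_le_V hA
  rw [hAB]
  calc LSieve.V (EP E 0 (Real.exp (x / 4)) ∪ EP E (Real.exp (x / 4)) (Real.exp x)) ≤
        LSieve.V (EP E 0 (Real.exp (x / 4))) * LSieve.V (EP E (Real.exp (x / 4)) (Real.exp x)) :=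
        V_union_le hA hB
    _ ≤ LSieve.V (EP E 0 (Real.exp (x / 4))) * (1 + η) :=
        mul_le_mul_of_nonneg_left h1 (by linarith)
    _ = (1 + η) * LSieve.V (EP E 0 (Real.exp (x / 4))) := mul_comm _ _

/-- the expected count, both bounds -/
lemma count_bounds {E : Set ℕ} (hE : Thin E) {η : ℝ} (hη : 0 < η) (hη1 : η ≤ 1) :
    ∀ᶠ x : ℝ in atTop, (1 - η) * (Real.exp x / x) ≤
        ∑ n ∈ Sv E ⌊Real.exp x⌋₊, ∏ p ∈ EP E 0 (Real.sqrt n), (1 - 1 / (p : ℝ)) ∧
      ∑ n ∈ Sv E ⌊Real.exp x⌋₊, ∏ p ∈ EP E 0 (Real.sqrt n), (1 - 1 / (p : ℝ)) ≤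
        (1 + 4 * η) * (Real.exp x / x) := by
  classical
  have hsmall : ∀ᶠ x : ℝ in atTop, Real.exp (x / 2) ≤ η * (Real.exp x / x) := by
    have h1 : Tendsto (fun x : ℝ => Real.exp (x / 2) / (x / 2) ^ 1) atTop atTop :=
      (Real.tendsto_exp_div_pow_atTop 1).comp (tendsto_id.atTop_div_const (by norm_num))
    filter_upwards [h1.eventually_ge_atTop (2 / η), eventually_gt_atTop (0 : ℝ)] with x hx hx0
    rw [pow_one, div_le_div_iff₀ hη (by positivity)] at hx
    have h2 : Real.exp x = Real.exp (x / 2) * Real.exp (x / 2) := by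
      rw [← Real.exp_add]
      congr 1
      ring
    have h3 : 0 < Real.exp (x / 2) := Real.exp_pos _
    rw [h2]
    have h4 : x ≤ η * Real.exp (x / 2) := by linarith
    calc Real.exp (x / 2) = x * Real.exp (x / 2) / x := by field_simp
      _ ≤ η * Real.exp (x / 2) * Real.exp (x / 2) / x := by gcongr
      _ = η * (Real.exp (x / 2) * Real.exp (x / 2) / x) := by ring
  filter_upwards [sv_lower hE hη, sv_upper hE hη, V_top hE hη, hsmall, eventually_ge_atTop (1 : ℝ)]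
    with x h1 h2 h3 h4 hx
  have hpr : ∀ w : ℝ, 0 ≤ w → ∀ p ∈ EP E 0 w, p.Prime := fun w hw p hp => ((mem_EP hw).1 hp).1
  have hV1 : 1 ≤ LSieve.V (EP E 0 (Real.exp x)) := one_le_V (hpr _ (Real.exp_pos _).le)
  have hV4 : 1 ≤ LSieve.V (EP E 0 (Real.exp (x / 4))) := one_le_V (hpr _ (Real.exp_pos _).le)
  set V := LSieve.V (EP E 0 (Real.exp x)) with hVd
  have hV0 : 0 < V := by linarith
  have hy : 0 < Real.exp x / x := by
    have : 0 < x := by linarith
    positivity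
  constructor
  · have h5 : ∀ n ∈ Sv E ⌊Real.exp x⌋₊,
        1 / V ≤ ∏ p ∈ EP E 0 (Real.sqrt n), (1 - 1 / (p : ℝ)) := by
      intro n hn
      obtain ⟨⟨hn1, hn2⟩, -⟩ := mem_Sv.1 hn
      rw [hVd, ← prod_one_sub_eq (hpr _ (Real.exp_pos _).le)]
      apply EP_prod_anti (Real.sqrt_nonneg _)
      have h6 : (n : ℝ) ≤ Real.exp x := (Nat.le_floor_iff (Real.exp_pos _).le).1 hn2
      have h7 : (1 : ℝ) ≤ (n : ℝ) := by exact_mod_cast hn1
      refine le_trans ?_ h6
      rw [Real.sqrt_le_left (by linarith)]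
      nlinarith
    calc (1 - η) * (Real.exp x / x) = (1 - η) * V * (Real.exp x / x) * (1 / V) := by
          field_simp
      _ ≤ ((Sv E ⌊Real.exp x⌋₊).card : ℝ) * (1 / V) :=
          mul_le_mul_of_nonneg_right h1 (by positivity)
      _ = ∑ n ∈ Sv E ⌊Real.exp x⌋₊, 1 / V := by rw [Finset.sum_const, nsmul_eq_mul]
      _ ≤ _ := Finset.sum_le_sum h5
  · have h5 : ∀ n ∈ Sv E ⌊Real.exp x⌋₊,
        ∏ p ∈ EP E 0 (Real.sqrt n), (1 - 1 / (p : ℝ)) ≤
          (if (n : ℝ) ≤ Real.exp (x / 2) then 1 else 0) + (1 + η) * (1 / V) := by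
      intro n hn
      have hpos : 0 ≤ (1 + η) * (1 / V) := by positivity
      split_ifs with hc
      · have h6 : ∏ p ∈ EP E 0 (Real.sqrt n), (1 - 1 / (p : ℝ)) ≤ 1 := by
          apply Finset.prod_le_one
          · intro p hp
            exact (EP_factor (Real.sqrt_nonneg _) hp).1
          · intro p hp
            exact (EP_factor (Real.sqrt_nonneg _) hp).2
        linarith
      · push Not at hc
        rw [zero_add]
        have h6 : Real.exp (x / 4) ≤ Real.sqrt n := by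
          rw [Real.le_sqrt' (Real.exp_pos _), ← Real.exp_nat_mul]
          refine le_trans (le_of_eq ?_) hc.le
          congr 1
          push_cast
          ring
        refine (EP_prod_anti (E := E) (Real.exp_pos _).le h6).trans ?_
        rw [prod_one_sub_eq (hpr _ (Real.exp_pos _).le), mul_one_div,
          div_le_div_iff₀ (by linarith) hV0, one_mul]
        exact h3
    have h6 : ∑ n ∈ Sv E ⌊Real.exp x⌋₊, (if (n : ℝ) ≤ Real.exp (x / 2) then (1 : ℝ) else 0) ≤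
        Real.exp (x / 2) := by
      rw [← Finset.sum_filter, Finset.sum_const, nsmul_eq_mul, mul_one]
      have h7 : (Sv E ⌊Real.exp x⌋₊).filter (fun n : ℕ => (n : ℝ) ≤ Real.exp (x / 2)) ⊆
          Finset.Icc 1 ⌊Real.exp (x / 2)⌋₊ := by
        intro n hn
        rw [Finset.mem_filter] at hn
        rw [Finset.mem_Icc]
        exact ⟨(mem_Sv.1 hn.1).1.1, Nat.le_floor hn.2⟩
      have h8 := Finset.card_le_card h7
      rw [Nat.card_Icc, Nat.add_sub_cancel] at h8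
      exact (Nat.cast_le.2 h8).trans (Nat.floor_le (Real.exp_pos _).le)
    calc ∑ n ∈ Sv E ⌊Real.exp x⌋₊, ∏ p ∈ EP E 0 (Real.sqrt n), (1 - 1 / (p : ℝ)) ≤
          ∑ n ∈ Sv E ⌊Real.exp x⌋₊,
            ((if (n : ℝ) ≤ Real.exp (x / 2) then (1 : ℝ) else 0) + (1 + η) * (1 / V)) :=
          Finset.sum_le_sum h5
      _ ≤ Real.exp (x / 2) + ((Sv E ⌊Real.exp x⌋₊).card : ℝ) * ((1 + η) * (1 / V)) := by
          rw [Finset.sum_add_distrib, Finset.sum_const, nsmul_eq_mul]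
          linarith
      _ ≤ η * (Real.exp x / x) + ((1 + η) * V * (Real.exp x / x)) * ((1 + η) * (1 / V)) := by
          apply add_le_add h4
          exact mul_le_mul_of_nonneg_right h2 (by positivity)
      _ = (η + (1 + η) ^ 2) * (Real.exp x / x) := by
          field_simp
      _ ≤ (1 + 4 * η) * (Real.exp x / x) := by
          apply mul_le_mul_of_nonneg_right _ hy.le
          nlinarith

open Classical in
theorem density (hE : Thin E) (hM : Model μ E a) :
    Tendsto (fun N : ℕ => (∫ ω, (((Finset.Icc 1 N).filter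
      (fun n => n ∈ sifted (fun p => a p ω))).card : ℝ) ∂μ) * Real.log N / N) atTop (𝓝 1) := by
  have hlog : Tendsto (fun N : ℕ => Real.log (N : ℝ)) atTop atTop :=
    Real.tendsto_log_atTop.comp tendsto_natCast_atTop_atTop
  have hb : ∀ η : ℝ, 0 < η → η ≤ 1 → ∀ᶠ N : ℕ in atTop,
      1 - η ≤ (∫ ω, (((Finset.Icc 1 N).filter
        (fun n => n ∈ sifted (fun p => a p ω))).card : ℝ) ∂μ) * Real.log N / N ∧
      (∫ ω, (((Finset.Icc 1 N).filter
        (fun n => n ∈ sifted (fun p => a p ω))).card : ℝ) ∂μ) * Real.log N / N ≤ 1 + 4 * η := by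
    intro η hη hη1
    filter_upwards [hlog.eventually (count_bounds hE hη hη1), eventually_ge_atTop 3] with N hN hN3
    have hN0 : (0 : ℝ) < (N : ℝ) := by
      have : (3 : ℝ) ≤ (N : ℝ) := by exact_mod_cast hN3
      linarith
    have hl : 0 < Real.log (N : ℝ) := by
      apply Real.log_pos
      have : (3 : ℝ) ≤ (N : ℝ) := by exact_mod_cast hN3
      linarith
    rw [Real.exp_log hN0, Nat.floor_natCast] at hN
    rw [integral_count hM N]
    obtain ⟨h1, h2⟩ := hN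
    constructor
    · rw [le_div_iff₀ hN0]
      rw [← mul_div_assoc, div_le_iff₀ hl] at h1
      exact h1
    · rw [div_le_iff₀ hN0]
      rw [← mul_div_assoc, le_div_iff₀ hl] at h2
      exact h2
  rw [Metric.tendsto_nhds]
  intro ε hε
  have hη : 0 < min (ε / 8) 1 := lt_min (by positivity) one_pos
  filter_upwards [hb _ hη (min_le_right _ _)] with N hN
  have h1 : min (ε / 8) 1 ≤ ε / 8 := min_le_left _ _
  rw [Real.dist_eq, abs_lt]
  constructor <;> linarith [hN.1, hN.2]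

end Pool.Agent.LibThin21
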