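import Pool.Agent.LibThin21.R2
import Pool.Agent.LibThin21.R3

/-!
Several rows with `K` survivors each: with high probability one of them is completely hit.
-/

namespace Pool.Agent.LibThin21

open Filter Topology MeasureTheory ProbabilityTheory

variable {Ω : Type*} [MeasurableSpace Ω] {μ : Measure Ω} [IsProbabilityMeasure μ] {E : Set ℕ}
  {a : ℕ → Ω → ℕ}

lemma one_sub_sum_le_prod (P : Finset ℕ) (f : ℕ → ℝ) (h : ∀ p ∈ P, 0 ≤ f p ∧ f p ≤ 1) :
    1 - ∑ p ∈ P, f p ≤ ∏ p ∈ P, (1 - f p) := by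
  classical
  induction P using Finset.induction_on with
  | empty => simp
  | insert p P hp ih =>
    rw [Finset.sum_insert hp, Finset.prod_insert hp]
    have h1 := ih fun r hr => h r (Finset.mem_insert_of_mem hr)
    have h2 := h p (Finset.mem_insert_self p P)
    have h3 : ∏ r ∈ P, (1 - f r) ≤ 1 := by
      apply Finset.prod_le_one
      · intro r hr
        have := h r (Finset.mem_insert_of_mem hr)
        linarith
      · intro r hr
        have := h r (Finset.mem_insert_of_mem hr)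
        linarith
    nlinarith [h2.1, h2.2]

/-- the elements of a short row are distinct modulo a large prime -/
lemma row_distinct {q c k h p : ℕ} {T : Finset ℕ} (hT : T ⊆ Finset.Icc 1 h) (hp : h < p) :
    ∀ v ∈ T.image (fun i => k * q + c + i), ∀ w ∈ T.image (fun i => k * q + c + i),
      v ≡ w [MOD p] → v = w := by
  intro v hv w hw hvw
  obtain ⟨i, hi, rfl⟩ := Finset.mem_image.1 hv
  obtain ⟨j, hj, rfl⟩ := Finset.mem_image.1 hw
  have hi' := Finset.mem_Icc.1 (hT hi)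
  have hj' := Finset.mem_Icc.1 (hT hj)
  have h1 : i ≡ j [MOD p] := Nat.ModEq.add_left_cancel' _ hvw
  have h2 : i = j := Nat.ModEq.eq_of_lt_of_lt h1 (by omega) (by omega)
  rw [h2]

open Classical in
theorem rows_core (hM : Model μ E a) {P s : Finset ℕ} (hP : ∀ p ∈ P, p.Prime ∧ p ∈ E)
    {q c h K : ℕ} (T : ℕ → Finset ℕ) (hT : ∀ k ∈ s, T k ⊆ Finset.Icc 1 h)
    (hTK : ∀ k ∈ s, (T k).card = K) (hhq : h < q) (hbig : ∀ p ∈ P, 2 * K ≤ p ∧ h < p)
    {w : ℕ → ℝ} {wm W η y τ : ℝ} (hy : y = 1 - ∏ p ∈ P, (1 - 1 / (p : ℝ))) (hy0 : 0 < y)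
    (hη0 : 0 ≤ η) (hη1 : η ≤ 1 / 2)
    (hw : ∀ k ∈ s, 0 ≤ w k) (hwm : ∀ k ∈ s, w k ≤ wm) (hW : ∑ k ∈ s, w k = W) (hW0 : 0 < W)
    (hS2 : (K.choose 2 : ℝ) * (∑ p ∈ P, 1 / (p : ℝ) ^ 2) ≤ η * y ^ 2)
    (hcom : ∀ k ∈ s, ∀ l ∈ s, k ≠ l →
      ∑ p ∈ P.filter (fun p => ∃ i ∈ Finset.Icc 1 h, ∃ j ∈ Finset.Icc 1 h,
        k * q + c + i ≡ l * q + c + j [MOD p]), 1 / (p : ℝ) ≤ τ)
    (hτ0 : 0 ≤ τ) (hτ : τ ≤ y / 2) (hexp : Real.exp (8 * K * τ / y ^ 2) ≤ 1 + η) :
    1 - 8 * η - 8 * (wm / (W * y ^ K)) ≤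
      μ.real (⋃ k ∈ s, {ω | ∀ i ∈ T k, ∃ p ∈ P, k * q + c + i ≡ a p ω [MOD p]}) := by
  have hy1 : y ≤ 1 := by
    rw [hy]
    have : 0 ≤ ∏ p ∈ P, (1 - 1 / (p : ℝ)) := by
      apply Finset.prod_nonneg
      intro p hp
      have h1 : (1 : ℝ) ≤ (p : ℝ) := by exact_mod_cast (hP p hp).1.one_lt.le
      have h2 : 1 / (p : ℝ) ≤ 1 := by
        rw [div_le_one (by linarith)]
        exact h1
      linarith
    linarith
  set V : ℕ → Finset ℕ := fun k => (T k).image (fun i => k * q + c + i) with hV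
  set G : ℕ → Set Ω := fun k => {ω | ∀ v ∈ V k, ∃ p ∈ P, v ≡ a p ω [MOD p]} with hG
  have hGeq : ∀ k, {ω | ∀ i ∈ T k, ∃ p ∈ P, k * q + c + i ≡ a p ω [MOD p]} = G k := by
    intro k
    ext ω
    simp only [hG, hV, Set.mem_setOf_eq, Finset.mem_image, forall_exists_index, and_imp,
      forall_apply_eq_imp_iff₂]
  simp only [hGeq]
  have hVcard : ∀ k ∈ s, (V k).card = K := by
    intro k hk
    rw [hV, ← hTK k hk]
    exact Finset.card_image_of_injective _ (add_right_injective (k * q + c))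
  have hVd : ∀ k ∈ s, ∀ p ∈ P, ∀ v ∈ V k, ∀ w ∈ V k, v ≡ w [MOD p] → v = w := fun k hk p hp =>
    row_distinct (hT k hk) (hbig p hp).2
  have hyK : 0 < y ^ K := pow_pos hy0 K
  refine second_moment (μ := μ) s w G (fun k _ => measurableSet_cov hM P (V k)) hyK hη0 hη1 hw hwm
    hW hW0 ?_ ?_ ?_
  · intro k hk
    have h1 := le_cov (μ := μ) (a := a) hM hP (V := V k) (fun p hp =>
      ⟨by rw [hVcard k hk]; have := (hbig p hp).1; omega, hVd k hk p hp⟩)
    rw [hVcard k hk, ← hy] at h1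
    have h2 : (K.choose 2 : ℝ) * (∑ p ∈ P, 1 / (p : ℝ) ^ 2) * y ^ (K - 2) ≤ η * y ^ K := by
      rcases le_or_gt 2 K with h3 | h3
      · have h4 : y ^ K = y ^ 2 * y ^ (K - 2) := by
          rw [← pow_add]
          congr 1
          omega
        rw [h4, ← mul_assoc]
        exact mul_le_mul_of_nonneg_right hS2 (pow_nonneg hy0.le _)
      · rw [Nat.choose_eq_zero_of_lt h3]
        simp only [Nat.cast_zero, zero_mul]
        positivity
    have h5 : μ.real (G k) = cov μ a P (V k) := rfl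
    rw [h5]
    linarith
  · intro k hk
    have h1 := cov_le (μ := μ) (a := a) hM hP (V := V k) (fun p hp =>
      ⟨by rw [hVcard k hk]; have := (hbig p hp).1; omega, hVd k hk p hp⟩)
    rw [hVcard k hk, ← hy] at h1
    have h5 : μ.real (G k) = cov μ a P (V k) := rfl
    rw [h5]
    nlinarith
  · intro k hk l hl hkl
    set P1 := P.filter (fun p => ∃ i ∈ Finset.Icc 1 h, ∃ j ∈ Finset.Icc 1 h,
        k * q + c + i ≡ l * q + c + j [MOD p]) with hP1
    set P0 := P.filter (fun p => ¬ ∃ i ∈ Finset.Icc 1 h, ∃ j ∈ Finset.Icc 1 h,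
        k * q + c + i ≡ l * q + c + j [MOD p]) with hP0
    have hdisj : Disjoint P0 P1 := by
      rw [Finset.disjoint_left]
      intro p hp0 hp1
      exact (Finset.mem_filter.1 hp0).2 (Finset.mem_filter.1 hp1).2
    have hunion : P0 ∪ P1 = P := by
      rw [Finset.union_comm]
      exact Finset.filter_union_filter_not_eq _ _
    have hP0s : P0 ⊆ P := Finset.filter_subset _ _
    have hP1s : P1 ⊆ P := Finset.filter_subset _ _
    have hcardV : (V k ∪ V l).card = 2 * K := by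
      rw [Finset.card_union_of_disjoint, hVcard k hk, hVcard l hl, two_mul]
      rw [Finset.disjoint_left]
      intro v hvk hvl
      obtain ⟨i, hi, hi2⟩ := Finset.mem_image.1 hvk
      obtain ⟨j, hj, hj2⟩ := Finset.mem_image.1 hvl
      have hi' := Finset.mem_Icc.1 (hT k hk hi)
      have hj' := Finset.mem_Icc.1 (hT l hl hj)
      rcases lt_or_gt_of_ne hkl with h1 | h1
      · have h2 : (k + 1) * q ≤ l * q := Nat.mul_le_mul_right q h1
        rw [add_mul, one_mul] at h2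
        omega
      · have h2 : (l + 1) * q ≤ k * q := Nat.mul_le_mul_right q h1
        rw [add_mul, one_mul] at h2
        omega
    have hf : ∀ p ∈ P, 0 ≤ 1 / (p : ℝ) ∧ 1 / (p : ℝ) ≤ 1 := by
      intro p hp
      have h1 : (1 : ℝ) ≤ (p : ℝ) := by exact_mod_cast (hP p hp).1.one_lt.le
      refine ⟨by positivity, ?_⟩
      rw [div_le_one (by linarith)]
      exact h1
    have hprodP1 : 1 - τ ≤ ∏ p ∈ P1, (1 - 1 / (p : ℝ)) := by
      have h1 := one_sub_sum_le_prod P1 (fun p => 1 / (p : ℝ)) fun p hp => hf p (hP1s hp)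
      have h2 := hcom k hk l hl hkl
      linarith
    have hprod : (∏ p ∈ P0, (1 - 1 / (p : ℝ))) * ∏ p ∈ P1, (1 - 1 / (p : ℝ)) =
        ∏ p ∈ P, (1 - 1 / (p : ℝ)) := by
      rw [← Finset.prod_union hdisj, hunion]
    have hQ0 : 0 ≤ ∏ p ∈ P0, (1 - 1 / (p : ℝ)) := Finset.prod_nonneg fun p hp => by
      linarith [(hf p (hP0s hp)).2]
    have hQ0' : ∏ p ∈ P0, (1 - 1 / (p : ℝ)) ≤ 1 := Finset.prod_le_one
      (fun p hp => by linarith [(hf p (hP0s hp)).2]) (fun p hp => by linarith [(hf p (hP0s hp)).1])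
    have hQ1 : ∏ p ∈ P1, (1 - 1 / (p : ℝ)) ≤ 1 := Finset.prod_le_one
      (fun p hp => by linarith [(hf p (hP1s hp)).2]) (fun p hp => by linarith [(hf p (hP1s hp)).1])
    set y0 := 1 - ∏ p ∈ P0, (1 - 1 / (p : ℝ)) with hy0d
    have hy0le : y0 ≤ y := by
      rw [hy, hy0d, ← hprod]
      nlinarith
    have hy0ge : y / 2 ≤ y0 := by
      have h1 : y = 1 - (∏ p ∈ P0, (1 - 1 / (p : ℝ))) * ∏ p ∈ P1, (1 - 1 / (p : ℝ)) := by
        rw [hprod]
        exact hy
      have h2 : (∏ p ∈ P0, (1 - 1 / (p : ℝ))) * (1 - τ) ≤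
          (∏ p ∈ P0, (1 - 1 / (p : ℝ))) * ∏ p ∈ P1, (1 - 1 / (p : ℝ)) :=
        mul_le_mul_of_nonneg_left hprodP1 hQ0
      have h3 : (∏ p ∈ P0, (1 - 1 / (p : ℝ))) * τ ≤ 1 * τ := mul_le_mul_of_nonneg_right hQ0' hτ0
      nlinarith
    have hy0pos : 0 < y0 := by linarith
    have hmain := cov_two_le (μ := μ) (a := a) hM (P0 := P0) (P1 := P1) (V := V k ∪ V l) hdisj
      (fun p hp => hP p (hP0s hp)) (fun p hp => hP p (hP1s hp)) (by
        intro p hp
        have hpP := hP0s hp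
        refine ⟨by rw [hcardV]; exact (hbig p hpP).1, ?_⟩
        intro v hv u hu hvu
        have hnot := (Finset.mem_filter.1 hp).2
        have hcross : ∀ v ∈ V k, ∀ u ∈ V l, ¬ v ≡ u [MOD p] := by
          intro v hv u hu hvu
          obtain ⟨i, hi, hi2⟩ := Finset.mem_image.1 hv
          obtain ⟨j, hj, hj2⟩ := Finset.mem_image.1 hu
          have hex : ∃ i ∈ Finset.Icc 1 h, ∃ j ∈ Finset.Icc 1 h,
              k * q + c + i ≡ l * q + c + j [MOD p] := by
            refine ⟨i, hT k hk hi, j, hT l hl hj, ?_⟩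
            rw [hi2, hj2]
            exact hvu
          exact hnot hex
        rw [Finset.mem_union] at hv hu
        rcases hv with hv | hv <;> rcases hu with hu | hu
        · exact hVd k hk p hpP v hv u hu hvu
        · exact absurd hvu (hcross v hv u hu)
        · exact absurd hvu.symm (hcross u hu v hv)
        · exact hVd l hl p hpP v hv u hu hvu) (by
        intro p hp r
        have hpP := hP1s hp
        have hone : ∀ k' ∈ s, ((V k').filter (fun v => v ≡ r [MOD p])).card ≤ 1 := by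
          intro k' hk'
          rw [Finset.card_le_one]
          intro v hv u hu
          rw [Finset.mem_filter] at hv hu
          exact hVd k' hk' p hpP v hv.1 u hu.1 (hv.2.trans hu.2.symm)
        rw [Finset.filter_union]
        refine (Finset.card_union_le _ _).trans ?_
        have h1 := hone k hk
        have h2 := hone l hl
        omega) (y := y0) hy0d hy0pos
    rw [hunion, hcardV] at hmain
    have hGG : G k ∩ G l = {ω | ∀ v ∈ V k ∪ V l, ∃ p ∈ P, v ≡ a p ω [MOD p]} := by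
      ext ω
      simp only [hG, Set.mem_inter_iff, Set.mem_setOf_eq, Finset.mem_union]
      constructor
      · rintro ⟨h1, h2⟩ v (hv | hv)
        · exact h1 v hv
        · exact h2 v hv
      · intro h1
        exact ⟨fun v hv => h1 v (Or.inl hv), fun v hv => h1 v (Or.inr hv)⟩
    rw [hGG]
    have hmain' : μ.real {ω | ∀ v ∈ V k ∪ V l, ∃ p ∈ P, v ≡ a p ω [MOD p]} ≤
        y0 ^ (2 * K) * ∏ p ∈ P1, (1 + ((2 * K : ℕ) : ℝ) / (p * y0 ^ 2)) := hmain
    have hprodle : ∏ p ∈ P1, (1 + ((2 * K : ℕ) : ℝ) / (p * y0 ^ 2)) ≤ 1 + η := by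
      calc ∏ p ∈ P1, (1 + ((2 * K : ℕ) : ℝ) / (p * y0 ^ 2)) ≤
            ∏ p ∈ P1, Real.exp (((2 * K : ℕ) : ℝ) / (p * y0 ^ 2)) := by
            apply Finset.prod_le_prod
            · intro p _
              positivity
            · intro p _
              have := Real.add_one_le_exp (((2 * K : ℕ) : ℝ) / (p * y0 ^ 2))
              linarith
        _ = Real.exp (((2 * K : ℕ) : ℝ) / y0 ^ 2 * ∑ p ∈ P1, 1 / (p : ℝ)) := by
            rw [← Real.exp_sum, Finset.mul_sum]
            congr 1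
            apply Finset.sum_congr rfl
            intro p _
            rw [div_mul_div_comm, mul_one, mul_comm (p : ℝ)]
        _ ≤ Real.exp (8 * K * τ / y ^ 2) := by
            apply Real.exp_le_exp.2
            have h1 : ((2 * K : ℕ) : ℝ) / y0 ^ 2 ≤ 8 * K / y ^ 2 := by
              rw [div_le_div_iff₀ (by positivity) (by positivity)]
              push_cast
              have h2 : y ^ 2 ≤ 4 * y0 ^ 2 := by nlinarith
              have hK0 : (0 : ℝ) ≤ K := Nat.cast_nonneg K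
              nlinarith
            have h3 : 0 ≤ ∑ p ∈ P1, 1 / (p : ℝ) := Finset.sum_nonneg fun p _ => by positivity
            calc ((2 * K : ℕ) : ℝ) / y0 ^ 2 * ∑ p ∈ P1, 1 / (p : ℝ) ≤
                  8 * K / y ^ 2 * τ := mul_le_mul h1 (hcom k hk l hl hkl) h3 (by positivity)
              _ = 8 * K * τ / y ^ 2 := by ring
        _ ≤ 1 + η := hexp
    have hprod0 : 0 ≤ ∏ p ∈ P1, (1 + ((2 * K : ℕ) : ℝ) / (p * y0 ^ 2)) :=
      Finset.prod_nonneg fun p _ => by positivity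
    calc μ.real {ω | ∀ v ∈ V k ∪ V l, ∃ p ∈ P, v ≡ a p ω [MOD p]} ≤
          y0 ^ (2 * K) * ∏ p ∈ P1, (1 + ((2 * K : ℕ) : ℝ) / (p * y0 ^ 2)) := hmain'
      _ ≤ y ^ (2 * K) * (1 + η) := by
          apply mul_le_mul _ hprodle hprod0 (by positivity)
          exact pow_le_pow_left₀ hy0pos.le hy0le _
      _ = (1 + η) * (y ^ K) ^ 2 := by
          rw [mul_comm 2 K, pow_mul]
          ring

end Pool.Agent.LibThin21
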