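import Pool.Agent.LibThin21.D5
import Pool.Agent.LibThin21.Conv
import Pool.Agent.LibThin21.R6c
import Pool.Agent.LibPNT.PNT

/-!
The expected size of the symmetric difference of the sifted set and the primes.
-/

namespace Pool.Agent.LibThin21

open Filter Topology MeasureTheory ProbabilityTheory

variable {Ω : Type*} [MeasurableSpace Ω] {μ : Measure Ω} [IsProbabilityMeasure μ] {E : Set ℕ}
  {a : ℕ → Ω → ℕ}

open Classical in
lemma integral_card_filter {S : Finset ℕ} (A : ℕ → Set Ω) (hA : ∀ n, MeasurableSet (A n)) :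
    ∫ ω, ((S.filter (fun n => ω ∈ A n)).card : ℝ) ∂μ = ∑ n ∈ S, μ.real (A n) := by
  have h1 : ∀ ω, ((S.filter (fun n => ω ∈ A n)).card : ℝ) =
      ∑ n ∈ S, ((A n).indicator (fun _ => (1 : ℝ)) ω) := by
    intro ω
    rw [Finset.card_filter, Nat.cast_sum]
    refine Finset.sum_congr rfl fun n _ => ?_
    by_cases h : ω ∈ A n
    · rw [if_pos h, Set.indicator_of_mem h]
      simp
    · rw [if_neg h, Set.indicator_of_notMem h]
      simp
  simp only [h1]
  rw [integral_finset_sum]
  · apply Finset.sum_congr rfl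
    intro n _
    rw [integral_indicator (hA n)]
    simp
  · intro n _
    exact (integrable_const (1 : ℝ)).indicator (hA n)

/-- a prime stays in the sifted set with probability at least `1 - ∑ 1/p` -/
lemma prime_stays (hM : Model μ E a) (hs : Summable (rE E)) {n : ℕ} (hn : n.Prime) :
    1 - ∑' p, rE E p ≤ μ.real {ω | n ∈ sifted (fun p => a p ω)} := by
  have h1 : n ∈ Sv E n := by
    rw [mem_Sv]
    refine ⟨⟨hn.one_lt.le, le_rfl⟩, fun p hp _ hpn hpd => ?_⟩
    have h2 : p = n := (Nat.prime_dvd_prime_iff_eq hp hn).1 hpd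
    subst h2
    nlinarith [hp.one_lt]
  rw [D1_in hM h1]
  refine le_trans ?_ (one_sub_sum_le_prod (EP E 0 (Real.sqrt n)) (fun p => 1 / (p : ℝ)) ?_)
  · have h2 := SE_le_tsum hs (u := 0) (Real.sqrt_nonneg (n : ℝ))
    unfold SE at h2
    linarith
  · intro p hp
    have h3 := EP_factor (Real.sqrt_nonneg _) hp
    constructor <;> linarith

open Classical in
theorem symm_diff (hM : Model μ E a) (hs : Summable (rE E)) {η : ℝ} (hη : 0 < η) :
    ∀ᶠ N : ℕ in atTop, (∫ ω, (((Finset.Icc 1 N).filter
      (fun n => ¬ (n ∈ sifted (fun p => a p ω) ↔ n.Prime))).card : ℝ) ∂μ) * Real.log N / N ≤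
        2 * ∑' p, rE E p + η := by
  set σ := ∑' p, rE E p with hσ
  have hE : Thin E := thin_of_summable hs
  have hmeas : ∀ n, MeasurableSet {ω | ¬ (n ∈ sifted (fun p => a p ω) ↔ n.Prime)} := by
    intro n
    by_cases hn : n.Prime
    · have h1 : {ω | ¬ (n ∈ sifted (fun p => a p ω) ↔ n.Prime)} =
          {ω | n ∈ sifted (fun p => a p ω)}ᶜ := by
        ext ω
        simp [hn]
      rw [h1]
      exact (D1_meas hM.meas n).compl
    · have h1 : {ω | ¬ (n ∈ sifted (fun p => a p ω) ↔ n.Prime)} =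
          {ω | n ∈ sifted (fun p => a p ω)} := by
        ext ω
        simp [hn]
      rw [h1]
      exact D1_meas hM.meas n
  have hbound : ∀ N : ℕ, ∫ ω, (((Finset.Icc 1 N).filter
      (fun n => ¬ (n ∈ sifted (fun p => a p ω) ↔ n.Prime))).card : ℝ) ∂μ ≤
      ∫ ω, (((Finset.Icc 1 N).filter (fun n => n ∈ sifted (fun p => a p ω))).card : ℝ) ∂μ +
        (2 * σ - 1) * (Nat.primeCounting N : ℝ) := by
    intro N
    have h1 := integral_card_filter (μ := μ) (S := Finset.Icc 1 N)
      (fun n => {ω | ¬ (n ∈ sifted (fun p => a p ω) ↔ n.Prime)}) hmeas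
    have h2 := integral_card_filter (μ := μ) (S := Finset.Icc 1 N)
      (fun n => {ω | n ∈ sifted (fun p => a p ω)}) (fun n => D1_meas hM.meas n)
    simp only [Set.mem_setOf_eq] at h1 h2
    rw [h1, h2]
    have h3 : (Nat.primeCounting N : ℝ) = ∑ n ∈ Finset.Icc 1 N, (if n.Prime then (1 : ℝ) else 0) := by
      rw [← Finset.sum_filter, Finset.sum_const, nsmul_eq_mul, mul_one]
      congr 1
      rw [Nat.primeCounting, Nat.primeCounting', Nat.count_eq_card_filter_range]
      congr 1
      ext n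
      simp only [Finset.mem_filter, Finset.mem_range, Finset.mem_Icc]
      constructor
      · rintro ⟨h4, h5⟩
        exact ⟨⟨h5.one_lt.le, by omega⟩, h5⟩
      · rintro ⟨⟨h4, h5⟩, h6⟩
        exact ⟨by omega, h6⟩
    rw [h3, Finset.mul_sum, ← Finset.sum_add_distrib]
    apply Finset.sum_le_sum
    intro n _
    by_cases hn : n.Prime
    · have h4 : {ω | ¬ (n ∈ sifted (fun p => a p ω) ↔ n.Prime)} =
          {ω | n ∈ sifted (fun p => a p ω)}ᶜ := by
        ext ω
        simp [hn]
      rw [h4, probReal_compl_eq_one_sub (D1_meas hM.meas n), if_pos hn]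
      have h5 := prime_stays hM hs hn
      linarith
    · have h4 : {ω | ¬ (n ∈ sifted (fun p => a p ω) ↔ n.Prime)} =
          {ω | n ∈ sifted (fun p => a p ω)} := by
        ext ω
        simp [hn]
      rw [h4, if_neg hn, mul_zero, add_zero]
  have hpnt : Tendsto (fun N : ℕ => (Nat.primeCounting N : ℝ) * Real.log N / N) atTop (𝓝 1) := by
    have h1 := LibPNT.primeCounting_tendsto.comp (tendsto_natCast_atTop_atTop (R := ℝ))
    refine h1.congr fun N => ?_
    simp only [Function.comp_apply, Nat.floor_natCast]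
  have hlim := (density hE hM).add (hpnt.const_mul (2 * σ - 1))
  have h6 : (1 : ℝ) + (2 * σ - 1) * 1 < 2 * σ + η := by linarith
  filter_upwards [hlim.eventually_le_const h6, eventually_ge_atTop 3] with N hN hN3
  have hN0 : (0 : ℝ) < (N : ℝ) := by
    have : (3 : ℝ) ≤ (N : ℝ) := by exact_mod_cast hN3
    linarith
  have hl : 0 < Real.log (N : ℝ) := by
    apply Real.log_pos
    have : (3 : ℝ) ≤ (N : ℝ) := by exact_mod_cast hN3
    linarith
  refine le_trans ?_ hN
  have h7 := mul_le_mul_of_nonneg_right (hbound N) (div_pos hl hN0).le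
  calc _ = (∫ ω, (((Finset.Icc 1 N).filter
      (fun n => ¬ (n ∈ sifted (fun p => a p ω) ↔ n.Prime))).card : ℝ) ∂μ) * (Real.log N / N) := by
        rw [mul_div_assoc]
    _ ≤ _ := h7
    _ = _ := by ring

end Pool.Agent.LibThin21
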