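import Mathlib
import Pool.Agent.LibCramer.Runs
import Pool.Agent.LibLargeSieve.GBound
import Pool.Agent.LibMaier.MaierBound

/-!
# The sieve of Eratosthenes with random classes at a thin set of primes: definitions
-/

namespace Pool.Agent.LibThin21

open Filter Topology MeasureTheory ProbabilityTheory
open Pool.Agent.LibCramer Pool.Agent.LibMaier
open scoped ENNReal

/-- What is left of the natural numbers when, for every prime `p ≤ √n`, the class of `a p`
modulo `p` is removed. For `a = 0` these are the primes, `0` and `1`. -/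
def sifted (a : ℕ → ℕ) : Set ℕ := {n | ∀ p : ℕ, p.Prime → p ^ 2 ≤ n → ¬ n ≡ a p [MOD p]}

open Classical in
/-- The primes of `E` in `(u, v]`. -/
noncomputable def EP (E : Set ℕ) (u v : ℝ) : Finset ℕ :=
  (Finset.range (⌊v⌋₊ + 1)).filter (fun p => p.Prime ∧ p ∈ E ∧ u < (p : ℝ))

/-- The sum of `1 / p` over the primes of `E` in `(u, v]`. -/
noncomputable def SE (E : Set ℕ) (u v : ℝ) : ℝ := ∑ p ∈ EP E u v, 1 / (p : ℝ)

/-- `E` is thin: the primes of `E` in `(X ^ (1 / loglog X), X]` have a small sum of reciprocals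
(here `X = exp x`). -/
def Thin (E : Set ℕ) : Prop :=
  Tendsto (fun x : ℝ => SE E (Real.exp (x / Real.log x)) (Real.exp x)) atTop (𝓝 0)

/-- Positive integers composed of primes of `E`. -/
def ESm (E : Set ℕ) : Set ℕ := {e | e ≠ 0 ∧ ∀ p : ℕ, p.Prime → p ∣ e → p ∈ E}

open Classical in
/-- The primes of `E` up to `exp x` which do not divide `q`. -/
noncomputable def EQ (E : Set ℕ) (q : ℕ) (x : ℝ) : Finset ℕ :=
  (EP E 0 (Real.exp x)).filter (fun p => ¬ p ∣ q)

/-- `DQ = ∏ p / (p - 1)` over the primes of `E` up to `exp x` not dividing `q`. -/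
noncomputable def DQ (E : Set ℕ) (q : ℕ) (x : ℝ) : ℝ := LSieve.V (EQ E q x)

open Classical in
/-- `∑ φ(d) / e` over the integers `e` in `(u, v]` composed of primes of `E`, `(e, q) = d`. -/
noncomputable def Esum (E : Set ℕ) (q d : ℕ) (u v : ℝ) : ℝ :=
  ∑ e ∈ (Finset.Icc 1 ⌊v⌋₊).filter (fun e => e ∈ ESm E ∧ Nat.gcd e q = d ∧ u < (e : ℝ)),
    (d.totient : ℝ) / (e : ℝ)

open Classical in
/-- Positions `i` in the window of the row `k` with centre `c` (after `k q + c`) which survive the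
class `0` modulo all primes outside `E` (and `c` modulo the primes dividing `q`). -/
noncomputable def TT (E : Set ℕ) (q c k h : ℕ) : Finset ℕ :=
  (cols q h).filter (fun i => ∀ p : ℕ, p.Prime → p ∉ E → p ^ 2 ≤ k * q + c + i →
    ¬ p ∣ k * q + c + i)

open Classical in
/-- A scale: `X = exp x`, modulus `q` = product of the primes up to `z` except `p0`,
rows `k1 ≤ k < k2`. -/
structure GoodScale (ε lam v0 x : ℝ) (z p0 q k1 k2 : ℕ) : Prop where
  hp0 : p0.Prime
  hq : q * p0 = primorial z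
  hp0big : 1 / ε ≤ (p0 : ℝ)
  hzx : (z : ℝ) * Real.log x ≤ ε ^ 3 * x
  hxz : x ≤ (z : ℝ) ^ 2
  hk12 : k1 ≤ k2
  hl1 : x - (v0 + 1) ≤ Real.log (k1 * q)
  hl2 : Real.log (k1 * q) ≤ x - v0
  hl3 : x + v0 ≤ Real.log (k2 * q)
  hl4 : Real.log (k2 * q) ≤ x + (v0 + 1)
  hAP : ∀ x' : ℝ, (1 - ε) * x ≤ x' → x' ≤ x → ∀ a : ZMod q, IsUnit a →
      ∑' n : ℕ, (if (n : ZMod q) = a then wn x' n else 0) ≤ (1 + ε) / (q.totient : ℝ)
  hcols : ((cols q ⌊lam * x ^ 2⌋₊).card : ℝ) * ((q : ℝ) / (q.totient : ℝ)) ≤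
      (1 + ε) ^ 4 * (eg / 2) * (lam * x ^ 2)
  hmany : ∀ a : ZMod q, IsUnit a → x ^ 4 ≤
      (((Finset.Icc ⌈Real.exp (x / 2)⌉₊ ⌊Real.exp (2 * x)⌋₊).filter
        (fun p : ℕ => p.Prime ∧ (p : ZMod q) = a)).card : ℝ)

/-- The random model: independent classes, uniform modulo the primes of `E`, and `0` otherwise. -/
structure Model {Ω : Type*} [MeasurableSpace Ω] (μ : Measure Ω) (E : Set ℕ) (a : ℕ → Ω → ℕ) :
    Prop where
  meas : ∀ p, Measurable (a p)
  indep : iIndepFun a μ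
  unif : ∀ p : ℕ, p.Prime → p ∈ E → ∀ r : ℕ, r < p → μ {ω | a p ω = r} = (p : ℝ≥0∞)⁻¹
  zero : ∀ p : ℕ, p ∉ E → ∀ ω, a p ω = 0

/-- The probability that every element of `V` lies in one of the classes `a p`, `p ∈ P`. -/
noncomputable def cov {Ω : Type*} [MeasurableSpace Ω] (μ : Measure Ω) (a : ℕ → Ω → ℕ)
    (P V : Finset ℕ) : ℝ := μ.real {ω | ∀ v ∈ V, ∃ p ∈ P, v ≡ a p ω [MOD p]}

/-- `Φ(s) = 2 e^{-γ} / (e^s log(1 / (1 - e^{-s})))`. -/
noncomputable def Phi (s : ℝ) : ℝ :=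
  2 * Real.exp (-Real.eulerMascheroniConstant) /
    (Real.exp s * Real.log (1 / (1 - Real.exp (-s))))

end Pool.Agent.LibThin21
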