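import Pool.Agent.LibThin21.S1
import Pool.Agent.LibMaier.Mertens2

/-!
There are thin sets of primes `E` with `∑_{p ∈ E, (log X)^8 < p ≤ X^(1/3)} 1/p → ∞`.
-/

namespace Pool.Agent.LibThin21

open Filter Topology
open Pool.Agent.LibMaier

lemma exists_subset_sum {f : ℕ → ℝ} {t : ℝ} (ht : 0 ≤ t) (S : Finset ℕ)
    (hf0 : ∀ p ∈ S, 0 ≤ f p) (hft : ∀ p ∈ S, f p ≤ t) (hS : t ≤ ∑ p ∈ S, f p) :
    ∃ T ⊆ S, t ≤ ∑ p ∈ T, f p ∧ ∑ p ∈ T, f p ≤ 2 * t := by
  classical
  induction S using Finset.induction_on with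
  | empty =>
    refine ⟨∅, le_rfl, hS, ?_⟩
    simp only [Finset.sum_empty]
    linarith
  | insert a S ha ih =>
    rcases le_or_gt t (∑ p ∈ S, f p) with h | h
    · obtain ⟨T, hT1, hT2⟩ := ih (fun p hp => hf0 p (Finset.mem_insert_of_mem hp))
        (fun p hp => hft p (Finset.mem_insert_of_mem hp)) h
      exact ⟨T, hT1.trans (Finset.subset_insert a S), hT2⟩
    · refine ⟨insert a S, le_rfl, hS, ?_⟩
      rw [Finset.sum_insert ha]
      have := hft a (Finset.mem_insert_self a S)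
      linarith

lemma log_le_sum_Ico {m n : ℕ} (hm : 1 ≤ m) (hmn : m ≤ n) :
    Real.log n - Real.log m ≤ ∑ l ∈ Finset.Ico m n, 1 / (l : ℝ) := by
  induction n, hmn using Nat.le_induction with
  | base => simp
  | succ n hmn ih =>
    rw [Finset.sum_Ico_succ_top hmn]
    have hn : (0 : ℝ) < (n : ℝ) := by
      have : 0 < n := by omega
      exact_mod_cast this
    have h1 : Real.log ((n + 1 : ℕ) : ℝ) - Real.log n ≤ 1 / (n : ℝ) := by
      rw [← Real.log_div (by positivity) hn.ne']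
      have h2 := Real.log_le_sub_one_of_pos (show 0 < ((n + 1 : ℕ) : ℝ) / n by positivity)
      refine h2.trans (le_of_eq ?_)
      push_cast
      field_simp
      ring
    linarith

/-- block ends -/
noncomputable def Ab (k : ℕ) : ℝ := Real.exp (Real.exp ((k : ℝ) ^ 2))

lemma Ab_mono {i j : ℕ} (h : i ≤ j) : Ab i ≤ Ab j := by
  unfold Ab
  apply Real.exp_le_exp.2
  apply Real.exp_le_exp.2
  have : (i : ℝ) ≤ (j : ℝ) := by exact_mod_cast h
  gcongr

lemma lt_of_Ab {i j : ℕ} (h : Ab i < Ab j) : i < j := by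
  by_contra hcon
  exact absurd (Ab_mono (not_lt.1 hcon)) (not_le.2 h)

lemma le_Ab (k : ℕ) : (k : ℝ) ≤ Ab k := by
  unfold Ab
  have h1 := Real.add_one_le_exp (Real.exp ((k : ℝ) ^ 2))
  have h2 := Real.add_one_le_exp ((k : ℝ) ^ 2)
  have h3 : (k : ℝ) ≤ (k : ℝ) ^ 2 + 1 := by nlinarith [sq_nonneg ((k : ℝ) - 1)]
  linarith

lemma tendsto_Ab : Tendsto Ab atTop atTop :=
  tendsto_atTop_mono le_Ab tendsto_natCast_atTop_atTop

lemma RN_sub_le {u v : ℝ} (hu : 0 ≤ u) (hv : 0 ≤ v) :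
    RN ⌊v⌋₊ - RN ⌊u⌋₊ ≤ SE Set.univ u v := by
  classical
  have hsub : PN ⌊v⌋₊ ⊆ PN ⌊u⌋₊ ∪ EP Set.univ u v := by
    intro p hp
    unfold PN at hp ⊢
    rw [Finset.mem_filter, Finset.mem_Icc] at hp
    rw [Finset.mem_union, Finset.mem_filter, Finset.mem_Icc, mem_EP hv]
    rcases le_or_gt p ⌊u⌋₊ with h | h
    · exact Or.inl ⟨⟨hp.1.1, h⟩, hp.2⟩
    · exact Or.inr ⟨hp.2, Set.mem_univ _, (Nat.floor_lt hu).1 h, (Nat.le_floor_iff hv).1 hp.1.2⟩
  have h1 : RN ⌊v⌋₊ ≤ ∑ p ∈ PN ⌊u⌋₊ ∪ EP Set.univ u v, 1 / (p : ℝ) :=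
    Finset.sum_le_sum_of_subset_of_nonneg hsub fun p _ _ => by positivity
  have h2 : ∑ p ∈ PN ⌊u⌋₊ ∪ EP Set.univ u v, 1 / (p : ℝ) ≤
      RN ⌊u⌋₊ + SE Set.univ u v := by
    rw [← Finset.union_sdiff_self_eq_union, Finset.sum_union Finset.disjoint_sdiff]
    apply add_le_add le_rfl
    exact Finset.sum_le_sum_of_subset_of_nonneg Finset.sdiff_subset fun p _ _ => by positivity
  linarith

/-- the blocks contain many primes -/
lemma block_sum : ∀ᶠ k : ℕ in atTop, 1 ≤ SE Set.univ (Ab k) (Ab (k + 1)) := by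
  obtain ⟨M, hM⟩ := mertens_second
  have h1 := hM.comp tendsto_Ab
  have h2 := h1.comp (tendsto_add_atTop_nat 1)
  have h3 := h2.sub h1
  rw [sub_self] at h3
  filter_upwards [h3.eventually_const_le (show (-1 : ℝ) < 0 by norm_num), eventually_ge_atTop 1]
    with k hk hk1
  simp only [Function.comp_apply] at hk
  have hdiff : RN ⌊Ab (k + 1)⌋₊ - RN ⌊Ab k⌋₊ ≤ SE Set.univ (Ab k) (Ab (k + 1)) :=
    RN_sub_le (by unfold Ab; positivity) (by unfold Ab; positivity)
  have hk0 : (1 : ℝ) ≤ (k : ℝ) := by exact_mod_cast hk1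
  unfold DR Ab at hk
  rw [Real.log_exp, Real.log_exp, Real.log_exp, Real.log_exp] at hk
  push_cast at hk
  unfold Ab at hdiff
  push_cast at hdiff
  unfold Ab
  push_cast
  nlinarith

lemma kx_tendsto : Tendsto (fun x : ℝ => ⌊Real.sqrt (Real.log x)⌋₊) atTop atTop :=
  tendsto_nat_floor_atTop.comp (Real.tendsto_sqrt_atTop.comp Real.tendsto_log_atTop)

lemma kx_spec : ∀ᶠ x : ℝ in atTop, ((⌊Real.sqrt (Real.log x)⌋₊ : ℕ) : ℝ) ^ 2 ≤ Real.log x ∧
    Real.log x ≤ (((⌊Real.sqrt (Real.log x)⌋₊ : ℕ) : ℝ) + 1) ^ 2 := by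
  filter_upwards [eventually_ge_atTop (1 : ℝ)] with x hx
  have hl : 0 ≤ Real.log x := Real.log_nonneg hx
  have h1 := Nat.floor_le (Real.sqrt_nonneg (Real.log x))
  have h2 := (Nat.lt_floor_add_one (Real.sqrt (Real.log x))).le
  have h3 := Real.sq_sqrt hl
  constructor
  · calc ((⌊Real.sqrt (Real.log x)⌋₊ : ℕ) : ℝ) ^ 2 ≤ Real.sqrt (Real.log x) ^ 2 := by gcongr
      _ = Real.log x := h3
  · calc Real.log x = Real.sqrt (Real.log x) ^ 2 := h3.symm
      _ ≤ _ := by gcongr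

theorem exists_thin : ∃ E : Set ℕ, Thin E ∧
    ∀ s : ℝ, ∀ᶠ x : ℝ in atTop, s ≤ SE E (x ^ 8) (Real.exp (x / 3)) := by
  classical
  obtain ⟨k1, hk1⟩ := eventually_atTop.1 block_sum
  set k0 := max k1 1 with hk0
  have hAb0 : ∀ k, 0 < Ab k := fun k => Real.exp_pos _
  have hex : ∀ k : ℕ, ∃ T : Finset ℕ, T ⊆ EP Set.univ (Ab k) (Ab (k + 1)) ∧
      ∑ p ∈ T, 1 / (p : ℝ) ≤ 2 / k ∧ (k0 ≤ k → 1 / (k : ℝ) ≤ ∑ p ∈ T, 1 / (p : ℝ)) := by
    intro k
    by_cases hk : k0 ≤ k
    · have hk1' : 1 ≤ k := (le_max_right _ _).trans hk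
      have hkr : (1 : ℝ) ≤ (k : ℝ) := by exact_mod_cast hk1'
      have h1 := hk1 k ((le_max_left _ _).trans hk)
      obtain ⟨T, hT1, hT2, hT3⟩ := exists_subset_sum (f := fun p => 1 / (p : ℝ)) (t := 1 / (k : ℝ))
        (by positivity) (EP Set.univ (Ab k) (Ab (k + 1))) (fun p _ => by positivity) (fun p hp => by
          rw [mem_EP (hAb0 _).le] at hp
          apply one_div_le_one_div_of_le (by linarith)
          have := le_Ab k
          linarith [hp.2.2.1]) (by
          refine le_trans ?_ h1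
          rw [div_le_one (by linarith)]
          exact hkr)
      refine ⟨T, hT1, hT3.trans (le_of_eq ?_), fun _ => hT2⟩
      ring
    · refine ⟨∅, Finset.empty_subset _, ?_, fun h => absurd h hk⟩
      simp only [Finset.sum_empty]
      positivity
  choose T hT1 hT2 hT3 using hex
  have hTmem : ∀ k, ∀ p ∈ T k, p.Prime ∧ Ab k < (p : ℝ) ∧ (p : ℝ) ≤ Ab (k + 1) := by
    intro k p hp
    have h1 := hT1 k hp
    rw [mem_EP (hAb0 _).le] at h1
    exact ⟨h1.1, h1.2.2.1, h1.2.2.2⟩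
  have hdisj : ∀ i j : ℕ, i ≠ j → Disjoint (T i) (T j) := by
    intro i j hij
    rw [Finset.disjoint_left]
    intro p hpi hpj
    have h1 := hTmem i p hpi
    have h2 := hTmem j p hpj
    have h3 := lt_of_Ab (lt_of_lt_of_le h1.2.1 h2.2.2)
    have h4 := lt_of_Ab (lt_of_lt_of_le h2.2.1 h1.2.2)
    omega
  set E : Set ℕ := {p | ∃ k, p ∈ T k} with hE
  have hsum : ∀ s : Finset ℕ, ∑ p ∈ s.biUnion T, 1 / (p : ℝ) = ∑ l ∈ s, ∑ p ∈ T l, 1 / (p : ℝ) :=
    fun s => Finset.sum_biUnion fun i _ j _ hij => hdisj i j hij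
  have hup : ∀ i j : ℕ, ∀ u v : ℝ, Ab i ≤ u → 0 ≤ v → v ≤ Ab j →
      SE E u v ≤ ∑ l ∈ Finset.Ico i j, 2 / (l : ℝ) := by
    intro i j u v hu hv0 hv
    have hsub : EP E u v ⊆ (Finset.Ico i j).biUnion T := by
      intro p hp
      rw [mem_EP hv0] at hp
      obtain ⟨l, hl⟩ := hp.2.1
      have h1 := hTmem l p hl
      rw [Finset.mem_biUnion]
      refine ⟨l, ?_, hl⟩
      rw [Finset.mem_Ico]
      have h2 := lt_of_Ab (show Ab i < Ab (l + 1) by linarith [hp.2.2.1])
      have h3 := lt_of_Ab (show Ab l < Ab j by linarith [hp.2.2.2])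
      omega
    calc SE E u v ≤ ∑ p ∈ (Finset.Ico i j).biUnion T, 1 / (p : ℝ) :=
          Finset.sum_le_sum_of_subset_of_nonneg hsub fun p _ _ => by positivity
      _ = ∑ l ∈ Finset.Ico i j, ∑ p ∈ T l, 1 / (p : ℝ) := hsum _
      _ ≤ _ := Finset.sum_le_sum fun l _ => hT2 l
  have hlow : ∀ m n : ℕ, k0 ≤ m → ∀ u v : ℝ, u ≤ Ab m → 0 ≤ v → Ab n ≤ v →
      ∑ l ∈ Finset.Ico m n, 1 / (l : ℝ) ≤ SE E u v := by
    intro m n hm u v hu hv0 hv
    have hsub : (Finset.Ico m n).biUnion T ⊆ EP E u v := by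
      intro p hp
      rw [Finset.mem_biUnion] at hp
      obtain ⟨l, hl1, hl2⟩ := hp
      rw [Finset.mem_Ico] at hl1
      have h1 := hTmem l p hl2
      rw [mem_EP hv0]
      refine ⟨h1.1, ⟨l, hl2⟩, ?_, ?_⟩
      · have := Ab_mono hl1.1
        linarith [h1.2.1]
      · have := Ab_mono (show l + 1 ≤ n by omega)
        linarith [h1.2.2]
    calc ∑ l ∈ Finset.Ico m n, 1 / (l : ℝ) ≤ ∑ l ∈ Finset.Ico m n, ∑ p ∈ T l, 1 / (p : ℝ) := by
          apply Finset.sum_le_sum
          intro l hl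
          exact hT3 l (hm.trans (Finset.mem_Ico.1 hl).1)
      _ = ∑ p ∈ (Finset.Ico m n).biUnion T, 1 / (p : ℝ) := (hsum _).symm
      _ ≤ SE E u v := Finset.sum_le_sum_of_subset_of_nonneg hsub fun p _ _ => by positivity
  refine ⟨E, ?_, ?_⟩
  · unfold Thin
    rw [Metric.tendsto_nhds]
    intro ε hε
    have hsm : Tendsto (fun k : ℕ => 6 / ((k : ℝ) - 2)) atTop (𝓝 0) := by
      apply tendsto_const_nhds.div_atTop
      exact tendsto_atTop_add_const_right _ _ tendsto_natCast_atTop_atTop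
    filter_upwards [kx_tendsto.eventually (hsm.eventually_lt_const hε), kx_spec,
      kx_tendsto.eventually_ge_atTop 3, eventually_gt_atTop (1 : ℝ)] with x h1 h2 h3 hx1
    set k := ⌊Real.sqrt (Real.log x)⌋₊ with hk
    have hx0 : 0 < x := by linarith
    have hl0 : 0 < Real.log x := Real.log_pos hx1
    have hk3 : (3 : ℝ) ≤ (k : ℝ) := by exact_mod_cast h3
    have hlow1 : Ab (k - 2) ≤ Real.exp (x / Real.log x) := by
      unfold Ab
      apply Real.exp_le_exp.2
      have e1 : x / Real.log x = Real.exp (Real.log x - Real.log (Real.log x)) := by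
        rw [Real.exp_sub, Real.exp_log hx0, Real.exp_log hl0]
      rw [e1]
      apply Real.exp_le_exp.2
      have e2 : Real.log (Real.log x) ≤ 2 * (k : ℝ) := by
        calc Real.log (Real.log x) ≤ Real.log (((k : ℝ) + 1) ^ 2) := Real.log_le_log hl0 h2.2
          _ = 2 * Real.log ((k : ℝ) + 1) := by rw [Real.log_pow]; norm_num
          _ ≤ 2 * (k : ℝ) := by
              have := Real.log_le_sub_one_of_pos (show (0 : ℝ) < (k : ℝ) + 1 by linarith)
              linarith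
      have e3 : (((k - 2 : ℕ) : ℝ)) = (k : ℝ) - 2 := by
        rw [Nat.cast_sub (by omega)]
        norm_num
      rw [e3]
      nlinarith [h2.1]
    have hup1 : Real.exp x ≤ Ab (k + 1) := by
      unfold Ab
      apply Real.exp_le_exp.2
      rw [← Real.log_le_iff_le_exp hx0]
      push_cast
      exact h2.2
    have h4 := hup (k - 2) (k + 1) _ _ hlow1 (Real.exp_pos _).le hup1
    have h5 : ∑ l ∈ Finset.Ico (k - 2) (k + 1), 2 / (l : ℝ) ≤ 6 / ((k : ℝ) - 2) := by
      have e3 : (((k - 2 : ℕ) : ℝ)) = (k : ℝ) - 2 := by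
        rw [Nat.cast_sub (by omega)]
        norm_num
      have e4 : ∀ l ∈ Finset.Ico (k - 2) (k + 1), 2 / (l : ℝ) ≤ 2 / ((k : ℝ) - 2) := by
        intro l hl
        rw [Finset.mem_Ico] at hl
        rw [← e3]
        apply div_le_div_of_nonneg_left (by norm_num)
        · rw [e3]
          linarith
        · exact_mod_cast hl.1
      refine (Finset.sum_le_sum e4).trans (le_of_eq ?_)
      rw [Finset.sum_const, Nat.card_Ico, nsmul_eq_mul]
      have e5 : k + 1 - (k - 2) = 3 := by omega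
      rw [e5]
      push_cast
      ring
    rw [dist_zero_right, Real.norm_of_nonneg (SE_nonneg _ _ _)]
    linarith
  · intro s
    have hsq : Tendsto (fun k : ℕ => Nat.sqrt k) atTop atTop := by
      rw [tendsto_atTop]
      intro b
      filter_upwards [eventually_ge_atTop (b * b)] with k hk
      exact Nat.le_sqrt.2 hk
    have hlogk : Tendsto (fun k : ℕ => Real.log (Real.sqrt (k : ℝ) - 1)) atTop atTop := by
      apply Real.tendsto_log_atTop.comp
      apply tendsto_atTop_add_const_right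
      exact Real.tendsto_sqrt_atTop.comp tendsto_natCast_atTop_atTop
    have hexpk : ∀ᶠ k : ℕ in atTop, 8 * ((k : ℝ) + 1) ^ 2 ≤ Real.exp k := by
      have h1 : Tendsto (fun t : ℝ => Real.exp t / t ^ 2) atTop atTop :=
        Real.tendsto_exp_div_pow_atTop 2
      filter_upwards [(h1.comp tendsto_natCast_atTop_atTop).eventually_ge_atTop (32 : ℝ),
        eventually_ge_atTop 1] with k hk hk1
      simp only [Function.comp_apply] at hk
      have hk1' : (1 : ℝ) ≤ (k : ℝ) := by exact_mod_cast hk1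
      rw [le_div_iff₀ (by positivity)] at hk
      nlinarith
    filter_upwards [kx_tendsto.eventually (hsq.eventually_ge_atTop k0), kx_spec,
      kx_tendsto.eventually_ge_atTop 5, kx_tendsto.eventually (hlogk.eventually_ge_atTop s),
      kx_tendsto.eventually hexpk, eventually_gt_atTop (1 : ℝ)] with x h1 h2 h3 h4 h5 hx1
    set k := ⌊Real.sqrt (Real.log x)⌋₊ with hk
    have hx0 : 0 < x := by linarith
    have hk5 : (5 : ℝ) ≤ (k : ℝ) := by exact_mod_cast h3
    set m := Nat.sqrt k + 1 with hm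
    have hmk : k ≤ m ^ 2 := by
      have := Nat.lt_succ_sqrt k
      rw [hm, pow_two]
      exact this.le
    have hxm : x ^ 8 ≤ Ab m := by
      unfold Ab
      rw [← Real.log_le_iff_le_exp (by positivity), Real.log_pow]
      have e1 : Real.exp (k : ℝ) ≤ Real.exp ((m : ℝ) ^ 2) := by
        apply Real.exp_le_exp.2
        exact_mod_cast hmk
      push_cast
      linarith [h2.2]
    have hxn : Ab (k - 1) ≤ Real.exp (x / 3) := by
      unfold Ab
      apply Real.exp_le_exp.2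
      have e3 : (((k - 1 : ℕ) : ℝ)) = (k : ℝ) - 1 := by
        rw [Nat.cast_sub (by omega)]
        norm_num
      rw [e3]
      have e4 : Real.exp ((k : ℝ) ^ 2) ≤ x := by
        rw [← Real.le_log_iff_exp_le hx0]
        exact h2.1
      have e5 : Real.exp ((k : ℝ) ^ 2) = Real.exp (2 * k - 1) * Real.exp (((k : ℝ) - 1) ^ 2) := by
        rw [← Real.exp_add]
        congr 1
        ring
      have e6 := Real.add_one_le_exp (2 * (k : ℝ) - 1)
      have e7 : 0 < Real.exp (((k : ℝ) - 1) ^ 2) := Real.exp_pos _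
      rw [le_div_iff₀ (by norm_num)]
      nlinarith
    refine le_trans h4 (le_trans ?_ (hlow m (k - 1) (by omega) _ _ hxm (Real.exp_pos _).le hxn))
    have hmr : (m : ℝ) ≤ Real.sqrt k + 1 := by
      rw [hm]
      push_cast
      have := Real.nat_sqrt_le_real_sqrt (a := k)
      linarith
    have hs5 : (2 : ℝ) ≤ Real.sqrt k := by
      rw [Real.le_sqrt' (by norm_num)]
      linarith
    have hm1 : 1 ≤ m := by omega
    have hmr1 : (1 : ℝ) ≤ (m : ℝ) := by exact_mod_cast hm1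
    have hsqk : Real.sqrt k ^ 2 = (k : ℝ) := Real.sq_sqrt (by linarith)
    have hmn : m ≤ k - 1 := by
      have e1 : (m : ℝ) ≤ ((k - 1 : ℕ) : ℝ) := by
        rw [Nat.cast_sub (by omega)]
        push_cast
        nlinarith
      exact_mod_cast e1
    refine le_trans ?_ (log_le_sum_Ico hm1 hmn)
    have e3 : (((k - 1 : ℕ) : ℝ)) = (Real.sqrt k - 1) * (Real.sqrt k + 1) := by
      rw [Nat.cast_sub (by omega)]
      push_cast
      nlinarith
    rw [e3, Real.log_mul (by linarith) (by linarith)]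
    have e4 : Real.log m ≤ Real.log (Real.sqrt k + 1) := Real.log_le_log (by linarith) hmr
    linarith

end Pool.Agent.LibThin21
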