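import Pool.Agent.LibThin21.Defs

/-!
ROW F1. Calculus of `Φ`.

`g(Q) = log (1/(1-Q)) / Q` is increasing on `(0,1)` (`= ∑ Q^(n-1)/n`, or derivative), so for `Q ≤ exp (-s')`:
`g(Q) ≤ exp (s') log (1/(1 - exp (-s')))`, which tends to `(2 e^{-γ}) / Phi s` as `s' → s`; `(eg/2) * 2 e^{-γ} = 1`
(`eg = exp γ`). Since `d < Phi s` the strict inequality leaves room for `lam > d`, `s' < s`, `ε > 0`.
Also `Phi s → 2 e^{-γ}` as `s → ∞`, and `Phi s > 0`.
-/

namespace Pool.Agent.LibThin21

open Filter Topology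
open Pool.Agent.LibMaier

theorem F1_log_pos {s : ℝ} (hs : 0 < s) : 0 < Real.log (1 / (1 - Real.exp (-s))) := by
  have h1 : Real.exp (-s) < 1 := by
    rw [Real.exp_lt_one_iff]; linarith
  have h2 : 0 < Real.exp (-s) := Real.exp_pos _
  apply Real.log_pos
  rw [lt_div_iff₀ (by linarith)]
  linarith

theorem Phi_pos {s : ℝ} (hs : 0 < s) : 0 < Phi s := by
  unfold Phi
  have := F1_log_pos hs
  positivity

theorem F1_lower {t : ℝ} (_h0 : 0 < t) (h1 : t < 1) : t ≤ Real.log (1 / (1 - t)) := by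
  have h2 : 0 < 1 - t := by linarith
  rw [Real.log_div one_ne_zero h2.ne', Real.log_one]
  have := Real.log_le_sub_one_of_pos h2
  linarith

theorem F1_upper {t : ℝ} (_h0 : 0 < t) (h1 : t < 1) : Real.log (1 / (1 - t)) ≤ t / (1 - t) := by
  have h2 : 0 < 1 - t := by linarith
  have h3 : 0 < 1 / (1 - t) := by positivity
  have := Real.log_le_sub_one_of_pos h3
  have h4 : 1 / (1 - t) - 1 = t / (1 - t) := by field_simp; ring
  linarith

theorem tendsto_Phi : Tendsto Phi atTop (𝓝 (2 * Real.exp (-Real.eulerMascheroniConstant))) := by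
  have hexp : Tendsto (fun s : ℝ => Real.exp (-s)) atTop (𝓝 0) :=
    Real.tendsto_exp_neg_atTop_nhds_zero
  have hG : Tendsto (fun s : ℝ => Real.exp s * Real.log (1 / (1 - Real.exp (-s)))) atTop (𝓝 1) := by
    have hup : Tendsto (fun s : ℝ => 1 / (1 - Real.exp (-s))) atTop (𝓝 1) := by
      have h := (tendsto_const_nhds (x := (1:ℝ)) (f := (atTop : Filter ℝ))).div
        ((tendsto_const_nhds (x := (1:ℝ))).sub hexp) (by norm_num : (1:ℝ) - 0 ≠ 0)
      have he : (1:ℝ) / (1 - 0) = 1 := by norm_num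
      rw [he] at h
      exact h
    refine tendsto_of_tendsto_of_tendsto_of_le_of_le' tendsto_const_nhds hup ?_ ?_
    · filter_upwards [eventually_gt_atTop (0:ℝ)] with s hs
      have h1 : Real.exp (-s) < 1 := by rw [Real.exp_lt_one_iff]; linarith
      have h := F1_lower (Real.exp_pos (-s)) h1
      calc (1:ℝ) = Real.exp s * Real.exp (-s) := by rw [← Real.exp_add]; simp
        _ ≤ _ := mul_le_mul_of_nonneg_left h (Real.exp_pos _).le
    · filter_upwards [eventually_gt_atTop (0:ℝ)] with s hs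
      have h1 : Real.exp (-s) < 1 := by rw [Real.exp_lt_one_iff]; linarith
      have h := F1_upper (Real.exp_pos (-s)) h1
      calc Real.exp s * Real.log (1 / (1 - Real.exp (-s)))
          ≤ Real.exp s * (Real.exp (-s) / (1 - Real.exp (-s))) :=
            mul_le_mul_of_nonneg_left h (Real.exp_pos _).le
        _ = (Real.exp s * Real.exp (-s)) / (1 - Real.exp (-s)) := by ring
        _ = 1 / (1 - Real.exp (-s)) := by rw [← Real.exp_add]; simp
  have h := (tendsto_const_nhds (x := 2 * Real.exp (-Real.eulerMascheroniConstant))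
    (f := (atTop : Filter ℝ))).div hG one_ne_zero
  rw [div_one] at h
  exact h

theorem F1_mono {Q R : ℝ} (hQ : 0 < Q) (hQR : Q ≤ R) (hR : R < 1) :
    Real.log (1 / (1 - Q)) / Q ≤ Real.log (1 / (1 - R)) / R := by
  have hR0 : 0 < R := lt_of_lt_of_le hQ hQR
  have h1Q : 0 < 1 - Q := by linarith
  have h1R : 0 < 1 - R := by linarith
  rw [Real.log_div one_ne_zero h1Q.ne', Real.log_div one_ne_zero h1R.ne', Real.log_one]
  have hc := (strictConcaveOn_log_Ioi.concaveOn.2 : _) (show (1 - R) ∈ Set.Ioi (0:ℝ) from h1R)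
    (show (1:ℝ) ∈ Set.Ioi (0:ℝ) by norm_num) (show 0 ≤ Q / R by positivity)
    (show 0 ≤ 1 - Q / R by rw [sub_nonneg, div_le_one hR0]; exact hQR) (by ring)
  have he : (Q / R) • (1 - R) + (1 - Q / R) • (1:ℝ) = 1 - Q := by
    simp only [smul_eq_mul]; field_simp; ring
  rw [he] at hc
  simp only [smul_eq_mul, Real.log_one, mul_zero, add_zero] at hc
  rw [div_le_div_iff₀ hQ hR0]
  have h3 : Q / R * Real.log (1 - R) * R = Q * Real.log (1 - R) := by field_simp
  nlinarith [mul_le_mul_of_nonneg_right hc hR0.le]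

theorem Phi_room {s d : ℝ} (hs : 0 < s) (hd : 0 < d) (hds : d < Phi s) :
    ∃ lam s' ε0 : ℝ, d < lam ∧ 0 < s' ∧ s' < s ∧ 0 < ε0 ∧ ε0 < 1 / 100 ∧ ∀ ε : ℝ, 0 < ε → ε ≤ ε0 →
      ∀ Q : ℝ, 0 < Q → Q ≤ Real.exp (-s') →
        (1 + 50 * ε) * (eg / 2) * lam * (Real.log (1 / (1 - Q)) / Q) ≤ 1 - 5 * ε := by
  have hegpos : 0 < eg := by unfold eg; positivity
  -- the function of one parameter t → 0+: lam = d + t, s' = s - t, ε0 = t
  have hcont : ContinuousAt (fun t : ℝ => (1 + 50 * t) * (eg / 2) * (d + t) *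
      (Real.log (1 / (1 - Real.exp (-(s - t)))) / Real.exp (-(s - t))) + 5 * t) 0 := by
    have h1 : Real.exp (-(s - 0)) < 1 := by rw [Real.exp_lt_one_iff]; linarith
    have h2 : (1:ℝ) - Real.exp (-(s - 0)) ≠ 0 := by linarith
    have h3 : (1:ℝ) / (1 - Real.exp (-(s - 0))) ≠ 0 := by
      apply div_ne_zero one_ne_zero h2
    have hA : ContinuousAt (fun t : ℝ => 1 / (1 - Real.exp (-(s - t)))) 0 := by
      exact ContinuousAt.div (f := fun _ : ℝ => (1:ℝ)) (g := fun t : ℝ => 1 - Real.exp (-(s - t)))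
        continuousAt_const (by fun_prop) h2
    have hB : ContinuousAt (fun t : ℝ => Real.log (1 / (1 - Real.exp (-(s - t))))) 0 :=
      ContinuousAt.log hA h3
    have hC : ContinuousAt (fun t : ℝ => Real.log (1 / (1 - Real.exp (-(s - t)))) /
        Real.exp (-(s - t))) 0 := by
      exact ContinuousAt.div (g := fun t : ℝ => Real.exp (-(s - t))) hB (by fun_prop)
        (Real.exp_pos _).ne'
    have hD : ContinuousAt (fun t : ℝ => (1 + 50 * t) * (eg / 2) * (d + t)) 0 := by fun_prop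
    exact (hD.mul hC).add (by fun_prop)
  have hval : (1 + 50 * (0:ℝ)) * (eg / 2) * (d + 0) *
      (Real.log (1 / (1 - Real.exp (-(s - 0)))) / Real.exp (-(s - 0))) + 5 * 0 < 1 := by
    have hL := F1_log_pos hs
    have h1 : eg * Real.exp (-Real.eulerMascheroniConstant) = 1 := by
      unfold eg; rw [← Real.exp_add]; simp
    have h2 : d * (Real.exp s * Real.log (1 / (1 - Real.exp (-s)))) <
        2 * Real.exp (-Real.eulerMascheroniConstant) := by
      unfold Phi at hds
      rwa [lt_div_iff₀ (by positivity)] at hds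
    have h3 : Real.log (1 / (1 - Real.exp (-s))) / Real.exp (-s) =
        Real.exp s * Real.log (1 / (1 - Real.exp (-s))) := by
      rw [Real.exp_neg s]; field_simp
    have h4 : (eg / 2) * (d * (Real.exp s * Real.log (1 / (1 - Real.exp (-s))))) <
        (eg / 2) * (2 * Real.exp (-Real.eulerMascheroniConstant)) :=
      mul_lt_mul_of_pos_left h2 (by positivity)
    have h5 : (eg / 2) * (2 * Real.exp (-Real.eulerMascheroniConstant)) = 1 := by
      linarith
    simp only [mul_zero, add_zero, sub_zero, one_mul]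
    rw [h3]
    linarith
  have hev : ∀ᶠ t in 𝓝 (0:ℝ), (1 + 50 * t) * (eg / 2) * (d + t) *
      (Real.log (1 / (1 - Real.exp (-(s - t)))) / Real.exp (-(s - t))) + 5 * t < 1 :=
    hcont.eventually_lt continuousAt_const hval
  have hev2 : ∀ᶠ t in 𝓝 (0:ℝ), t < s := (continuousAt_id.eventually_lt continuousAt_const hs)
  have hev3 : ∀ᶠ t in 𝓝 (0:ℝ), t < 1 / 100 :=
    (continuousAt_id.eventually_lt continuousAt_const (by norm_num))
  obtain ⟨t, ⟨⟨ht1, ht2⟩, ht3⟩, ht0⟩ :=
    (((hev.and hev2).and hev3).filter_mono nhdsWithin_le_nhds |>.and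
      (self_mem_nhdsWithin : Set.Ioi (0:ℝ) ∈ 𝓝[>] (0:ℝ))).exists
  have ht0' : 0 < t := ht0
  refine ⟨d + t, s - t, t, by linarith, by linarith, by linarith, ht0', ht3, ?_⟩
  intro ε hε hεt Q hQ hQs
  have hR : Real.exp (-(s - t)) < 1 := by rw [Real.exp_lt_one_iff]; linarith
  have hm := F1_mono hQ hQs hR
  have hL0 : 0 ≤ Real.log (1 / (1 - Real.exp (-(s - t)))) / Real.exp (-(s - t)) :=
    (div_pos (F1_log_pos (by linarith)) (Real.exp_pos _)).le
  calc (1 + 50 * ε) * (eg / 2) * (d + t) * (Real.log (1 / (1 - Q)) / Q)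
      ≤ (1 + 50 * ε) * (eg / 2) * (d + t) *
        (Real.log (1 / (1 - Real.exp (-(s - t)))) / Real.exp (-(s - t))) :=
        mul_le_mul_of_nonneg_left hm (by positivity)
    _ ≤ (1 + 50 * t) * (eg / 2) * (d + t) *
        (Real.log (1 / (1 - Real.exp (-(s - t)))) / Real.exp (-(s - t))) := by
        apply mul_le_mul_of_nonneg_right _ hL0
        apply mul_le_mul_of_nonneg_right _ (by positivity)
        apply mul_le_mul_of_nonneg_right _ (by positivity)
        linarith
    _ ≤ 1 - 5 * ε := by linarith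

end Pool.Agent.LibThin21
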