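import Pool.Agent.LibThin21.R7
import Pool.Agent.LibThin21.F1

/-!
Almost surely there are infinitely many long empty windows.
-/

namespace Pool.Agent.LibThin21

open Filter Topology MeasureTheory ProbabilityTheory
open Pool.Agent.LibMaier Pool.Agent.LibCramer

variable {Ω : Type*} [MeasurableSpace Ω] {μ : Measure Ω} [IsProbabilityMeasure μ] {E : Set ℕ}
  {a : ℕ → Ω → ℕ}

lemma measurableSet_mem_sifted (ha : ∀ p, Measurable (a p)) (j : ℕ) :
    MeasurableSet {ω | j ∈ sifted (fun p => a p ω)} := by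
  have h1 : {ω | j ∈ sifted (fun p => a p ω)} =
      ⋂ p : ℕ, {ω | p.Prime → p ^ 2 ≤ j → ¬ j ≡ a p ω [MOD p]} := by
    ext ω
    simp [sifted]
  rw [h1]
  refine MeasurableSet.iInter fun p => ?_
  have h2 : {ω | p.Prime → p ^ 2 ≤ j → ¬ j ≡ a p ω [MOD p]} =
      a p ⁻¹' {r | p.Prime → p ^ 2 ≤ j → ¬ j ≡ r [MOD p]} := rfl
  rw [h2]
  exact ha p (MeasurableSet.of_discrete)

lemma measurableSet_window (ha : ∀ p, Measurable (a p)) (m l : ℕ) :
    MeasurableSet {ω | sifted (fun p => a p ω) ∩ Set.Ioc m (m + l) = ∅} := by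
  have h1 : {ω | sifted (fun p => a p ω) ∩ Set.Ioc m (m + l) = ∅} =
      ⋂ j : ℕ, {ω | m < j → j ≤ m + l → ¬ j ∈ sifted (fun p => a p ω)} := by
    ext ω
    simp only [Set.mem_setOf_eq, Set.mem_iInter]
    constructor
    · intro h j hj1 hj2 hj
      have h3 : j ∈ sifted (fun p => a p ω) ∩ Set.Ioc m (m + l) := ⟨hj, hj1, hj2⟩
      rw [h] at h3
      exact h3
    · intro h
      rw [Set.eq_empty_iff_forall_notMem]
      rintro j ⟨hj, hj1, hj2⟩
      exact h j hj1 hj2 hj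
  rw [h1]
  refine MeasurableSet.iInter fun j => ?_
  by_cases h2 : m < j ∧ j ≤ m + l
  · have h3 : {ω | m < j → j ≤ m + l → ¬ j ∈ sifted (fun p => a p ω)} =
        {ω | j ∈ sifted (fun p => a p ω)}ᶜ := by
      ext ω
      simp [h2.1, h2.2]
    rw [h3]
    exact (measurableSet_mem_sifted ha j).compl
  · have h3 : {ω | m < j → j ≤ m + l → ¬ j ∈ sifted (fun p => a p ω)} = Set.univ := by
      ext ω
      simp only [Set.mem_setOf_eq, Set.mem_univ, iff_true]
      intro h4 h5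
      exact absurd ⟨h4, h5⟩ h2
    rw [h3]
    exact MeasurableSet.univ

theorem ae_frequently_empty (hE : Thin E) (hM : Model μ E a) {s d : ℝ} (hs : 0 < s) (hd : 0 < d)
    (hds : d < Phi s) (hfreq : ∃ᶠ x : ℝ in atTop, s ≤ SE E x (Real.exp x)) :
    ∀ᵐ ω ∂μ, ∃ᶠ m : ℕ in atTop, sifted (fun p => a p ω) ∩ Set.Ioc m (m + len d m) = ∅ := by
  obtain ⟨lam, s', ε0, hdl, hs'0, hs's, hε0, hε01, hroom⟩ := Phi_room hs hd hds
  have hkey : ∀ N : ℕ, ∀ ε : ℝ, 0 < ε → ε ≤ ε0 →
      1 - ε ≤ μ.real {ω | ∃ m : ℕ, N ≤ m ∧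
        sifted (fun p => a p ω) ∩ Set.Ioc m (m + len d m) = ∅} := by
    intro N ε hε hεε
    have hy1 : 0 < 1 - Real.exp (-s') := by
      have : Real.exp (-s') < 1 := by
        rw [Real.exp_lt_one_iff]
        linarith
      linarith
    have hη : 0 < (s - s') / 2 := by linarith
    have h1 := window_prob hE hM hε (lt_of_le_of_lt hεε hε01) hd hdl hy1 N
    have h2 := SE_poly hE hη
    have h3 := SE_top' hE hη (show (0 : ℝ) < 1 / 3 by norm_num)
    obtain ⟨x, hx, hw, hp, ht, hx1⟩ :=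
      (hfreq.and_eventually (h1.and (h2.and (h3.and (eventually_ge_atTop (1 : ℝ)))))).exists
    set P := EP E (x ^ 8) (Real.exp (x / 3)) with hP
    have hS : s' ≤ ∑ p ∈ P, 1 / (p : ℝ) := by
      have h4 : SE E x (Real.exp x) ≤ SE E x (x ^ 8) + SE E (x ^ 8) (Real.exp x) :=
        SE_add_le E _ _ _
      have h5 : SE E (x ^ 8) (Real.exp x) ≤ SE E (x ^ 8) (Real.exp (x / 3)) +
          SE E (Real.exp (x / 3)) (Real.exp x) := SE_add_le E _ _ _
      have h6 : SE E x (x ^ 8) ≤ SE E (x ^ (1 / 4 : ℝ)) (x ^ 8) := by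
        apply SE_mono _ _ le_rfl
        calc x ^ (1 / 4 : ℝ) ≤ x ^ (1 : ℝ) := Real.rpow_le_rpow_of_exponent_le hx1 (by norm_num)
          _ = x := Real.rpow_one x
      have h7 : SE E (Real.exp (x / 3)) (Real.exp x) ≤
          SE E (Real.exp (1 / 3 * x)) (Real.exp (2 * x)) := by
        apply SE_mono
        · apply le_of_eq
          congr 1
          ring
        · apply Real.exp_le_exp.2
          linarith
      have h8 : SE E (x ^ 8) (Real.exp (x / 3)) = ∑ p ∈ P, 1 / (p : ℝ) := rfl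
      linarith
    have hprime : ∀ p ∈ P, p.Prime := by
      intro p hp
      rw [hP, mem_EP (Real.exp_pos _).le] at hp
      exact hp.1
    have hpos : ∀ p ∈ P, 0 < 1 - 1 / (p : ℝ) := by
      intro p hp
      have h9 : (2 : ℝ) ≤ (p : ℝ) := by exact_mod_cast (hprime p hp).two_le
      have h10 : 1 / (p : ℝ) ≤ 1 / 2 := one_div_le_one_div_of_le (by norm_num) h9
      linarith
    have hQ0 : 0 < ∏ p ∈ P, (1 - 1 / (p : ℝ)) := Finset.prod_pos hpos
    have hQ1 : ∏ p ∈ P, (1 - 1 / (p : ℝ)) ≤ Real.exp (-s') := by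
      calc ∏ p ∈ P, (1 - 1 / (p : ℝ)) ≤ ∏ p ∈ P, Real.exp (-(1 / (p : ℝ))) := by
            apply Finset.prod_le_prod
            · intro p hp
              exact (hpos p hp).le
            · intro p _
              have := Real.add_one_le_exp (-(1 / (p : ℝ)))
              linarith
        _ = Real.exp (∑ p ∈ P, -(1 / (p : ℝ))) := by rw [Real.exp_sum]
        _ ≤ Real.exp (-s') := by
            apply Real.exp_le_exp.2
            rw [Finset.sum_neg_distrib]
            linarith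
    exact hw _ rfl (by linarith) (hroom ε hε hεε _ hQ0 hQ1)
  have hmeas : ∀ N : ℕ, MeasurableSet {ω | ∃ m : ℕ, N ≤ m ∧
      sifted (fun p => a p ω) ∩ Set.Ioc m (m + len d m) = ∅} := by
    intro N
    have h1 : {ω | ∃ m : ℕ, N ≤ m ∧
        sifted (fun p => a p ω) ∩ Set.Ioc m (m + len d m) = ∅} =
        ⋃ m : ℕ, ⋃ _ : N ≤ m, {ω | sifted (fun p => a p ω) ∩ Set.Ioc m (m + len d m) = ∅} := by
      ext ω
      simp
    rw [h1]
    exact MeasurableSet.iUnion fun m => MeasurableSet.iUnion fun _ =>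
      measurableSet_window hM.meas m _
  have hall : ∀ N : ℕ, ∀ᵐ ω ∂μ, ∃ m : ℕ, N ≤ m ∧
      sifted (fun p => a p ω) ∩ Set.Ioc m (m + len d m) = ∅ := by
    intro N
    have h1 : 1 ≤ μ.real {ω | ∃ m : ℕ, N ≤ m ∧
        sifted (fun p => a p ω) ∩ Set.Ioc m (m + len d m) = ∅} := by
      refine le_of_forall_pos_sub_le fun ε hε => ?_
      rcases le_total ε ε0 with h2 | h2
      · exact hkey N ε hε h2
      · have := hkey N ε0 hε0 le_rfl
        linarith
    have h2 : μ.real {ω | ∃ m : ℕ, N ≤ m ∧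
        sifted (fun p => a p ω) ∩ Set.Ioc m (m + len d m) = ∅}ᶜ ≤ 0 := by
      rw [probReal_compl_eq_one_sub (hmeas N)]
      linarith
    have h3 : μ {ω | ∃ m : ℕ, N ≤ m ∧
        sifted (fun p => a p ω) ∩ Set.Ioc m (m + len d m) = ∅}ᶜ = 0 := by
      have h4 := le_antisymm h2 measureReal_nonneg
      rwa [measureReal_eq_zero_iff] at h4
    exact h3
  rw [← ae_all_iff] at hall
  filter_upwards [hall] with ω hω
  rw [frequently_atTop]
  exact hω

end Pool.Agent.LibThin21
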