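import Pool.Agent.LibThin21.T0

/-!
ROW J1. Many integers which survive the class `0` outside `E` and the class `c` modulo the primes of `q`.

Put `e = ∏ p` over the primes `p ∣ q` with `c ≡ 1 [MOD p]`; these `p` are in `E` (otherwise `p ∣ c`). Let `r` be the
unit modulo `q` with `e r ≡ 1 [MOD p]` for the other primes `p ∣ q` and `r ≡ 1 [MOD p]` for `p ∣ e`. Take
`S = {e π : π prime, π ≡ r mod q, exp (x/2) ≤ π ≤ exp (2x)}` (`hmany`; `e ≤ q ≤ exp (ε² x)`). For `p ∣ q`: `e π ≡ 0` if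
`c ≡ 1`, and `e π ≡ 1` otherwise, so `e π ≢ c [MOD p]`. For `p ∉ E`, `p ^ 2 ≤ e π`: `p ≠ π` since `π > e` gives
`π ^ 2 > e π`, and `p ∤ e`.
-/

namespace Pool.Agent.LibThin21

open Filter Topology
open Pool.Agent.LibMaier

/-- the splitting `q = e * f` and the class `r` -/
lemma J1_class {q c : ℕ} (hq0 : q ≠ 0) (hsq : Squarefree q) :
    ∃ e r : ℕ, 1 ≤ e ∧ e ∣ q ∧ Nat.Coprime r q ∧
      (∀ p ∈ q.primeFactors, c ≡ 1 [MOD p] → p ∣ e) ∧
      (∀ p : ℕ, p.Prime → p ∣ e → c ≡ 1 [MOD p]) ∧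
      (∀ p ∈ q.primeFactors, ¬ c ≡ 1 [MOD p] → e * r ≡ 1 [MOD p]) := by
  classical
  set P1 := q.primeFactors.filter (fun p => c ≡ 1 [MOD p]) with hP1
  set P2 := q.primeFactors.filter (fun p => ¬ c ≡ 1 [MOD p]) with hP2
  set e := ∏ p ∈ P1, p with he
  set f := ∏ p ∈ P2, p with hf
  have hef : e * f = q := by
    rw [he, hf, hP1, hP2, Finset.prod_filter_mul_prod_filter_not]
    exact Nat.prod_primeFactors_of_squarefree hsq
  have hcop : Nat.Coprime e f := by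
    rw [he, hf]
    refine Nat.Coprime.prod_left (fun p hp => Nat.Coprime.prod_right (fun p' hp' => ?_))
    rw [hP1, Finset.mem_filter] at hp
    rw [hP2, Finset.mem_filter] at hp'
    have h1 := Nat.prime_of_mem_primeFactors hp.1
    have h2 := Nat.prime_of_mem_primeFactors hp'.1
    rw [Nat.coprime_primes h1 h2]
    rintro rfl
    exact hp'.2 hp.2
  have he0 : e ≠ 0 := fun h => hq0 (by rw [← hef, h, zero_mul])
  have hf0 : f ≠ 0 := fun h => hq0 (by rw [← hef, h, mul_zero])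
  -- an inverse of e modulo f
  obtain ⟨u, hu⟩ : ∃ u : ℕ, e * u ≡ 1 [MOD f] := by
    rcases Nat.lt_or_ge 1 f with h1 | h1
    · obtain ⟨m, hm⟩ := Nat.exists_mul_mod_eq_one_of_coprime hcop h1
      refine ⟨m, ?_⟩
      have := hm.2
      unfold Nat.ModEq
      rw [this, Nat.mod_eq_of_lt h1]
    · have : f = 1 := by omega
      refine ⟨0, ?_⟩
      rw [this]
      exact Nat.modEq_one
  obtain ⟨r, hr1, hr2⟩ := Nat.chineseRemainder hcop 1 u
  have her : e * r ≡ 1 [MOD f] := (Nat.ModEq.mul_left e hr2).trans hu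
  refine ⟨e, r, Nat.one_le_iff_ne_zero.mpr he0, ⟨f, hef.symm⟩, ?_, ?_, ?_, ?_⟩
  · rw [← hef]
    refine Nat.Coprime.mul_right ?_ ?_
    · have h1 := hr1.gcd_eq
      unfold Nat.Coprime
      rw [h1]; simp
    · have h1 : Nat.Coprime (e * r) f := by
        have := her.gcd_eq
        unfold Nat.Coprime
        rw [this]; simp
      exact Nat.Coprime.coprime_mul_left h1
  · intro p hp hc
    exact Finset.dvd_prod_of_mem (fun p => p) (by rw [hP1]; exact Finset.mem_filter.mpr ⟨hp, hc⟩)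
  · intro p hp hpe
    have h1 := (Prime.dvd_finsetProd_iff hp.prime (fun p => p)).mp hpe
    obtain ⟨p', hp', hd⟩ := h1
    rw [hP1, Finset.mem_filter] at hp'
    have h2 := Nat.prime_of_mem_primeFactors hp'.1
    have h3 : p = p' := (Nat.prime_dvd_prime_iff_eq hp h2).mp hd
    rw [h3]; exact hp'.2
  · intro p hp hc
    have hpf : p ∣ f := Finset.dvd_prod_of_mem (fun p => p)
      (by rw [hP2]; exact Finset.mem_filter.mpr ⟨hp, hc⟩)
    exact her.of_dvd hpf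

theorem exists_candidates {E : Set ℕ} {ε lam v0 : ℝ} (hε : 0 < ε) (hε1 : ε < 1 / 100)
    (hv0 : 0 ≤ v0) (hlam : 0 < lam) :
    ∀ᶠ x : ℝ in atTop, ∀ z p0 q k1 k2 : ℕ, GoodScale ε lam v0 x z p0 q k1 k2 → ∀ c : ℕ, c < q →
      (∀ p ∈ q.primeFactors, p ∉ E → p ∣ c) →
      ∃ S : Finset ℕ, x ^ 4 ≤ (S.card : ℝ) ∧
        (∀ n ∈ S, Real.exp (x / 2) ≤ (n : ℝ) ∧ (n : ℝ) ≤ Real.exp (3 * x)) ∧
        (∀ n ∈ S, ∀ p ∈ q.primeFactors, ¬ n ≡ c [MOD p]) ∧
        (∀ n ∈ S, ∀ p : ℕ, p.Prime → p ∉ E → p ^ 2 ≤ n → ¬ p ∣ n) := by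
  classical
  filter_upwards [GoodScale.q_le (lam := lam) (v0 := v0) hε hε1, eventually_gt_atTop (0:ℝ)]
    with x hx hx0
  intro z p0 q k1 k2 hG c hcq hcE
  obtain ⟨hq1, hsq, hqe, hz2, hzx, hpz⟩ := hx z p0 q k1 k2 hG
  have hq0 : q ≠ 0 := by omega
  have : NeZero q := ⟨hq0⟩
  obtain ⟨e, r, he1, heq, hrq, hA, hB, hC⟩ := J1_class (c := c) hq0 hsq
  have hunit : IsUnit (r : ZMod q) := (ZMod.isUnit_iff_coprime r q).mpr hrq
  have hm := hG.hmany (r : ZMod q) hunit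
  set F := (Finset.Icc ⌈Real.exp (x / 2)⌉₊ ⌊Real.exp (2 * x)⌋₊).filter
        (fun p : ℕ => p.Prime ∧ (p : ZMod q) = (r : ZMod q)) with hF
  have heq' : (e : ℝ) ≤ Real.exp (ε ^ 2 * x) :=
    (Nat.cast_le.mpr (Nat.le_of_dvd (Nat.pos_of_ne_zero hq0) heq)).trans hqe
  have hε2 : ε ^ 2 ≤ 1 / 10000 := by nlinarith
  -- properties of the members of F
  have hmem : ∀ π ∈ F, π.Prime ∧ π ≡ r [MOD q] ∧ Real.exp (x / 2) ≤ (π : ℝ) ∧
      (π : ℝ) ≤ Real.exp (2 * x) := by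
    intro π hπ
    rw [hF, Finset.mem_filter, Finset.mem_Icc] at hπ
    obtain ⟨⟨h1, h2⟩, h3, h4⟩ := hπ
    refine ⟨h3, (ZMod.natCast_eq_natCast_iff _ _ _).mp h4, ?_, ?_⟩
    · exact (Nat.le_ceil _).trans (Nat.cast_le.mpr h1)
    · exact (Nat.cast_le.mpr h2).trans (Nat.floor_le (Real.exp_pos _).le)
  have he0 : (0:ℝ) < e := by exact_mod_cast he1
  refine ⟨F.image (fun π => e * π), ?_, ?_, ?_, ?_⟩
  · rw [Finset.card_image_of_injective]
    · exact hm
    · intro a b hab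
      exact Nat.eq_of_mul_eq_mul_left (by omega) hab
  · intro n hn
    obtain ⟨π, hπ, rfl⟩ := Finset.mem_image.mp hn
    obtain ⟨hπp, hπr, hπ1, hπ2⟩ := hmem π hπ
    push_cast
    constructor
    · calc Real.exp (x / 2) ≤ (π : ℝ) := hπ1
        _ = 1 * (π : ℝ) := by ring
        _ ≤ (e : ℝ) * π := mul_le_mul_of_nonneg_right (by exact_mod_cast he1) (by positivity)
    · calc (e : ℝ) * π ≤ Real.exp (ε ^ 2 * x) * Real.exp (2 * x) :=
            mul_le_mul heq' hπ2 (by positivity) (by positivity)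
        _ = Real.exp (ε ^ 2 * x + 2 * x) := by rw [Real.exp_add]
        _ ≤ Real.exp (3 * x) := by
            apply Real.exp_le_exp.mpr
            nlinarith
  · intro n hn p hp
    obtain ⟨π, hπ, rfl⟩ := Finset.mem_image.mp hn
    obtain ⟨hπp, hπr, hπ1, hπ2⟩ := hmem π hπ
    have hpp := Nat.prime_of_mem_primeFactors hp
    have hpq := Nat.dvd_of_mem_primeFactors hp
    intro hmod
    by_cases hc : c ≡ 1 [MOD p]
    · have h1 : p ∣ e := hA p hp hc
      have h2 : e * π ≡ 0 [MOD p] := (Nat.modEq_zero_iff_dvd).mpr (Dvd.dvd.mul_right h1 π)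
      have h3 : 0 ≡ 1 [MOD p] := (h2.symm.trans hmod).trans hc
      have h4 : p ∣ 1 := (Nat.modEq_zero_iff_dvd).mp h3.symm
      exact hpp.one_lt.ne' (Nat.dvd_one.mp h4)
    · have h1 : e * r ≡ 1 [MOD p] := hC p hp hc
      have h2 : e * π ≡ e * r [MOD p] := Nat.ModEq.mul_left e (hπr.of_dvd hpq)
      exact hc (hmod.symm.trans (h2.trans h1))
  · intro n hn p hpp hpE hp2 hpn
    obtain ⟨π, hπ, rfl⟩ := Finset.mem_image.mp hn
    obtain ⟨hπp, hπr, hπ1, hπ2⟩ := hmem π hπ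
    rcases (Nat.Prime.dvd_mul hpp).mp hpn with h | h
    · -- p ∣ e
      have hc := hB p hpp h
      have hpq : p ∈ q.primeFactors := Nat.mem_primeFactors.mpr ⟨hpp, h.trans heq, hq0⟩
      have h1 : p ∣ c := hcE p hpq hpE
      have h2 : (0:ℕ) ≡ 1 [MOD p] := ((Nat.modEq_zero_iff_dvd).mpr h1).symm.trans hc
      have h4 : p ∣ 1 := (Nat.modEq_zero_iff_dvd).mp h2.symm
      exact hpp.one_lt.ne' (Nat.dvd_one.mp h4)
    · have h1 : p = π := (Nat.prime_dvd_prime_iff_eq hpp hπp).mp h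
      subst h1
      have h2 : p ≤ e := by
        have : p * p ≤ e * p := by nlinarith [hp2]
        exact Nat.le_of_mul_le_mul_right this hpp.pos
      have h3 : (p : ℝ) ≤ Real.exp (ε ^ 2 * x) := (Nat.cast_le.mpr h2).trans heq'
      have h4 : Real.exp (ε ^ 2 * x) < Real.exp (x / 2) := by
        apply Real.exp_lt_exp.mpr
        nlinarith
      linarith

end Pool.Agent.LibThin21
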