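import Pool.Agent.LibThin21.S5
import Pool.Agent.LibPNT.PNT

/-!
Sizes at a good scale.
-/

namespace Pool.Agent.LibThin21

open Filter Topology
open Pool.Agent.LibMaier

lemma exp_half_le_primorial : ∀ᶠ z : ℕ in atTop, Real.exp ((z : ℝ) / 2) ≤ (primorial z : ℝ) := by
  have h1 := LibPNT.theta_tendsto.comp (tendsto_natCast_atTop_atTop (R := ℝ))
  filter_upwards [h1.eventually_const_le (show (1 / 2 : ℝ) < 1 by norm_num),
    eventually_ge_atTop 1] with z hz hz1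
  have hz0 : (0 : ℝ) < (z : ℝ) := by exact_mod_cast hz1
  simp only [Function.comp_apply] at hz
  rw [le_div_iff₀ hz0, Chebyshev.theta_eq_log_primorial, Nat.floor_natCast] at hz
  have hp : (0 : ℝ) < (primorial z : ℝ) := by exact_mod_cast primorial_pos z
  rw [← Real.le_log_iff_exp_le hp]
  linarith

theorem GoodScale.sizes {ε lam v0 : ℝ} (hε : 0 < ε) (hε1 : ε < 1 / 100) (hv0 : 0 ≤ v0)
    (hlam : 0 < lam) : ∀ᶠ x : ℝ in atTop,
    ∀ z p0 q k1 k2 : ℕ, GoodScale ε lam v0 x z p0 q k1 k2 →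
      1 ≤ k1 ∧ Real.exp ((1 - 2 * ε) * x) ≤ k1 ∧ Real.exp (x - (v0 + 1)) ≤ (k1 : ℝ) * q ∧
      (k2 : ℝ) * q ≤ Real.exp (x + (v0 + 1)) ∧ (k2 : ℝ) ≤ Real.exp (2 * v0 + 3) * k1 ∧
      lam * x ^ 2 + 1 ≤ (q : ℝ) ∧ v0 + 2 ≤ ε * x ∧ x ^ 3 ≤ (q : ℝ) := by
  obtain ⟨z0, hz0⟩ := eventually_atTop.1 exp_half_le_primorial
  have hbig : ∀ᶠ x : ℝ in atTop, x ^ 4 ≤ Real.exp (Real.sqrt x / 2) := by
    have h1 : Tendsto (fun y : ℝ => Real.exp y / y ^ 8) atTop atTop :=
      Real.tendsto_exp_div_pow_atTop 8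
    have h2 : Tendsto (fun x : ℝ => Real.sqrt x / 2) atTop atTop :=
      (Real.tendsto_sqrt_atTop).atTop_div_const (by norm_num)
    filter_upwards [(h1.comp h2).eventually_ge_atTop (256 : ℝ), eventually_gt_atTop (0 : ℝ)]
      with x hx hx0
    simp only [Function.comp_apply] at hx
    have hs : 0 < Real.sqrt x := Real.sqrt_pos.2 hx0
    rw [le_div_iff₀ (by positivity)] at hx
    refine le_trans (le_of_eq ?_) hx
    have h3 : Real.sqrt x ^ 2 = x := Real.sq_sqrt hx0.le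
    calc x ^ 4 = (Real.sqrt x ^ 2) ^ 4 := by rw [h3]
      _ = 256 * (Real.sqrt x / 2) ^ 8 := by ring
  have hvx : ∀ᶠ x : ℝ in atTop, v0 + 2 ≤ ε * x :=
    (tendsto_id.const_mul_atTop hε).eventually_ge_atTop _
  filter_upwards [GoodScale.q_le (lam := lam) (v0 := v0) hε hε1, hbig, hvx,
    eventually_gt_atTop (v0 + 1), eventually_ge_atTop (lam + 1), eventually_ge_atTop (1 : ℝ),
    eventually_ge_atTop (((z0 : ℕ) : ℝ) ^ 2)] with x hq hx4 hv hxv hxl hx1 hxz0
  intro z p0 q k1 k2 hG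
  obtain ⟨hq1, hsq, hqe, hz2, hzx, hqp⟩ := hq z p0 q k1 k2 hG
  have hx0 : 0 < x := by linarith
  have hqr : (1 : ℝ) ≤ (q : ℝ) := by exact_mod_cast hq1
  have hk1q : (0 : ℝ) < (k1 : ℝ) * q := by
    rcases (mul_nonneg (Nat.cast_nonneg k1) (Nat.cast_nonneg q) :
      (0 : ℝ) ≤ (k1 : ℝ) * q).lt_or_eq with h | h
    · exact h
    · exfalso
      have h1 := hG.hl1
      rw [← h, Real.log_zero] at h1
      linarith
  have hk1 : Real.exp (x - (v0 + 1)) ≤ (k1 : ℝ) * q := by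
    rw [← Real.le_log_iff_exp_le hk1q]
    exact hG.hl1
  have hk2q : (0 : ℝ) < (k2 : ℝ) * q := by
    refine lt_of_lt_of_le hk1q ?_
    have : (k1 : ℝ) ≤ k2 := by exact_mod_cast hG.hk12
    gcongr
  have hk2 : (k2 : ℝ) * q ≤ Real.exp (x + (v0 + 1)) := by
    rw [← Real.log_le_iff_le_exp hk2q]
    exact hG.hl4
  have hk1pos : 1 ≤ k1 := by
    rcases Nat.eq_zero_or_pos k1 with h | h
    · rw [h] at hk1q
      simp at hk1q
    · exact h
  have hε2 : ε ^ 2 * x ≤ ε * x := by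
    apply mul_le_mul_of_nonneg_right _ hx0.le
    nlinarith
  have hk1e : Real.exp ((1 - 2 * ε) * x) ≤ (k1 : ℝ) := by
    have h1 : Real.exp ((1 - 2 * ε) * x) * Real.exp (ε ^ 2 * x) ≤ Real.exp (x - (v0 + 1)) := by
      rw [← Real.exp_add]
      apply Real.exp_le_exp.2
      nlinarith
    have h2 : (k1 : ℝ) * q ≤ (k1 : ℝ) * Real.exp (ε ^ 2 * x) :=
      mul_le_mul_of_nonneg_left hqe (Nat.cast_nonneg k1)
    exact le_of_mul_le_mul_right ((h1.trans hk1).trans h2) (Real.exp_pos _)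
  have hqbig : x ^ 3 ≤ (q : ℝ) := by
    have hzs : Real.sqrt x ≤ (z : ℝ) := by
      rw [Real.sqrt_le_left (Nat.cast_nonneg z)]
      exact hG.hxz
    have hzz0 : z0 ≤ z := by
      have h1 : (z0 : ℝ) ≤ Real.sqrt x := by
        apply Real.le_sqrt_of_sq_le
        exact hxz0
      have h2 : (z0 : ℝ) ≤ (z : ℝ) := h1.trans hzs
      exact_mod_cast h2
    have h3 := hz0 z hzz0
    have h4 : (q : ℝ) * p0 = (primorial z : ℝ) := by exact_mod_cast hG.hq
    have hp0z : p0 ≤ z := hG.hp0.dvd_primorial_iff.1 ⟨q, by rw [mul_comm]; exact hG.hq.symm⟩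
    have h5 : (p0 : ℝ) ≤ x := by
      have h6 : (p0 : ℝ) ≤ (z : ℝ) := by exact_mod_cast hp0z
      have h7 : ε * x ≤ 1 * x := by
        apply mul_le_mul_of_nonneg_right _ hx0.le
        linarith
      linarith
    have h8 : x ^ 4 ≤ (primorial z : ℝ) := by
      refine hx4.trans (le_trans (Real.exp_le_exp.2 ?_) h3)
      linarith
    have h9 : x ^ 3 * x ≤ (q : ℝ) * x := by
      calc x ^ 3 * x = x ^ 4 := by ring
        _ ≤ (primorial z : ℝ) := h8
        _ = (q : ℝ) * p0 := h4.symm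
        _ ≤ (q : ℝ) * x := mul_le_mul_of_nonneg_left h5 (by positivity)
    exact le_of_mul_le_mul_right h9 hx0
  refine ⟨hk1pos, hk1e, hk1, hk2, ?_, ?_, hv, hqbig⟩
  · have h1 : (k2 : ℝ) * q ≤ (Real.exp (2 * v0 + 3) * k1) * q := by
      calc (k2 : ℝ) * q ≤ Real.exp (x + (v0 + 1)) := hk2
        _ = Real.exp (2 * v0 + 2) * Real.exp (x - (v0 + 1)) := by
            rw [← Real.exp_add]
            congr 1
            ring
        _ ≤ Real.exp (2 * v0 + 3) * ((k1 : ℝ) * q) := by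
            apply mul_le_mul _ hk1 (Real.exp_pos _).le (Real.exp_pos _).le
            apply Real.exp_le_exp.2
            linarith
        _ = _ := by ring
    exact le_of_mul_le_mul_right h1 (by linarith)
  · refine le_trans ?_ hqbig
    have h1 : 1 ≤ x ^ 2 := one_le_pow₀ hx1
    calc lam * x ^ 2 + 1 ≤ (lam + 1) * x ^ 2 := by nlinarith
      _ ≤ x * x ^ 2 := mul_le_mul_of_nonneg_right hxl (by positivity)
      _ = x ^ 3 := by ring

end Pool.Agent.LibThin21
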