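import Pool.Agent.LibThin21.J0
import Pool.Agent.LibThin21.R3
import Pool.Agent.LibThin21.S3
import Pool.Agent.LibThin21.T0

/-!
ROW J2. Some candidate survives the random classes modulo all primes of `E` not dividing `q`.

`P = (EP E 0 (exp (3x))).filter (¬ · ∣ q)`, `Q1 = ∏_P (1 - 1/p) ≥ exp (- 2 SE E 1 (exp (3x))) ≥ 1/x` (`SE_small`).
`avoid_two`: each factor is `≤ (1 - 1/p)²`, or `(1 - 1/p)² (1 - 1/p)⁻¹` if `p ∣ |n - m|`; so
`μ (both) ≤ Q1² exp (2 ∑_{p ∈ P, p ∣ |n-m|} 1/p)`. The primes of `P` are `p0 ≥ 1/ε` or `> z ≥ √x` (`prime_large`); those in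
`(√x, x^8]` contribute `≤ ε` (`SE_poly`), and there are at most `6 x` prime factors `> x^8`. So the exponential is
`≤ 1 + 5 ε`. `second_moment` with `w = 1`, `η = 5 ε`, `P = Q1`, `W = #S ≥ x^4`, `wm = 1`.
-/

namespace Pool.Agent.LibThin21

open Filter Topology MeasureTheory ProbabilityTheory
open Pool.Agent.LibMaier

variable {Ω : Type*} [MeasurableSpace Ω] {μ : Measure Ω} [IsProbabilityMeasure μ] {E : Set ℕ}
  {a : ℕ → Ω → ℕ}

/-- a positive integer has at most `log N / log 2` prime factors -/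
lemma j2_card_primeFactors {N : ℕ} (hN : N ≠ 0) :
    (N.primeFactors.card : ℝ) * Real.log 2 ≤ Real.log N := by
  have h1 : 2 ^ N.primeFactors.card ≤ N := by
    calc 2 ^ N.primeFactors.card ≤ ∏ p ∈ N.primeFactors, p :=
          Finset.pow_card_le_prod _ _ _ (fun p hp => (Nat.prime_of_mem_primeFactors hp).two_le)
      _ ≤ N := Nat.le_of_dvd (Nat.pos_of_ne_zero hN) (Nat.prod_primeFactors_dvd N)
  have h2 : ((2 : ℝ)) ^ N.primeFactors.card ≤ (N : ℝ) := by exact_mod_cast h1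
  have h3 := Real.log_le_log (by positivity) h2
  rwa [Real.log_pow] at h3

/-- the factor for a prime in both classes -/
lemma j2_factor_one {p : ℕ} (hp : p.Prime) :
    (1 - 1 / (p : ℝ)) ≤ (1 - 1 / (p : ℝ)) ^ 2 * Real.exp (2 * (1 / (p : ℝ))) := by
  have hp2 : (2 : ℝ) ≤ p := by exact_mod_cast hp.two_le
  have hp0 : (0 : ℝ) < p := by linarith
  set u := 1 / (p : ℝ) with hu
  have hu0 : 0 < u := by positivity
  have hu1 : u ≤ 1 / 2 := by
    rw [hu]; exact one_div_le_one_div_of_le (by norm_num) hp2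
  have h1 : 1 + 2 * u ≤ Real.exp (2 * u) := by
    have := Real.add_one_le_exp (2 * u); linarith
  have h2 : 1 ≤ (1 - u) * Real.exp (2 * u) := by
    have h3 : (1 - u) * (1 + 2 * u) ≤ (1 - u) * Real.exp (2 * u) :=
      mul_le_mul_of_nonneg_left h1 (by linarith)
    nlinarith
  calc (1 - u) = (1 - u) * 1 := (mul_one _).symm
    _ ≤ (1 - u) * ((1 - u) * Real.exp (2 * u)) := mul_le_mul_of_nonneg_left h2 (by linarith)
    _ = (1 - u) ^ 2 * Real.exp (2 * u) := by ring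

lemma j2_factor_two {p : ℕ} (hp : p.Prime) :
    (1 - 2 / (p : ℝ)) ≤ (1 - 1 / (p : ℝ)) ^ 2 := by
  have hp2 : (2 : ℝ) ≤ p := by exact_mod_cast hp.two_le
  have hp0 : (0 : ℝ) < p := by linarith
  have h1 : (1 - 1 / (p : ℝ)) ^ 2 = 1 - 2 / (p : ℝ) + (1 / (p : ℝ)) ^ 2 := by ring
  rw [h1]
  have : 0 ≤ (1 / (p : ℝ)) ^ 2 := by positivity
  linarith

open Classical in
/-- the product for two integers -/
lemma j2_prod_le {P : Finset ℕ} (hP : ∀ p ∈ P, p.Prime) (n m : ℕ) :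
    ∏ p ∈ P, (1 - (if n ≡ m [MOD p] then 1 else 2) / (p : ℝ)) ≤
      (∏ p ∈ P, (1 - 1 / (p : ℝ))) ^ 2 *
        Real.exp (2 * ∑ p ∈ P.filter (fun p => n ≡ m [MOD p]), 1 / (p : ℝ)) := by
  have h1 : Real.exp (2 * ∑ p ∈ P.filter (fun p => n ≡ m [MOD p]), 1 / (p : ℝ)) =
      ∏ p ∈ P, (if n ≡ m [MOD p] then Real.exp (2 * (1 / (p : ℝ))) else 1) := by
    rw [Finset.mul_sum, Real.exp_sum, Finset.prod_filter]
  rw [h1, ← Finset.prod_pow, ← Finset.prod_mul_distrib]
  apply Finset.prod_le_prod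
  · intro p hp
    have hp2 : (2 : ℝ) ≤ p := by exact_mod_cast (hP p hp).two_le
    have hp0 : (0 : ℝ) < p := by linarith
    split_ifs
    · have : 1 / (p : ℝ) ≤ 1 := by rw [div_le_one hp0]; linarith
      linarith
    · have : 2 / (p : ℝ) ≤ 1 := by rw [div_le_one hp0]; exact hp2
      linarith
  · intro p hp
    split_ifs
    · exact j2_factor_one (hP p hp)
    · rw [mul_one]; exact j2_factor_two (hP p hp)

/-- common residues of two different integers at most `exp (3x)` -/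
lemma j2_big_primes {x : ℝ} (hx : 1 ≤ x) {n m : ℕ} (hnm : n ≠ m)
    (hn : (n : ℝ) ≤ Real.exp (3 * x)) (hm : (m : ℝ) ≤ Real.exp (3 * x)) {T : Finset ℕ}
    (hT : ∀ p ∈ T, p.Prime ∧ n ≡ m [MOD p] ∧ x ^ 8 < (p : ℝ)) :
    ∑ p ∈ T, 1 / (p : ℝ) ≤ 6 * x * (x ^ 8)⁻¹ := by
  have key : ∀ n m : ℕ, m < n → (n : ℝ) ≤ Real.exp (3 * x) →
      (∀ p ∈ T, p.Prime ∧ n ≡ m [MOD p] ∧ x ^ 8 < (p : ℝ)) → (T.card : ℝ) ≤ 6 * x := by
    intro n m hlt hn hT
    have hN : n - m ≠ 0 := by omega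
    have hsub : T ⊆ (n - m).primeFactors := by
      intro p hp
      obtain ⟨h1, h2, -⟩ := hT p hp
      rw [Nat.mem_primeFactors]
      exact ⟨h1, (Nat.modEq_iff_dvd' hlt.le).mp h2.symm, hN⟩
    have h1 : (T.card : ℝ) ≤ ((n - m).primeFactors.card : ℝ) := by
      exact_mod_cast Finset.card_le_card hsub
    have h2 := j2_card_primeFactors hN
    have h3 : Real.log ((n - m : ℕ) : ℝ) ≤ 3 * x := by
      have h4 : ((n - m : ℕ) : ℝ) ≤ Real.exp (3 * x) := by
        refine le_trans ?_ hn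
        exact_mod_cast Nat.sub_le n m
      have h5 : (0 : ℝ) < ((n - m : ℕ) : ℝ) := by exact_mod_cast Nat.pos_of_ne_zero hN
      calc Real.log ((n - m : ℕ) : ℝ) ≤ Real.log (Real.exp (3 * x)) := Real.log_le_log h5 h4
        _ = 3 * x := Real.log_exp _
    have hl2 : (1 / 2 : ℝ) ≤ Real.log 2 := by
      have := Real.log_two_gt_d9; linarith
    have h6 : (T.card : ℝ) * (1 / 2) ≤ (T.card : ℝ) * Real.log 2 :=
      mul_le_mul_of_nonneg_left hl2 (Nat.cast_nonneg _)
    have h7 : (T.card : ℝ) * Real.log 2 ≤ ((n - m).primeFactors.card : ℝ) * Real.log 2 :=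
      mul_le_mul_of_nonneg_right h1 (by linarith)
    linarith
  have hcard : (T.card : ℝ) ≤ 6 * x := by
    rcases lt_or_gt_of_ne hnm with h | h
    · exact key m n h hm (fun p hp => ⟨(hT p hp).1, (hT p hp).2.1.symm, (hT p hp).2.2⟩)
    · exact key n m h hn hT
  have hx8 : 0 < x ^ 8 := by positivity
  calc ∑ p ∈ T, 1 / (p : ℝ) ≤ ∑ p ∈ T, (x ^ 8)⁻¹ := by
        apply Finset.sum_le_sum
        intro p hp
        rw [one_div]
        exact inv_anti₀ hx8 (hT p hp).2.2.le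
    _ = (T.card : ℝ) * (x ^ 8)⁻¹ := by rw [Finset.sum_const, nsmul_eq_mul]
    _ ≤ 6 * x * (x ^ 8)⁻¹ := mul_le_mul_of_nonneg_right hcard (by positivity)

open Classical in
theorem survivors_prob (hE : Thin E) (hM : Model μ E a) {ε lam v0 : ℝ} (hε : 0 < ε)
    (hε1 : ε < 1 / 100) (hv0 : 0 ≤ v0) (hlam : 0 < lam) :
    ∀ᶠ x : ℝ in atTop, ∀ z p0 q k1 k2 : ℕ, GoodScale ε lam v0 x z p0 q k1 k2 →
      ∀ S : Finset ℕ, x ^ 4 ≤ (S.card : ℝ) → (∀ n ∈ S, (n : ℝ) ≤ Real.exp (3 * x)) →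
      1 - 50 * ε ≤ μ.real {ω | ∃ n ∈ S, ∀ p ∈ (EP E 0 (Real.exp (3 * x))).filter (fun p => ¬ p ∣ q),
        ¬ n ≡ a p ω [MOD p]} := by
  have hsmall : ∀ᶠ x : ℝ in atTop, SE E 1 (Real.exp (3 * x)) ≤ 1 / 4 * Real.log (3 * x) := by
    have h1 := SE_small hE (η := 1 / 4) (by norm_num)
    exact (tendsto_id.const_mul_atTop (by norm_num : (0 : ℝ) < 3)).eventually h1
  filter_upwards [SE_poly hE (η := ε / 10) (by positivity), hsmall, eventually_ge_atTop (100 : ℝ),
    eventually_ge_atTop (60 / ε)] with x hpoly hsm hx100 hxε z p0 q k1 k2 hs S hS hSn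
  have hx0 : 0 < x := by linarith
  have hx1 : 1 ≤ x := by linarith
  have h60 : 60 ≤ ε * x := by
    rw [div_le_iff₀ hε] at hxε
    linarith
  set P := (EP E 0 (Real.exp (3 * x))).filter (fun p => ¬ p ∣ q) with hPdef
  have hexp3 : 0 ≤ Real.exp (3 * x) := (Real.exp_pos _).le
  have hPmem : ∀ p ∈ P, p.Prime ∧ p ∈ E ∧ (p : ℝ) ≤ Real.exp (3 * x) ∧ ¬ p ∣ q := by
    intro p hp
    rw [hPdef, Finset.mem_filter, mem_EP hexp3] at hp
    exact ⟨hp.1.1, hp.1.2.1, hp.1.2.2.2, hp.2⟩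
  have hPpr : ∀ p ∈ P, p.Prime := fun p hp => (hPmem p hp).1
  set Q1 := ∏ p ∈ P, (1 - 1 / (p : ℝ)) with hQ1
  have hfac : ∀ p ∈ P, (1 : ℝ) / 2 ≤ 1 - 1 / (p : ℝ) := by
    intro p hp
    have hp2 : (2 : ℝ) ≤ p := by exact_mod_cast (hPpr p hp).two_le
    have : 1 / (p : ℝ) ≤ 1 / 2 := one_div_le_one_div_of_le (by norm_num) hp2
    linarith
  have hQ1pos : 0 < Q1 := Finset.prod_pos (fun p hp => by linarith [hfac p hp])
  -- lower bound for `Q1`
  have hQ1low : 1 / x ≤ Q1 := by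
    have h1 : Q1 = 1 / LSieve.V P := prod_one_sub_eq hPpr
    have h2 := V_le_exp hPpr
    have h3 : ∑ p ∈ P, 1 / (p : ℝ) ≤ SE E 1 (Real.exp (3 * x)) := by
      unfold SE
      apply Finset.sum_le_sum_of_subset_of_nonneg
      · intro p hp
        obtain ⟨h4, h5, h6, -⟩ := hPmem p hp
        rw [mem_EP hexp3]
        exact ⟨h4, h5, by exact_mod_cast h4.one_lt, h6⟩
      · intro p _ _
        positivity
    have hV0 : 0 < LSieve.V P := by
      have h4 : 0 < 1 / LSieve.V P := h1 ▸ hQ1pos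
      exact one_div_pos.mp h4
    have h5 : LSieve.V P ≤ x := by
      have h6 : Real.exp (2 * ∑ p ∈ P, 1 / (p : ℝ)) ≤ Real.exp (Real.log x) := by
        apply Real.exp_le_exp.mpr
        have h7 : Real.log (3 * x) = Real.log 3 + Real.log x :=
          Real.log_mul (by norm_num) hx0.ne'
        have h8 : Real.log 3 ≤ Real.log x := Real.log_le_log (by norm_num) (by linarith)
        nlinarith
      rw [Real.exp_log hx0] at h6
      exact h2.trans h6
    rw [h1]
    exact one_div_le_one_div_of_le hV0 h5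
  -- the events
  set G : ℕ → Set Ω := fun n => {ω | ∀ p ∈ P, ¬ n ≡ a p ω [MOD p]} with hG
  have hGm : ∀ n, MeasurableSet (G n) := by
    intro n
    have h1 : G n = ⋂ p ∈ P, (a p) ⁻¹' {r | ¬ n ≡ r [MOD p]} := by
      ext ω
      simp only [hG, Set.mem_ofPred_eq, Set.mem_iInter, Set.mem_preimage]
    rw [h1]
    exact Finset.measurableSet_biInter P (fun p _ => (hM.meas p) (MeasurableSet.of_discrete))
  have hPE : ∀ p ∈ P, p.Prime ∧ p ∈ E := fun p hp => ⟨(hPmem p hp).1, (hPmem p hp).2.1⟩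
  have hone : ∀ n, μ.real (G n) = Q1 := fun n => avoid_one hM hPE n
  have htwo : ∀ n ∈ S, ∀ m ∈ S, n ≠ m → μ.real (G n ∩ G m) ≤ (1 + 5 * ε) * Q1 ^ 2 := by
    intro n hn m hm hnm
    have h1 : μ.real (G n ∩ G m) =
        ∏ p ∈ P, (1 - (if n ≡ m [MOD p] then 1 else 2) / (p : ℝ)) := avoid_two hM hPE n m
    rw [h1]
    refine (j2_prod_le hPpr n m).trans ?_
    rw [mul_comm (1 + 5 * ε)]
    apply mul_le_mul_of_nonneg_left _ (by positivity)
    set T := P.filter (fun p => n ≡ m [MOD p]) with hT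
    have hTP : ∀ p ∈ T, p ∈ P ∧ n ≡ m [MOD p] := fun p hp => by
      rw [hT, Finset.mem_filter] at hp; exact hp
    have hsum : ∑ p ∈ T, 1 / (p : ℝ) ≤ ε + ε / 10 + 6 * x * (x ^ 8)⁻¹ := by
      rw [← Finset.sum_filter_add_sum_filter_not T (fun p : ℕ => x ^ 8 < (p : ℝ))]
      have hbig := j2_big_primes hx1 hnm (hSn n hn) (hSn m hm)
        (T := T.filter (fun p : ℕ => x ^ 8 < (p : ℝ))) (by
          intro p hp
          rw [Finset.mem_filter] at hp
          exact ⟨hPpr p (hTP p hp.1).1, (hTP p hp.1).2, hp.2⟩)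
      rw [← Finset.sum_filter_add_sum_filter_not
        (T.filter (fun p : ℕ => ¬ x ^ 8 < (p : ℝ))) (fun p : ℕ => p = p0)]
      have h2 : ∑ p ∈ (T.filter (fun p : ℕ => ¬ x ^ 8 < (p : ℝ))).filter (fun p : ℕ => p = p0),
          1 / (p : ℝ) ≤ ε := by
        have h3 : (T.filter (fun p : ℕ => ¬ x ^ 8 < (p : ℝ))).filter (fun p : ℕ => p = p0) ⊆ {p0} := by
          intro p hp
          rw [Finset.mem_filter] at hp
          rw [Finset.mem_singleton]; exact hp.2
        calc ∑ p ∈ (T.filter (fun p : ℕ => ¬ x ^ 8 < (p : ℝ))).filter (fun p : ℕ => p = p0), 1 / (p : ℝ)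
            ≤ ∑ p ∈ ({p0} : Finset ℕ), 1 / (p : ℝ) :=
              Finset.sum_le_sum_of_subset_of_nonneg h3 (fun p _ _ => by positivity)
          _ = 1 / (p0 : ℝ) := Finset.sum_singleton _ _
          _ ≤ ε := by
              have h4 : (0 : ℝ) < p0 := by exact_mod_cast hs.hp0.pos
              rw [div_le_iff₀ h4]
              have h5 := hs.hp0big
              rw [div_le_iff₀ hε] at h5
              linarith
      have h3 : ∑ p ∈ (T.filter (fun p : ℕ => ¬ x ^ 8 < (p : ℝ))).filter (fun p : ℕ => ¬ p = p0),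
          1 / (p : ℝ) ≤ ε / 10 := by
        refine le_trans ?_ hpoly
        unfold SE
        apply Finset.sum_le_sum_of_subset_of_nonneg
        · intro p hp
          rw [Finset.mem_filter, Finset.mem_filter] at hp
          obtain ⟨⟨hpT, hp8⟩, hpp⟩ := hp
          obtain ⟨h4, h5, h6, h7⟩ := hPmem p (hTP p hpT).1
          rw [mem_EP (by positivity)]
          refine ⟨h4, h5, ?_, not_lt.mp hp8⟩
          rcases hs.prime_large h4 h7 with h8 | h8
          · exact absurd h8 hpp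
          · have h9 : x ^ (1 / 4 : ℝ) ≤ z := by
              have h10 : x ^ (1 / 4 : ℝ) ≤ x ^ (1 / 2 : ℝ) :=
                Real.rpow_le_rpow_of_exponent_le hx1 (by norm_num)
              have h11 : x ^ (1 / 2 : ℝ) ≤ ((z : ℝ) ^ 2) ^ (1 / 2 : ℝ) :=
                Real.rpow_le_rpow hx0.le hs.hxz (by norm_num)
              have h12 : ((z : ℝ) ^ 2) ^ (1 / 2 : ℝ) = z := by
                rw [← Real.sqrt_eq_rpow, Real.sqrt_sq (Nat.cast_nonneg z)]
              rw [h12] at h11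
              exact h10.trans h11
            have h13 : (z : ℝ) < p := by exact_mod_cast h8
            linarith
        · intro p _ _
          positivity
      linarith
    have h6x : 6 * x * (x ^ 8)⁻¹ ≤ ε / 10 := by
      have h2 : 6 * x * (x ^ 8)⁻¹ = 6 / x ^ 7 := by
        field_simp
      rw [h2, div_le_iff₀ (by positivity)]
      have h3 : x ≤ x ^ 7 := by
        calc x = x ^ 1 := (pow_one x).symm
          _ ≤ x ^ 7 := pow_le_pow_right₀ hx1 (by norm_num)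
      have h4 : ε / 10 * x ≤ ε / 10 * x ^ 7 := mul_le_mul_of_nonneg_left h3 (by positivity)
      linarith
    have hsum2 : 2 * ∑ p ∈ T, 1 / (p : ℝ) ≤ 5 / 2 * ε := by linarith
    have hexp : Real.exp (5 / 2 * ε) ≤ 1 + 5 * ε := by
      have h2 : |5 / 2 * ε| ≤ 1 := by
        rw [abs_of_nonneg (by positivity)]; linarith
      have h3 := Real.abs_exp_sub_one_le h2
      rw [abs_of_nonneg (by positivity : (0 : ℝ) ≤ 5 / 2 * ε)] at h3
      have h4 := le_abs_self (Real.exp (5 / 2 * ε) - 1)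
      linarith
    exact (Real.exp_le_exp.mpr hsum2).trans hexp
  have hS0 : (0 : ℝ) < S.card := lt_of_lt_of_le (by positivity) hS
  have hmain := second_moment (μ := μ) S (fun _ => (1 : ℝ)) G (fun n _ => hGm n)
    (P := Q1) (η := 5 * ε) (W := (S.card : ℝ)) (wm := 1) hQ1pos (by positivity) (by linarith)
    (fun _ _ => by norm_num) (fun _ _ => le_refl _) (by simp) hS0
    (fun n _ => by rw [hone n]; nlinarith) (fun n _ => by rw [hone n]; nlinarith)
    htwo
  have hset : {ω | ∃ n ∈ S, ∀ p ∈ P, ¬ n ≡ a p ω [MOD p]} = ⋃ n ∈ S, G n := by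
    ext ω
    simp only [hG, Set.mem_ofPred_eq, Set.mem_iUnion, exists_prop]
  rw [hset]
  refine le_trans ?_ hmain
  have hfin : 8 * (1 / ((S.card : ℝ) * Q1)) ≤ 10 * ε := by
    have h1 : x ^ 3 ≤ (S.card : ℝ) * Q1 := by
      calc x ^ 3 = x ^ 4 * (1 / x) := by field_simp
        _ ≤ (S.card : ℝ) * Q1 := mul_le_mul hS hQ1low (by positivity) hS0.le
    have h2 : x ≤ x ^ 3 := by
      calc x = x ^ 1 := (pow_one x).symm
        _ ≤ x ^ 3 := pow_le_pow_right₀ hx1 (by norm_num)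
    have h3 : 1 / ((S.card : ℝ) * Q1) ≤ 1 / x := one_div_le_one_div_of_le hx0 (h2.trans h1)
    have h4 : 8 * (1 / x) ≤ 10 * ε := by
      rw [mul_one_div, div_le_iff₀ hx0]
      linarith
    linarith
  linarith

end Pool.Agent.LibThin21
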