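import Pool.Agent.LibThin21.R7
import Pool.Agent.LibThin21.F2
import Pool.Agent.LibThin21.J1
import Pool.Agent.LibThin21.J2

/-!
Almost surely the sifted set is infinite.
-/

namespace Pool.Agent.LibThin21

open Filter Topology MeasureTheory ProbabilityTheory

variable {Ω : Type*} [MeasurableSpace Ω] {μ : Measure Ω} [IsProbabilityMeasure μ] {E : Set ℕ}
  {a : ℕ → Ω → ℕ}

open Classical in
theorem element_prob (hE : Thin E) (hM : Model μ E a) {ε : ℝ} (hε : 0 < ε) (hε1 : ε < 1 / 100)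
    (N : ℕ) : 1 - 50 * ε ≤ μ.real {ω | ∃ n : ℕ, N ≤ n ∧ n ∈ sifted (fun p => a p ω)} := by
  have hNx : ∀ᶠ x : ℝ in atTop, (N : ℝ) ≤ Real.exp (x / 2) := by
    have h1 : Tendsto (fun x : ℝ => Real.exp (x / 2)) atTop atTop :=
      Real.tendsto_exp_atTop.comp (tendsto_id.atTop_div_const (by norm_num))
    exact h1.eventually_ge_atTop _
  obtain ⟨x, ⟨z, p0, q, k1, k2, hG⟩, hcand, hsurv, hN⟩ :=
    ((exists_goodScale hε hε1 (le_refl (0 : ℝ)) one_pos).and
      ((exists_candidates (E := E) hε hε1 (le_refl (0 : ℝ)) one_pos).and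
        ((survivors_prob hE hM hε hε1 (le_refl (0 : ℝ)) one_pos).and hNx))).exists
  have hc1 := hcand z p0 q k1 k2 hG
  have hs1 := hsurv z p0 q k1 k2 hG
  set P := (EP E 0 (Real.exp (3 * x))).filter (fun p => ¬ p ∣ q) with hP
  have hex : ∀ c : ℕ, ∃ S : Finset ℕ, c < q → (∀ p ∈ q.primeFactors, p ∉ E → p ∣ c) →
      (x ^ 4 ≤ (S.card : ℝ) ∧
        (∀ n ∈ S, Real.exp (x / 2) ≤ (n : ℝ) ∧ (n : ℝ) ≤ Real.exp (3 * x)) ∧
        (∀ n ∈ S, ∀ p ∈ q.primeFactors, ¬ n ≡ c [MOD p]) ∧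
        (∀ n ∈ S, ∀ p : ℕ, p.Prime → p ∉ E → p ^ 2 ≤ n → ¬ p ∣ n)) := by
    intro c
    by_cases h : c < q ∧ (∀ p ∈ q.primeFactors, p ∉ E → p ∣ c)
    · obtain ⟨S, hS⟩ := hc1 c h.1 h.2
      exact ⟨S, fun _ _ => hS⟩
    · exact ⟨∅, fun h1 h2 => absurd ⟨h1, h2⟩ h⟩
  choose S hS using hex
  have hdisj : Disjoint q.primeFactors P := by
    rw [Finset.disjoint_left]
    intro p hp hpP
    rw [hP, Finset.mem_filter] at hpP
    exact hpP.2 (Nat.dvd_of_mem_primeFactors hp)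
  let R : ℕ → (P → ℕ) → Prop := fun c α => ∃ n ∈ S c, ∀ p : P, ¬ n ≡ α p [MOD (p : ℕ)]
  have hcb := center_bound (μ := μ) (a := a) hM hG.squarefree hdisj R (κ := 50 * ε) (by
    intro c hc hcE
    obtain ⟨h1, h2, -, -⟩ := hS c hc hcE
    refine (hs1 (S c) h1 fun n hn => (h2 n hn).2).trans ?_
    apply measureReal_mono _ (measure_ne_top _ _)
    rintro ω ⟨n, hn, hn2⟩
    exact ⟨n, hn, fun p => hn2 p p.2⟩)
  refine hcb.trans ?_
  apply measureReal_mono _ (measure_ne_top _ _)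
  rintro ω ⟨c, hc, hcong, hcE, n, hn, hnP⟩
  obtain ⟨-, h2, h3, h4⟩ := hS c hc hcE
  refine ⟨n, ?_, ?_⟩
  · have h5 : (N : ℝ) ≤ (n : ℝ) := hN.trans (h2 n hn).1
    exact_mod_cast h5
  · intro p hp hpn hmod
    by_cases hpq : p ∣ q
    · have hq0 : q ≠ 0 := fun h => by
        rw [h] at hc
        exact absurd hc (Nat.not_lt_zero c)
      have hpf : p ∈ q.primeFactors := Nat.mem_primeFactors.2 ⟨hp, hpq, hq0⟩
      exact h3 n hn p hpf (hmod.trans (hcong p hpf).symm)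
    · by_cases hpE : p ∈ E
      · have hmem : p ∈ P := by
          rw [hP, Finset.mem_filter, mem_EP (Real.exp_pos _).le]
          refine ⟨⟨hp, hpE, by exact_mod_cast hp.pos, ?_⟩, hpq⟩
          have h5 : p ≤ n := by
            calc p ≤ p ^ 2 := by nlinarith [hp.one_lt]
              _ ≤ n := hpn
          have h6 : (p : ℝ) ≤ (n : ℝ) := by exact_mod_cast h5
          exact h6.trans (h2 n hn).2
        exact hnP ⟨p, hmem⟩ hmod
      · have h5 : a p ω = 0 := hM.zero p hpE ω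
        simp only [h5] at hmod
        exact h4 n hn p hp hpE hpn ((Nat.modEq_zero_iff_dvd).1 hmod)

theorem ae_infinite (hE : Thin E) (hM : Model μ E a) :
    ∀ᵐ ω ∂μ, (sifted (fun p => a p ω)).Infinite := by
  have hmeas : ∀ N : ℕ, MeasurableSet {ω | ∃ n : ℕ, N ≤ n ∧ n ∈ sifted (fun p => a p ω)} := by
    intro N
    have h1 : {ω | ∃ n : ℕ, N ≤ n ∧ n ∈ sifted (fun p => a p ω)} =
        ⋃ n : ℕ, ⋃ _ : N ≤ n, {ω | n ∈ sifted (fun p => a p ω)} := by
      ext ω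
      simp
    rw [h1]
    exact MeasurableSet.iUnion fun m => MeasurableSet.iUnion fun _ =>
      measurableSet_mem_sifted hM.meas m
  have hall : ∀ N : ℕ, ∀ᵐ ω ∂μ, ∃ n : ℕ, N ≤ n ∧ n ∈ sifted (fun p => a p ω) := by
    intro N
    have h1 : 1 ≤ μ.real {ω | ∃ n : ℕ, N ≤ n ∧ n ∈ sifted (fun p => a p ω)} := by
      refine le_of_forall_pos_sub_le fun ε hε => ?_
      rcases le_total (ε / 50) (1 / 200) with h2 | h2
      · have h3 := element_prob hE hM (show 0 < ε / 50 by positivity)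
          (show ε / 50 < 1 / 100 by linarith) N
        linarith
      · have h3 := element_prob hE hM (show (0 : ℝ) < 1 / 200 by norm_num)
          (show (1 : ℝ) / 200 < 1 / 100 by norm_num) N
        linarith
    have h2 : μ.real {ω | ∃ n : ℕ, N ≤ n ∧ n ∈ sifted (fun p => a p ω)}ᶜ ≤ 0 := by
      rw [probReal_compl_eq_one_sub (hmeas N)]
      linarith
    have h4 := le_antisymm h2 measureReal_nonneg
    rw [measureReal_eq_zero_iff] at h4
    exact h4
  rw [← ae_all_iff] at hall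
  filter_upwards [hall] with ω hω
  rw [Set.infinite_iff_exists_gt]
  intro N
  obtain ⟨n, hn, hn2⟩ := hω (N + 1)
  exact ⟨n, hn2, by omega⟩

end Pool.Agent.LibThin21
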