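import Pool.Agent.LibThin21.F2
import Pool.Agent.LibThin21.J3

/-!
The theorem, from the pieces.
-/

namespace Pool.Agent.LibThin21

open Filter Topology MeasureTheory ProbabilityTheory
open Pool.Agent.LibMaier Pool.Agent.LibCramer

variable {Ω : Type*} [MeasurableSpace Ω] {μ : Measure Ω} [IsProbabilityMeasure μ] {E : Set ℕ}
  {a : ℕ → Ω → ℕ}

lemma thin_of_X {E : Set ℕ}
    (h : Tendsto (fun X : ℝ => SE E (X ^ (1 / Real.log (Real.log X))) X) atTop (𝓝 0)) :
    Thin E := by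
  unfold Thin
  have h1 := h.comp Real.tendsto_exp_atTop
  refine h1.congr' ?_
  filter_upwards with x
  simp only [Function.comp_apply]
  rw [Real.log_exp]
  congr 1
  rw [← Real.exp_mul]
  congr 1
  ring

lemma freq_of_X {E : Set ℕ} {s : ℝ} (h : ∃ᶠ X : ℝ in atTop, s ≤ SE E (Real.log X) X) :
    ∃ᶠ x : ℝ in atTop, s ≤ SE E x (Real.exp x) := by
  rw [frequently_atTop] at h ⊢
  intro A
  obtain ⟨X, hX, hs⟩ := h (Real.exp A)
  have hX0 : 0 < X := lt_of_lt_of_le (Real.exp_pos A) hX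
  refine ⟨Real.log X, ?_, ?_⟩
  · rw [Real.le_log_iff_exp_le hX0]
    exact hX
  · rw [Real.exp_log hX0]
    exact hs

/-- bounds for all `d` below `L` give the bound `L`, almost surely -/
lemma ae_of_lt {L : ℝ} (hL : 0 < L)
    (h : ∀ d : ℝ, 0 < d → d < L →
      ∀ᵐ ω ∂μ, ENNReal.ofReal d ≤ cramer (sifted (fun p => a p ω))) :
    ∀ᵐ ω ∂μ, ENNReal.ofReal L ≤ cramer (sifted (fun p => a p ω)) := by
  have h1 : ∀ n : ℕ, ∀ᵐ ω ∂μ, ENNReal.ofReal (L * (1 - 1 / ((n : ℝ) + 2))) ≤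
      cramer (sifted (fun p => a p ω)) := by
    intro n
    have hn : (0 : ℝ) < (n : ℝ) + 2 := by positivity
    have h2 : 1 / ((n : ℝ) + 2) < 1 := by
      rw [div_lt_one hn]
      have : (0 : ℝ) ≤ (n : ℝ) := Nat.cast_nonneg n
      linarith
    have h3 : 0 < 1 / ((n : ℝ) + 2) := by positivity
    apply h
    · apply mul_pos hL
      linarith
    · nlinarith
  rw [← ae_all_iff] at h1
  filter_upwards [h1] with ω hω
  have hlim : Tendsto (fun n : ℕ => ENNReal.ofReal (L * (1 - 1 / ((n : ℝ) + 2)))) atTop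
      (𝓝 (ENNReal.ofReal L)) := by
    apply ENNReal.tendsto_ofReal
    have h4 : Tendsto (fun n : ℕ => 1 / ((n : ℝ) + 2)) atTop (𝓝 0) := by
      have h5 : Tendsto (fun n : ℕ => (n : ℝ) + 2) atTop atTop :=
        tendsto_atTop_add_const_right _ _ tendsto_natCast_atTop_atTop
      exact tendsto_const_nhds.div_atTop h5
    have h6 := (tendsto_const_nhds (x := (1 : ℝ))).sub h4
    have h7 := h6.const_mul L
    simpa using h7
  exact le_of_tendsto' hlim hω

theorem main (hE : Thin E) (hM : Model μ E a) {s : ℝ} (hs : 0 < s)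
    (hfreq : ∃ᶠ x : ℝ in atTop, s ≤ SE E x (Real.exp x)) :
    ∀ᵐ ω ∂μ, (sifted (fun p => a p ω)).Infinite ∧
      ENNReal.ofReal (Phi s) ≤ cramer (sifted (fun p => a p ω)) := by
  have hinf := ae_infinite hE hM
  have h1 : ∀ᵐ ω ∂μ, ENNReal.ofReal (Phi s) ≤ cramer (sifted (fun p => a p ω)) := by
    apply ae_of_lt (Phi_pos hs)
    intro d hd hds
    filter_upwards [hinf, ae_frequently_empty hE hM hs hd hds hfreq] with ω h1 h2
    apply le_cramer h1 hd.le
    refine h2.mono ?_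
    intro m hm j hj1 hj2 hjB
    have h3 : j ∈ sifted (fun p => a p ω) ∩ Set.Ioc m (m + len d m) := ⟨hjB, hj1, hj2⟩
    rw [hm] at h3
    exact h3
  filter_upwards [hinf, h1] with ω h2 h3
  exact ⟨h2, h3⟩

theorem main_infinite (hE : Thin E) (hM : Model μ E a)
    (hfreq : ∀ s : ℝ, ∃ᶠ x : ℝ in atTop, s ≤ SE E x (Real.exp x)) :
    ∀ᵐ ω ∂μ, (sifted (fun p => a p ω)).Infinite ∧
      ENNReal.ofReal (2 * Real.exp (-Real.eulerMascheroniConstant)) ≤
        cramer (sifted (fun p => a p ω)) := by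
  have hinf := ae_infinite hE hM
  have h1 : ∀ᵐ ω ∂μ, ENNReal.ofReal (2 * Real.exp (-Real.eulerMascheroniConstant)) ≤
      cramer (sifted (fun p => a p ω)) := by
    apply ae_of_lt (by positivity)
    intro d hd hdL
    have h2 : ∀ᶠ s : ℝ in atTop, d < Phi s ∧ 0 < s :=
      (tendsto_Phi.eventually_const_lt hdL).and (eventually_gt_atTop 0)
    obtain ⟨s, hds, hs⟩ := h2.exists
    filter_upwards [main hE hM hs (hfreq s)] with ω hω
    exact (ENNReal.ofReal_le_ofReal hds.le).trans hω.2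
  filter_upwards [hinf, h1] with ω h2 h3
  exact ⟨h2, h3⟩

end Pool.Agent.LibThin21
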