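import Pool.Agent.LibMaier.ZeroFree
import Pool.Agent.LibMaier.Scales

/-!
ROW G1. For every large `z` the product of the primes up to `z`, divided by ONE LARGE prime `p`, is a modulus
without exceptional zeros.

This is helper63's theorem `LibG2.exists_good` with one change: instead of `χ₁.conductor.minFac` take a LARGE prime
factor of the conductor `f` of the exceptional character `χ₁`. It exists for large `z`: otherwise `f` divides
`F = primorial P0`, so `χ₁` is induced by a character modulo `F`, with a zero at `β₁`, close to `1`; but there are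
finitely many characters modulo `F`, and their `L`-functions do not vanish near `1`.
-/

namespace Pool.Agent.LibThin21

open Filter Topology Complex DirichletCharacter
open Pool.Agent.LibMaier

lemma g1_zero_changeLevel {M N : ℕ} [NeZero M] [NeZero N] (h : M ∣ N) (χ : DirichletCharacter ℂ M)
    (hχ : χ ≠ 1) {ρ : ℂ} (hρ : LFunction χ ρ = 0) : LFunction (changeLevel h χ) ρ = 0 := by
  rw [LFunction_changeLevel h χ (Or.inl hχ), hρ, zero_mul]

/-- no zeros near `1` for the characters of a fixed modulus -/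
lemma g1_nozero (F : ℕ) [NeZero F] : ∃ δ : ℝ, 0 < δ ∧ ∀ χ : DirichletCharacter ℂ F, χ ≠ 1 →
    ∀ β : ℝ, 1 - δ < β → LFunction χ (β : ℂ) ≠ 0 := by
  have h : ∀ᶠ s : ℂ in 𝓝 (1 : ℂ), ∀ χ : DirichletCharacter ℂ F, χ ≠ 1 → LFunction χ s ≠ 0 := by
    rw [eventually_all]
    intro χ
    by_cases hχ : χ = 1
    · exact Eventually.of_forall fun s h => absurd hχ h
    · have h1 := (differentiable_LFunction hχ).continuous.continuousAt (x := (1 : ℂ))
      filter_upwards [h1.eventually_ne (LFunction_apply_one_ne_zero hχ)] with s hs _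
      exact hs
  obtain ⟨δ, hδ, hd⟩ := Metric.eventually_nhds_iff.1 h
  refine ⟨δ, hδ, fun χ hχ β hβ => ?_⟩
  by_cases hβ1 : 1 ≤ β
  · exact LFunction_ne_zero_of_one_le_re χ (Or.inl hχ) (by simpa using hβ1)
  · push Not at hβ1
    apply hd _ χ hχ
    rw [dist_eq_norm]
    have h1 : ((β : ℂ) - 1) = (((β - 1 : ℝ)) : ℂ) := by push_cast; ring
    rw [h1, Complex.norm_real, Real.norm_eq_abs, abs_lt]
    constructor <;> linarith

/-- an exceptional zero descends -/
lemma g1_descend {M N : ℕ} [NeZero M] [NeZero N] (h : M ∣ N) (χ : DirichletCharacter ℂ M)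
    (hχ : χ ≠ 1) {β : ℝ} (hβ : 0 < β) (h0 : LFunction (changeLevel h χ) (β : ℂ) = 0) :
    LFunction χ (β : ℂ) = 0 := by
  rw [LFunction_changeLevel h χ (Or.inl hχ)] at h0
  rcases mul_eq_zero.1 h0 with h1 | h1
  · exact h1
  · exfalso
    obtain ⟨p, hp, hp0⟩ := Finset.prod_eq_zero_iff.1 h1
    have hpp := Nat.prime_of_mem_primeFactors hp
    have h2 : χ (p : ZMod M) * (p : ℂ) ^ (-(β : ℂ)) = 1 := (sub_eq_zero.1 hp0).symm
    have h3 : ‖χ (p : ZMod M) * (p : ℂ) ^ (-(β : ℂ))‖ < 1 := by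
      rw [norm_mul]
      have h4 : ‖(p : ℂ) ^ (-(β : ℂ))‖ < 1 := by
        rw [Complex.norm_natCast_cpow_of_pos hpp.pos]
        simp only [neg_re, ofReal_re]
        exact Real.rpow_lt_one_of_one_lt_of_neg (by exact_mod_cast hpp.one_lt) (by linarith)
      have h5 := χ.norm_le_one (p : ZMod M)
      nlinarith [norm_nonneg (χ (p : ZMod M)), norm_nonneg ((p : ℂ) ^ (-(β : ℂ)))]
    rw [h2] at h3
    simp at h3

theorem exists_good_large (P0 : ℕ) : ∃ Z0 : ℕ, 2 ≤ Z0 ∧ ∀ z : ℕ, Z0 ≤ z → ∀ T : ℝ, 0 ≤ T →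
    ∃ p : ℕ, p.Prime ∧ p ∣ primorial z ∧ P0 ≤ p ∧ ∀ (q : ℕ) [NeZero q], q * p = primorial z →
      ∀ χ : DirichletCharacter ℂ q, χ ≠ 1 → ∀ ρ : ℂ, LFunction χ ρ = 0 → |ρ.im| ≤ T / 2 →
        ρ.re ≤ 1 - kk / LL (primorial z) T := by
  obtain ⟨L₁, hL₁, hzf⟩ := zero_free
  obtain ⟨L₂, hL₂, hun⟩ := exceptional_unique
  obtain ⟨δ, hδ, hnz⟩ := g1_nozero (primorial P0)
  have hkk : 0 < kk := by unfold kk; norm_num
  obtain ⟨p1, hp1, hp1p⟩ := Nat.exists_infinite_primes P0
  obtain ⟨p2, hp2, hp2p⟩ := Nat.exists_infinite_primes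
    ⌈Real.exp (max (max L₁ L₂) (kk / δ))⌉₊
  refine ⟨max (max p1 p2) 2, le_max_right _ _, ?_⟩
  intro z hz T hT
  have hz1 : p1 ≤ z := (le_max_left _ _).trans ((le_max_left _ _).trans hz)
  have hz2 : p2 ≤ z := (le_max_right _ _).trans ((le_max_left _ _).trans hz)
  have hsq : Squarefree (primorial z) := squarefree_primorial z
  have hL : max (max L₁ L₂) (kk / δ) ≤ LL (primorial z) T := by
    unfold LL
    rw [Real.le_log_iff_exp_le (by
      have : (0 : ℝ) < primorial z := by exact_mod_cast primorial_pos z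
      positivity)]
    have h1 : Real.exp (max (max L₁ L₂) (kk / δ)) ≤ (p2 : ℝ) :=
      (Nat.le_ceil _).trans (by exact_mod_cast hp2)
    have h2 : (p2 : ℝ) ≤ primorial z := by
      exact_mod_cast Nat.le_of_dvd (primorial_pos z) (hp2p.dvd_primorial_iff.2 hz2)
    have h3 : (0 : ℝ) < primorial z := by exact_mod_cast primorial_pos z
    nlinarith
  have hLL1 : L₁ ≤ LL (primorial z) T := (le_max_left _ _).trans ((le_max_left _ _).trans hL)
  have hLL2 : L₂ ≤ LL (primorial z) T := (le_max_right _ _).trans ((le_max_left _ _).trans hL)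
  have hLL3 : kk / δ ≤ LL (primorial z) T := (le_max_right _ _).trans hL
  have hLpos : 0 < LL (primorial z) T := by linarith
  have hδL : kk / LL (primorial z) T ≤ δ := by
    rw [div_le_iff₀ hδ] at hLL3
    rw [div_le_iff₀ hLpos]
    linarith
  have hk1 : kk / LL (primorial z) T < 1 := by
    rw [div_lt_one hLpos]
    have : kk < 1 := by unfold kk; norm_num
    linarith
  -- a zero in the region for a divisor gives an exceptional pair for `primorial z`
  have key : ∀ (q : ℕ) [NeZero q] (h : q ∣ primorial z) (χ : DirichletCharacter ℂ q), χ ≠ 1 →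
      ∀ ρ : ℂ, LFunction χ ρ = 0 → |ρ.im| ≤ T / 2 → 1 - kk / LL (primorial z) T < ρ.re →
      changeLevel h χ ≠ 1 ∧ (changeLevel h χ) ^ 2 = 1 ∧
        LFunction (changeLevel h χ) (ρ.re : ℂ) = 0 := by
    intro q _ h χ hχ ρ hρ hT' hre
    have h1 : changeLevel h χ ≠ 1 := fun h' => hχ ((changeLevel_eq_one_iff h).1 h')
    have h2 := g1_zero_changeLevel h χ hχ hρ
    have hnr : ¬ (ρ.im ≠ 0 ∨ (changeLevel h χ) ^ 2 ≠ 1) := by
      intro h3
      have := hzf (primorial z) T hT hLL1 (changeLevel h χ) h1 ρ h2 hT' h3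
      linarith
    push Not at hnr
    refine ⟨h1, hnr.2, ?_⟩
    have : ((ρ.re : ℝ) : ℂ) = ρ := by
      apply Complex.ext
      · simp
      · simp [hnr.1]
    rw [this]
    exact h2
  by_cases hex : ∃ χ₁ : DirichletCharacter ℂ (primorial z), ∃ β₁ : ℝ, χ₁ ≠ 1 ∧ χ₁ ^ 2 = 1 ∧
      LFunction χ₁ β₁ = 0 ∧ 1 - kk / LL (primorial z) T < β₁
  · obtain ⟨χ₁, β₁, hχ₁, hχ₁2, hβ₁, hβ₁re⟩ := hex
    have hfdvd : χ₁.conductor ∣ primorial z := χ₁.conductor_dvd_level
    have hf0 : χ₁.conductor ≠ 0 := fun h => by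
      rw [h, zero_dvd_iff] at hfdvd
      exact primorial_ne_zero z hfdvd
    -- a large prime factor of the conductor
    have hbig : ∃ p : ℕ, p.Prime ∧ p ∣ χ₁.conductor ∧ P0 ≤ p := by
      by_contra hcon
      push Not at hcon
      have hfF : χ₁.conductor ∣ primorial P0 := by
        have hsf : Squarefree χ₁.conductor := hsq.squarefree_of_dvd hfdvd
        rw [← Nat.prod_primeFactors_of_squarefree hsf]
        unfold primorial
        apply Finset.prod_dvd_prod_of_subset
        intro p hp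
        rw [Nat.mem_primeFactors] at hp
        rw [Finset.mem_filter, Finset.mem_range]
        exact ⟨by have := hcon p hp.1 hp.2.1; omega, hp.1⟩
      have : NeZero χ₁.conductor := ⟨hf0⟩
      have hprim := changeLevel_primitiveCharacter χ₁
      have hpr1 : χ₁.primitiveCharacter ≠ 1 := by
        intro h
        rw [h, changeLevel_one] at hprim
        exact hχ₁ hprim.symm
      have h0 : LFunction χ₁.primitiveCharacter (β₁ : ℂ) = 0 := by
        apply g1_descend χ₁.conductor_dvd_level _ hpr1 (by linarith)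
        rw [hprim]
        exact hβ₁
      have h1 := g1_zero_changeLevel hfF _ hpr1 h0
      have h2 : changeLevel hfF χ₁.primitiveCharacter ≠ 1 :=
        fun h' => hpr1 ((changeLevel_eq_one_iff hfF).1 h')
      exact hnz _ h2 β₁ (by linarith) h1
    obtain ⟨p, hp, hpf, hpP⟩ := hbig
    refine ⟨p, hp, hpf.trans hfdvd, hpP, ?_⟩
    intro q _ hq χ hχ ρ hρ hT'
    by_contra hcon
    push Not at hcon
    have hdvd : q ∣ primorial z := ⟨_, hq.symm⟩
    obtain ⟨h1, h2, h3⟩ := key q hdvd χ hχ ρ hρ hT' hcon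
    obtain ⟨h4, _⟩ := hun (primorial z) T hT hLL2 (changeLevel hdvd χ) χ₁ h1 hχ₁ h2 hχ₁2 ρ.re β₁ h3
      hβ₁ hcon hβ₁re
    have h5 : χ₁.conductor ∣ q := by
      apply conductor_dvd_of_mem_conductorSet
      rw [mem_conductorSet_iff, ← h4]
      exact changeLevel_factorsThrough χ hdvd
    have h6 : p ∣ q := hpf.trans h5
    have h7 : p * p ∣ primorial z := (Nat.mul_dvd_mul_right h6 _).trans (dvd_of_eq hq)
    exact hp.ne_one (Nat.isUnit_iff.1 (hsq _ h7))
  · refine ⟨p1, hp1p, hp1p.dvd_primorial_iff.2 hz1, hp1, ?_⟩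
    intro q _ hq χ hχ ρ hρ hT'
    by_contra hcon
    push Not at hcon
    have hdvd : q ∣ primorial z := ⟨_, hq.symm⟩
    obtain ⟨h1, h2, h3⟩ := key q hdvd χ hχ ρ hρ hT' hcon
    exact hex ⟨changeLevel hdvd χ, ρ.re, h1, h2, h3, hcon⟩

end Pool.Agent.LibThin21
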