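import Pool.Agent.LibMaier.SmallBound

/-!
ROW G2a. Sum over all non-principal characters modulo a divisor-size modulus `q ≤ primorial z`.

Copy of the proof of `Pool.Agent.LibMaier.sum_SS_le` (file `LibMaier/SmallSum.lean`) with the modulus
`primorial z` replaced by an arbitrary `q ≤ primorial z`: the only facts used are `LL q T ≤ L`,
`q ≤ exp L` (with `L = Lz z`, `T = 2 z`), `norm_SS_le`, `card_chars_le`, and `density` (which is stated for
every modulus; apply it with `Q = primorial z * (4 * z + 3)`).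
-/

namespace Pool.Agent.LibThin21

open Filter Topology Complex DirichletCharacter MeasureTheory
open Pool.Agent.LibMaier
open scoped ComplexConjugate ArithmeticFunction.vonMangoldt

theorem sum_SS_le_q {z q : ℕ} [NeZero q] (hz : 1 ≤ z) (hqz : q ≤ primorial z)
    (hL1 : 4 * kk ≤ Lz z) (hL2 : 1 ≤ Lz z)
    (hgood : ∀ χ : DirichletCharacter ℂ q, χ ≠ 1 → ∀ ρ : ℂ, LFunction χ ρ = 0 →
      |ρ.im| ≤ Tz z / 2 → ρ.re ≤ 1 - kk / 2 / Lz z)
    {x : ℝ} (hx1 : 1 ≤ x) (hx : 320 * Lz z ≤ x) :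
    ∑ χ ∈ (Finset.univ : Finset (DirichletCharacter ℂ q)).erase 1, ‖SS χ x‖ ≤
      (Lz z / (4 * kk) + 2) *
        (4 * (2 + 10 * Lz z) ^ 5 * (2 * z) * Real.exp (-(kk / 2 / Lz z * x / 8)) *
            (20 * (Lz z + 3) / (kk / 2 / Lz z) ^ 2) +
          Real.exp (Lz z) * (6 * Real.exp (-(2 * z - 2) ^ 2 / 2) *
            (20 * (Lz z + 3) / (kk / 2 / Lz z) ^ 2) +
          6 * LS (1 / x) * Real.exp (-(2 * z - 2) ^ 2 / 4))) := by
  classical
  have hkk : 0 < kk := by unfold kk; norm_num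
  set L := Lz z with hL
  set a0 : ℝ := kk / 2 / L with ha0
  have hL0 : 0 < L := by linarith
  have ha00 : 0 < a0 := by rw [ha0]; positivity
  have ha08 : a0 ≤ 1 / 8 := by
    rw [ha0, div_div, div_le_iff₀ (by positivity)]
    linarith
  have hzR : (1 : ℝ) ≤ z := by exact_mod_cast hz
  set T : ℝ := 2 * z with hT
  have hTz : Tz z / 2 = T := by unfold Tz; rw [hT]; ring
  have hT2 : 2 ≤ T := by rw [hT]; linarith
  have hq1 : (1 : ℝ) ≤ primorial z := by exact_mod_cast primorial_pos z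
  have hqq : (q : ℝ) ≤ primorial z := by exact_mod_cast hqz
  have hq0 : (0 : ℝ) < q := by exact_mod_cast Nat.pos_of_ne_zero (NeZero.ne q)
  have hLLT : LL q T ≤ L := by
    rw [hL, Lz, LL, LL, Tz]
    apply Real.log_le_log (by positivity)
    apply mul_le_mul hqq _ (by positivity) (by linarith)
    rw [hT]; linarith
  have hqL : (q : ℝ) ≤ Real.exp L := by
    refine hqq.trans ?_
    rw [hL, Lz, LL, Tz, Real.exp_log (by positivity)]
    nlinarith
  set D0 : ℝ := 20 * (L + 3) / a0 ^ 2 with hD0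
  have hD00 : 0 ≤ D0 := by rw [hD0]; positivity
  set E2 : ℝ := Real.exp (-(T - 2) ^ 2 / 2) with hE2
  set E3 : ℝ := Real.exp (-(T - 2) ^ 2 / 4) with hE3
  have hLS := LS_nonneg (1 / x)
  -- levels
  set P : DirichletCharacter ℂ q → ℕ → Prop := fun χ j =>
    2 ^ j * a0 ≤ 1 / 8 ∧ ∀ ρ : ℂ, LFunction χ ρ = 0 → |ρ.im| ≤ T → ρ.re ≤ 1 - 2 ^ j * a0 with hP
  set K : ℕ := ⌈L / (4 * kk)⌉₊ with hK
  have hPK : ∀ χ : DirichletCharacter ℂ q, ∀ j, P χ j → j ≤ K := by
    intro χ j hj
    have h1 : (2 : ℝ) ^ j * a0 ≤ 1 / 8 := hj.1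
    have h2 : (2 : ℝ) ^ j ≤ L / (4 * kk) := by
      rw [le_div_iff₀ (by positivity)]
      rw [ha0, mul_div_assoc', div_le_iff₀ hL0] at h1
      linarith
    have h3 : (j : ℝ) ≤ K := by
      calc (j : ℝ) ≤ (2 : ℝ) ^ j := by exact_mod_cast (Nat.lt_two_pow_self).le
        _ ≤ L / (4 * kk) := h2
        _ ≤ K := Nat.le_ceil _
    exact_mod_cast h3
  set lev : DirichletCharacter ℂ q → ℕ := fun χ => Nat.findGreatest (P χ) K with hlev
  have hP0 : ∀ χ : DirichletCharacter ℂ q, χ ≠ 1 → P χ 0 := by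
    intro χ hχ
    refine ⟨by simpa using ha08, fun ρ h1 h2 => ?_⟩
    have := hgood χ hχ ρ h1 (by rw [hTz]; exact h2)
    simpa using this
  have hPlev : ∀ χ : DirichletCharacter ℂ q, χ ≠ 1 → P χ (lev χ) := fun χ hχ =>
    Nat.findGreatest_spec (m := 0) (Nat.zero_le _) (hP0 χ hχ)
  have hnlev : ∀ χ : DirichletCharacter ℂ q, ¬ P χ (lev χ + 1) := by
    intro χ h
    have h1 := hPK χ _ h
    exact Nat.findGreatest_is_greatest (P := P χ) (Nat.lt_succ_self (lev χ)) h1 h
  -- bound for each character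
  have hbound : ∀ χ : DirichletCharacter ℂ q, χ ≠ 1 →
      ‖SS χ x‖ ≤ (T * Real.exp (-(2 ^ lev χ * a0 * x / 4)) + 6 * E2) * D0 +
        6 * LS (1 / x) * E3 := by
    intro χ hχ
    obtain ⟨h1, h2⟩ := hPlev χ hχ
    have hpow : (1 : ℝ) ≤ 2 ^ lev χ := one_le_pow₀ (by norm_num)
    have ha : a0 ≤ 2 ^ lev χ * a0 := by nlinarith
    have h3 := norm_SS_le hχ (α := 2 ^ lev χ * a0) (T := T) (by positivity) (by linarith) h2 hT2 hx1
    refine h3.trans ?_
    have h4 : 20 * (LL q T + 3) / (2 ^ lev χ * a0) ^ 2 ≤ D0 := by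
      rw [hD0]
      apply div_le_div₀ (by positivity) (by linarith) (by positivity)
      exact pow_le_pow_left₀ ha00.le ha 2
    have h5 : 0 ≤ T * Real.exp (-(2 ^ lev χ * a0 * x / 4)) + 6 * Real.exp (-(T - 2) ^ 2 / 2) := by
      positivity
    have := mul_le_mul_of_nonneg_left h4 h5
    linarith
  -- number of characters on each level
  have hcardq : ∀ B : Finset (DirichletCharacter ℂ q), (B.card : ℝ) ≤ Real.exp L := by
    intro B
    refine le_trans ?_ hqL
    exact_mod_cast card_chars_le q B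
  have hcard : ∀ j : ℕ, (((Finset.univ.erase 1).filter (fun χ => lev χ = j)).card : ℝ) ≤
      4 * (2 + 10 * L) ^ 5 * Real.exp (40 * (2 ^ j * a0) * L) := by
    intro j
    have hpoly : (1 : ℝ) ≤ 4 * (2 + 10 * L) ^ 5 := by
      have : (1 : ℝ) ≤ (2 + 10 * L) ^ 5 := one_le_pow₀ (by linarith)
      linarith
    by_cases hj : 2 ^ (j + 1) * a0 ≤ 1 / 8
    · -- use the density estimate
      have hex : ∀ χ : DirichletCharacter ℂ q, ∃ ρ : ℂ, lev χ = j →
          LFunction χ ρ = 0 ∧ |ρ.im| ≤ T ∧ 1 - 2 ^ (j + 1) * a0 < ρ.re := by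
        intro χ
        by_cases h : lev χ = j
        · have h1 := hnlev χ
          rw [h] at h1
          simp only [hP, not_and] at h1
          have h2 := h1 hj
          push Not at h2
          obtain ⟨ρ, h3, h4, h5⟩ := h2
          exact ⟨ρ, fun _ => ⟨h3, h4, h5⟩⟩
        · exact ⟨0, fun h' => absurd h' h⟩
      choose ρ hρ using hex
      have hQ : (q : ℝ) * (T + 3) ≤ ((primorial z * (4 * z + 3) : ℕ) : ℝ) := by
        push_cast
        apply mul_le_mul hqq _ (by positivity) (by linarith)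
        rw [hT]; linarith
      have hQ4 : 4 ≤ primorial z * (4 * z + 3) := by
        have := primorial_pos z
        nlinarith
      have h1 := density (q := q) (T := T) (α := 2 ^ (j + 1) * a0) (by positivity)
        (by linarith) hQ hQ4 (by linarith)
        ((Finset.univ.erase 1).filter (fun χ => lev χ = j)) ρ (by
          intro χ hχ
          rw [Finset.mem_filter, Finset.mem_erase] at hχ
          obtain ⟨h2, h3, h4⟩ := hρ χ hχ.2
          exact ⟨hχ.1.1, h2, h4.le, h3⟩)
      have hlogQ : Real.log ((primorial z * (4 * z + 3) : ℕ) : ℝ) = L := by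
        rw [hL, Lz, LL, Tz]
        push_cast
        rfl
      rw [hlogQ] at h1
      refine h1.trans (le_of_eq ?_)
      rw [pow_succ]
      have : 20 * (2 ^ j * 2 * a0) * L = 40 * (2 ^ j * a0) * L := by ring
      rw [this]
      ring
    · -- trivial bound
      rw [not_le, pow_succ] at hj
      have h1 : Real.exp L ≤ Real.exp (40 * (2 ^ j * a0) * L) := by
        apply Real.exp_le_exp.2
        nlinarith
      calc (((Finset.univ.erase 1).filter (fun χ => lev χ = j)).card : ℝ) ≤ Real.exp L := hcardq _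
        _ ≤ 1 * Real.exp (40 * (2 ^ j * a0) * L) := by rw [one_mul]; exact h1
        _ ≤ _ := by gcongr
  -- contribution of each level
  set M : ℝ := 4 * (2 + 10 * L) ^ 5 * T * Real.exp (-(a0 * x / 8)) * D0 +
    Real.exp L * (6 * E2 * D0 + 6 * LS (1 / x) * E3) with hM
  have hM0 : 0 ≤ M := by positivity
  have hlevel : ∀ j : ℕ, ∑ χ ∈ (Finset.univ.erase 1).filter (fun χ => lev χ = j), ‖SS χ x‖ ≤ M := by
    intro j
    set B := (Finset.univ.erase 1).filter
      (fun χ : DirichletCharacter ℂ q => lev χ = j) with hB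
    have h1 : ∑ χ ∈ B, ‖SS χ x‖ ≤ B.card * (T * Real.exp (-(2 ^ j * a0 * x / 4)) * D0 +
        (6 * E2 * D0 + 6 * LS (1 / x) * E3)) := by
      rw [← nsmul_eq_mul]
      apply Finset.sum_le_card_nsmul
      intro χ hχ
      rw [hB, Finset.mem_filter, Finset.mem_erase] at hχ
      have := hbound χ hχ.1.1
      rw [hχ.2] at this
      linarith
    refine h1.trans ?_
    rw [mul_add]
    apply add_le_add
    · have h2 : Real.exp (40 * (2 ^ j * a0) * L) * Real.exp (-(2 ^ j * a0 * x / 4)) ≤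
          Real.exp (-(a0 * x / 8)) := by
        rw [← Real.exp_add]
        apply Real.exp_le_exp.2
        have hpow : (1 : ℝ) ≤ 2 ^ j := one_le_pow₀ (by norm_num)
        have h3 : 0 ≤ (2 ^ j * a0) * (x - 320 * L) := mul_nonneg (by positivity) (by linarith)
        have h4 : 0 ≤ (2 ^ j - 1) * (a0 * x) := mul_nonneg (by linarith) (by positivity)
        nlinarith
      calc (B.card : ℝ) * (T * Real.exp (-(2 ^ j * a0 * x / 4)) * D0)
          ≤ (4 * (2 + 10 * L) ^ 5 * Real.exp (40 * (2 ^ j * a0) * L)) *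
              (T * Real.exp (-(2 ^ j * a0 * x / 4)) * D0) :=
            mul_le_mul_of_nonneg_right (hcard j) (by positivity)
        _ = 4 * (2 + 10 * L) ^ 5 * T * (Real.exp (40 * (2 ^ j * a0) * L) *
              Real.exp (-(2 ^ j * a0 * x / 4))) * D0 := by ring
        _ ≤ 4 * (2 + 10 * L) ^ 5 * T * Real.exp (-(a0 * x / 8)) * D0 := by gcongr
    · exact mul_le_mul_of_nonneg_right (hcardq B) (by positivity)
  have hmaps : ∀ χ ∈ (Finset.univ.erase (1 : DirichletCharacter ℂ q)),
      lev χ ∈ Finset.range (K + 1) := fun χ _ =>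
    Finset.mem_range.2 (Nat.lt_succ_of_le (Nat.findGreatest_le K))
  rw [← Finset.sum_fiberwise_of_maps_to hmaps]
  calc ∑ j ∈ Finset.range (K + 1), ∑ χ ∈ (Finset.univ.erase 1).filter (fun χ => lev χ = j), ‖SS χ x‖
      ≤ ∑ j ∈ Finset.range (K + 1), M := Finset.sum_le_sum fun j _ => hlevel j
    _ = (K + 1) * M := by rw [Finset.sum_const, Finset.card_range, nsmul_eq_mul]; push_cast; ring
    _ ≤ (L / (4 * kk) + 2) * M := by
        apply mul_le_mul_of_nonneg_right _ hM0
        have := (Nat.ceil_lt_add_one (show 0 ≤ L / (4 * kk) by positivity)).le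
        rw [← hK] at this
        linarith

end Pool.Agent.LibThin21
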