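import Pool.Agent.LibMaier.SmallBound

/-!
ROW G2b. `small_bound` of LibMaier (file `SmallBound.lean`) uniformly for `z ^ B ≤ x ≤ exp z`.

The first term decreases in `x` (compare with `x = z ^ B`, same estimates as in `small_bound`). In the
last term use `LS_inv_le : LS (1 / x) ≤ 865 * x ^ 2 ≤ 865 * exp (2 z)` and
`exp (Lz z) * exp (2 z) * exp (-(2 z - 2) ^ 2 / 4) → 0` since `Lz z ≤ 8 z` (`Lz_le`).
-/

namespace Pool.Agent.LibThin21

open Filter Topology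
open Pool.Agent.LibMaier

theorem small_bound_unif {B : ℝ} (hB : 1 < B) (hB2 : B ≤ 2) {ε : ℝ} (hε : 0 < ε) :
    ∀ᶠ z : ℕ in atTop, ∀ x : ℝ, (z : ℝ) ^ B ≤ x → x ≤ Real.exp z →
      (Lz z / (4 * kk) + 2) *
        (4 * (2 + 10 * Lz z) ^ 5 * (2 * z) * Real.exp (-(kk / 2 / Lz z * x / 8)) *
            (20 * (Lz z + 3) / (kk / 2 / Lz z) ^ 2) +
          Real.exp (Lz z) * (6 * Real.exp (-(2 * z - 2) ^ 2 / 2) *
            (20 * (Lz z + 3) / (kk / 2 / Lz z) ^ 2) +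
          6 * LS (1 / x) * Real.exp (-(2 * z - 2) ^ 2 / 4))) ≤ ε := by
  have hkk : 0 < kk := by unfold kk; norm_num
  set A1 : ℝ := 8 / (4 * kk) + 2 with hA1
  set A2 : ℝ := 56320 / kk ^ 2 with hA2
  set A3 : ℝ := A1 * (8 * 82 ^ 5 * A2 + 6 * A2 + 6 * 865) with hA3
  have hA10 : 0 < A1 := by positivity
  have hA20 : 0 < A2 := by positivity
  have hA30 : 0 < A3 := by positivity
  -- the limits
  have hlim1 : Tendsto (fun z : ℕ => A3 * ((z : ℝ) ^ 10 * Real.exp (-(kk / 128) * (z : ℝ) ^ (B - 1))))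
      atTop (𝓝 (A3 * 0)) := by
    apply Tendsto.const_mul
    have h1 := tendsto_rpow_mul_exp_neg_mul_atTop_nhds_zero (10 / (B - 1)) (kk / 128) (by positivity)
    have h2 : Tendsto (fun z : ℕ => (z : ℝ) ^ (B - 1)) atTop atTop :=
      (tendsto_rpow_atTop (by linarith)).comp tendsto_natCast_atTop_atTop
    refine (h1.comp h2).congr' ?_
    filter_upwards with z
    simp only [Function.comp]
    congr 1
    rw [← Real.rpow_mul (Nat.cast_nonneg z)]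
    have : (B - 1) * (10 / (B - 1)) = (10 : ℕ) := by
      have : B - 1 ≠ 0 := by linarith
      field_simp
      norm_num
    rw [this, Real.rpow_natCast]
  have hlim2 : Tendsto (fun z : ℕ => A3 * ((z : ℝ) ^ 10 * Real.exp (-(z : ℝ))))
      atTop (𝓝 (A3 * 0)) := by
    apply Tendsto.const_mul
    exact (Real.tendsto_pow_mul_exp_neg_atTop_nhds_zero 10).comp tendsto_natCast_atTop_atTop
  rw [mul_zero] at hlim1 hlim2
  filter_upwards [hlim1.eventually_lt_const (show 0 < ε / 2 by positivity),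
    hlim2.eventually_lt_const (show 0 < ε / 2 by positivity), eventually_ge_atTop 20,
    tendsto_Lz.eventually_ge_atTop 1] with z h1 h2 h3 h4
  intro x hxB hxe
  have hz : (20 : ℝ) ≤ z := by exact_mod_cast h3
  have hz1 : (1 : ℝ) ≤ z := by linarith
  have hL := Lz_le (z := z) (by omega)
  set L := Lz z with hLdef
  have hL0 : 0 < L := by linarith
  have hx1 : 1 ≤ x := (Real.one_le_rpow hz1 (by linarith)).trans hxB
  set e1 : ℝ := Real.exp (-(kk / 128) * (z : ℝ) ^ (B - 1)) with he1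
  set e2 : ℝ := Real.exp (-(z : ℝ)) with he2
  have he10 : 0 < e1 := Real.exp_pos _
  have he20 : 0 < e2 := Real.exp_pos _
  have b1 : L / (4 * kk) + 2 ≤ A1 * z := by
    rw [hA1, add_mul]
    have : L / (4 * kk) ≤ 8 / (4 * kk) * z := by
      rw [div_mul_eq_mul_div]
      exact div_le_div_of_nonneg_right hL (by positivity)
    linarith
  have b2 : 4 * (2 + 10 * L) ^ 5 * (2 * z) ≤ 8 * 82 ^ 5 * (z : ℝ) ^ 6 := by
    have : (2 + 10 * L) ^ 5 ≤ (82 * (z : ℝ)) ^ 5 :=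
      pow_le_pow_left₀ (by positivity) (by linarith) 5
    calc 4 * (2 + 10 * L) ^ 5 * (2 * z) ≤ 4 * (82 * (z : ℝ)) ^ 5 * (2 * z) := by gcongr
      _ = 8 * 82 ^ 5 * (z : ℝ) ^ 6 := by ring
  have b3 : 20 * (L + 3) / (kk / 2 / L) ^ 2 ≤ A2 * (z : ℝ) ^ 3 := by
    have e : 20 * (L + 3) / (kk / 2 / L) ^ 2 = 80 * ((L + 3) * L ^ 2) / kk ^ 2 := by
      field_simp
      ring
    rw [e, hA2, div_mul_eq_mul_div]
    apply div_le_div_of_nonneg_right _ (by positivity)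
    have : (L + 3) * L ^ 2 ≤ (11 * z) * (8 * (z : ℝ)) ^ 2 := by
      apply mul_le_mul (by linarith) _ (by positivity) (by positivity)
      exact pow_le_pow_left₀ (by positivity) hL 2
    nlinarith
  have b3' : 0 ≤ 20 * (L + 3) / (kk / 2 / L) ^ 2 := by positivity
  have b4 : Real.exp (-(kk / 2 / L * x / 8)) ≤ e1 := by
    rw [he1]
    apply Real.exp_le_exp.2
    have h5 : (z : ℝ) ^ (B - 1) * z ≤ x := by
      refine le_trans (le_of_eq ?_) hxB
      nth_rewrite 2 [← Real.rpow_one (z : ℝ)]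
      rw [← Real.rpow_add (by linarith)]
      congr 1
      ring
    have h6 : kk / 128 * (z : ℝ) ^ (B - 1) ≤ kk / 2 / L * x / 8 := by
      have h7 : kk / 2 / L * x / 8 = kk * x / (16 * L) := by
        field_simp
        ring
      rw [h7, le_div_iff₀ (by positivity)]
      have h8 : 0 ≤ kk * (z : ℝ) ^ (B - 1) := by positivity
      have h9 : kk * (z : ℝ) ^ (B - 1) * L ≤ kk * (z : ℝ) ^ (B - 1) * (8 * z) :=
        mul_le_mul_of_nonneg_left hL h8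
      have h10 : kk * ((z : ℝ) ^ (B - 1) * z) ≤ kk * x := mul_le_mul_of_nonneg_left h5 hkk.le
      calc kk / 128 * (z : ℝ) ^ (B - 1) * (16 * L) = kk * (z : ℝ) ^ (B - 1) * L / 8 := by ring
        _ ≤ kk * (z : ℝ) ^ (B - 1) * (8 * z) / 8 := by linarith
        _ = kk * ((z : ℝ) ^ (B - 1) * z) := by ring
        _ ≤ kk * x := h10
    linarith
  have b5 : Real.exp L * (Real.exp (2 * z) * Real.exp (-(2 * z - 2) ^ 2 / 4)) ≤ e2 := by
    rw [← Real.exp_add, ← Real.exp_add, he2]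
    apply Real.exp_le_exp.2
    nlinarith
  have b6 : Real.exp L * Real.exp (-(2 * z - 2) ^ 2 / 2) ≤ e2 := by
    rw [← Real.exp_add, he2]
    apply Real.exp_le_exp.2
    nlinarith
  have b7 : LS (1 / x) ≤ 865 * Real.exp (2 * z) := by
    refine (LS_inv_le hx1).trans ?_
    have h11 : x ^ 2 ≤ (Real.exp z) ^ 2 := pow_le_pow_left₀ (by linarith) hxe 2
    have e : (Real.exp z) ^ 2 = Real.exp (2 * z) := by
      rw [← Real.exp_nat_mul]
      norm_num
    rw [e] at h11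
    linarith
  have b8 := LS_nonneg (1 / x)
  have hz4 : (z : ℝ) ^ 9 = (z : ℝ) ^ 6 * z ^ 3 := by ring
  have c1 : 4 * (2 + 10 * L) ^ 5 * (2 * z) * Real.exp (-(kk / 2 / L * x / 8)) *
      (20 * (L + 3) / (kk / 2 / L) ^ 2) ≤ 8 * 82 ^ 5 * A2 * ((z : ℝ) ^ 9 * e1) := by
    calc 4 * (2 + 10 * L) ^ 5 * (2 * z) * Real.exp (-(kk / 2 / L * x / 8)) *
          (20 * (L + 3) / (kk / 2 / L) ^ 2)
        ≤ (8 * 82 ^ 5 * (z : ℝ) ^ 6) * e1 * (A2 * (z : ℝ) ^ 3) := by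
          gcongr
      _ = 8 * 82 ^ 5 * A2 * ((z : ℝ) ^ 9 * e1) := by ring
  have c2 : Real.exp L * (6 * Real.exp (-(2 * z - 2) ^ 2 / 2) *
      (20 * (L + 3) / (kk / 2 / L) ^ 2)) ≤ 6 * A2 * ((z : ℝ) ^ 9 * e2) := by
    have hz39 : (z : ℝ) ^ 3 ≤ (z : ℝ) ^ 9 := pow_le_pow_right₀ hz1 (by norm_num)
    calc Real.exp L * (6 * Real.exp (-(2 * z - 2) ^ 2 / 2) *
          (20 * (L + 3) / (kk / 2 / L) ^ 2))
        = 6 * (Real.exp L * Real.exp (-(2 * z - 2) ^ 2 / 2)) *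
          (20 * (L + 3) / (kk / 2 / L) ^ 2) := by ring
      _ ≤ 6 * e2 * (A2 * (z : ℝ) ^ 9) := by
          gcongr
          exact b3.trans (mul_le_mul_of_nonneg_left hz39 hA20.le)
      _ = 6 * A2 * ((z : ℝ) ^ 9 * e2) := by ring
  have c3 : Real.exp L * (6 * LS (1 / x) * Real.exp (-(2 * z - 2) ^ 2 / 4)) ≤
      6 * 865 * ((z : ℝ) ^ 9 * e2) := by
    have hz49 : 1 ≤ (z : ℝ) ^ 9 := one_le_pow₀ hz1
    calc Real.exp L * (6 * LS (1 / x) * Real.exp (-(2 * z - 2) ^ 2 / 4))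
        = LS (1 / x) * (6 * (Real.exp L * Real.exp (-(2 * z - 2) ^ 2 / 4))) := by ring
      _ ≤ (865 * Real.exp (2 * z)) * (6 * (Real.exp L * Real.exp (-(2 * z - 2) ^ 2 / 4))) :=
          mul_le_mul_of_nonneg_right b7 (by positivity)
      _ = 6 * 865 * (1 * (Real.exp L * (Real.exp (2 * z) * Real.exp (-(2 * z - 2) ^ 2 / 4)))) := by
          ring
      _ ≤ 6 * 865 * ((z : ℝ) ^ 9 * e2) := by gcongr
  have hP1 : 0 ≤ (z : ℝ) ^ 9 * e1 := by positivity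
  have hP2 : 0 ≤ (z : ℝ) ^ 9 * e2 := by positivity
  have hS : 4 * (2 + 10 * L) ^ 5 * (2 * z) * Real.exp (-(kk / 2 / L * x / 8)) *
      (20 * (L + 3) / (kk / 2 / L) ^ 2) + Real.exp L * (6 * Real.exp (-(2 * z - 2) ^ 2 / 2) *
      (20 * (L + 3) / (kk / 2 / L) ^ 2) + 6 * LS (1 / x) * Real.exp (-(2 * z - 2) ^ 2 / 4)) ≤
      (8 * 82 ^ 5 * A2 + 6 * A2 + 6 * 865) * ((z : ℝ) ^ 9 * e1 + (z : ℝ) ^ 9 * e2) := by
    rw [mul_add (Real.exp L)]
    exact aux_sum c1 c2 c3 (by positivity) (by positivity) (by norm_num) hP1 hP2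
  have hS0 : 0 ≤ 4 * (2 + 10 * L) ^ 5 * (2 * z) * Real.exp (-(kk / 2 / L * x / 8)) *
      (20 * (L + 3) / (kk / 2 / L) ^ 2) + Real.exp L * (6 * Real.exp (-(2 * z - 2) ^ 2 / 2) *
      (20 * (L + 3) / (kk / 2 / L) ^ 2) + 6 * LS (1 / x) * Real.exp (-(2 * z - 2) ^ 2 / 4)) := by
    positivity
  calc (L / (4 * kk) + 2) * _ ≤ (A1 * z) *
        ((8 * 82 ^ 5 * A2 + 6 * A2 + 6 * 865) * ((z : ℝ) ^ 9 * e1 + (z : ℝ) ^ 9 * e2)) :=
        mul_le_mul b1 hS hS0 (by positivity)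
    _ = A3 * ((z : ℝ) ^ 10 * e1) + A3 * ((z : ℝ) ^ 10 * e2) := by
        rw [hA3]
        ring
    _ ≤ ε := by linarith

end Pool.Agent.LibThin21
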