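import Pool.Agent.LibThin21.G1
import Pool.Agent.LibThin21.G2a
import Pool.Agent.LibThin21.G2b

/-!
ROW G2. For all large `z` there is a prime `p ≥ P0`, `p ∣ primorial z`, such that modulo
`q = primorial z / p` the non-principal characters contribute at most `ε`, for all `z ^ B ≤ x ≤ exp z`.

Proof: `exists_good_large` with `T = Tz z = 4 z` (`LL (primorial z) (Tz z) = Lz z` by definition,
`kk / 2 / Lz z ≤ kk / Lz z`), `sum_SS_le_q`, `small_bound_unif`, `320 * Lz z ≤ 2560 z ≤ z ^ B ≤ x`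
(as in the proof of `ap_upper`, LibMaier/APSum.lean), `tendsto_Lz`.
-/

namespace Pool.Agent.LibThin21

open Filter Topology Complex DirichletCharacter
open Pool.Agent.LibMaier

theorem good_sum_B {B ε : ℝ} (hB : 1 < B) (hB2 : B ≤ 2) (hε : 0 < ε) (P0 : ℕ) :
    ∀ᶠ z : ℕ in atTop, ∃ p : ℕ, p.Prime ∧ p ∣ primorial z ∧ P0 ≤ p ∧
      ∀ (q : ℕ) [NeZero q], q * p = primorial z → ∀ x : ℝ, (z : ℝ) ^ B ≤ x → x ≤ Real.exp z →
        ∑ χ ∈ (Finset.univ : Finset (DirichletCharacter ℂ q)).erase 1, ‖SS χ x‖ ≤ ε := by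
  have hkk : 0 < kk := by unfold kk; norm_num
  have hxz : ∀ᶠ z : ℕ in atTop, 320 * Lz z ≤ (z : ℝ) ^ B := by
    have h2 : Tendsto (fun z : ℕ => (z : ℝ) ^ (B - 1)) atTop atTop :=
      (tendsto_rpow_atTop (by linarith)).comp tendsto_natCast_atTop_atTop
    filter_upwards [h2.eventually_ge_atTop 2560, eventually_ge_atTop 1] with z h3 h4
    have hz : (1 : ℝ) ≤ z := by exact_mod_cast h4
    have h5 : (z : ℝ) ^ (B - 1) * z = (z : ℝ) ^ B := by
      nth_rewrite 2 [← Real.rpow_one (z : ℝ)]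
      rw [← Real.rpow_add (by linarith)]
      congr 1
      ring
    rw [← h5]
    have := Lz_le h4
    nlinarith
  obtain ⟨Z0, hZ02, hZ0⟩ := exists_good_large P0
  filter_upwards [small_bound_unif hB hB2 hε, hxz,
    tendsto_Lz.eventually_ge_atTop (max 1 (4 * kk)), eventually_ge_atTop (max 1 Z0)]
    with z h1 h2 h3 h4
  have hz1 : 1 ≤ z := (le_max_left _ _).trans h4
  have hzR : (1 : ℝ) ≤ z := by exact_mod_cast hz1
  have hL1 : 1 ≤ Lz z := (le_max_left _ _).trans h3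
  obtain ⟨p, hp, hpd, hP0, hp2⟩ := hZ0 z ((le_max_right _ _).trans h4) (Tz z) (Tz_nonneg z)
  refine ⟨p, hp, hpd, hP0, fun q _ hq x hx1 hx2 => ?_⟩
  have hqle : q ≤ primorial z := by
    rw [← hq]
    exact Nat.le_mul_of_pos_right q hp.pos
  have hx1' : 1 ≤ x := (Real.one_le_rpow hzR (by linarith)).trans hx1
  refine (sum_SS_le_q hz1 hqle ((le_max_right _ _).trans h3) hL1 ?_ hx1' (h2.trans hx1)).trans
    (h1 x hx1 hx2)
  intro χ hχ ρ hρ him
  refine (hp2 q hq χ hχ ρ hρ him).trans ?_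
  have h5 : LL (primorial z) (Tz z) = Lz z := rfl
  rw [h5]
  have h6 : kk / 2 / Lz z ≤ kk / Lz z := by
    apply div_le_div_of_nonneg_right _ (by linarith)
    linarith
  linarith

end Pool.Agent.LibThin21
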