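import Pool.Agent.LibThin21.G2
import Pool.Agent.LibMaier.APSum

/-!
ROW G3. Primes in all reduced classes modulo `q = primorial z / p0`: upper bound for the Gaussian weight.

`ap_sum_le` (LibMaier/APSum.lean) `: Σ' ≤ (1/φ(q)) (S0 x + Σ_χ ‖SS χ x‖)`, `tendsto_S0`, and `good_sum_B` with
`ε / 2` (`z ^ B ≤ x` and `z → ∞` give `S0 x < 1 + ε / 2`).
-/

namespace Pool.Agent.LibThin21

open Filter Topology Complex DirichletCharacter
open Pool.Agent.LibMaier

/-- the property of `p` at scale `z` produced by `good_sum_B` -/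
def GoodPrime (B ε : ℝ) (P0 z p : ℕ) : Prop :=
  p.Prime ∧ p ∣ primorial z ∧ P0 ≤ p ∧
      ∀ (q : ℕ) [NeZero q], q * p = primorial z → ∀ x : ℝ, (z : ℝ) ^ B ≤ x → x ≤ Real.exp z →
        ∑ χ ∈ (Finset.univ : Finset (DirichletCharacter ℂ q)).erase 1, ‖SS χ x‖ ≤ ε

theorem ap_upper_all {B ε : ℝ} (hB : 1 < B) (hB2 : B ≤ 2) (hε : 0 < ε) :
    ∀ᶠ z : ℕ in atTop, ∀ P0 p q : ℕ, GoodPrime B (ε / 2) P0 z p → q * p = primorial z →
      ∀ x : ℝ, (z : ℝ) ^ B ≤ x → x ≤ Real.exp z → ∀ a : ZMod q, IsUnit a →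
        ∑' n : ℕ, (if (n : ZMod q) = a then wn x n else 0) ≤ (1 + ε) / (q.totient : ℝ) := by
  have hx : Tendsto (fun z : ℕ => (z : ℝ) ^ B) atTop atTop :=
    (tendsto_rpow_atTop (by linarith)).comp tendsto_natCast_atTop_atTop
  obtain ⟨X0, hX0⟩ := eventually_atTop.1
    (tendsto_S0.eventually_lt_const (show (1 : ℝ) < 1 + ε / 2 by linarith))
  filter_upwards [hx.eventually_ge_atTop X0] with z hz P0 p q hgp hq x hx1 hx2 a ha
  have hq0 : q ≠ 0 := by
    rintro rfl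
    rw [zero_mul] at hq
    exact (primorial_pos z).ne hq
  have : NeZero q := ⟨hq0⟩
  have h1 := hgp.2.2.2 q hq x hx1 hx2
  have h2 := hX0 x (hz.trans hx1)
  have h3 := ap_sum_le ha x
  refine h3.trans ?_
  rw [one_div, ← div_eq_inv_mul]
  apply div_le_div_of_nonneg_right _ (Nat.cast_nonneg _)
  linarith

end Pool.Agent.LibThin21
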