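import Pool.Agent.LibThin21.G3
import Pool.Agent.LibMaier.APSum
import Pool.Agent.LibMaier.Mertens1

/-!
ROW G4. Many primes in every reduced class modulo `q = primorial z / p0` between `exp (x/2)` and `exp (2x)`.

Copy from helper63's `LibG2/AP.lean` (in `/team-store/G2_63.tar`): `ap_sum_ge`, `ap_primes_ge`
(`(1/φ(q)) (S0 x - err x V - Σ_χ ‖SS χ x‖) - err x V ≤ ∑_{p ∈ PR x V, p ≡ a} wn x p`) and what they need
(`err`, `PR`, `tail_wn`, `nonprime_wn`, `tsum_le_primes`), in the namespace of this file. Take `V = x / 2`: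
`err x V` is `≤ exp (- x)` or so for large `x`, while `φ(q) ≤ 4 ^ z ≤ exp (x / 4)`, so the sum over the primes
`p ≡ a`, `|log p - x| ≤ x / 2` of `wn x p` is `≥ (1/4) / φ(q)`. Each term is
`wn x p ≤ log p / p ≤ 2 x / exp (x / 2)` (`gw ≤ 1`). So the number of these primes is
`≥ exp (x/2) / (8 x exp (x/4)) ≥ x ^ 4`.
-/

namespace Pool.Agent.LibThin21

open Filter Topology Complex DirichletCharacter
open Pool.Agent.LibMaier
open scoped ArithmeticFunction.vonMangoldt

lemma g4_exp_two_le8 : Real.exp 2 ≤ 8 := exp_two_le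

lemma g4_gw_le_exp (v : ℝ) : gw v ≤ Real.exp (-v ^ 2 / 2) := by
  unfold gw
  apply div_le_self (Real.exp_pos _).le
  rw [Real.one_le_sqrt]
  have := Real.pi_gt_three
  linarith

/-- the weight of `n`, with half of the Gaussian decay kept -/
lemma g4_wn_le_tail {x : ℝ} (hx : 1 ≤ x) (n : ℕ) :
    wn x n ≤ Real.exp (-(Real.log n - x) ^ 2 / 4) * (8 * (Λ n * (n : ℝ) ^ (-(1 + 1 / x)))) := by
  rcases Nat.eq_zero_or_pos n with rfl | hn
  · unfold wn
    simp
  have hn0 : (0 : ℝ) < n := by exact_mod_cast hn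
  have hx0 : 0 < x := by linarith
  set v : ℝ := Real.log n - x with hv
  set σ : ℝ := 1 / x with hσ
  have hσ0 : 0 < σ := by positivity
  have hσ1 : σ ≤ 1 := by rw [hσ, div_le_one hx0]; exact hx
  have hσx : σ * x = 1 := by rw [hσ]; field_simp
  have h1 : gw v ≤ Real.exp (-v ^ 2 / 4) * (8 * (n : ℝ) ^ (-σ)) := by
    have h2 : (n : ℝ) ^ (-σ) = Real.exp (-σ * Real.log n) := by
      rw [Real.rpow_def_of_pos hn0]
      congr 1
      ring
    calc gw v ≤ Real.exp (-v ^ 2 / 2) := g4_gw_le_exp v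
      _ ≤ Real.exp (-v ^ 2 / 4 + (2 + -σ * Real.log n)) := by
          apply Real.exp_le_exp.2
          have h3 : Real.log n = v + x := by rw [hv]; ring
          rw [h3]
          nlinarith [sq_nonneg (v / 2 - σ), sq_nonneg σ]
      _ = Real.exp (-v ^ 2 / 4) * (Real.exp 2 * Real.exp (-σ * Real.log n)) := by
          rw [Real.exp_add, Real.exp_add]
      _ ≤ Real.exp (-v ^ 2 / 4) * (8 * (n : ℝ) ^ (-σ)) := by
          rw [h2]
          have := g4_exp_two_le8
          gcongr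
  have hΛ : 0 ≤ Λ n := ArithmeticFunction.vonMangoldt_nonneg
  unfold wn
  calc Λ n * (gw v / n) ≤ Λ n * ((Real.exp (-v ^ 2 / 4) * (8 * (n : ℝ) ^ (-σ))) / n) := by
        gcongr
    _ = Real.exp (-v ^ 2 / 4) * (8 * (Λ n * ((n : ℝ) ^ (-σ) / n))) := by ring
    _ = Real.exp (-v ^ 2 / 4) * (8 * (Λ n * (n : ℝ) ^ (-(1 + σ)))) := by
        congr 3
        rw [div_eq_mul_inv, ← Real.rpow_neg_one (n : ℝ), ← Real.rpow_add hn0]
        congr 1
        ring

/-- the error terms -/
noncomputable def g4_err (x V : ℝ) : ℝ :=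
  6920 * x ^ 2 * Real.exp (-V ^ 2 / 4) + 2 * (x + V) * Real.exp (-x / 2 + 3 * V / 2)

/-- the primes with `|log p - x| ≤ V` -/
noncomputable def g4_PR (x V : ℝ) : Finset ℕ :=
  (Finset.Ioc 0 ⌊Real.exp (x + V)⌋₊).filter (fun n : ℕ => n.Prime ∧ x - V ≤ Real.log n)

lemma g4_mem_PR {x V : ℝ} {n : ℕ} :
    n ∈ g4_PR x V ↔ n.Prime ∧ x - V ≤ Real.log n ∧ Real.log n ≤ x + V := by
  unfold g4_PR
  rw [Finset.mem_filter, Finset.mem_Ioc]
  constructor
  · rintro ⟨⟨h1, h2⟩, h3, h4⟩
    refine ⟨h3, h4, ?_⟩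
    have h5 : (n : ℝ) ≤ Real.exp (x + V) := (Nat.le_floor_iff (Real.exp_pos _).le).1 h2
    rw [← Real.log_exp (x + V)]
    exact Real.log_le_log (by exact_mod_cast h1) h5
  · rintro ⟨h1, h2, h3⟩
    have hn : (0 : ℝ) < n := by exact_mod_cast h1.pos
    refine ⟨⟨h1.pos, ?_⟩, h1, h2⟩
    apply (Nat.le_floor_iff (Real.exp_pos _).le).2
    rw [← Real.log_le_iff_le_exp hn]
    exact h3

lemma g4_summable_ite (x : ℝ) (P : ℕ → Prop) [DecidablePred P] :
    Summable fun n : ℕ => (if P n then wn x n else 0) := by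
  apply Summable.of_nonneg_of_le _ _ (summable_wn x)
  · intro n
    split_ifs
    · exact wn_nonneg x n
    · exact le_rfl
  · intro n
    split_ifs
    · exact le_rfl
    · exact wn_nonneg x n

/-- the Gaussian tail -/
lemma g4_tail_wn {x V : ℝ} (hx : 1 ≤ x) (hV : 0 ≤ V) (P : ℕ → Prop) [DecidablePred P]
    (hP : ∀ n, P n → V ≤ |Real.log n - x|) :
    ∑' n, (if P n then wn x n else 0) ≤ 6920 * x ^ 2 * Real.exp (-V ^ 2 / 4) := by
  have hx0 : 0 < x := by linarith
  have hs := (summable_LS (σ := 1 / x) (by positivity)).mul_left (Real.exp (-V ^ 2 / 4) * 8)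
  have h1 : ∀ n : ℕ, (if P n then wn x n else 0) ≤
      Real.exp (-V ^ 2 / 4) * 8 * (Λ n * (n : ℝ) ^ (-(1 + 1 / x))) := by
    intro n
    have h0 : 0 ≤ Λ n * (n : ℝ) ^ (-(1 + 1 / x)) :=
      mul_nonneg ArithmeticFunction.vonMangoldt_nonneg (by positivity)
    split_ifs with h
    · refine (g4_wn_le_tail hx n).trans ?_
      rw [← mul_assoc]
      apply mul_le_mul_of_nonneg_right _ h0
      apply mul_le_mul_of_nonneg_right _ (by norm_num)
      apply Real.exp_le_exp.2
      have h2 := hP n h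
      have h3 : V ^ 2 ≤ (Real.log n - x) ^ 2 := by
        rw [← sq_abs (Real.log n - x)]
        exact pow_le_pow_left₀ hV h2 2
      linarith
    · positivity
  calc ∑' n, (if P n then wn x n else 0)
      ≤ ∑' n, Real.exp (-V ^ 2 / 4) * 8 * (Λ n * (n : ℝ) ^ (-(1 + 1 / x))) :=
        Summable.tsum_le_tsum h1 (g4_summable_ite x P) hs
    _ = Real.exp (-V ^ 2 / 4) * 8 * LS (1 / x) := by rw [tsum_mul_left, LS]
    _ ≤ Real.exp (-V ^ 2 / 4) * 8 * (865 * x ^ 2) := by
        have := LS_inv_le hx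
        gcongr
    _ = 6920 * x ^ 2 * Real.exp (-V ^ 2 / 4) := by ring

/-- the prime powers -/
lemma g4_nonprime_wn {x V : ℝ} (hV : 0 ≤ V) (hVx : 0 ≤ x + V) :
    ∑ n ∈ (Finset.Ioc 0 ⌊Real.exp (x + V)⌋₊).filter (fun n : ℕ => ¬ n.Prime ∧ x - V ≤ Real.log n),
      wn x n ≤ 2 * (x + V) * Real.exp (-x / 2 + 3 * V / 2) := by
  have h1 : ∀ n ∈ (Finset.Ioc 0 ⌊Real.exp (x + V)⌋₊).filter
      (fun n : ℕ => ¬ n.Prime ∧ x - V ≤ Real.log n), wn x n ≤ Real.exp (-(x - V)) * Λ n := by
    intro n hn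
    rw [Finset.mem_filter, Finset.mem_Ioc] at hn
    obtain ⟨⟨h2, _⟩, _, h3⟩ := hn
    have hn0 : (0 : ℝ) < n := by exact_mod_cast h2
    have h4 : Real.exp (x - V) ≤ n := by
      rw [← Real.exp_log hn0]
      exact Real.exp_le_exp.2 h3
    unfold wn
    have h5 : gw (Real.log n - x) / n ≤ Real.exp (-(x - V)) := by
      rw [Real.exp_neg, ← one_div]
      apply div_le_div₀ zero_le_one _ (Real.exp_pos _) h4
      have := g4_gw_le_exp (Real.log n - x)
      refine this.trans (Real.exp_le_one_iff.2 ?_)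
      nlinarith [sq_nonneg (Real.log n - x)]
    calc Λ n * (gw (Real.log n - x) / n) ≤ Λ n * Real.exp (-(x - V)) :=
          mul_le_mul_of_nonneg_left h5 ArithmeticFunction.vonMangoldt_nonneg
      _ = _ := mul_comm _ _
  have hY : 1 ≤ Real.exp (x + V) := Real.one_le_exp hVx
  calc ∑ n ∈ (Finset.Ioc 0 ⌊Real.exp (x + V)⌋₊).filter (fun n : ℕ => ¬ n.Prime ∧ x - V ≤ Real.log n),
        wn x n
      ≤ ∑ n ∈ (Finset.Ioc 0 ⌊Real.exp (x + V)⌋₊).filter
          (fun n : ℕ => ¬ n.Prime ∧ x - V ≤ Real.log n), Real.exp (-(x - V)) * Λ n :=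
        Finset.sum_le_sum h1
    _ ≤ ∑ n ∈ (Finset.Ioc 0 ⌊Real.exp (x + V)⌋₊).filter (fun n : ℕ => ¬ n.Prime),
          Real.exp (-(x - V)) * Λ n := by
        apply Finset.sum_le_sum_of_subset_of_nonneg
        · intro n hn
          rw [Finset.mem_filter] at hn ⊢
          exact ⟨hn.1, hn.2.1⟩
        · intro n _ _
          exact mul_nonneg (Real.exp_pos _).le ArithmeticFunction.vonMangoldt_nonneg
    _ = Real.exp (-(x - V)) * (Chebyshev.psi (Real.exp (x + V)) -
          Chebyshev.theta (Real.exp (x + V))) := by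
        rw [Chebyshev.psi_sub_theta_eq_sum_not_prime, Finset.mul_sum]
    _ ≤ Real.exp (-(x - V)) * (2 * Real.sqrt (Real.exp (x + V)) * Real.log (Real.exp (x + V))) :=
        mul_le_mul_of_nonneg_left (Chebyshev.psi_sub_theta_le hY) (Real.exp_pos _).le
    _ = 2 * (x + V) * (Real.exp (-(x - V)) * Real.exp ((x + V) / 2)) := by
        rw [Real.log_exp, Real.exp_half]
        ring
    _ = 2 * (x + V) * Real.exp (-x / 2 + 3 * V / 2) := by
        rw [← Real.exp_add]
        congr 2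
        ring

/-- all weights with a property `P`, from above, by the primes near `e^x` with this property -/
lemma g4_tsum_le_primes {x V : ℝ} (hx : 1 ≤ x) (hV : 0 ≤ V) (P : ℕ → Prop) [DecidablePred P] :
    ∑' n, (if P n then wn x n else 0) ≤ ∑ p ∈ (g4_PR x V).filter P, wn x p + g4_err x V := by
  classical
  set F := (Finset.Ioc 0 ⌊Real.exp (x + V)⌋₊).filter (fun n : ℕ => ¬ n.Prime ∧ x - V ≤ Real.log n)
    with hF
  have h1 : ∀ n : ℕ, (if P n then wn x n else 0) ≤
      ((if n ∈ (g4_PR x V).filter P then wn x n else 0) + (if n ∈ F then wn x n else 0)) +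
        (if V < |Real.log n - x| then wn x n else 0) := by
    intro n
    have hw := wn_nonneg x n
    by_cases hP : P n
    · rw [if_pos hP]
      by_cases h2 : V < |Real.log n - x|
      · rw [if_pos h2]
        have : 0 ≤ (if n ∈ (g4_PR x V).filter P then wn x n else 0) := by split_ifs <;> simp [hw]
        have : 0 ≤ (if n ∈ F then wn x n else 0) := by split_ifs <;> simp [hw]
        linarith
      · have h2' := h2
        rw [not_lt, abs_le] at h2
        rw [if_neg h2']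
        rcases Nat.eq_zero_or_pos n with rfl | hn
        · have : wn x 0 = 0 := by unfold wn; simp
          rw [this]
          simp
        have hn0 : (0 : ℝ) < n := by exact_mod_cast hn
        by_cases hp : n.Prime
        · have h3 : n ∈ (g4_PR x V).filter P := by
            rw [Finset.mem_filter, g4_mem_PR]
            exact ⟨⟨hp, by linarith, by linarith⟩, hP⟩
          rw [if_pos h3]
          have : 0 ≤ (if n ∈ F then wn x n else 0) := by split_ifs <;> simp [hw]
          linarith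
        · have h3 : n ∈ F := by
            rw [hF, Finset.mem_filter, Finset.mem_Ioc]
            refine ⟨⟨hn, ?_⟩, hp, by linarith⟩
            apply (Nat.le_floor_iff (Real.exp_pos _).le).2
            rw [← Real.log_le_iff_le_exp hn0]
            linarith
          rw [if_pos h3]
          have : 0 ≤ (if n ∈ (g4_PR x V).filter P then wn x n else 0) := by split_ifs <;> simp [hw]
          linarith
    · rw [if_neg hP]
      have : 0 ≤ (if n ∈ (g4_PR x V).filter P then wn x n else 0) := by split_ifs <;> simp [hw]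
      have : 0 ≤ (if n ∈ F then wn x n else 0) := by split_ifs <;> simp [hw]
      have : 0 ≤ (if V < |Real.log n - x| then wn x n else 0) := by split_ifs <;> simp [hw]
      linarith
  have s1 := g4_summable_ite x (fun n => n ∈ (g4_PR x V).filter P)
  have s2 := g4_summable_ite x (fun n => n ∈ F)
  have s3 := g4_summable_ite x (fun n : ℕ => V < |Real.log n - x|)
  have t1 : ∑' n, (if n ∈ (g4_PR x V).filter P then wn x n else 0) =
      ∑ p ∈ (g4_PR x V).filter P, wn x p := by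
    rw [tsum_eq_sum (s := (g4_PR x V).filter P) (fun n hn => if_neg hn)]
    exact Finset.sum_congr rfl fun n hn => if_pos hn
  have t2 : ∑' n, (if n ∈ F then wn x n else 0) = ∑ p ∈ F, wn x p := by
    rw [tsum_eq_sum (s := F) (fun n hn => if_neg hn)]
    exact Finset.sum_congr rfl fun n hn => if_pos hn
  calc ∑' n, (if P n then wn x n else 0)
      ≤ ∑' n : ℕ, (((if n ∈ (g4_PR x V).filter P then wn x n else 0) + (if n ∈ F then wn x n else 0)) +
        (if V < |Real.log n - x| then wn x n else 0)) :=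
        Summable.tsum_le_tsum h1 (g4_summable_ite x P) ((s1.add s2).add s3)
    _ = (∑ p ∈ (g4_PR x V).filter P, wn x p + ∑ p ∈ F, wn x p) +
        ∑' n : ℕ, (if V < |Real.log n - x| then wn x n else 0) := by
        rw [(s1.add s2).tsum_add s3, s1.tsum_add s2, t1, t2]
    _ ≤ (∑ p ∈ (g4_PR x V).filter P, wn x p + 2 * (x + V) * Real.exp (-x / 2 + 3 * V / 2)) +
        6920 * x ^ 2 * Real.exp (-V ^ 2 / 4) := by
        have h2 := g4_nonprime_wn (x := x) (V := V) hV (by linarith)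
        have h3 := g4_tail_wn hx hV (fun n : ℕ => V < |Real.log n - x|) (fun n h => h.le)
        rw [← hF] at h2
        linarith
    _ = _ := by unfold g4_err; ring

/-- orthogonality, from below -/
theorem g4_ap_sum_ge {q : ℕ} [NeZero q] {a : ZMod q} (ha : IsUnit a) (x : ℝ) :
    (1 / (q.totient : ℝ)) * (∑' n : ℕ, (if n.Coprime q then wn x n else 0) -
      ∑ χ ∈ (Finset.univ : Finset (DirichletCharacter ℂ q)).erase 1, ‖SS χ x‖) ≤
      ∑' n : ℕ, (if (n : ZMod q) = a then wn x n else 0) := by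
  classical
  have hterm : ∀ χ : DirichletCharacter ℂ q, ∀ n : ℕ,
      ‖(Λ n : ℂ) * χ (n : ZMod q) * ((gw (Real.log n - x) / n : ℝ) : ℂ)‖ ≤ wn x n := by
    intro χ n
    have hw : 0 ≤ gw (Real.log n - x) / n := div_nonneg (gw_nonneg _) (Nat.cast_nonneg _)
    rw [norm_mul, norm_mul, Complex.norm_real, Complex.norm_real, Real.norm_eq_abs,
      Real.norm_eq_abs, abs_of_nonneg ArithmeticFunction.vonMangoldt_nonneg, abs_of_nonneg hw]
    unfold wn
    apply mul_le_mul_of_nonneg_right _ hw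
    exact mul_le_of_le_one_right ArithmeticFunction.vonMangoldt_nonneg (χ.norm_le_one _)
  have hsumm : ∀ χ : DirichletCharacter ℂ q, Summable fun n : ℕ =>
      (Λ n : ℂ) * χ (n : ZMod q) * ((gw (Real.log n - x) / n : ℝ) : ℂ) := fun χ =>
    Summable.of_norm_bounded (summable_wn x) (hterm χ)
  have hφ : 0 < q.totient := Nat.totient_pos.2 (Nat.pos_of_ne_zero (NeZero.ne q))
  have hφR : (0 : ℝ) < q.totient := by exact_mod_cast hφ
  -- the identity
  have hid : (((q.totient : ℝ) * ∑' n : ℕ, (if (n : ZMod q) = a then wn x n else 0) : ℝ) : ℂ) =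
      ∑ χ : DirichletCharacter ℂ q, χ a⁻¹ * SS χ x := by
    unfold SS
    simp_rw [← tsum_mul_left]
    rw [← Summable.tsum_finsetSum (fun χ _ => (hsumm χ).mul_left _), Complex.ofReal_tsum]
    apply tsum_congr
    intro n
    have h1 := DirichletCharacter.sum_char_inv_mul_char_eq ℂ ha (n : ZMod q)
    have h2 : ∑ χ : DirichletCharacter ℂ q, χ a⁻¹ *
        ((Λ n : ℂ) * χ (n : ZMod q) * ((gw (Real.log n - x) / n : ℝ) : ℂ)) =
        (∑ χ : DirichletCharacter ℂ q, χ a⁻¹ * χ (n : ZMod q)) *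
          ((Λ n : ℂ) * ((gw (Real.log n - x) / n : ℝ) : ℂ)) := by
      rw [Finset.sum_mul]
      apply Finset.sum_congr rfl
      intro χ _
      ring
    rw [h2, h1]
    by_cases h : a = (n : ZMod q)
    · rw [if_pos h, if_pos h.symm]
      unfold wn
      push_cast
      ring
    · rw [if_neg h, if_neg (fun h' => h h'.symm)]
      simp
  -- the principal character
  have hone : (1 : DirichletCharacter ℂ q) a⁻¹ * SS (1 : DirichletCharacter ℂ q) x =
      ((∑' n : ℕ, (if n.Coprime q then wn x n else 0) : ℝ) : ℂ) := by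
    have ha' : IsUnit a⁻¹ := by
      obtain ⟨u, rfl⟩ := ha
      rw [ZMod.inv_coe_unit]
      exact u⁻¹.isUnit
    rw [MulChar.one_apply ha', one_mul, SS, Complex.ofReal_tsum]
    apply tsum_congr
    intro n
    by_cases hn : n.Coprime q
    · rw [if_pos hn, MulChar.one_apply ((ZMod.isUnit_iff_coprime n q).2 hn)]
      unfold wn
      push_cast
      ring
    · rw [if_neg hn, MulChar.map_nonunit _ (fun h => hn ((ZMod.isUnit_iff_coprime n q).1 h))]
      simp
  have hsplit : ∑ χ : DirichletCharacter ℂ q, χ a⁻¹ * SS χ x =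
      ((∑' n : ℕ, (if n.Coprime q then wn x n else 0) : ℝ) : ℂ) +
      ∑ χ ∈ (Finset.univ : Finset (DirichletCharacter ℂ q)).erase 1, χ a⁻¹ * SS χ x := by
    rw [← hone]
    exact (Finset.add_sum_erase _ _ (Finset.mem_univ _)).symm
  have hre := congrArg Complex.re (hid.trans hsplit)
  rw [Complex.add_re, Complex.ofReal_re, Complex.ofReal_re] at hre
  have hrest : -(∑ χ ∈ (Finset.univ : Finset (DirichletCharacter ℂ q)).erase 1, ‖SS χ x‖) ≤
      (∑ χ ∈ (Finset.univ : Finset (DirichletCharacter ℂ q)).erase 1, χ a⁻¹ * SS χ x).re := by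
    have h1 := Complex.abs_re_le_norm
      (∑ χ ∈ (Finset.univ : Finset (DirichletCharacter ℂ q)).erase 1, χ a⁻¹ * SS χ x)
    have h2 : ‖∑ χ ∈ (Finset.univ : Finset (DirichletCharacter ℂ q)).erase 1, χ a⁻¹ * SS χ x‖ ≤
        ∑ χ ∈ (Finset.univ : Finset (DirichletCharacter ℂ q)).erase 1, ‖SS χ x‖ := by
      refine (norm_sum_le _ _).trans ?_
      apply Finset.sum_le_sum
      intro χ _
      rw [norm_mul]
      exact mul_le_of_le_one_left (norm_nonneg _) (χ.norm_le_one _)
    have h3 := (abs_le.1 (h1.trans h2)).1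
    exact h3
  rw [one_div, ← div_eq_inv_mul, div_le_iff₀ hφR]
  linarith

/-- Primes in a reduced class modulo `q`, from below. -/
theorem g4_ap_primes_ge {q : ℕ} [NeZero q] {a : ZMod q} (ha : IsUnit a) {x V z : ℝ} (hx : 1 ≤ x)
    (hV : 0 ≤ V) (hqz : ∀ p : ℕ, p.Prime → p ∣ q → (p : ℝ) ≤ z) (hz : z < Real.exp (x - V)) :
    (1 / (q.totient : ℝ)) * (S0 x - g4_err x V -
      ∑ χ ∈ (Finset.univ : Finset (DirichletCharacter ℂ q)).erase 1, ‖SS χ x‖) - g4_err x V ≤
      ∑ p ∈ (g4_PR x V).filter (fun p : ℕ => (p : ZMod q) = a), wn x p := by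
  classical
  have h1 := g4_ap_sum_ge ha x
  have h2 := g4_tsum_le_primes (V := V) hx hV (fun n : ℕ => (n : ZMod q) = a)
  have h3 := g4_tsum_le_primes (V := V) hx hV (fun n : ℕ => ¬ n.Coprime q)
  have h4 : (g4_PR x V).filter (fun n : ℕ => ¬ n.Coprime q) = ∅ := by
    apply Finset.filter_eq_empty_iff.2
    intro p hp hcop
    rw [g4_mem_PR] at hp
    have hp0 : (0 : ℝ) < p := by exact_mod_cast hp.1.pos
    have h5 : p ∣ q := by
      by_contra h6
      exact hcop ((Nat.Prime.coprime_iff_not_dvd hp.1).2 h6)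
    have h7 := hqz p hp.1 h5
    have h8 : Real.exp (x - V) ≤ p := by
      rw [← Real.exp_log hp0]
      exact Real.exp_le_exp.2 hp.2.1
    linarith
  rw [h4, Finset.sum_empty, zero_add] at h3
  have h5 : S0 x = ∑' n : ℕ, (if n.Coprime q then wn x n else 0) +
      ∑' n : ℕ, (if ¬ n.Coprime q then wn x n else 0) := by
    unfold S0
    rw [← (g4_summable_ite x (fun n => n.Coprime q)).tsum_add (g4_summable_ite x (fun n => ¬ n.Coprime q))]
    apply tsum_congr
    intro n
    by_cases h : n.Coprime q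
    · simp [h]
    · simp [h]
  have hφ : (0 : ℝ) < q.totient := by
    exact_mod_cast Nat.totient_pos.2 (Nat.pos_of_ne_zero (NeZero.ne q))
  have h6 : (1 / (q.totient : ℝ)) * (S0 x - g4_err x V -
      ∑ χ ∈ (Finset.univ : Finset (DirichletCharacter ℂ q)).erase 1, ‖SS χ x‖) ≤
      (1 / (q.totient : ℝ)) * (∑' n : ℕ, (if n.Coprime q then wn x n else 0) -
      ∑ χ ∈ (Finset.univ : Finset (DirichletCharacter ℂ q)).erase 1, ‖SS χ x‖) := by
    apply mul_le_mul_of_nonneg_left _ (by positivity)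
    linarith
  linarith


lemma g4_scale : ∀ᶠ x : ℝ in atTop, 7 / 8 ≤ S0 x ∧ 16 * (6920 * x ^ 2 + 7 / 3 * x) ≤ Real.exp (x / 8) ∧
    x ^ 5 * (14 / 3) ≤ Real.exp (x / 2) ∧ 36 ≤ x := by
  have h1 : ∀ᶠ x : ℝ in atTop, (7 / 8 : ℝ) ≤ S0 x :=
    tendsto_S0.eventually (eventually_ge_nhds (by norm_num))
  have hpow : ∀ n : ℕ, ∀ b : ℝ, 0 < b → ∀ K : ℝ, 0 < K →
      ∀ᶠ x : ℝ in atTop, K * x ^ n ≤ Real.exp (b * x) := by
    intro n b hb K hK
    have h2 := tendsto_exp_mul_div_rpow_atTop (n : ℝ) b hb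
    filter_upwards [h2.eventually_ge_atTop K, eventually_gt_atTop (0 : ℝ)] with x hx hx0
    rw [Real.rpow_natCast, le_div_iff₀ (pow_pos hx0 n)] at hx
    exact hx
  filter_upwards [h1, hpow 2 (1 / 8) (by norm_num) (16 * 6923) (by norm_num),
    hpow 5 (1 / 2) (by norm_num) (14 / 3) (by norm_num), eventually_ge_atTop (36 : ℝ)]
    with x hx1 hx2 hx3 hx4
  refine ⟨hx1, ?_, ?_, hx4⟩
  · have h3 : x / 8 = 1 / 8 * x := by ring
    rw [h3]
    refine le_trans ?_ hx2
    nlinarith
  · have h3 : x / 2 = 1 / 2 * x := by ring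
    rw [h3]
    linarith

lemma g4_four_le {B : ℝ} (hB : 1 < B) : ∀ᶠ z : ℕ in atTop, ∀ x : ℝ, (z : ℝ) ^ B ≤ x →
    (4 : ℝ) ^ z ≤ Real.exp (x / 16) ∧ (z : ℝ) ≤ x := by
  have h1 : Tendsto (fun z : ℕ => (z : ℝ) ^ (B - 1)) atTop atTop :=
    (tendsto_rpow_atTop (by linarith)).comp tendsto_natCast_atTop_atTop
  filter_upwards [h1.eventually_ge_atTop 32, eventually_ge_atTop 1] with z hz hz1 x hx
  have hz0 : (0 : ℝ) < z := by exact_mod_cast hz1
  have hz1' : (1 : ℝ) ≤ z := by exact_mod_cast hz1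
  have h2 : (z : ℝ) * z ^ (B - 1) = z ^ B := by
    rw [← Real.rpow_one_add' hz0.le (by linarith)]
    congr 1
    ring
  have h3 : (z : ℝ) * 32 ≤ x := by
    refine le_trans ?_ hx
    rw [← h2]
    exact mul_le_mul_of_nonneg_left hz hz0.le
  refine ⟨?_, by linarith⟩
  have h5 : (4 : ℝ) ≤ Real.exp 2 := by
    have h6 : Real.exp 2 = Real.exp 1 * Real.exp 1 := by rw [← Real.exp_add]; norm_num
    have h7 := Real.add_one_le_exp (1 : ℝ)
    rw [h6]
    nlinarith
  calc (4 : ℝ) ^ z ≤ (Real.exp 2) ^ z := pow_le_pow_left₀ (by norm_num) h5 z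
    _ = Real.exp (z * 2) := by rw [← Real.exp_nat_mul]
    _ ≤ Real.exp (x / 16) := Real.exp_le_exp.2 (by linarith)

open Classical in
theorem many_primes {B : ℝ} (hB : 1 < B) (hB2 : B ≤ 2) :
    ∀ᶠ z : ℕ in atTop, ∀ P0 p q : ℕ, GoodPrime B (1 / 2) P0 z p → q * p = primorial z →
      ∀ x : ℝ, (z : ℝ) ^ B ≤ x → x ≤ Real.exp z → ∀ a : ZMod q, IsUnit a →
        x ^ 4 ≤ (((Finset.Icc ⌈Real.exp (x / 2)⌉₊ ⌊Real.exp (2 * x)⌋₊).filter
          (fun p : ℕ => p.Prime ∧ (p : ZMod q) = a)).card : ℝ) := by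
  obtain ⟨X, hX⟩ := (eventually_atTop.1 g4_scale)
  have hzx : Tendsto (fun z : ℕ => (z : ℝ)) atTop atTop := tendsto_natCast_atTop_atTop
  filter_upwards [g4_four_le hB, hzx.eventually_ge_atTop X, eventually_ge_atTop 1]
    with z hz4 hzX hz1 P0 p q hgood hq x hzx hxz a ha
  obtain ⟨hp, hpd, hpP, hsum⟩ := hgood
  have hprim : 0 < primorial z := primorial_pos z
  have hq0 : q ≠ 0 := by
    rintro rfl
    rw [zero_mul] at hq
    omega
  haveI : NeZero q := ⟨hq0⟩
  obtain ⟨h4z, hzlex⟩ := hz4 x hzx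
  obtain ⟨hS0, hexp1, hexp2, hx36⟩ := hX x (hzX.trans hzlex)
  have hSS := hsum q hq x hzx hxz
  have hx0 : 0 < x := by linarith
  set V : ℝ := x / 6 with hV
  have hV0 : 0 ≤ V := by rw [hV]; positivity
  have hqz : ∀ r : ℕ, r.Prime → r ∣ q → (r : ℝ) ≤ (z : ℝ) := by
    intro r hr hrq
    have h1 : r ∣ primorial z := (hrq.trans ⟨p, hq.symm⟩)
    have h2 : r ≤ z := by
      unfold primorial at h1
      rw [Prime.dvd_finsetProd_iff hr.prime] at h1
      obtain ⟨s, hs, hrs⟩ := h1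
      rw [Finset.mem_filter, Finset.mem_range] at hs
      have := (Nat.prime_dvd_prime_iff_eq hr hs.2).1 hrs
      omega
    exact_mod_cast h2
  have hzexp : (z : ℝ) < Real.exp (x - V) := by
    refine lt_of_le_of_lt hzlex ?_
    have h1 : x - V = 5 * x / 12 + 5 * x / 12 := by rw [hV]; ring
    rw [h1, Real.exp_add]
    have h2 := Real.add_one_le_exp (5 * x / 12)
    nlinarith
  have hap := g4_ap_primes_ge (q := q) ha (x := x) (V := V) (z := z) (by linarith) hV0 hqz hzexp
  -- the error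
  have herr0 : 0 ≤ g4_err x V := by
    unfold g4_err
    positivity
  have herr : g4_err x V ≤ Real.exp (-(x / 8)) / 16 := by
    unfold g4_err
    have e1 : Real.exp (-V ^ 2 / 4) ≤ Real.exp (-(x / 4)) := by
      apply Real.exp_le_exp.2
      rw [hV]
      nlinarith
    have e2 : -x / 2 + 3 * V / 2 = -(x / 4) := by rw [hV]; ring
    have e3 : 2 * (x + V) = 7 / 3 * x := by rw [hV]; ring
    rw [e2, e3]
    have e4 : Real.exp (-(x / 4)) = Real.exp (-(x / 8)) * Real.exp (-(x / 8)) := by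
      rw [← Real.exp_add]
      congr 1
      ring
    have e5 : Real.exp (x / 8) * Real.exp (-(x / 8)) = 1 := by
      rw [← Real.exp_add]
      simp
    have e6 : 0 < Real.exp (-(x / 8)) := Real.exp_pos _
    calc 6920 * x ^ 2 * Real.exp (-V ^ 2 / 4) + 7 / 3 * x * Real.exp (-(x / 4))
        ≤ 6920 * x ^ 2 * Real.exp (-(x / 4)) + 7 / 3 * x * Real.exp (-(x / 4)) := by gcongr
      _ = (16 * (6920 * x ^ 2 + 7 / 3 * x)) * Real.exp (-(x / 8)) * (Real.exp (-(x / 8)) / 16) := by
          rw [e4]; ring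
      _ ≤ Real.exp (x / 8) * Real.exp (-(x / 8)) * (Real.exp (-(x / 8)) / 16) := by gcongr
      _ = _ := by rw [e5, one_mul]
  have hφ : (0 : ℝ) < q.totient := by exact_mod_cast Nat.totient_pos.2 (Nat.pos_of_ne_zero hq0)
  have hφ1 : (1 : ℝ) ≤ q.totient := by exact_mod_cast Nat.totient_pos.2 (Nat.pos_of_ne_zero hq0)
  have hφq : (q.totient : ℝ) ≤ Real.exp (x / 16) := by
    have h1 : (q.totient : ℝ) ≤ q := by exact_mod_cast Nat.totient_le q
    have h2 : (q : ℝ) ≤ primorial z := by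
      exact_mod_cast Nat.le_of_dvd (primorial_pos z) ⟨p, hq.symm⟩
    have h3 : (primorial z : ℝ) ≤ (4 : ℝ) ^ z := by exact_mod_cast primorial_le_four_pow z
    linarith
  have herrφ : (q.totient : ℝ) * g4_err x V ≤ 1 / 16 := by
    calc (q.totient : ℝ) * g4_err x V ≤ Real.exp (x / 16) * (Real.exp (-(x / 8)) / 16) := by gcongr
      _ = Real.exp (-(x / 16)) / 16 := by
          rw [mul_div_assoc', ← Real.exp_add]
          congr 2
          ring
      _ ≤ 1 / 16 := by
          have : Real.exp (-(x / 16)) ≤ 1 := Real.exp_le_one_iff.2 (by linarith)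
          linarith
  have herr16 : g4_err x V ≤ 1 / 16 := by
    refine le_trans ?_ herrφ
    exact le_mul_of_one_le_left herr0 hφ1
  -- the sum from below
  have hlow : 1 / (4 * (q.totient : ℝ)) ≤
      ∑ p ∈ (g4_PR x V).filter (fun p : ℕ => (p : ZMod q) = a), wn x p := by
    refine le_trans ?_ hap
    have h1 : (1 / (q.totient : ℝ)) * (5 / 16) ≤ (1 / (q.totient : ℝ)) * (S0 x - g4_err x V -
        ∑ χ ∈ (Finset.univ : Finset (DirichletCharacter ℂ q)).erase 1, ‖SS χ x‖) := by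
      apply mul_le_mul_of_nonneg_left _ (by positivity)
      linarith
    have h2 : g4_err x V ≤ (1 / (q.totient : ℝ)) * (1 / 16) := by
      rw [one_div, ← div_eq_inv_mul, le_div_iff₀ hφ, mul_comm]
      exact herrφ
    have h3 : 1 / (4 * (q.totient : ℝ)) = (1 / (q.totient : ℝ)) * (5 / 16) -
        (1 / (q.totient : ℝ)) * (1 / 16) := by
      field_simp
      norm_num
    linarith
  -- each weight
  have hterm : ∀ r ∈ (g4_PR x V).filter (fun p : ℕ => (p : ZMod q) = a),
      wn x r ≤ 7 * x / 6 * Real.exp (-(5 * x / 6)) := by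
    intro r hr
    rw [Finset.mem_filter, g4_mem_PR] at hr
    obtain ⟨⟨hrp, hr1, hr2⟩, _⟩ := hr
    have hr0 : (0 : ℝ) < r := by exact_mod_cast hrp.pos
    unfold wn
    have h1 : Λ r ≤ 7 * x / 6 := by
      rw [ArithmeticFunction.vonMangoldt_apply_prime hrp]
      refine hr2.trans (le_of_eq ?_)
      rw [hV]; ring
    have h2 : gw (Real.log r - x) / r ≤ Real.exp (-(5 * x / 6)) := by
      rw [Real.exp_neg, ← one_div]
      apply div_le_div₀ zero_le_one _ (Real.exp_pos _)
      · rw [← Real.exp_log hr0]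
        apply Real.exp_le_exp.2
        refine le_trans (le_of_eq ?_) hr1
        rw [hV]; ring
      · refine (g4_gw_le_exp _).trans (Real.exp_le_one_iff.2 ?_)
        nlinarith [sq_nonneg (Real.log r - x)]
    have h3 : 0 ≤ gw (Real.log r - x) / r := div_nonneg (gw_nonneg _) hr0.le
    exact mul_le_mul h1 h2 h3 (by positivity)
  have hsub : (g4_PR x V).filter (fun p : ℕ => (p : ZMod q) = a) ⊆
      (Finset.Icc ⌈Real.exp (x / 2)⌉₊ ⌊Real.exp (2 * x)⌋₊).filter
          (fun p : ℕ => p.Prime ∧ (p : ZMod q) = a) := by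
    intro r hr
    rw [Finset.mem_filter, g4_mem_PR] at hr
    obtain ⟨⟨hrp, hr1, hr2⟩, hra⟩ := hr
    have hr0 : (0 : ℝ) < r := by exact_mod_cast hrp.pos
    rw [Finset.mem_filter, Finset.mem_Icc]
    refine ⟨⟨Nat.ceil_le.2 ?_, Nat.le_floor ?_⟩, hrp, hra⟩
    · rw [← Real.exp_log hr0]
      apply Real.exp_le_exp.2
      rw [hV] at hr1
      linarith
    · rw [← Real.exp_log hr0]
      apply Real.exp_le_exp.2
      rw [hV] at hr2
      linarith
  have hcard := Finset.card_le_card hsub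
  have hcard' : (((g4_PR x V).filter (fun p : ℕ => (p : ZMod q) = a)).card : ℝ) ≤
      (((Finset.Icc ⌈Real.exp (x / 2)⌉₊ ⌊Real.exp (2 * x)⌋₊).filter
          (fun p : ℕ => p.Prime ∧ (p : ZMod q) = a)).card : ℝ) := by exact_mod_cast hcard
  refine le_trans ?_ hcard'
  have hup := Finset.sum_le_card_nsmul _ _ _ hterm
  rw [nsmul_eq_mul] at hup
  set c : ℝ := (((g4_PR x V).filter (fun p : ℕ => (p : ZMod q) = a)).card : ℝ) with hc
  have h1 : 1 / (4 * Real.exp (x / 16)) ≤ c * (7 * x / 6 * Real.exp (-(5 * x / 6))) := by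
    refine le_trans ?_ (hlow.trans hup)
    apply one_div_le_one_div_of_le (by positivity)
    linarith
  have hc0 : 0 ≤ c := Nat.cast_nonneg _
  have h2 : Real.exp (5 * x / 6) * Real.exp (-(5 * x / 6)) = 1 := by
    rw [← Real.exp_add]
    simp
  have h3 : Real.exp (5 * x / 6) ≤ c * (14 / 3 * x) * Real.exp (x / 16) := by
    rw [div_le_iff₀ (by positivity)] at h1
    calc Real.exp (5 * x / 6) = Real.exp (5 * x / 6) * 1 := (mul_one _).symm
      _ ≤ Real.exp (5 * x / 6) * (c * (7 * x / 6 * Real.exp (-(5 * x / 6))) *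
          (4 * Real.exp (x / 16))) := by gcongr
      _ = (Real.exp (5 * x / 6) * Real.exp (-(5 * x / 6))) *
          (c * (14 / 3 * x) * Real.exp (x / 16)) := by ring
      _ = _ := by rw [h2, one_mul]
  have h4 : Real.exp (x / 2) * Real.exp (x / 16) ≤ Real.exp (5 * x / 6) := by
    rw [← Real.exp_add]
    apply Real.exp_le_exp.2
    linarith
  have h5 : Real.exp (x / 2) ≤ c * (14 / 3 * x) :=
    le_of_mul_le_mul_right (h4.trans h3) (Real.exp_pos _)
  have h6 : x ^ 4 * (14 / 3 * x) ≤ c * (14 / 3 * x) := by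
    calc x ^ 4 * (14 / 3 * x) = x ^ 5 * (14 / 3) := by ring
      _ ≤ Real.exp (x / 2) := hexp2
      _ ≤ _ := h5
  exact le_of_mul_le_mul_right h6 (by positivity)

end Pool.Agent.LibThin21
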