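import Pool.Agent.LibThin21.G4
import Pool.Agent.LibThin21.C1

/-!
Good scales exist for ALL large `x`.
-/

namespace Pool.Agent.LibThin21

open Filter Topology
open Pool.Agent.LibMaier

/-- all fields of a good scale except the bound for the columns -/
theorem scales_core {B : ℝ} (hB1 : 1 < B) (hB2 : B < 2) {ε v0 : ℝ} (hε : 0 < ε)
    (hε1 : ε < 1 / 100) (hv0 : 0 ≤ v0) (N : ℕ) :
    ∀ᶠ x : ℝ in atTop, ∃ z p0 q k1 k2 : ℕ, N ≤ z ∧ p0.Prime ∧ 2000 / ε ≤ (p0 : ℝ) ∧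
      q * p0 = primorial z ∧ (z : ℝ) ^ B ≤ x ∧ x ≤ ((z : ℝ) + 1) ^ B ∧
      (∀ lam : ℝ, ((cols q ⌊lam * x ^ 2⌋₊).card : ℝ) * ((q : ℝ) / (q.totient : ℝ)) ≤
        (1 + ε) ^ 4 * (eg / 2) * (lam * x ^ 2) → GoodScale ε lam v0 x z p0 q k1 k2) := by
  set B' : ℝ := (1 + B) / 2 with hB'
  have hB'1 : 1 < B' := by rw [hB']; linarith
  have hB'B : B' < B := by rw [hB']; linarith
  have hB'2 : B' ≤ 2 := by linarith
  have hε2 : 0 < ε / 2 := by positivity
  -- eventually in z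
  have hznat : Tendsto (fun z : ℕ => (z : ℝ)) atTop atTop := tendsto_natCast_atTop_atTop
  have hpow1 : ∀ᶠ z : ℕ in atTop, (z : ℝ) ^ B' ≤ (1 - ε) * (z : ℝ) ^ B := by
    have h1 : Tendsto (fun t : ℝ => t ^ (B - B')) atTop atTop :=
      tendsto_rpow_atTop (by linarith)
    filter_upwards [(h1.comp hznat).eventually_ge_atTop (2 : ℝ), hznat.eventually_gt_atTop 0]
      with z hz hz0
    simp only [Function.comp_apply] at hz
    have h2 : (z : ℝ) ^ B = (z : ℝ) ^ B' * (z : ℝ) ^ (B - B') := by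
      rw [← Real.rpow_add hz0]
      congr 1
      ring
    rw [h2]
    have h3 : 0 < (z : ℝ) ^ B' := Real.rpow_pos_of_pos hz0 _
    have h4 : 1 ≤ (1 - ε) * (z : ℝ) ^ (B - B') := by nlinarith
    calc (z : ℝ) ^ B' = 1 * (z : ℝ) ^ B' := (one_mul _).symm
      _ ≤ ((1 - ε) * (z : ℝ) ^ (B - B')) * (z : ℝ) ^ B' := mul_le_mul_of_nonneg_right h4 h3.le
      _ = (1 - ε) * ((z : ℝ) ^ B' * (z : ℝ) ^ (B - B')) := by ring
  have hpow2 : ∀ᶠ z : ℕ in atTop, ((z : ℝ) + 1) ^ B ≤ (z : ℝ) ^ 2 ∧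
      ((z : ℝ) + 1) ^ B ≤ Real.exp z := by
    have h1 : Tendsto (fun t : ℝ => t ^ (2 - B)) atTop atTop := tendsto_rpow_atTop (by linarith)
    have h2 : Tendsto (fun z : ℕ => (z : ℝ) + 1) atTop atTop :=
      tendsto_atTop_add_const_right _ _ hznat
    have h3 : Tendsto (fun t : ℝ => Real.exp t / t ^ 2) atTop atTop :=
      Real.tendsto_exp_div_pow_atTop 2
    filter_upwards [(h1.comp h2).eventually_ge_atTop (4 : ℝ),
      (h3.comp hznat).eventually_ge_atTop (1 : ℝ), hznat.eventually_ge_atTop 1] with z hz hz2 hz1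
    simp only [Function.comp_apply] at hz hz2
    have hz0 : (0 : ℝ) < (z : ℝ) := by linarith
    have h4 : ((z : ℝ) + 1) ^ B ≤ (z : ℝ) ^ 2 := by
      have h5 : ((z : ℝ) + 1) ^ B * ((z : ℝ) + 1) ^ (2 - B) = ((z : ℝ) + 1) ^ 2 := by
        rw [← Real.rpow_add (by linarith), ← Real.rpow_natCast]
        congr 1
        push_cast
        ring
      have h6 : 0 < ((z : ℝ) + 1) ^ B := Real.rpow_pos_of_pos (by linarith) _
      have h7 : ((z : ℝ) + 1) ^ 2 ≤ 4 * (z : ℝ) ^ 2 := by nlinarith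
      nlinarith
    refine ⟨h4, h4.trans ?_⟩
    rw [le_div_iff₀ (by positivity), one_mul] at hz2
    exact hz2
  obtain ⟨Z, hZ⟩ := eventually_atTop.1 ((good_sum_B hB'1 hB'2 hε2 ⌈2000 / ε⌉₊).and
    ((ap_upper_all hB'1 hB'2 hε).and ((many_primes hB'1 hB'2).and (hpow1.and hpow2))))
  -- eventually in x
  have hx1 : ∀ᶠ x : ℝ in atTop, ((max N Z : ℕ) : ℝ) + 1 ≤ x ^ (1 / B) :=
    (tendsto_rpow_atTop (by positivity)).eventually_ge_atTop _
  have hx2 : ∀ᶠ x : ℝ in atTop, x ^ (1 / B) * Real.log x ≤ ε ^ 3 * x := by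
    have h1 : Tendsto (fun x : ℝ => Real.log x / x ^ (1 - 1 / B)) atTop (𝓝 0) := by
      apply (isLittleO_log_rpow_atTop ?_).tendsto_div_nhds_zero
      have : 1 / B < 1 := by
        rw [div_lt_one (by linarith)]
        exact hB1
      linarith
    filter_upwards [h1.eventually_le_const (show 0 < ε ^ 3 by positivity),
      eventually_gt_atTop (0 : ℝ)] with x hx hx0
    rw [div_le_iff₀ (Real.rpow_pos_of_pos hx0 _)] at hx
    have h2 : x = x ^ (1 / B) * x ^ (1 - 1 / B) := by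
      rw [← Real.rpow_add hx0]
      norm_num
    have h3 : 0 < x ^ (1 / B) := Real.rpow_pos_of_pos hx0 _
    calc x ^ (1 / B) * Real.log x ≤ x ^ (1 / B) * (ε ^ 3 * x ^ (1 - 1 / B)) :=
          mul_le_mul_of_nonneg_left hx h3.le
      _ = ε ^ 3 * (x ^ (1 / B) * x ^ (1 - 1 / B)) := by ring
      _ = ε ^ 3 * x := by rw [← h2]
  have hx3 : ∀ᶠ x : ℝ in atTop, v0 + 2 ≤ (1 / 2) * x :=
    (tendsto_id.const_mul_atTop (by norm_num)).eventually_ge_atTop _
  filter_upwards [hx1, hx2, hx3, eventually_ge_atTop (Real.exp 2), eventually_ge_atTop (20 : ℝ)]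
    with x hxz hxlog hxv hxe hx20
  have hx0 : 0 < x := by linarith
  set z : ℕ := ⌊x ^ (1 / B)⌋₊ with hz
  have hxB0 : 0 ≤ x ^ (1 / B) := (Real.rpow_pos_of_pos hx0 _).le
  have hz1 : (z : ℝ) ≤ x ^ (1 / B) := Nat.floor_le hxB0
  have hz2 : x ^ (1 / B) ≤ (z : ℝ) + 1 := (Nat.lt_floor_add_one _).le
  have hNZ : max N Z ≤ z := by
    have h1 : ((max N Z : ℕ) : ℝ) ≤ (z : ℝ) := by linarith
    exact_mod_cast h1
  have hzN : N ≤ z := (le_max_left _ _).trans hNZ
  have hzZ : Z ≤ z := (le_max_right _ _).trans hNZ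
  have hzB : (z : ℝ) ^ B ≤ x := by
    calc (z : ℝ) ^ B ≤ (x ^ (1 / B)) ^ B :=
          Real.rpow_le_rpow (Nat.cast_nonneg z) hz1 (by linarith)
      _ = x := by
          rw [← Real.rpow_mul hx0.le, one_div_mul_cancel (by linarith), Real.rpow_one]
  have hzB' : x ≤ ((z : ℝ) + 1) ^ B := by
    calc x = (x ^ (1 / B)) ^ B := by
          rw [← Real.rpow_mul hx0.le, one_div_mul_cancel (by linarith), Real.rpow_one]
      _ ≤ ((z : ℝ) + 1) ^ B := Real.rpow_le_rpow hxB0 hz2 (by linarith)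
  obtain ⟨⟨p0, hp0, hp0d, hp0P, hgood⟩, hap, hmany, hpw1, hpw2, hpw3⟩ := hZ z hzZ
  obtain ⟨q, hq⟩ := hp0d
  have hq' : q * p0 = primorial z := by rw [mul_comm]; exact hq.symm
  have hp0big : 2000 / ε ≤ (p0 : ℝ) := (Nat.le_ceil _).trans (by exact_mod_cast hp0P)
  have hq1 : 1 ≤ q := by
    rcases Nat.eq_zero_or_pos q with h | h
    · exfalso
      rw [h, zero_mul] at hq'
      exact primorial_ne_zero z hq'.symm
    · exact h
  have hqr : (1 : ℝ) ≤ (q : ℝ) := by exact_mod_cast hq1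
  have hq0 : (0 : ℝ) < (q : ℝ) := by linarith
  -- size of q
  have hqe : (q : ℝ) ≤ Real.exp (x / 10) := by
    have hzpos : 0 < primorial z := primorial_pos z
    have h1 : (q : ℝ) ≤ primorial z := by
      exact_mod_cast Nat.le_of_dvd hzpos ⟨p0, hq'.symm⟩
    have h2 : (primorial z : ℝ) ≤ 4 ^ z := by
      exact_mod_cast primorial_le_four_pow z
    have h3 : (4 : ℝ) ^ z ≤ Real.exp (2 * z) := by
      have h4 : (4 : ℝ) ≤ Real.exp 2 := by
        have := Real.exp_one_gt_d9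
        have h5 : Real.exp 2 = Real.exp 1 * Real.exp 1 := by rw [← Real.exp_add]; norm_num
        rw [h5]; nlinarith
      calc (4 : ℝ) ^ z ≤ Real.exp 2 ^ z := pow_le_pow_left₀ (by norm_num) h4 z
        _ = Real.exp (2 * z) := by rw [← Real.exp_nat_mul, mul_comm]
    have hlogx : 2 ≤ Real.log x := by
      rw [Real.le_log_iff_exp_le hx0]
      exact hxe
    have h6 : (2 : ℝ) * z ≤ x / 10 := by
      have h7 : (z : ℝ) * 2 ≤ x ^ (1 / B) * Real.log x := by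
        apply mul_le_mul hz1 hlogx (by norm_num) hxB0
      have h8 : ε ^ 3 * x ≤ x / 10 := by
        have : ε ^ 3 ≤ 1 / 10 := by
          have h9 : ε ^ 3 ≤ (1 / 100) ^ 3 := pow_le_pow_left₀ hε.le hε1.le 3
          norm_num at h9 ⊢
          linarith
        nlinarith
      linarith
    exact h1.trans (h2.trans (h3.trans (Real.exp_le_exp.2 h6)))
  -- rows
  set k1 : ℕ := ⌊Real.exp (x - v0) / q⌋₊ with hk1
  set k2 : ℕ := ⌈Real.exp (x + v0) / q⌉₊ with hk2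
  have hfac : Real.exp (x / 10) ≤ Real.exp (x - v0) / 4 := by
    have h1 : Real.exp (x - v0) = Real.exp (x / 10) * Real.exp (x - v0 - x / 10) := by
      rw [← Real.exp_add]
      congr 1
      ring
    have h2 : (4 : ℝ) ≤ Real.exp (x - v0 - x / 10) := by
      have h3 := Real.add_one_le_exp (x - v0 - x / 10)
      linarith
    rw [h1]
    have h4 : 0 < Real.exp (x / 10) := Real.exp_pos _
    nlinarith
  have hk1q : (k1 : ℝ) * q ≤ Real.exp (x - v0) := by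
    have h1 : (k1 : ℝ) ≤ Real.exp (x - v0) / q := Nat.floor_le (by positivity)
    rw [le_div_iff₀ hq0] at h1
    exact h1
  have hk1q' : Real.exp (x - (v0 + 1)) ≤ (k1 : ℝ) * q := by
    have h1 : Real.exp (x - v0) / q ≤ (k1 : ℝ) + 1 := (Nat.lt_floor_add_one _).le
    rw [div_le_iff₀ hq0] at h1
    have h2 : Real.exp (x - v0) = Real.exp 1 * Real.exp (x - (v0 + 1)) := by
      rw [← Real.exp_add]
      congr 1
      ring
    have h3 : (2 : ℝ) ≤ Real.exp 1 := by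
      have := Real.add_one_le_exp (1 : ℝ)
      linarith
    have h4 : 0 < Real.exp (x - (v0 + 1)) := Real.exp_pos _
    nlinarith
  have hk1q0 : 0 < (k1 : ℝ) * q := lt_of_lt_of_le (Real.exp_pos _) hk1q'
  have hk2q : Real.exp (x + v0) ≤ (k2 : ℝ) * q := by
    have h1 : Real.exp (x + v0) / q ≤ (k2 : ℝ) := Nat.le_ceil _
    rw [div_le_iff₀ hq0] at h1
    exact h1
  have hk2q0 : 0 < (k2 : ℝ) * q := lt_of_lt_of_le (Real.exp_pos _) hk2q
  have hk2q' : (k2 : ℝ) * q ≤ Real.exp (x + (v0 + 1)) := by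
    have h1 : (k2 : ℝ) ≤ Real.exp (x + v0) / q + 1 := (Nat.ceil_lt_add_one (by positivity)).le
    have h2 : (k2 : ℝ) * q ≤ Real.exp (x + v0) + q := by
      calc (k2 : ℝ) * q ≤ (Real.exp (x + v0) / q + 1) * q :=
            mul_le_mul_of_nonneg_right h1 hq0.le
        _ = Real.exp (x + v0) + q := by field_simp
    have h3 : Real.exp (x + (v0 + 1)) = Real.exp 1 * Real.exp (x + v0) := by
      rw [← Real.exp_add]
      congr 1
      ring
    have h4 : (2 : ℝ) ≤ Real.exp 1 := by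
      have := Real.add_one_le_exp (1 : ℝ)
      linarith
    have h5 : Real.exp (x / 10) ≤ Real.exp (x + v0) := Real.exp_le_exp.2 (by linarith)
    have h6 : 0 < Real.exp (x + v0) := Real.exp_pos _
    nlinarith
  have hk12 : k1 ≤ k2 := by
    have h1 : (k1 : ℝ) ≤ (k2 : ℝ) := by
      have h2 : (k1 : ℝ) * q ≤ (k2 : ℝ) * q := by
        calc (k1 : ℝ) * q ≤ Real.exp (x - v0) := hk1q
          _ ≤ Real.exp (x + v0) := Real.exp_le_exp.2 (by linarith)
          _ ≤ _ := hk2q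
      exact le_of_mul_le_mul_right h2 hq0
    exact_mod_cast h1
  refine ⟨z, p0, q, k1, k2, hzN, hp0, hp0big, hq', hzB, hzB', fun lam hcols => ?_⟩
  constructor
  · exact hp0
  · exact hq'
  · refine le_trans ?_ hp0big
    rw [div_le_div_iff₀ hε hε]
    nlinarith
  · have hlogx : 0 ≤ Real.log x := Real.log_nonneg (by linarith)
    calc (z : ℝ) * Real.log x ≤ x ^ (1 / B) * Real.log x := mul_le_mul_of_nonneg_right hz1 hlogx
      _ ≤ ε ^ 3 * x := hxlog
  · exact hzB'.trans hpw2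
  · exact hk12
  · rw [Real.le_log_iff_exp_le hk1q0]
    exact hk1q'
  · rw [Real.log_le_iff_le_exp hk1q0]
    exact hk1q
  · rw [Real.le_log_iff_exp_le hk2q0]
    exact hk2q
  · rw [Real.log_le_iff_le_exp hk2q0]
    exact hk2q'
  · intro x' hx'1 hx'2 b hb
    refine hap ⌈2000 / ε⌉₊ p0 q ⟨hp0, ⟨q, hq⟩, hp0P, hgood⟩ hq' x' ?_ ?_ b hb
    · refine hpw1.trans (le_trans ?_ hx'1)
      exact mul_le_mul_of_nonneg_left hzB (by linarith)
    · exact hx'2.trans (hzB'.trans hpw3)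
  · exact hcols
  · have hg2 : GoodPrime B' (1 / 2) ⌈2000 / ε⌉₊ z p0 :=
      ⟨hp0, ⟨q, hq⟩, hp0P, fun q' _ hq'' x' h1 h2 => (hgood q' hq'' x' h1 h2).trans (by linarith)⟩
    refine fun b hb => hmany ⌈2000 / ε⌉₊ p0 q hg2 hq' x ?_ (hzB'.trans hpw3) b hb
    refine (Real.rpow_le_rpow_of_exponent_le ?_ hB'B.le).trans hzB
    have h1 : (1 : ℝ) ≤ (z : ℝ) := by
      have h2 : 2 ≤ z := hp0.two_le.trans (hp0.dvd_primorial_iff.1 ⟨q, hq⟩)
      have h3 : 1 ≤ z := by omega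
      exact_mod_cast h3
    exact h1

theorem exists_goodScale {ε lam v0 : ℝ} (hε : 0 < ε) (hε1 : ε < 1 / 100) (hv0 : 0 ≤ v0)
    (hlam : 0 < lam) :
    ∀ᶠ x : ℝ in atTop, ∃ z p0 q k1 k2 : ℕ, GoodScale ε lam v0 x z p0 q k1 k2 := by
  obtain ⟨B, hB1, hB2, hcols⟩ := cols_bound hε hε1
  obtain ⟨N, hN⟩ := eventually_atTop.1 (hcols lam hlam)
  filter_upwards [scales_core hB1 hB2 hε hε1 hv0 N] with x hx
  obtain ⟨z, p0, q, k1, k2, hzN, hp0, hp0big, hq, hzB, hzB', hG⟩ := hx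
  exact ⟨z, p0, q, k1, k2, hG lam (hN z hzN p0 q hp0 hp0big hq x hzB hzB')⟩

end Pool.Agent.LibThin21
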