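import Pool.Agent.LibThin21.Defs

/-!
ROW R0. Recursion for `cov`: condition on the class modulo one more prime `p`.

`{a p = r}`, `r < p`, are disjoint with total mass `1` (`unif`), and `a p` is independent of
`(a p')_{p' ∈ P}` (`iIndepFun.indepFun_finset` with `{p}` and `P`, composed with measurable functions), so
`cov (insert p P) V = ∑_{r < p} μ (a p = r, every v ∈ V with v ≢ r is covered by P) = ∑_r (1/p) cov P V_r`.
-/

namespace Pool.Agent.LibThin21

open Filter Topology MeasureTheory ProbabilityTheory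

variable {Ω : Type*} [MeasurableSpace Ω] {μ : Measure Ω} [IsProbabilityMeasure μ] {E : Set ℕ}
  {a : ℕ → Ω → ℕ}

lemma measurableSet_cov (hM : Model μ E a) (P V : Finset ℕ) :
    MeasurableSet {ω | ∀ v ∈ V, ∃ p ∈ P, v ≡ a p ω [MOD p]} := by
  have h : {ω | ∀ v ∈ V, ∃ p ∈ P, v ≡ a p ω [MOD p]} =
      ⋂ v ∈ V, ⋃ p ∈ P, (a p) ⁻¹' {n | v ≡ n [MOD p]} := by
    ext ω
    simp
  rw [h]
  exact Finset.measurableSet_biInter V fun v _ => Finset.measurableSet_biUnion P fun p _ =>
    (hM.meas p) (MeasurableSet.of_discrete)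

lemma cov_empty (V : Finset ℕ) : cov μ a ∅ V = if V = ∅ then 1 else 0 := by
  unfold cov
  by_cases hV : V = ∅
  · subst hV
    simp
  · rw [if_neg hV]
    obtain ⟨v, hv⟩ := Finset.nonempty_iff_ne_empty.2 hV
    have : {ω | ∀ v ∈ V, ∃ p ∈ (∅ : Finset ℕ), v ≡ a p ω [MOD p]} = (∅ : Set Ω) := by
      refine Set.eq_empty_iff_forall_notMem.2 fun ω hω => ?_
      obtain ⟨p, hp, _⟩ := hω v hv
      exact absurd hp (Finset.notMem_empty p)
    rw [this, measureReal_empty]

theorem cov_insert (hM : Model μ E a) {P V : Finset ℕ} {p : ℕ} (hp : p.Prime) (hpE : p ∈ E)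
    (hpP : p ∉ P) :
    cov μ a (insert p P) V =
      (1 / (p : ℝ)) * ∑ r ∈ Finset.range p, cov μ a P (V.filter (fun v => ¬ v ≡ r [MOD p])) := by
  classical
  unfold cov
  set A : Set Ω := {ω | ∀ v ∈ V, ∃ p' ∈ insert p P, v ≡ a p' ω [MOD p']} with hA
  have hAm : MeasurableSet A := measurableSet_cov hM _ _
  set B : ℕ → Set Ω := fun r => {ω | ∀ v ∈ V.filter (fun v => ¬ v ≡ r [MOD p]),
    ∃ p' ∈ P, v ≡ a p' ω [MOD p']} with hB
  set C : ℕ → Set Ω := fun r => {ω | a p ω = r} with hC
  have hCm : ∀ r, MeasurableSet (C r) := fun r => (hM.meas p) (measurableSet_singleton r)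
  have hp0 : (0 : ℝ) < p := by exact_mod_cast hp.pos
  have hCr : ∀ r ∈ Finset.range p, μ.real (C r) = 1 / (p : ℝ) := by
    intro r hr
    rw [measureReal_def, hC]
    change (μ {ω | a p ω = r}).toReal = _
    rw [hM.unif p hp hpE r (Finset.mem_range.1 hr)]
    simp
  have hCd : Set.PairwiseDisjoint (↑(Finset.range p)) C := by
    intro i _ j _ hij
    refine Set.disjoint_left.2 fun ω h1 h2 => hij ?_
    exact (show a p ω = i from h1).symm.trans (show a p ω = j from h2)
  set D : Set Ω := ⋃ r ∈ Finset.range p, C r with hD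
  have hDm : MeasurableSet D := Finset.measurableSet_biUnion _ fun r _ => hCm r
  have hD1 : μ.real D = 1 := by
    rw [hD, measureReal_biUnion_finset hCd (fun r _ => hCm r), Finset.sum_congr rfl hCr,
      Finset.sum_const, Finset.card_range, nsmul_eq_mul]
    field_simp
  have hDc : μ.real (A \ D) = 0 := by
    have h1 : μ.real (A \ D) ≤ μ.real Dᶜ := measureReal_mono (fun ω hω => hω.2)
    have h2 : μ.real Dᶜ = 0 := by
      rw [probReal_compl_eq_one_sub hDm, hD1, sub_self]
    exact le_antisymm (h1.trans h2.le) measureReal_nonneg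
  have hAD : μ.real A = μ.real (A ∩ D) := by
    have := measureReal_inter_add_sdiff (μ := μ) (s := A) (t := D) hDm
    rw [hDc, add_zero] at this
    exact this.symm
  have hAD2 : A ∩ D = ⋃ r ∈ Finset.range p, (A ∩ C r) := by
    rw [hD, Set.inter_iUnion₂]
  have hACd : Set.PairwiseDisjoint (↑(Finset.range p)) (fun r => A ∩ C r) := by
    intro i hi j hj hij
    exact (hCd hi hj hij).mono Set.inter_subset_right Set.inter_subset_right
  have h1 : ∀ r, A ∩ C r = B r ∩ C r := by
    intro r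
    ext ω
    constructor
    · rintro ⟨h1, h2⟩
      refine ⟨?_, h2⟩
      intro v hv
      rw [Finset.mem_filter] at hv
      obtain ⟨p', hp', hv'⟩ := h1 v hv.1
      rw [Finset.mem_insert] at hp'
      rcases hp' with rfl | hp'
      · exact absurd ((show a p' ω = r from h2) ▸ hv') hv.2
      · exact ⟨p', hp', hv'⟩
    · rintro ⟨h1, h2⟩
      refine ⟨?_, h2⟩
      intro v hv
      by_cases hvr : v ≡ r [MOD p]
      · exact ⟨p, Finset.mem_insert_self _ _, by rw [show a p ω = r from h2]; exact hvr⟩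
      · obtain ⟨p', hp', hv'⟩ := h1 v (Finset.mem_filter.2 ⟨hv, hvr⟩)
        exact ⟨p', Finset.mem_insert_of_mem hp', hv'⟩
  have hind := hM.indep.indepFun_finset {p} P (by simpa using hpP) (fun i => hM.meas i)
  have h2 : ∀ r ∈ Finset.range p, μ.real (A ∩ C r) = 1 / (p : ℝ) * μ.real (B r) := by
    intro r hr
    rw [h1 r]
    have e1 : C r = (fun ω (i : ({p} : Finset ℕ)) => a i ω) ⁻¹'
        {f | f ⟨p, Finset.mem_singleton_self p⟩ = r} := by
      ext ω
      rfl
    have e2 : B r = (fun ω (i : P) => a i ω) ⁻¹'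
        {f | ∀ v ∈ V.filter (fun v => ¬ v ≡ r [MOD p]), ∃ i : P, v ≡ f i [MOD (i : ℕ)]} := by
      ext ω
      constructor
      · intro h v hv
        obtain ⟨p', hp', hv'⟩ := h v hv
        exact ⟨⟨p', hp'⟩, hv'⟩
      · intro h v hv
        obtain ⟨⟨p', hp'⟩, hv'⟩ := h v hv
        exact ⟨p', hp', hv'⟩
    have e3 := hind.measure_inter_preimage_eq_mul
      {f | f ⟨p, Finset.mem_singleton_self p⟩ = r}
      {f | ∀ v ∈ V.filter (fun v => ¬ v ≡ r [MOD p]), ∃ i : P, v ≡ f i [MOD (i : ℕ)]}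
      (Set.to_countable _).measurableSet (Set.to_countable _).measurableSet
    rw [← e1, ← e2] at e3
    rw [Set.inter_comm, measureReal_def, e3, ENNReal.toReal_mul, ← measureReal_def, ← measureReal_def,
      hCr r hr]
  rw [hAD, hAD2, measureReal_biUnion_finset hACd (fun r _ => hAm.inter (hCm r)),
    Finset.sum_congr rfl h2, ← Finset.mul_sum]

end Pool.Agent.LibThin21
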