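import Pool.Agent.LibThin21.R0

/-!
ROW R1. One window: all elements of `V` are distinct modulo every `p ∈ P` and `#V ≤ p`.

Let `n = #V`, `Q = ∏ (1 - 1/p)`, `σ = ∑ 1/p²`. Induction on `P` (all `V`), by `cov_insert`: exactly `n` classes `r < p`
meet `V`, each in one element, so `cov (insert p P) V = (1 - n/p) cov P V + (1/p) ∑_{v ∈ V} cov P (V \ {v})`.
Put `β = 1/p`, `y = 1 - Q(P)`, `y' = 1 - Q(insert p P) = y + β (1 - y)`.
Upper: `(1 - nβ) y^n + nβ y^(n-1) = y^n + n β (1 - y) y^(n-1) ≤ y'^n` (Bernoulli).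
Lower: `(1 - nβ) y^n + nβ y^(n-1) ≥ y'^n - C(n,2) β² y'^(n-2)` (binomial expansion of `(y + β(1-y))^n`,
`C(n,j) ≤ C(n,2) C(n-2,j-2)`), and
`C(n,2) σ ((1 - nβ) y^(n-2) + (n-2) β y^(n-3)) ≤ C(n,2) σ y'^(n-2)` because
`y'^(n-2) ≥ y^(n-2) + (n-2) β (1-y) y^(n-3)`.
-/

namespace Pool.Agent.LibThin21

open Filter Topology MeasureTheory ProbabilityTheory

variable {Ω : Type*} [MeasurableSpace Ω] {μ : Measure Ω} [IsProbabilityMeasure μ] {E : Set ℕ}
  {a : ℕ → Ω → ℕ}

lemma R1_step (hM : Model μ E a) {P V : Finset ℕ} {p : ℕ} (hp : p.Prime) (hpE : p ∈ E)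
    (hpP : p ∉ P) (hcard : V.card ≤ p)
    (hdist : ∀ v ∈ V, ∀ w ∈ V, v ≡ w [MOD p] → v = w) :
    cov μ a (insert p P) V = (1 - (V.card : ℝ) / (p : ℝ)) * cov μ a P V
      + (1 / (p : ℝ)) * ∑ v ∈ V, cov μ a P (V.erase v) := by
  classical
  have hp0 : (0 : ℝ) < p := by exact_mod_cast hp.pos
  rw [cov_insert hM hp hpE hpP]
  set f : ℕ → ℝ := fun r => cov μ a P (V.filter (fun v => ¬ v ≡ r [MOD p])) with hf
  have hinj : Set.InjOn (fun v => v % p) (V : Set ℕ) := by
    intro v hv w hw h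
    exact hdist v hv w hw h
  set I : Finset ℕ := V.image (fun v => v % p) with hI
  have hIsub : I ⊆ Finset.range p := by
    intro r hr
    obtain ⟨v, _, rfl⟩ := Finset.mem_image.1 hr
    exact Finset.mem_range.2 (Nat.mod_lt _ hp.pos)
  have hIcard : I.card = V.card := Finset.card_image_of_injOn hinj
  have h1 : ∑ r ∈ I, f r = ∑ v ∈ V, cov μ a P (V.erase v) := by
    rw [hI, Finset.sum_image (fun v hv w hw h => hinj hv hw h)]
    apply Finset.sum_congr rfl
    intro v hv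
    simp only [hf]
    congr 1
    ext w
    rw [Finset.mem_filter, Finset.mem_erase]
    constructor
    · rintro ⟨hw, h⟩
      refine ⟨?_, hw⟩
      rintro rfl
      exact h (Nat.mod_modEq w p).symm
    · rintro ⟨hne, hw⟩
      refine ⟨hw, fun h => hne ?_⟩
      exact hdist w hw v hv (h.trans (Nat.mod_modEq v p))
  have h2 : ∀ r ∈ Finset.range p \ I, f r = cov μ a P V := by
    intro r hr
    rw [Finset.mem_sdiff, Finset.mem_range] at hr
    simp only [hf]
    congr 1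
    rw [Finset.filter_eq_self]
    intro v hv h
    apply hr.2
    rw [hI, Finset.mem_image]
    refine ⟨v, hv, ?_⟩
    have h3 : v % p = r % p := h
    rw [h3, Nat.mod_eq_of_lt hr.1]
  have h3 : ∑ r ∈ Finset.range p, f r
      = ((p : ℝ) - V.card) * cov μ a P V + ∑ v ∈ V, cov μ a P (V.erase v) := by
    rw [← Finset.sum_sdiff hIsub, Finset.sum_congr rfl h2, h1, Finset.sum_const,
      Finset.card_sdiff_of_subset hIsub, Finset.card_range, hIcard, nsmul_eq_mul,
      Nat.cast_sub hcard]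
  change 1 / (p : ℝ) * ∑ r ∈ Finset.range p, f r = _
  rw [h3]
  field_simp

lemma R1_bern {y t : ℝ} (hy : 0 ≤ y) (ht : 0 ≤ t) (n : ℕ) :
    y ^ n + n * t * y ^ (n - 1) ≤ (y + t) ^ n := by
  induction n with
  | zero => simp
  | succ n ih =>
    have h1 : (0 : ℝ) ≤ (y + t) := by linarith
    have h2 : (y + t) * (y ^ n + n * t * y ^ (n - 1)) ≤ (y + t) * (y + t) ^ n :=
      mul_le_mul_of_nonneg_left ih h1
    rw [pow_succ' (y + t) n]
    refine le_trans ?_ h2
    rcases Nat.eq_zero_or_pos n with h0 | h0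
    · subst h0; simp
    · obtain ⟨m, rfl⟩ := Nat.exists_eq_succ_of_ne_zero h0.ne'
      simp only [Nat.succ_eq_add_one, Nat.add_sub_cancel]
      have h3 : 0 ≤ ((m : ℝ) + 1) * t * t * y ^ m := by positivity
      push_cast
      have e : (y + t) * (y ^ (m + 1) + ((m : ℝ) + 1) * t * y ^ m)
          = y ^ (m + 1 + 1) + ((m : ℝ) + 1 + 1) * t * y ^ (m + 1)
            + ((m : ℝ) + 1) * t * t * y ^ m := by ring
      rw [e]
      linarith

lemma R1_taylor {y t : ℝ} (hy : 0 ≤ y) (ht : 0 ≤ t) (n : ℕ) :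
    (y + t) ^ n ≤ y ^ n + n * t * y ^ (n - 1) + (n.choose 2 : ℝ) * t ^ 2 * (y + t) ^ (n - 2) := by
  induction n with
  | zero => simp
  | succ n ih =>
    rcases Nat.lt_or_ge n 2 with h0 | h0
    · interval_cases n
      · simp
      · simp only [Nat.reduceAdd, Nat.choose_self, Nat.cast_one, one_mul, Nat.sub_self, pow_zero,
          mul_one]
        norm_num
        nlinarith
    · obtain ⟨m, rfl⟩ := Nat.exists_eq_add_of_le h0
      have e1 : 2 + m - 1 = m + 1 := by omega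
      have e2 : 2 + m - 2 = m := by omega
      have e3 : 2 + m + 1 - 1 = m + 2 := by omega
      have e4 : 2 + m + 1 - 2 = m + 1 := by omega
      rw [e1, e2] at ih
      rw [e3, e4]
      have h1 : (0 : ℝ) ≤ y + t := by linarith
      have h2 := mul_le_mul_of_nonneg_left ih h1
      have h3 : y ^ (m + 1) ≤ (y + t) ^ (m + 1) := pow_le_pow_left₀ hy (by linarith) _
      have h4 : (((2 + m + 1).choose 2 : ℕ) : ℝ) = ((2 + m).choose 2 : ℕ) + ((2 + m : ℕ) : ℝ) := by
        rw [Nat.choose_succ_succ' (2 + m) 1, Nat.choose_one_right]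
        push_cast; ring
      rw [h4]
      have h5 : (y + t) ^ (2 + m + 1) = (y + t) * (y + t) ^ (2 + m) := by ring
      rw [h5]
      refine le_trans h2 ?_
      have h6 : 0 ≤ ((2 + m : ℕ) : ℝ) * t ^ 2 := by positivity
      have h7 := mul_le_mul_of_nonneg_left h3 h6
      have e : (y + t) * (y ^ (2 + m) + ((2 + m : ℕ) : ℝ) * t * y ^ (m + 1)
          + ((2 + m).choose 2 : ℕ) * t ^ 2 * (y + t) ^ m)
          = y ^ (2 + m + 1) + (((2 + m : ℕ) : ℝ) + 1) * t * y ^ (m + 2)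
            + ((2 + m).choose 2 : ℕ) * t ^ 2 * (y + t) ^ (m + 1)
            + ((2 + m : ℕ) : ℝ) * t ^ 2 * y ^ (m + 1) := by ring
      rw [e]
      have h8 : ((2 + m + 1 : ℕ) : ℝ) = ((2 + m : ℕ) : ℝ) + 1 := by push_cast; ring
      rw [h8]
      linarith

lemma R1_Q {P : Finset ℕ} (hP : ∀ p ∈ P, p.Prime) :
    0 ≤ ∏ p ∈ P, (1 - 1 / (p : ℝ)) ∧ ∏ p ∈ P, (1 - 1 / (p : ℝ)) ≤ 1 := by
  have h : ∀ p ∈ P, 0 ≤ 1 - 1 / (p : ℝ) ∧ 1 - 1 / (p : ℝ) ≤ 1 := by
    intro p hp
    have h1 : (1 : ℝ) ≤ p := by exact_mod_cast (hP p hp).one_lt.le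
    have h2 : 1 / (p : ℝ) ≤ 1 := by
      rw [div_le_one (by linarith)]; exact h1
    have h3 : 0 ≤ 1 / (p : ℝ) := by positivity
    exact ⟨by linarith, by linarith⟩
  exact ⟨Finset.prod_nonneg (fun p hp => (h p hp).1),
    Finset.prod_le_one (fun p hp => (h p hp).1) (fun p hp => (h p hp).2)⟩

lemma R1_sub {P V : Finset ℕ} {p v : ℕ}
    (hV : ∀ q ∈ insert p P, V.card ≤ q ∧ ∀ v ∈ V, ∀ w ∈ V, v ≡ w [MOD q] → v = w) :
    ∀ q ∈ P, (V.erase v).card ≤ q ∧ ∀ u ∈ V.erase v, ∀ w ∈ V.erase v, u ≡ w [MOD q] → u = w := by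
  intro q hq
  have h := hV q (Finset.mem_insert_of_mem hq)
  refine ⟨le_trans (Finset.card_le_card (Finset.erase_subset _ _)) h.1, ?_⟩
  intro u hu w hw huw
  exact h.2 u (Finset.mem_of_mem_erase hu) w (Finset.mem_of_mem_erase hw) huw

theorem cov_le (hM : Model μ E a) {P V : Finset ℕ} (hP : ∀ p ∈ P, p.Prime ∧ p ∈ E)
    (hV : ∀ p ∈ P, V.card ≤ p ∧ ∀ v ∈ V, ∀ w ∈ V, v ≡ w [MOD p] → v = w) :
    cov μ a P V ≤ (1 - ∏ p ∈ P, (1 - 1 / (p : ℝ))) ^ V.card := by
  classical
  induction P using Finset.induction_on generalizing V with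
  | empty =>
    rw [cov_empty]
    by_cases h : V = ∅
    · simp [h]
    · simp [h]
  | insert p P hpP ih =>
    have hp := (hP p (Finset.mem_insert_self _ _)).1
    have hP' : ∀ q ∈ P, q.Prime ∧ q ∈ E := fun q hq => hP q (Finset.mem_insert_of_mem hq)
    have hVp := hV p (Finset.mem_insert_self _ _)
    obtain ⟨hQ0, hQ1⟩ := R1_Q (fun q hq => (hP' q hq).1)
    rw [R1_step hM hp (hP p (Finset.mem_insert_self _ _)).2 hpP hVp.1 hVp.2,
      Finset.prod_insert hpP]
    set y : ℝ := 1 - ∏ q ∈ P, (1 - 1 / (q : ℝ)) with hy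
    set n := V.card with hn
    have hp0 : (0 : ℝ) < p := by exact_mod_cast hp.pos
    have hy0 : 0 ≤ y := by linarith
    have hy1 : y ≤ 1 := by linarith
    have hβ : 0 ≤ 1 / (p : ℝ) := by positivity
    have hnβ : 0 ≤ 1 - (n : ℝ) / p := by
      have : (n : ℝ) / p ≤ 1 := by
        rw [div_le_one hp0]; exact_mod_cast hVp.1
      linarith
    have e1 : 1 - (1 - 1 / (p : ℝ)) * ∏ q ∈ P, (1 - 1 / (q : ℝ)) = y + 1 / (p : ℝ) * (1 - y) := by
      rw [hy]; ring
    rw [e1]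
    have h1 : cov μ a P V ≤ y ^ n := ih hP' (fun q hq => hV q (Finset.mem_insert_of_mem hq))
    have h2 : ∑ v ∈ V, cov μ a P (V.erase v) ≤ n * y ^ (n - 1) := by
      have h3 : ∀ v ∈ V, cov μ a P (V.erase v) ≤ y ^ (n - 1) := by
        intro v hv
        have h4 := ih hP' (R1_sub (v := v) hV)
        rw [Finset.card_erase_of_mem hv] at h4
        exact h4
      have h5 := Finset.sum_le_card_nsmul V _ _ h3
      rw [nsmul_eq_mul] at h5
      exact h5
    have h3 := R1_bern hy0 (mul_nonneg hβ (by linarith : (0 : ℝ) ≤ 1 - y)) n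
    refine le_trans ?_ h3
    have h4 := mul_le_mul_of_nonneg_left h1 hnβ
    have h5 := mul_le_mul_of_nonneg_left h2 hβ
    refine le_trans (add_le_add h4 h5) (le_of_eq ?_)
    rcases Nat.eq_zero_or_pos n with h0 | h0
    · rw [h0]; simp
    · obtain ⟨m, hm⟩ := Nat.exists_eq_succ_of_ne_zero h0.ne'
      rw [hm]
      simp only [Nat.succ_eq_add_one, Nat.add_sub_cancel]
      push_cast
      field_simp
      ring

theorem le_cov (hM : Model μ E a) {P V : Finset ℕ} (hP : ∀ p ∈ P, p.Prime ∧ p ∈ E)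
    (hV : ∀ p ∈ P, V.card ≤ p ∧ ∀ v ∈ V, ∀ w ∈ V, v ≡ w [MOD p] → v = w) :
    (1 - ∏ p ∈ P, (1 - 1 / (p : ℝ))) ^ V.card -
        (V.card.choose 2 : ℝ) * (∑ p ∈ P, 1 / (p : ℝ) ^ 2) *
          (1 - ∏ p ∈ P, (1 - 1 / (p : ℝ))) ^ (V.card - 2) ≤ cov μ a P V := by
  classical
  induction P using Finset.induction_on generalizing V with
  | empty =>
    rw [cov_empty]
    by_cases h : V = ∅
    · simp [h]
    · simp [h]
  | insert p P hpP ih =>
    have hp := (hP p (Finset.mem_insert_self _ _)).1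
    have hP' : ∀ q ∈ P, q.Prime ∧ q ∈ E := fun q hq => hP q (Finset.mem_insert_of_mem hq)
    have hVp := hV p (Finset.mem_insert_self _ _)
    obtain ⟨hQ0, hQ1⟩ := R1_Q (fun q hq => (hP' q hq).1)
    rw [R1_step hM hp (hP p (Finset.mem_insert_self _ _)).2 hpP hVp.1 hVp.2,
      Finset.prod_insert hpP, Finset.sum_insert hpP]
    set y : ℝ := 1 - ∏ q ∈ P, (1 - 1 / (q : ℝ)) with hy
    set σ : ℝ := ∑ q ∈ P, 1 / (q : ℝ) ^ 2 with hσ
    set n := V.card with hn
    have hp0 : (0 : ℝ) < p := by exact_mod_cast hp.pos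
    have hy0 : 0 ≤ y := by linarith
    have hy1 : y ≤ 1 := by linarith
    have hσ0 : 0 ≤ σ := Finset.sum_nonneg (fun q _ => by positivity)
    have hβ : 0 ≤ 1 / (p : ℝ) := by positivity
    have hnβ : 0 ≤ 1 - (n : ℝ) / p := by
      have : (n : ℝ) / p ≤ 1 := by
        rw [div_le_one hp0]; exact_mod_cast hVp.1
      linarith
    have e1 : 1 - (1 - 1 / (p : ℝ)) * ∏ q ∈ P, (1 - 1 / (q : ℝ)) = y + 1 / (p : ℝ) * (1 - y) := by
      rw [hy]; ring
    rw [e1]
    set t : ℝ := 1 / (p : ℝ) * (1 - y) with ht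
    have ht0 : 0 ≤ t := mul_nonneg hβ (by linarith)
    have ht1 : t ≤ 1 / (p : ℝ) := by
      rw [ht]
      calc 1 / (p : ℝ) * (1 - y) ≤ 1 / (p : ℝ) * 1 :=
            mul_le_mul_of_nonneg_left (by linarith) hβ
        _ = _ := mul_one _
    have h1 : y ^ n - (n.choose 2 : ℝ) * σ * y ^ (n - 2) ≤ cov μ a P V :=
      ih hP' (fun q hq => hV q (Finset.mem_insert_of_mem hq))
    have h2 : (n : ℝ) * (y ^ (n - 1) - ((n - 1).choose 2 : ℝ) * σ * y ^ (n - 1 - 2))
        ≤ ∑ v ∈ V, cov μ a P (V.erase v) := by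
      have h3 : ∀ v ∈ V, y ^ (n - 1) - ((n - 1).choose 2 : ℝ) * σ * y ^ (n - 1 - 2)
          ≤ cov μ a P (V.erase v) := by
        intro v hv
        have h4 := ih hP' (R1_sub (v := v) hV)
        rw [Finset.card_erase_of_mem hv] at h4
        exact h4
      have h5 := Finset.card_nsmul_le_sum V _ _ h3
      rw [nsmul_eq_mul] at h5
      exact h5
    have h4 := mul_le_mul_of_nonneg_left h1 hnβ
    have h5 := mul_le_mul_of_nonneg_left h2 hβ
    refine le_trans ?_ (add_le_add h4 h5)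
    -- main part
    have hA : (y + t) ^ n - (n.choose 2 : ℝ) * (1 / (p : ℝ) ^ 2) * (y + t) ^ (n - 2)
        ≤ (1 - (n : ℝ) / p) * y ^ n + 1 / (p : ℝ) * (n * y ^ (n - 1)) := by
      have h6 := R1_taylor hy0 ht0 n
      have h7 : t ^ 2 ≤ 1 / (p : ℝ) ^ 2 := by
        have := pow_le_pow_left₀ ht0 ht1 2
        rw [div_pow, one_pow] at this
        exact this
      have h8 : (n.choose 2 : ℝ) * t ^ 2 * (y + t) ^ (n - 2)
          ≤ (n.choose 2 : ℝ) * (1 / (p : ℝ) ^ 2) * (y + t) ^ (n - 2) := by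
        apply mul_le_mul_of_nonneg_right _ (pow_nonneg (by linarith) _)
        exact mul_le_mul_of_nonneg_left h7 (Nat.cast_nonneg _)
      have h9 : (1 - (n : ℝ) / p) * y ^ n + 1 / (p : ℝ) * (n * y ^ (n - 1))
          = y ^ n + n * t * y ^ (n - 1) := by
        rcases Nat.eq_zero_or_pos n with h0 | h0
        · rw [h0]; simp
        · obtain ⟨m, hm⟩ := Nat.exists_eq_succ_of_ne_zero h0.ne'
          rw [hm, ht]
          simp only [Nat.succ_eq_add_one, Nat.add_sub_cancel]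
          push_cast
          field_simp
          ring
      rw [h9]
      linarith
    -- error part
    have hB : (1 - (n : ℝ) / p) * ((n.choose 2 : ℝ) * σ * y ^ (n - 2))
        + 1 / (p : ℝ) * (n * (((n - 1).choose 2 : ℝ) * σ * y ^ (n - 1 - 2)))
        ≤ (n.choose 2 : ℝ) * σ * (y + t) ^ (n - 2) := by
      rcases Nat.lt_or_ge n 3 with h0 | h0
      · have hc : ((n - 1).choose 2 : ℝ) = 0 := by
          have : (n - 1).choose 2 = 0 := Nat.choose_eq_zero_of_lt (by omega)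
          rw [this]; simp
        rw [hc]
        have e : n - 2 = 0 := by omega
        rw [e]
        simp only [pow_zero, mul_one, zero_mul, mul_zero, add_zero]
        have h6 : 0 ≤ (n.choose 2 : ℝ) * σ := mul_nonneg (Nat.cast_nonneg _) hσ0
        have h7 : (1 - (n : ℝ) / p) ≤ 1 := by
          have : 0 ≤ (n : ℝ) / p := by positivity
          linarith
        nlinarith
      · obtain ⟨m, hm⟩ := Nat.exists_eq_add_of_le h0
        have hb := R1_bern hy0 ht0 (n - 2)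
        have ea : n - 2 = m + 1 := by omega
        have eb : n - 1 - 2 = m := by omega
        have ec : m + 1 - 1 = m := by omega
        rw [ea, ec] at hb
        rw [ea, eb]
        have hch : (n : ℝ) * ((n - 1).choose 2 : ℝ) = (n.choose 2 : ℝ) * ((m : ℝ) + 1) := by
          have h6 : n * (n - 1).choose 2 = n.choose 2 * (m + 1) := by
            have h7 := Nat.add_one_mul_choose_eq (n - 1) 2
            have h8 := Nat.choose_succ_right_eq n 2
            have e5 : n - 1 + 1 = n := by omega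
            rw [e5] at h7
            have e6 : n - 2 = m + 1 := by omega
            rw [e6] at h8
            rw [h7, h8]
          exact_mod_cast h6
        have hC : 0 ≤ (n.choose 2 : ℝ) * σ := mul_nonneg (Nat.cast_nonneg _) hσ0
        have e8 : (1 - (n : ℝ) / p) * ((n.choose 2 : ℝ) * σ * y ^ (m + 1))
            + 1 / (p : ℝ) * (n * (((n - 1).choose 2 : ℝ) * σ * y ^ m))
            = ((n.choose 2 : ℝ) * σ) * ((1 - (n : ℝ) / p) * y ^ (m + 1)
              + 1 / (p : ℝ) * (((m : ℝ) + 1) * y ^ m)) := by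
          have : 1 / (p : ℝ) * (n * (((n - 1).choose 2 : ℝ) * σ * y ^ m))
              = 1 / (p : ℝ) * ((n * ((n - 1).choose 2 : ℝ)) * σ * y ^ m) := by ring
          rw [this, hch]
          ring
        rw [e8]
        apply mul_le_mul_of_nonneg_left _ hC
        refine le_trans ?_ hb
        have hnm : (n : ℝ) = 3 + m := by rw [hm]; push_cast; ring
        have h9 : (y ^ (m + 1) + ((m + 1 : ℕ) : ℝ) * t * y ^ m)
            - ((1 - (n : ℝ) / p) * y ^ (m + 1) + 1 / (p : ℝ) * (((m : ℝ) + 1) * y ^ m))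
            = 2 * (1 / (p : ℝ)) * y ^ (m + 1) := by
          rw [hnm, ht]
          push_cast
          field_simp
          ring
        have h10 : 0 ≤ 2 * (1 / (p : ℝ)) * y ^ (m + 1) := by positivity
        linarith
    have e9 : (n.choose 2 : ℝ) * (1 / (p : ℝ) ^ 2 + σ) * (y + t) ^ (n - 2)
        = (n.choose 2 : ℝ) * (1 / (p : ℝ) ^ 2) * (y + t) ^ (n - 2)
          + (n.choose 2 : ℝ) * σ * (y + t) ^ (n - 2) := by ring
    rw [e9]
    have e10 : (1 - (n : ℝ) / p) * (y ^ n - (n.choose 2 : ℝ) * σ * y ^ (n - 2))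
        + 1 / (p : ℝ) * ((n : ℝ) * (y ^ (n - 1)
          - ((n - 1).choose 2 : ℝ) * σ * y ^ (n - 1 - 2)))
        = ((1 - (n : ℝ) / p) * y ^ n + 1 / (p : ℝ) * (n * y ^ (n - 1)))
          - ((1 - (n : ℝ) / p) * ((n.choose 2 : ℝ) * σ * y ^ (n - 2))
            + 1 / (p : ℝ) * (n * (((n - 1).choose 2 : ℝ) * σ * y ^ (n - 1 - 2)))) := by ring
    rw [e10]
    linarith

end Pool.Agent.LibThin21
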