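import Pool.Agent.LibThin21.R1

/-!
ROW R2. Two windows: `V` is distinct modulo the primes of `P0`, and modulo a prime of `P1` (few
exceptional primes) every class contains at most two elements of `V`.

Induction on `P1`: `cov_le` for `P1 = ∅`; step: `cov (insert p P) V = (1/p) ∑_r cov P V_r`, at most `#V` classes meet
`V`, `#V_r ≥ #V - 2`, so with `y = 1 - Q(P0) ∈ (0, 1]` the sum is
`≤ y^#V * (1 + #V / (p y²)) * (product for P1)`. State the induction hypothesis for all subsets of `V`.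
-/

namespace Pool.Agent.LibThin21

open Filter Topology MeasureTheory ProbabilityTheory

variable {Ω : Type*} [MeasurableSpace Ω] {μ : Measure Ω} [IsProbabilityMeasure μ] {E : Set ℕ}
  {a : ℕ → Ω → ℕ}

/-- the elements of `V` are distributed to the classes modulo `p` -/
private lemma r2_sum_classes (V : Finset ℕ) {p : ℕ} (hp : 0 < p) :
    ∑ r ∈ Finset.range p, (V.filter (fun v => v ≡ r [MOD p])).card = V.card := by
  classical
  have h := Finset.card_eq_sum_card_fiberwise (f := fun v => v % p) (s := V)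
    (t := Finset.range p) (by
      intro v _
      simp only [Finset.coe_range, Set.mem_Iio]
      exact Nat.mod_lt _ hp)
  rw [h]
  apply Finset.sum_congr rfl
  intro r hr
  have hr' : r < p := Finset.mem_range.1 hr
  congr 1
  apply Finset.filter_congr
  intro v _
  unfold Nat.ModEq
  rw [Nat.mod_eq_of_lt hr']

/-- one class: removing at most two points costs a factor at most `1 + m / y²` -/
private lemma r2_pow {y : ℝ} (hy0 : 0 < y) (hy1 : y ≤ 1) {n m k : ℕ} (hk : k + m = n) (hm : m ≤ 2) :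
    y ^ k ≤ y ^ n * (1 + (m : ℝ) / y ^ 2) := by
  have hy2 : 0 < y ^ 2 := by positivity
  have hkn : y ^ n = y ^ k * y ^ m := by rw [← hk, pow_add]
  rw [hkn, mul_assoc]
  have h1 : 1 ≤ y ^ m * (1 + (m : ℝ) / y ^ 2) := by
    interval_cases m
    · simp
    · have h3 : 1 ≤ y * (1 / y ^ 2) := by
        rw [mul_one_div, le_div_iff₀ hy2]; nlinarith
      have h4 : y ^ 1 * (1 + ((1 : ℕ) : ℝ) / y ^ 2) = y + y * (1 / y ^ 2) := by
        push_cast; ring
      rw [h4]; linarith
    · have h4 : y ^ 2 * (1 + ((2 : ℕ) : ℝ) / y ^ 2) = y ^ 2 + 2 := by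
        push_cast; field_simp
      rw [h4]; linarith
  have h2 : 0 < y ^ k := by positivity
  nlinarith

theorem cov_two_le (hM : Model μ E a) {P0 P1 V : Finset ℕ} (hdisj : Disjoint P0 P1)
    (hP0 : ∀ p ∈ P0, p.Prime ∧ p ∈ E) (hP1 : ∀ p ∈ P1, p.Prime ∧ p ∈ E)
    (hV0 : ∀ p ∈ P0, V.card ≤ p ∧ ∀ v ∈ V, ∀ w ∈ V, v ≡ w [MOD p] → v = w)
    (hV1 : ∀ p ∈ P1, ∀ r : ℕ, (V.filter (fun v => v ≡ r [MOD p])).card ≤ 2)
    {y : ℝ} (hy : y = 1 - ∏ p ∈ P0, (1 - 1 / (p : ℝ))) (hy0 : 0 < y) :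
    cov μ a (P0 ∪ P1) V ≤ y ^ V.card * ∏ p ∈ P1, (1 + (V.card : ℝ) / (p * y ^ 2)) := by
  classical
  have hprod : 0 ≤ ∏ p ∈ P0, (1 - 1 / (p : ℝ)) := Finset.prod_nonneg (fun p hp => by
    have h1 : (1 : ℝ) ≤ p := by exact_mod_cast (hP0 p hp).1.one_le
    rw [sub_nonneg, div_le_one (by linarith)]; exact h1)
  have hy1 : y ≤ 1 := by linarith
  have hy2 : 0 < y ^ 2 := by positivity
  suffices H : ∀ P1 : Finset ℕ, Disjoint P0 P1 → (∀ p ∈ P1, p.Prime ∧ p ∈ E) →
      ∀ V : Finset ℕ, (∀ p ∈ P0, V.card ≤ p ∧ ∀ v ∈ V, ∀ w ∈ V, v ≡ w [MOD p] → v = w) →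
        (∀ p ∈ P1, ∀ r : ℕ, (V.filter (fun v => v ≡ r [MOD p])).card ≤ 2) →
          cov μ a (P0 ∪ P1) V ≤ y ^ V.card * ∏ p ∈ P1, (1 + (V.card : ℝ) / (p * y ^ 2)) from
    H P1 hdisj hP1 V hV0 hV1
  intro P1
  induction P1 using Finset.induction_on with
  | empty =>
    intro _ _ V hV0 _
    rw [Finset.union_empty, Finset.prod_empty, mul_one, hy]
    exact cov_le hM hP0 hV0
  | insert p P1 hpP1 ih =>
    intro hdisj hP1 V hV0 hV1
    have hpp : p.Prime := (hP1 p (Finset.mem_insert_self _ _)).1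
    have hpE : p ∈ E := (hP1 p (Finset.mem_insert_self _ _)).2
    have hp0 : p ∉ P0 := fun h => (Finset.disjoint_left.1 hdisj h) (Finset.mem_insert_self _ _)
    have hpU : p ∉ P0 ∪ P1 := by
      rw [Finset.mem_union]; push Not; exact ⟨hp0, hpP1⟩
    have hd' : Disjoint P0 P1 := hdisj.mono_right (Finset.subset_insert _ _)
    have hP1' : ∀ p ∈ P1, p.Prime ∧ p ∈ E := fun q hq => hP1 q (Finset.mem_insert_of_mem hq)
    have hpR : (0 : ℝ) < p := by exact_mod_cast hpp.pos
    set Pi : ℝ := ∏ p ∈ P1, (1 + (V.card : ℝ) / (p * y ^ 2)) with hPi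
    have hPi0 : 0 ≤ Pi := Finset.prod_nonneg (fun q hq => by positivity)
    have hun : P0 ∪ insert p P1 = insert p (P0 ∪ P1) := by
      rw [Finset.union_insert]
    rw [hun, cov_insert hM hpp hpE hpU, Finset.prod_insert hpP1]
    have hterm : ∀ r ∈ Finset.range p, cov μ a (P0 ∪ P1) (V.filter (fun v => ¬ v ≡ r [MOD p])) ≤
        (y ^ V.card * (1 + ((V.filter (fun v => v ≡ r [MOD p])).card : ℝ) / y ^ 2)) * Pi := by
      intro r _
      have hsub : V.filter (fun v => ¬ v ≡ r [MOD p]) ⊆ V := Finset.filter_subset _ _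
      have hc : (V.filter (fun v => ¬ v ≡ r [MOD p])).card +
          (V.filter (fun v => v ≡ r [MOD p])).card = V.card := by
        rw [add_comm]
        exact Finset.card_filter_add_card_filter_not (s := V) (fun v => v ≡ r [MOD p])
      have h1 := ih hd' hP1' (V.filter (fun v => ¬ v ≡ r [MOD p]))
        (fun q hq => ⟨(Finset.card_le_card hsub).trans (hV0 q hq).1,
          fun v hv w hw => (hV0 q hq).2 v (hsub hv) w (hsub hw)⟩)
        (fun q hq s => (Finset.card_le_card (Finset.filter_subset_filter _ hsub)).trans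
          (hV1 q (Finset.mem_insert_of_mem hq) s))
      have h2 : ∏ p_1 ∈ P1, (1 + ((V.filter (fun v => ¬ v ≡ r [MOD p])).card : ℝ) /
          (p_1 * y ^ 2)) ≤ Pi := by
        apply Finset.prod_le_prod
        · intro q hq; positivity
        · intro q hq
          have : ((V.filter (fun v => ¬ v ≡ r [MOD p])).card : ℝ) ≤ V.card := by
            exact_mod_cast Finset.card_le_card hsub
          gcongr
      have h3 := r2_pow hy0 hy1 hc (hV1 p (Finset.mem_insert_self _ _) r)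
      calc cov μ a (P0 ∪ P1) (V.filter (fun v => ¬ v ≡ r [MOD p]))
          ≤ _ := h1
        _ ≤ y ^ (V.filter (fun v => ¬ v ≡ r [MOD p])).card * Pi :=
            mul_le_mul_of_nonneg_left h2 (by positivity)
        _ ≤ _ := mul_le_mul_of_nonneg_right h3 hPi0
    have hsum : ∑ r ∈ Finset.range p,
        (1 + ((V.filter (fun v => v ≡ r [MOD p])).card : ℝ) / y ^ 2) =
          p + (V.card : ℝ) / y ^ 2 := by
      rw [Finset.sum_add_distrib, ← Finset.sum_div]
      simp only [Finset.sum_const, Finset.card_range, nsmul_eq_mul, mul_one]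
      congr 2
      exact_mod_cast r2_sum_classes V hpp.pos
    calc (1 / (p : ℝ)) * ∑ r ∈ Finset.range p,
          cov μ a (P0 ∪ P1) (V.filter (fun v => ¬ v ≡ r [MOD p]))
        ≤ (1 / (p : ℝ)) * ∑ r ∈ Finset.range p,
          (y ^ V.card * (1 + ((V.filter (fun v => v ≡ r [MOD p])).card : ℝ) / y ^ 2)) * Pi :=
          mul_le_mul_of_nonneg_left (Finset.sum_le_sum hterm) (by positivity)
      _ = (1 / (p : ℝ)) * (y ^ V.card * (p + (V.card : ℝ) / y ^ 2) * Pi) := by
          rw [← hsum, ← Finset.sum_mul, ← Finset.mul_sum]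
      _ = y ^ V.card * ((1 + (V.card : ℝ) / (p * y ^ 2)) * Pi) := by
          field_simp

end Pool.Agent.LibThin21
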