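import Pool.Agent.LibThin21.Defs

/-!
If all survivors of the row are hit, the window is free of elements of the sifted set.
-/

namespace Pool.Agent.LibThin21

open Pool.Agent.LibMaier

theorem window_empty {E : Set ℕ} {α : ℕ → ℕ} (hα : ∀ p : ℕ, p ∉ E → α p = 0) {q c k h : ℕ}
    (hq : 1 ≤ q) {T P : Finset ℕ} (hP : ∀ p ∈ P, p.Prime ∧ p ^ 2 ≤ k * q + c)
    (hsmall : ∀ p ∈ q.primeFactors, p ^ 2 ≤ k * q + c)
    (hc : ∀ p ∈ q.primeFactors, c ≡ α p [MOD p]) (hT : TT E q c k h ⊆ T)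
    (hcov : ∀ i ∈ T, ∃ p ∈ P, k * q + c + i ≡ α p [MOD p]) :
    sifted α ∩ Set.Ioc (k * q + c) (k * q + c + h) = ∅ := by
  rw [Set.eq_empty_iff_forall_notMem]
  rintro n ⟨hn, hn1, hn2⟩
  obtain ⟨i, rfl⟩ : ∃ i, n = k * q + c + i := ⟨n - (k * q + c), by omega⟩
  have hi1 : 1 ≤ i := by omega
  have hi2 : i ≤ h := by omega
  have hcop : Nat.Coprime i q := by
    rw [Nat.coprime_iff_gcd_eq_one]
    by_contra hne
    obtain ⟨p, hp, hpd⟩ := Nat.exists_prime_and_dvd hne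
    have hpi : p ∣ i := hpd.trans (Nat.gcd_dvd_left i q)
    have hpq : p ∣ q := hpd.trans (Nat.gcd_dvd_right i q)
    have hpf : p ∈ q.primeFactors := Nat.mem_primeFactors.2 ⟨hp, hpq, by omega⟩
    apply hn p hp ((hsmall p hpf).trans (Nat.le_add_right _ _))
    have h1 : k * q + c + i ≡ 0 + c + 0 [MOD p] :=
      ((((Nat.modEq_zero_iff_dvd).2 (hpq.mul_left k)).add_right c)).add
        ((Nat.modEq_zero_iff_dvd).2 hpi)
    rw [zero_add, add_zero] at h1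
    exact h1.trans (hc p hpf)
  have hmem : i ∈ TT E q c k h := by
    classical
    unfold TT cols
    simp only [Finset.mem_filter, Finset.mem_Icc]
    refine ⟨⟨⟨hi1, hi2⟩, hcop⟩, ?_⟩
    intro p hp hpE hpn hpd
    apply hn p hp hpn
    rw [hα p hpE]
    exact (Nat.modEq_zero_iff_dvd).2 hpd
  obtain ⟨p, hpP, hpc⟩ := hcov i (hT hmem)
  obtain ⟨hp, hp2⟩ := hP p hpP
  exact hn p hp (hp2.trans (Nat.le_add_right _ _)) hpc

end Pool.Agent.LibThin21
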