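import Pool.Agent.LibThin21.R6d

/-!
At a good scale, for every centre `c`, with probability `≥ 1 - ε` some row is completely hit.
-/

namespace Pool.Agent.LibThin21

open Filter Topology MeasureTheory ProbabilityTheory
open Pool.Agent.LibMaier

variable {Ω : Type*} [MeasurableSpace Ω] {μ : Measure Ω} [IsProbabilityMeasure μ] {E : Set ℕ}
  {a : ℕ → Ω → ℕ}

theorem scale_prob (hE : Thin E) (hM : Model μ E a) {ε lam v0 y1 : ℝ} (hε : 0 < ε)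
    (hε1 : ε < 1 / 100) (hv0 : 0 ≤ v0) (hlam : 0 < lam) (hgw : 1 - ε ≤ ∫ v in (-v0)..v0, gw v)
    (hy1 : 0 < y1) :
    ∀ᶠ x : ℝ in atTop, ∀ z p0 q k1 k2 : ℕ, GoodScale ε lam v0 x z p0 q k1 k2 →
      ∀ Q : ℝ, Q = ∏ p ∈ EP E (x ^ 8) (Real.exp (x / 3)), (1 - 1 / (p : ℝ)) → y1 ≤ 1 - Q →
      (1 + 50 * ε) * (eg / 2) * lam * (Real.log (1 / (1 - Q)) / Q) ≤ 1 - 5 * ε →
      ∀ c : ℕ, c < q →
      1 - ε ≤ μ.real {ω | ∃ k ∈ Finset.Ico k1 k2, ∃ T : Finset ℕ, TT E q c k ⌊lam * x ^ 2⌋₊ ⊆ T ∧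
        ∀ i ∈ T, ∃ p ∈ EP E (x ^ 8) (Real.exp (x / 3)), k * q + c + i ≡ a p ω [MOD p]} := by
  have h1 : Tendsto (fun x : ℝ => 1 / (2 * x)) atTop (𝓝 0) :=
    tendsto_const_nhds.div_atTop (tendsto_id.const_mul_atTop (by norm_num))
  have h2 : Tendsto (fun x : ℝ => 1 / Real.log x ^ 2) atTop (𝓝 0) := by
    apply tendsto_const_nhds.div_atTop
    exact (tendsto_pow_atTop (two_ne_zero)).comp Real.tendsto_log_atTop
  filter_upwards [scale_final hE hM hε hε1 hv0 hlam, good_rows hE (lam := lam) hε hε1 hv0 hlam hgw,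
    h1.eventually_le_const hy1, h2.eventually_le_const hlam] with x hx hrows hx1 hx2
  intro z p0 q k1 k2 hG Q hQ hyQ hcond c hc
  exact hx z p0 q k1 k2 hG lam hx2 le_rfl Q hQ (hx1.trans hyQ) hcond c hc
    (fun K hK => hrows z p0 q k1 k2 hG c hc K hK)

end Pool.Agent.LibThin21
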