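import Pool.Agent.LibThin21.R6d

/-!
Versions in which the length parameter `lam` ranges over `[1 / (log x) ^ 2, Lam]`.
-/

namespace Pool.Agent.LibThin21

open Filter Topology MeasureTheory ProbabilityTheory
open Pool.Agent.LibMaier

/-- the columns coprime to `q`, for all lengths `lam x ^ 2` -/
def HC (ε Lam x : ℝ) (q : ℕ) : Prop := ∀ lam : ℝ, 1 / Real.log x ^ 2 ≤ lam → lam ≤ Lam →
  ((cols q ⌊lam * x ^ 2⌋₊).card : ℝ) * ((q : ℝ) / (q.totient : ℝ)) ≤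
    (1 + ε) ^ 4 * (eg / 2) * (lam * x ^ 2)

open Classical in
theorem TT_sum' {E : Set ℕ} (h : Thin E) {ε Lam v0 : ℝ} (hε : 0 < ε) (hε1 : ε < 1 / 100)
    (hv0 : 0 ≤ v0) (hLam : 0 < Lam) :
    ∀ᶠ x : ℝ in atTop, ∀ z p0 q k1 k2 : ℕ, GoodScale ε Lam v0 x z p0 q k1 k2 → HC ε Lam x q →
      ∀ lam : ℝ, 1 / Real.log x ^ 2 ≤ lam → lam ≤ Lam → ∀ c : ℕ, c < q →
      ∑ k ∈ Finset.Ico k1 k2, Wt q x k * ((TT E q c k ⌊lam * x ^ 2⌋₊).card : ℝ) ≤
        (1 + 20 * ε) * (eg / 2) * (lam * x) * DQ E q x := by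
  classical
  filter_upwards [type_main (E := E) (lam := Lam) hε hε1 hv0 hLam,
    type_tail (lam := Lam) h hε hε1 hv0 hLam,
    type_IIa (lam := Lam) h hε hε1 hv0 hLam, type_IIb (lam := Lam) h hε hε1 hv0 hLam,
    GoodScale.sizes (lam := Lam) hε hε1 hv0 hLam,
    eventually_gt_atTop (1 : ℝ)] with x h1 h2 h3 h4 hsz hx1 z p0 q k1 k2 hs hHC lam hlam1 hlam2 c hc
  have hx0 : 0 < x := by linarith
  have hlam : 0 < lam := by
    have hlog : 0 < Real.log x := Real.log_pos hx1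
    exact lt_of_lt_of_le (by positivity) hlam1
  have hlamle : lam * x ^ 2 ≤ Lam * x ^ 2 := by gcongr
  have h1' := h1 z p0 q k1 k2 hs
  have h2' := h2 z p0 q k1 k2 hs
  have h3' := h3 z p0 q k1 k2 hs
  have h4' := h4 z p0 q k1 k2 hs
  obtain ⟨hk1, -, -, -, -, hqbig, -, -⟩ := hsz z p0 q k1 k2 hs
  have hlx : 0 < lam * x ^ 2 := by positivity
  have hq2 : 2 ≤ q := by
    have : (1 : ℝ) < q := by linarith
    have : 1 < q := by exact_mod_cast this
    omega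
  have hq1 : 1 ≤ q := by omega
  have hhq : ⌊lam * x ^ 2⌋₊ ≤ q := by
    have : (⌊lam * x ^ 2⌋₊ : ℝ) ≤ q := (Nat.floor_le hlx.le).trans (by linarith)
    exact_mod_cast this
  set D : ℝ := DQ E q x with hD
  have hD1 : 1 ≤ D := one_le_DQ E q x
  set w : ℝ := (q : ℝ) / (q.totient * x) with hw
  have htot : (0 : ℝ) < q.totient := by exact_mod_cast Nat.totient_pos.2 (by omega)
  have hw0 : 0 ≤ w := by rw [hw]; positivity
  have hcol : ∀ i ∈ cols q ⌊lam * x ^ 2⌋₊,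
      ∑ k ∈ (Finset.Ico k1 k2).filter (fun k => i ∈ TT E q c k ⌊lam * x ^ 2⌋₊), Wt q x k ≤
        (1 + 8 * ε) * D * w := by
    intro i hi
    have hib : i ≤ ⌊lam * x ^ 2⌋₊ := by
      unfold cols at hi
      rw [Finset.mem_filter, Finset.mem_Icc] at hi
      exact hi.1.2
    have hb : c + i ≤ 2 * q := by omega
    set F1 := (Finset.Ico k1 k2).filter (fun k => ∃ e π : ℕ, e ∈ ESm E ∧
      (e : ℝ) ≤ Real.exp (ε * x) ∧ π.Prime ∧ e < π ∧ k * q + (c + i) = e * π) with hF1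
    set F2 := (Finset.Ico k1 k2).filter (fun k => ∃ e π : ℕ, e ∈ ESm E ∧
      Real.exp (ε * x) < (e : ℝ) ∧ π.Prime ∧ e < π ∧ k * q + (c + i) = e * π) with hF2
    set F3 := (Finset.Ico k1 k2).filter (fun k =>
        (∀ p : ℕ, p.Prime → p ∉ E → p ^ 2 ≤ k * q + (c + i) → ¬ p ∣ k * q + (c + i)) ∧
        ∃ π : ℕ, π.Prime ∧ π ∈ E ∧ Real.exp (x / Real.log x) < (π : ℝ) ∧
          π ^ 2 ≤ k * q + (c + i) ∧ π ∣ k * q + (c + i)) with hF3
    set F4 := (Finset.Ico k1 k2).filter (fun k => k * q + (c + i) ∈ ESm E ∧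
        ∀ p : ℕ, p.Prime → p ∣ k * q + (c + i) → (p : ℝ) ≤ Real.exp (x / Real.log x)) with hF4
    have hsub : (Finset.Ico k1 k2).filter (fun k => i ∈ TT E q c k ⌊lam * x ^ 2⌋₊) ⊆
        ((F1 ∪ F2) ∪ F3) ∪ F4 := by
      intro k hk
      rw [Finset.mem_filter] at hk
      obtain ⟨hkI, hkT⟩ := hk
      unfold TT at hkT
      rw [Finset.mem_filter] at hkT
      have hkT2 : ∀ p : ℕ, p.Prime → p ∉ E → p ^ 2 ≤ k * q + (c + i) → ¬ p ∣ k * q + (c + i) := by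
        intro p hp hpE hpm
        rw [← add_assoc] at hpm ⊢
        exact hkT.2 p hp hpE hpm
      have hk1' : k1 ≤ k := (Finset.mem_Ico.1 hkI).1
      have hm2 : 2 ≤ k * q + (c + i) := by
        have : 1 * 2 ≤ k * q := Nat.mul_le_mul (by omega) hq2
        omega
      rcases classify hm2 (Real.exp (ε * x)) (Real.exp (x / Real.log x)) hkT2 with hA | hA | hA | hA
      · apply Finset.mem_union_left; apply Finset.mem_union_left; apply Finset.mem_union_left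
        rw [hF1, Finset.mem_filter]; exact ⟨hkI, hA⟩
      · apply Finset.mem_union_left; apply Finset.mem_union_left; apply Finset.mem_union_right
        rw [hF2, Finset.mem_filter]; exact ⟨hkI, hA⟩
      · apply Finset.mem_union_left; apply Finset.mem_union_right
        rw [hF3, Finset.mem_filter]; exact ⟨hkI, hkT2, hA⟩
      · apply Finset.mem_union_right
        rw [hF4, Finset.mem_filter]; exact ⟨hkI, hA⟩
    have hnn : ∀ k ∈ Finset.Ico k1 k2, 0 ≤ Wt q x k := fun k hk =>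
      Wt_nonneg hq1 (hk1.trans (Finset.mem_Ico.1 hk).1) x
    have hnn1 : ∀ (F : Finset ℕ), F ⊆ Finset.Ico k1 k2 → 0 ≤ ∑ k ∈ F, Wt q x k := fun F hF =>
      Finset.sum_nonneg (fun k hk => hnn k (hF hk))
    have hun : ∀ A B : Finset ℕ, A ⊆ Finset.Ico k1 k2 → B ⊆ Finset.Ico k1 k2 →
        ∑ k ∈ A ∪ B, Wt q x k ≤ ∑ k ∈ A, Wt q x k + ∑ k ∈ B, Wt q x k := by
      intro A B hA hB
      rw [← Finset.sum_union_inter]
      have := hnn1 (A ∩ B) (Finset.inter_subset_left.trans hA)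
      linarith
    have hs1 : F1 ⊆ Finset.Ico k1 k2 := Finset.filter_subset _ _
    have hs2 : F2 ⊆ Finset.Ico k1 k2 := Finset.filter_subset _ _
    have hs3 : F3 ⊆ Finset.Ico k1 k2 := Finset.filter_subset _ _
    have hs4 : F4 ⊆ Finset.Ico k1 k2 := Finset.filter_subset _ _
    have hs12 : F1 ∪ F2 ⊆ Finset.Ico k1 k2 := Finset.union_subset hs1 hs2
    have hs123 : (F1 ∪ F2) ∪ F3 ⊆ Finset.Ico k1 k2 := Finset.union_subset hs12 hs3
    have hs1234 : ((F1 ∪ F2) ∪ F3) ∪ F4 ⊆ Finset.Ico k1 k2 := Finset.union_subset hs123 hs4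
    have e1 := h1' (c + i) hb
    have e2 := h2' (c + i) hb
    have e3 := h3' (c + i) hb
    have e4 := h4' (c + i) hb
    calc ∑ k ∈ (Finset.Ico k1 k2).filter (fun k => i ∈ TT E q c k ⌊lam * x ^ 2⌋₊), Wt q x k
        ≤ ∑ k ∈ ((F1 ∪ F2) ∪ F3) ∪ F4, Wt q x k :=
          Finset.sum_le_sum_of_subset_of_nonneg hsub (fun k hk _ => hnn k (hs1234 hk))
      _ ≤ (1 + 5 * ε) * D * w + ε * D * w + ε * D * w + ε * D * w := by
          have a1 := hun _ _ hs123 hs4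
          have a2 := hun _ _ hs12 hs3
          have a3 := hun _ _ hs1 hs2
          linarith
      _ = (1 + 8 * ε) * D * w := by ring
  have hswap : ∑ k ∈ Finset.Ico k1 k2, Wt q x k * ((TT E q c k ⌊lam * x ^ 2⌋₊).card : ℝ) =
      ∑ i ∈ cols q ⌊lam * x ^ 2⌋₊,
        ∑ k ∈ (Finset.Ico k1 k2).filter (fun k => i ∈ TT E q c k ⌊lam * x ^ 2⌋₊), Wt q x k := by
    have : ∀ k ∈ Finset.Ico k1 k2, Wt q x k * ((TT E q c k ⌊lam * x ^ 2⌋₊).card : ℝ) =
        ∑ i ∈ cols q ⌊lam * x ^ 2⌋₊,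
          if i ∈ TT E q c k ⌊lam * x ^ 2⌋₊ then Wt q x k else 0 := by
      intro k _
      rw [← Finset.sum_filter]
      have hfil : (cols q ⌊lam * x ^ 2⌋₊).filter (fun i => i ∈ TT E q c k ⌊lam * x ^ 2⌋₊) =
          TT E q c k ⌊lam * x ^ 2⌋₊ := by
        ext i
        rw [Finset.mem_filter]
        constructor
        · exact fun hi => hi.2
        · intro hi
          refine ⟨?_, hi⟩
          unfold TT at hi
          exact (Finset.mem_filter.1 hi).1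
      rw [hfil, Finset.sum_const, nsmul_eq_mul, mul_comm]
    rw [Finset.sum_congr rfl this, Finset.sum_comm]
    apply Finset.sum_congr rfl
    intro i _
    rw [Finset.sum_filter]
  rw [hswap]
  have hc1 : ∑ i ∈ cols q ⌊lam * x ^ 2⌋₊,
        ∑ k ∈ (Finset.Ico k1 k2).filter (fun k => i ∈ TT E q c k ⌊lam * x ^ 2⌋₊), Wt q x k ≤
      ((cols q ⌊lam * x ^ 2⌋₊).card : ℝ) * ((1 + 8 * ε) * D * w) := by
    calc _ ≤ ∑ _i ∈ cols q ⌊lam * x ^ 2⌋₊, (1 + 8 * ε) * D * w := Finset.sum_le_sum hcol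
      _ = _ := by rw [Finset.sum_const, nsmul_eq_mul]
  refine hc1.trans ?_
  have hcc := hHC lam hlam1 hlam2
  have hwe : w = ((q : ℝ) / q.totient) * (1 / x) := by
    rw [hw]; field_simp
  have key : ((cols q ⌊lam * x ^ 2⌋₊).card : ℝ) * ((1 + 8 * ε) * D * w) ≤
      (1 + 8 * ε) * D * ((1 + ε) ^ 4 * (eg / 2) * (lam * x)) := by
    have e1 : ((cols q ⌊lam * x ^ 2⌋₊).card : ℝ) * ((1 + 8 * ε) * D * w) =
        (1 + 8 * ε) * D * (((cols q ⌊lam * x ^ 2⌋₊).card : ℝ) * ((q : ℝ) / (q.totient : ℝ)) *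
          (1 / x)) := by rw [hwe]; ring
    rw [e1]
    apply mul_le_mul_of_nonneg_left _ (by positivity)
    calc ((cols q ⌊lam * x ^ 2⌋₊).card : ℝ) * ((q : ℝ) / (q.totient : ℝ)) * (1 / x)
        ≤ ((1 + ε) ^ 4 * (eg / 2) * (lam * x ^ 2)) * (1 / x) :=
          mul_le_mul_of_nonneg_right hcc (by positivity)
      _ = (1 + ε) ^ 4 * (eg / 2) * (lam * x) := by field_simp
  refine key.trans ?_
  have hfin : (1 + 8 * ε) * (1 + ε) ^ 4 ≤ 1 + 20 * ε := by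
    have h2 : (1 + ε) ^ 2 ≤ 1 + 2.01 * ε := by nlinarith
    have h4 : (1 + ε) ^ 4 ≤ 1 + 4.1 * ε := by
      have : (1 + ε) ^ 4 = ((1 + ε) ^ 2) * ((1 + ε) ^ 2) := by ring
      rw [this]
      have h0 : 0 ≤ (1 + ε) ^ 2 := by positivity
      nlinarith
    nlinarith
  have heg := eg_pos
  have hpos : 0 ≤ (eg / 2) * (lam * x) * D := by positivity
  calc (1 + 8 * ε) * D * ((1 + ε) ^ 4 * (eg / 2) * (lam * x))
      = ((1 + 8 * ε) * (1 + ε) ^ 4) * ((eg / 2) * (lam * x) * D) := by ring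
    _ ≤ (1 + 20 * ε) * ((eg / 2) * (lam * x) * D) := mul_le_mul_of_nonneg_right hfin hpos
    _ = (1 + 20 * ε) * (eg / 2) * (lam * x) * D := by ring

open Classical in
theorem good_rows' {E : Set ℕ} (h : Thin E) {ε Lam v0 : ℝ} (hε : 0 < ε) (hε1 : ε < 1 / 100)
    (hv0 : 0 ≤ v0) (hLam : 0 < Lam) (hgw : 1 - ε ≤ ∫ v in (-v0)..v0, gw v) :
    ∀ᶠ x : ℝ in atTop, ∀ z p0 q k1 k2 : ℕ, GoodScale ε Lam v0 x z p0 q k1 k2 → HC ε Lam x q →
      ∀ lam : ℝ, 1 / Real.log x ^ 2 ≤ lam → lam ≤ Lam → ∀ c : ℕ, c < q →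
      ∀ K : ℝ, (1 + 30 * ε) * (eg / 2) * (lam * x) * DQ E q x ≤ K →
      ε ≤ ∑ k ∈ (Finset.Ico k1 k2).filter
        (fun k => ((TT E q c k ⌊lam * x ^ 2⌋₊).card : ℝ) ≤ K), Wt q x k := by
  filter_upwards [TT_sum' h (Lam := Lam) hε hε1 hv0 hLam,
    GoodScale.sizes (lam := Lam) hε hε1 hv0 hLam, eventually_gt_atTop (1 : ℝ)] with x hTT hsz hx1'
  intro z p0 q k1 k2 g hHC lam hlam1 hlam2 c hc K hK
  have hx1 : 1 ≤ x := hx1'.le
  have hlam : 0 < lam := by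
    have hlog : 0 < Real.log x := Real.log_pos hx1'
    exact lt_of_lt_of_le (by positivity) hlam1
  have hq1 : 1 ≤ q := by omega
  have hk1 : 1 ≤ k1 := (hsz z p0 q k1 k2 g).1
  have hWt : ∀ k ∈ Finset.Ico k1 k2, 0 ≤ Wt q x k := fun k hk =>
    Wt_nonneg hq1 (hk1.trans (Finset.mem_Ico.1 hk).1) x
  have hsum := hTT z p0 q k1 k2 g hHC lam hlam1 hlam2 c hc
  have hDQ : 0 < DQ E q x := by
    unfold DQ
    refine LSieve.V_pos fun p hp => ?_
    unfold EQ EP at hp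
    rw [Finset.mem_filter, Finset.mem_filter] at hp
    exact hp.1.2.1
  set M : ℝ := (eg / 2) * (lam * x) * DQ E q x with hM
  have hM0 : 0 < M := by
    have := eg_pos
    positivity
  have hK' : (1 + 30 * ε) * M ≤ K := by
    rw [hM]
    linarith
  have hK0 : 0 < K := by
    have : 0 < (1 + 30 * ε) * M := by positivity
    linarith
  have hsum' : ∑ k ∈ Finset.Ico k1 k2, Wt q x k * ((TT E q c k ⌊lam * x ^ 2⌋₊).card : ℝ) ≤
      (1 + 20 * ε) * M := by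
    rw [hM]
    linarith
  set P : ℕ → Prop := fun k => ((TT E q c k ⌊lam * x ^ 2⌋₊).card : ℝ) ≤ K with hP
  have htot := le_sum_Wt (q := q) (k1 := k1) (k2 := k2) (x := x) g.hk12 hv0
    (by have := g.hl2; linarith) (by have := g.hl3; linarith)
  have hsplit := Finset.sum_filter_add_sum_filter_not (Finset.Ico k1 k2) P (fun k => Wt q x k)
  have hbad : K * ∑ k ∈ (Finset.Ico k1 k2).filter (fun k => ¬ P k), Wt q x k ≤ (1 + 20 * ε) * M := by
    refine le_trans ?_ hsum'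
    rw [Finset.mul_sum]
    refine le_trans (Finset.sum_le_sum (g := fun k => Wt q x k *
      ((TT E q c k ⌊lam * x ^ 2⌋₊).card : ℝ)) ?_) ?_
    · intro k hk
      rw [Finset.mem_filter] at hk
      have h1 := hWt k hk.1
      have h2 : K ≤ ((TT E q c k ⌊lam * x ^ 2⌋₊).card : ℝ) := (not_le.1 hk.2).le
      rw [mul_comm]
      exact mul_le_mul_of_nonneg_left h2 h1
    · refine Finset.sum_le_sum_of_subset_of_nonneg (Finset.filter_subset _ _) fun k hk _ => ?_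
      exact mul_nonneg (hWt k hk) (Nat.cast_nonneg _)
  set B : ℝ := ∑ k ∈ (Finset.Ico k1 k2).filter (fun k => ¬ P k), Wt q x k with hB
  have hB0 : 0 ≤ B := Finset.sum_nonneg fun k hk => hWt k (Finset.mem_filter.1 hk).1
  have hB1 : (1 + 30 * ε) * B ≤ 1 + 20 * ε := by
    have h1 : ((1 + 30 * ε) * M) * B ≤ (1 + 20 * ε) * M := 
      (mul_le_mul_of_nonneg_right hK' hB0).trans hbad
    have h2 : ((1 + 30 * ε) * B) * M ≤ (1 + 20 * ε) * M := by linarith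
    exact le_of_mul_le_mul_right h2 hM0
  have hB2 : B ≤ 1 - 7 * ε := by
    by_contra hcon
    push Not at hcon
    have : (1 + 30 * ε) * (1 - 7 * ε) < (1 + 30 * ε) * B :=
      mul_lt_mul_of_pos_left hcon (by positivity)
    nlinarith
  have : (∫ v in (-v0)..v0, gw v) ≤
      ∑ k ∈ (Finset.Ico k1 k2).filter P, Wt q x k + B := by
    rw [hsplit]
    exact htot
  linarith

variable {Ω : Type*} [MeasurableSpace Ω] {μ : Measure Ω} [IsProbabilityMeasure μ] {E : Set ℕ}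
  {a : ℕ → Ω → ℕ}

theorem scale_prob' (hE : Thin E) (hM : Model μ E a) {ε Lam v0 : ℝ} (hε : 0 < ε)
    (hε1 : ε < 1 / 100) (hv0 : 0 ≤ v0) (hLam : 0 < Lam) (hgw : 1 - ε ≤ ∫ v in (-v0)..v0, gw v) :
    ∀ᶠ x : ℝ in atTop, ∀ z p0 q k1 k2 : ℕ, GoodScale ε Lam v0 x z p0 q k1 k2 → HC ε Lam x q →
      ∀ lam : ℝ, 1 / Real.log x ^ 2 ≤ lam → lam ≤ Lam →
      ∀ Q : ℝ, Q = ∏ p ∈ EP E (x ^ 8) (Real.exp (x / 3)), (1 - 1 / (p : ℝ)) → 1 / (2 * x) ≤ 1 - Q →
      (1 + 50 * ε) * (eg / 2) * lam * (Real.log (1 / (1 - Q)) / Q) ≤ 1 - 5 * ε →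
      ∀ c : ℕ, c < q →
      1 - ε ≤ μ.real {ω | ∃ k ∈ Finset.Ico k1 k2, ∃ T : Finset ℕ, TT E q c k ⌊lam * x ^ 2⌋₊ ⊆ T ∧
        ∀ i ∈ T, ∃ p ∈ EP E (x ^ 8) (Real.exp (x / 3)), k * q + c + i ≡ a p ω [MOD p]} := by
  filter_upwards [scale_final hE hM hε hε1 hv0 hLam, good_rows' hE hε hε1 hv0 hLam hgw]
    with x hx hrows
  intro z p0 q k1 k2 hG hC lam hlam1 hlam2 Q hQ hyQ hcond c hc
  exact hx z p0 q k1 k2 hG lam hlam1 hlam2 Q hQ hyQ hcond c hc
    (fun K hK => hrows z p0 q k1 k2 hG hC lam hlam1 hlam2 c hc K hK)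

end Pool.Agent.LibThin21
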