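import Pool.Agent.LibThin21.T6

/-!
ROW R6a. Rows with at most `K` survivors have total weight at least `ε` (Markov).

`∑_{#TT > K} Wt_k ≤ (1/K) ∑ Wt_k #TT_k ≤ (1 + 20 ε)/(1 + 30 ε) ≤ 1 - 7 ε` by `TT_sum`, and
`∑_k Wt_k ≥ ∫_{-v0}^{v0} gw ≥ 1 - ε` (`le_sum_Wt`, LibMaier/Matrix.lean).
-/

namespace Pool.Agent.LibThin21

open Filter Topology
open Pool.Agent.LibMaier

open Classical in
theorem good_rows {E : Set ℕ} (h : Thin E) {ε lam v0 : ℝ} (hε : 0 < ε) (hε1 : ε < 1 / 100)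
    (hv0 : 0 ≤ v0) (hlam : 0 < lam) (hgw : 1 - ε ≤ ∫ v in (-v0)..v0, gw v) :
    ∀ᶠ x : ℝ in atTop, ∀ z p0 q k1 k2 : ℕ, GoodScale ε lam v0 x z p0 q k1 k2 → ∀ c : ℕ, c < q →
      ∀ K : ℝ, (1 + 30 * ε) * (eg / 2) * (lam * x) * DQ E q x ≤ K →
      ε ≤ ∑ k ∈ (Finset.Ico k1 k2).filter
        (fun k => ((TT E q c k ⌊lam * x ^ 2⌋₊).card : ℝ) ≤ K), Wt q x k := by
  filter_upwards [TT_sum h (lam := lam) hε hε1 hv0 hlam,
    GoodScale.sizes (lam := lam) hε hε1 hv0 hlam, eventually_ge_atTop (1 : ℝ)] with x hTT hsz hx1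
  intro z p0 q k1 k2 g c hc K hK
  have hq1 : 1 ≤ q := by omega
  have hk1 : 1 ≤ k1 := (hsz z p0 q k1 k2 g).1
  have hWt : ∀ k ∈ Finset.Ico k1 k2, 0 ≤ Wt q x k := fun k hk =>
    Wt_nonneg hq1 (hk1.trans (Finset.mem_Ico.1 hk).1) x
  have hsum := hTT z p0 q k1 k2 g c hc
  have hDQ : 0 < DQ E q x := by
    unfold DQ
    refine LSieve.V_pos fun p hp => ?_
    unfold EQ EP at hp
    rw [Finset.mem_filter, Finset.mem_filter] at hp
    exact hp.1.2.1
  set M : ℝ := (eg / 2) * (lam * x) * DQ E q x with hM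
  have hM0 : 0 < M := by
    have := eg_pos
    positivity
  have hK' : (1 + 30 * ε) * M ≤ K := by
    rw [hM]
    linarith
  have hK0 : 0 < K := by
    have : 0 < (1 + 30 * ε) * M := by positivity
    linarith
  have hsum' : ∑ k ∈ Finset.Ico k1 k2, Wt q x k * ((TT E q c k ⌊lam * x ^ 2⌋₊).card : ℝ) ≤
      (1 + 20 * ε) * M := by
    rw [hM]
    linarith
  set P : ℕ → Prop := fun k => ((TT E q c k ⌊lam * x ^ 2⌋₊).card : ℝ) ≤ K with hP
  have htot := le_sum_Wt (q := q) (k1 := k1) (k2 := k2) (x := x) g.hk12 hv0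
    (by have := g.hl2; linarith) (by have := g.hl3; linarith)
  have hsplit := Finset.sum_filter_add_sum_filter_not (Finset.Ico k1 k2) P (fun k => Wt q x k)
  have hbad : K * ∑ k ∈ (Finset.Ico k1 k2).filter (fun k => ¬ P k), Wt q x k ≤ (1 + 20 * ε) * M := by
    refine le_trans ?_ hsum'
    rw [Finset.mul_sum]
    refine le_trans (Finset.sum_le_sum (g := fun k => Wt q x k *
      ((TT E q c k ⌊lam * x ^ 2⌋₊).card : ℝ)) ?_) ?_
    · intro k hk
      rw [Finset.mem_filter] at hk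
      have h1 := hWt k hk.1
      have h2 : K ≤ ((TT E q c k ⌊lam * x ^ 2⌋₊).card : ℝ) := (not_le.1 hk.2).le
      rw [mul_comm]
      exact mul_le_mul_of_nonneg_left h2 h1
    · refine Finset.sum_le_sum_of_subset_of_nonneg (Finset.filter_subset _ _) fun k hk _ => ?_
      exact mul_nonneg (hWt k hk) (Nat.cast_nonneg _)
  set B : ℝ := ∑ k ∈ (Finset.Ico k1 k2).filter (fun k => ¬ P k), Wt q x k with hB
  have hB0 : 0 ≤ B := Finset.sum_nonneg fun k hk => hWt k (Finset.mem_filter.1 hk).1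
  have hB1 : (1 + 30 * ε) * B ≤ 1 + 20 * ε := by
    have h1 : ((1 + 30 * ε) * M) * B ≤ (1 + 20 * ε) * M := 
      (mul_le_mul_of_nonneg_right hK' hB0).trans hbad
    have h2 : ((1 + 30 * ε) * B) * M ≤ (1 + 20 * ε) * M := by linarith
    exact le_of_mul_le_mul_right h2 hM0
  have hB2 : B ≤ 1 - 7 * ε := by
    by_contra hcon
    push Not at hcon
    have : (1 + 30 * ε) * (1 - 7 * ε) < (1 + 30 * ε) * B :=
      mul_lt_mul_of_pos_left hcon (by positivity)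
    nlinarith
  have : (∫ v in (-v0)..v0, gw v) ≤
      ∑ k ∈ (Finset.Ico k1 k2).filter P, Wt q x k + B := by
    rw [hsplit]
    exact htot
  linarith

end Pool.Agent.LibThin21
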