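import Pool.Agent.LibThin21.T0

/-!
ROW R6b. Two different rows share few primes.

For `k ≠ l` and `p ∈ P1`, `p` divides `|(k - l) q + (i - j)|` for some `i, j ≤ h = ⌊lam x²⌋`; this integer is not `0`
(`h < q`) and `≤ exp (2x)`, so it has at most `3 x / log 2`... at most `3 x` prime factors `> 2`, and there are at
most `2 h + 1` values of `i - j`. All `p ∈ P1` are `> x ^ 8`. So `∑_{P1} 1/p ≤ (2h+1) (3x) / x^8 ≤ x^(-4)`.
-/

namespace Pool.Agent.LibThin21

open Filter Topology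
open Pool.Agent.LibMaier

/-- the number of prime factors of `n ≤ exp (2 x)` is at most `3 x` -/
lemma r6b_card {n : ℕ} (hn : n ≠ 0) {x : ℝ} (hx : 0 ≤ x) (h : (n : ℝ) ≤ Real.exp (2 * x)) :
    (n.primeFactors.card : ℝ) ≤ 3 * x := by
  have h1 : 2 ^ n.primeFactors.card ≤ n := by
    calc 2 ^ n.primeFactors.card = ∏ _p ∈ n.primeFactors, 2 := by rw [Finset.prod_const]
      _ ≤ ∏ p ∈ n.primeFactors, p :=
        Finset.prod_le_prod' (fun p hp => (Nat.prime_of_mem_primeFactors hp).two_le)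
      _ ≤ n := Nat.le_of_dvd (Nat.pos_of_ne_zero hn) (Nat.prod_primeFactors_dvd n)
  have h2 : (2 : ℝ) ^ n.primeFactors.card ≤ Real.exp (2 * x) := by
    calc (2 : ℝ) ^ n.primeFactors.card ≤ n := by exact_mod_cast h1
      _ ≤ _ := h
  have h3 : (n.primeFactors.card : ℝ) * Real.log 2 ≤ 2 * x := by
    have := Real.log_le_log (by positivity) h2
    rwa [Real.log_pow, Real.log_exp] at this
  have h4 := Real.log_two_gt_d9
  nlinarith [(Nat.cast_nonneg n.primeFactors.card : (0 : ℝ) ≤ n.primeFactors.card)]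

open Classical in
theorem few_common {E : Set ℕ} {ε lam v0 : ℝ} (hε : 0 < ε) (hε1 : ε < 1 / 100)
    (hv0 : 0 ≤ v0) (hlam : 0 < lam) :
    ∀ᶠ x : ℝ in atTop, ∀ z p0 q k1 k2 : ℕ, GoodScale ε lam v0 x z p0 q k1 k2 → ∀ c : ℕ,
      ∀ k ∈ Finset.Ico k1 k2, ∀ l ∈ Finset.Ico k1 k2, k ≠ l →
      ∑ p ∈ (EP E (x ^ 8) (Real.exp (x / 3))).filter (fun p => ∃ i ∈ Finset.Icc 1 ⌊lam * x ^ 2⌋₊,
        ∃ j ∈ Finset.Icc 1 ⌊lam * x ^ 2⌋₊, k * q + c + i ≡ l * q + c + j [MOD p]), 1 / (p : ℝ) ≤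
        1 / x ^ 4 := by
  filter_upwards [GoodScale.sizes hε hε1 hv0 hlam, eventually_ge_atTop (1 : ℝ),
    eventually_ge_atTop (6 * lam + 3)] with x h2 hx1 hxl
  intro z p0 q k1 k2 hg c k hk l hl hkl
  obtain ⟨hk1, -, -, hk2, -, hq, hve, -⟩ := h2 z p0 q k1 k2 hg
  have hx0 : (0 : ℝ) < x := by linarith
  set h : ℕ := ⌊lam * x ^ 2⌋₊ with hh
  have hhle : (h : ℝ) ≤ lam * x ^ 2 := Nat.floor_le (by positivity)
  have hhq : (h : ℤ) < q := by
    have : (h : ℝ) < q := by linarith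
    exact_mod_cast this
  rw [Finset.mem_Ico] at hk hl
  set F := (EP E (x ^ 8) (Real.exp (x / 3))).filter (fun p => ∃ i ∈ Finset.Icc 1 h,
        ∃ j ∈ Finset.Icc 1 h, k * q + c + i ≡ l * q + c + j [MOD p]) with hF
  set D : ℤ → ℕ := fun t => (((k : ℤ) - l) * q + t).natAbs with hD
  have hq0 : (0 : ℤ) < q := by have := Int.natCast_nonneg h; omega
  have hD0 : ∀ t ∈ Finset.Icc (-(h : ℤ)) h, D t ≠ 0 := by
    intro t ht h0
    rw [Finset.mem_Icc] at ht
    rw [hD] at h0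
    simp only [Int.natAbs_eq_zero] at h0
    rcases lt_or_gt_of_ne hkl with hlt | hgt
    · have : ((k : ℤ) - l) ≤ -1 := by omega
      nlinarith
    · have : 1 ≤ ((k : ℤ) - l) := by omega
      nlinarith
  have hDle : ∀ t ∈ Finset.Icc (-(h : ℤ)) h, ((D t : ℕ) : ℝ) ≤ Real.exp (2 * x) := by
    intro t ht
    rw [Finset.mem_Icc] at ht
    have b1 : |((k : ℤ) - l) * q + t| ≤ (k2 : ℤ) * q + q := by
      have c1 : |((k : ℤ) - l) * q| ≤ (k2 : ℤ) * q := by
        rw [abs_mul, abs_of_pos hq0]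
        apply mul_le_mul_of_nonneg_right _ hq0.le
        rw [abs_le]
        constructor <;> omega
      have c2 : |t| ≤ (q : ℤ) := by rw [abs_le]; constructor <;> omega
      exact (abs_add_le _ _).trans (add_le_add c1 c2)
    have b2 : ((D t : ℕ) : ℝ) ≤ (k2 : ℝ) * q + q := by
      have : ((D t : ℕ) : ℤ) ≤ (k2 : ℤ) * q + q := by
        rw [hD]; simp only [Int.natCast_natAbs]; exact b1
      exact_mod_cast this
    have b3 : (q : ℝ) ≤ (k2 : ℝ) * q := by
      have : (1 : ℝ) ≤ k2 := by exact_mod_cast (by omega : 1 ≤ k2)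
      have hq' : (0 : ℝ) ≤ q := Nat.cast_nonneg q
      nlinarith
    have e1 : (2 : ℝ) ≤ Real.exp 1 := by
      have := Real.add_one_le_exp (1 : ℝ); linarith
    calc ((D t : ℕ) : ℝ) ≤ 2 * ((k2 : ℝ) * q) := by linarith
      _ ≤ Real.exp 1 * Real.exp (x + (v0 + 1)) :=
        mul_le_mul e1 hk2 (by positivity) (Real.exp_pos 1).le
      _ = Real.exp (1 + (x + (v0 + 1))) := by rw [← Real.exp_add]
      _ ≤ Real.exp (2 * x) := Real.exp_le_exp.2 (by nlinarith)
  have hsub : F ⊆ (Finset.Icc (-(h : ℤ)) h).biUnion (fun t => (D t).primeFactors) := by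
    intro p hp
    rw [hF, Finset.mem_filter] at hp
    obtain ⟨hpE, i, hi, j, hj, hmod⟩ := hp
    rw [Finset.mem_Icc] at hi hj
    rw [Finset.mem_biUnion]
    have ht : ((i : ℤ) - j) ∈ Finset.Icc (-(h : ℤ)) h := by
      rw [Finset.mem_Icc]; constructor <;> omega
    refine ⟨(i : ℤ) - j, ht, ?_⟩
    rw [Nat.mem_primeFactors]
    have hpp : p.Prime := by
      unfold EP at hpE
      rw [Finset.mem_filter] at hpE
      exact hpE.2.1
    refine ⟨hpp, ?_, hD0 _ ht⟩
    rw [← Int.natCast_dvd_natCast, hD]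
    simp only [Int.natCast_natAbs, dvd_abs]
    have h3 := (Nat.modEq_iff_dvd.1 hmod.symm)
    push_cast at h3
    have h4 : ((k : ℤ) - l) * q + ((i : ℤ) - j) = (k * q + c + i) - (l * q + c + j) := by ring
    rw [h4]
    exact h3
  have hcardF : (F.card : ℝ) ≤ (2 * h + 1) * (3 * x) := by
    have d1 : F.card ≤ ∑ t ∈ Finset.Icc (-(h : ℤ)) h, (D t).primeFactors.card :=
      (Finset.card_le_card hsub).trans Finset.card_biUnion_le
    have d2 : ((∑ t ∈ Finset.Icc (-(h : ℤ)) h, (D t).primeFactors.card : ℕ) : ℝ) ≤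
        (2 * h + 1) * (3 * x) := by
      push_cast
      calc ∑ t ∈ Finset.Icc (-(h : ℤ)) h, ((D t).primeFactors.card : ℝ)
          ≤ ∑ _t ∈ Finset.Icc (-(h : ℤ)) h, (3 * x) :=
            Finset.sum_le_sum (fun t ht => r6b_card (hD0 t ht) hx0.le (hDle t ht))
        _ = (2 * h + 1) * (3 * x) := by
            rw [Finset.sum_const, Int.card_Icc, nsmul_eq_mul]
            have : ((h : ℤ) + 1 - -(h : ℤ)).toNat = 2 * h + 1 := by omega
            rw [this]
            push_cast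
            ring
    exact (by exact_mod_cast d1 : (F.card : ℝ) ≤ _).trans d2
  have hx8 : (0 : ℝ) < x ^ 8 := by positivity
  calc ∑ p ∈ F, 1 / (p : ℝ) ≤ ∑ _p ∈ F, 1 / x ^ 8 := by
        apply Finset.sum_le_sum
        intro p hp
        rw [hF, Finset.mem_filter] at hp
        have hpE := hp.1
        unfold EP at hpE
        rw [Finset.mem_filter] at hpE
        exact one_div_le_one_div_of_le hx8 hpE.2.2.2.le
    _ = F.card * (1 / x ^ 8) := by rw [Finset.sum_const, nsmul_eq_mul]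
    _ ≤ ((2 * h + 1) * (3 * x)) * (1 / x ^ 8) :=
        mul_le_mul_of_nonneg_right hcardF (by positivity)
    _ ≤ 1 / x ^ 4 := by
        have e1 : (2 * (h : ℝ) + 1) * (3 * x) ≤ x ^ 4 := by
          have f1 : 2 * (h : ℝ) + 1 ≤ (2 * lam + 1) * x ^ 2 := by nlinarith
          have f2 : (2 * (h : ℝ) + 1) * (3 * x) ≤ ((2 * lam + 1) * x ^ 2) * (3 * x) :=
            mul_le_mul_of_nonneg_right f1 (by positivity)
          have f3 : ((2 * lam + 1) * x ^ 2) * (3 * x) = x ^ 3 * (6 * lam + 3) := by ring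
          have f4 : x ^ 3 * (6 * lam + 3) ≤ x ^ 3 * x :=
            mul_le_mul_of_nonneg_left hxl (by positivity)
          calc _ ≤ _ := f2
            _ = _ := f3
            _ ≤ _ := f4
            _ = x ^ 4 := by ring
        rw [mul_one_div, div_le_div_iff₀ hx8 (by positivity)]
        calc (2 * (h : ℝ) + 1) * (3 * x) * x ^ 4 ≤ x ^ 4 * x ^ 4 :=
              mul_le_mul_of_nonneg_right e1 (by positivity)
          _ = 1 * x ^ 8 := by ring

end Pool.Agent.LibThin21
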