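import Pool.Agent.LibThin21.R6c
import Pool.Agent.LibThin21.R6a
import Pool.Agent.LibThin21.R6b

/-!
At a good scale, for every centre `c`, with probability `≥ 1 - ε` some row is completely hit: from the
weight of the rows with few survivors. The length parameter `lam` may depend on `x`.
-/

namespace Pool.Agent.LibThin21

open Filter Topology MeasureTheory ProbabilityTheory
open Pool.Agent.LibMaier

variable {Ω : Type*} [MeasurableSpace Ω] {μ : Measure Ω} [IsProbabilityMeasure μ] {E : Set ℕ}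
  {a : ℕ → Ω → ℕ}

lemma r6d_num {ε Lam : ℝ} (hε : 0 < ε) (hLam : 0 < Lam) :
    ∀ᶠ x : ℝ in atTop, 1 < x ∧ 1 ≤ Real.log x ∧ Real.log (2 * x) ≤ ε * x ∧
      eg * (Lam * x) * x ^ (1 / 4 : ℝ) + 1 ≤ x ^ (3 / 2 : ℝ) ∧
      (∀ lam : ℝ, 1 / Real.log x ^ 2 ≤ lam →
        eg * (lam * x) * x ^ (1 / 4 : ℝ) + 2 ≤ lam * x ^ 2) ∧
      2 * x ^ (3 / 2 : ℝ) ≤ x ^ 8 ∧ Lam * x ^ 2 + 1 ≤ x ^ 8 ∧
      1 / x ^ 4 ≤ ε / 16 * (1 / (2 * x)) ^ 2 ∧ 1 / x ^ 4 ≤ (1 / (2 * x)) / 2 ∧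
      Real.exp (8 * (x ^ (3 / 2 : ℝ)) * (1 / x ^ 4) / (1 / (2 * x)) ^ 2) ≤ 1 + ε / 16 ∧
      8 * (Real.exp (-((1 - 2 * ε) * x)) / (ε * Real.exp (-((1 - 4 * ε) * x)))) ≤ ε / 2 := by
  have heg := eg_pos
  have t0 : Tendsto (fun x : ℝ => Real.log x) atTop atTop := Real.tendsto_log_atTop
  have t1 : Tendsto (fun x : ℝ => Real.log x / x) atTop (𝓝 0) := by
    have := Real.isLittleO_log_id_atTop.tendsto_div_nhds_zero
    simpa using this
  have t2 : Tendsto (fun x : ℝ => x ^ (1 / 4 : ℝ)) atTop atTop := tendsto_rpow_atTop (by norm_num)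
  have t3 : Tendsto (fun x : ℝ => Real.log x / x ^ (1 / 4 : ℝ)) atTop (𝓝 0) :=
    (isLittleO_log_rpow_atTop (by norm_num)).tendsto_div_nhds_zero
  have t4 : Tendsto (fun x : ℝ => Real.exp (32 * x ^ (-(1 / 2) : ℝ))) atTop (𝓝 1) := by
    have h1 : Tendsto (fun x : ℝ => x ^ (-(1 / 2) : ℝ)) atTop (𝓝 0) :=
      tendsto_rpow_neg_atTop (by norm_num)
    have h2 := (h1.const_mul 32)
    rw [mul_zero] at h2
    have h3 := (Real.continuous_exp.tendsto 0).comp h2
    rw [Real.exp_zero] at h3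
    exact h3
  have t5 : Tendsto (fun x : ℝ => Real.exp (-(2 * ε * x))) atTop (𝓝 0) := by
    apply Real.tendsto_exp_atBot.comp
    exact tendsto_neg_atTop_atBot.comp (tendsto_id.const_mul_atTop (by positivity))
  filter_upwards [eventually_gt_atTop (1 : ℝ), t0.eventually_ge_atTop 1,
    t1.eventually_le_const (show 0 < ε / 2 by positivity), t2.eventually_ge_atTop (2 * (eg * Lam)), t2.eventually_ge_atTop (2 * eg),
    t2.eventually_ge_atTop 2, t3.eventually_le_const (show (0 : ℝ) < 1 / 4 by norm_num),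
    t4.eventually_le_const (show (1 : ℝ) < 1 + ε / 16 by linarith [hε]),
    t5.eventually_le_const (show (0 : ℝ) < ε ^ 2 / 16 by positivity),
    eventually_ge_atTop (Lam + 1), eventually_ge_atTop (64 / ε), eventually_ge_atTop (2 : ℝ)]
    with x hx1 hl1 hlx h4 h4' h42 hl4 hexp hexp2 hxL hxe hx2
  have hx0 : 0 < x := by linarith
  set r : ℝ := x ^ (1 / 4 : ℝ) with hr
  have hr0 : 0 < r := Real.rpow_pos_of_pos hx0 _
  have hr4 : r ^ 4 = x := by
    rw [hr, ← Real.rpow_natCast, ← Real.rpow_mul hx0.le]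
    norm_num
  have hr32 : x ^ (3 / 2 : ℝ) = r ^ 6 := by
    rw [hr, ← Real.rpow_natCast, ← Real.rpow_mul hx0.le]
    norm_num
  have hr1 : 1 ≤ r := by linarith
  refine ⟨hx1, hl1, ?_, ?_, ?_, ?_, ?_, ?_, ?_, ?_, ?_⟩
  · rw [div_le_iff₀ hx0] at hlx
    rw [Real.log_mul (by norm_num) hx0.ne']
    have e1 : Real.log 2 ≤ Real.log x := Real.log_le_log (by norm_num) hx2
    linarith
  · rw [hr32]
    have e1 : eg * (Lam * x) * r = eg * Lam * r ^ 5 := by rw [← hr4]; ring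
    rw [e1]
    have e2 : 2 * (eg * Lam) * r ^ 5 ≤ r * r ^ 5 := mul_le_mul_of_nonneg_right h4 (by positivity)
    have e3 : (2 : ℝ) ≤ r ^ 6 := by
      calc (2 : ℝ) ≤ r := h42
        _ = r ^ 1 := (pow_one r).symm
        _ ≤ r ^ 6 := pow_le_pow_right₀ hr1 (by norm_num)
    nlinarith
  · intro lam hlam
    have hlog0 : 0 < Real.log x := by linarith
    have hlr : Real.log x ≤ r / 4 := by
      rw [div_le_iff₀ hr0] at hl4
      linarith
    have hlam1 : 16 ≤ lam * r ^ 2 := by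
      have e1 : 1 / (r / 4) ^ 2 ≤ 1 / Real.log x ^ 2 := by
        apply one_div_le_one_div_of_le (by positivity)
        exact pow_le_pow_left₀ hlog0.le hlr 2
      have e2 : 1 / (r / 4) ^ 2 = 16 / r ^ 2 := by field_simp; norm_num
      rw [e2] at e1
      have e3 : 16 / r ^ 2 ≤ lam := e1.trans hlam
      rw [div_le_iff₀ (by positivity)] at e3
      exact e3
    have hlam0 : 0 < lam := by
      by_contra hcon
      push Not at hcon
      have : lam * r ^ 2 ≤ 0 := mul_nonpos_of_nonpos_of_nonneg hcon (by positivity)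
      linarith
    have e1 : eg * (lam * x) * r = eg * lam * r ^ 5 := by rw [← hr4]; ring
    have e2 : lam * x ^ 2 = lam * r ^ 8 := by rw [← hr4]; ring
    rw [e1, e2]
    have e3 : 2 * eg * (lam * r ^ 5) ≤ r * (lam * r ^ 5) :=
      mul_le_mul_of_nonneg_right h4' (by positivity)
    have e4 : lam * r ^ 6 ≤ lam * r ^ 8 := by
      apply mul_le_mul_of_nonneg_left _ hlam0.le
      exact pow_le_pow_right₀ hr1 (by norm_num)
    have e5 : 16 ≤ lam * r ^ 8 := by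
      refine hlam1.trans ?_
      apply mul_le_mul_of_nonneg_left _ hlam0.le
      exact pow_le_pow_right₀ hr1 (by norm_num)
    nlinarith
  · rw [hr32, ← hr4]
    have e1 : (2 : ℝ) * r ^ 6 ≤ r * r ^ 6 := mul_le_mul_of_nonneg_right h42 (by positivity)
    have e2 : r ^ 7 ≤ r ^ 32 := pow_le_pow_right₀ hr1 (by norm_num)
    calc 2 * r ^ 6 ≤ r * r ^ 6 := e1
      _ = r ^ 7 := by ring
      _ ≤ r ^ 32 := e2
      _ = (r ^ 4) ^ 8 := by ring
  · have e1 : 1 ≤ x ^ 2 := by nlinarith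
    calc Lam * x ^ 2 + 1 ≤ (Lam + 1) * x ^ 2 := by nlinarith
      _ ≤ x * x ^ 2 := mul_le_mul_of_nonneg_right hxL (by positivity)
      _ = x ^ 3 := by ring
      _ ≤ x ^ 8 := pow_le_pow_right₀ hx1.le (by norm_num)
  · have e1 : 64 / ε ≤ x ^ 2 := hxe.trans (by nlinarith)
    rw [div_le_iff₀ hε] at e1
    rw [div_pow, one_pow, div_mul_div_comm, mul_one, div_le_div_iff₀ (by positivity) (by positivity)]
    have e2 : 0 < x ^ 2 := by positivity
    nlinarith
  · rw [div_div, div_le_div_iff₀ (by positivity) (by positivity)]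
    have e1 : x * 4 ≤ x ^ 4 := by
      have e2 : (2 : ℝ) ^ 3 ≤ x ^ 3 := pow_le_pow_left₀ (by norm_num) hx2 3
      calc x * 4 ≤ x * x ^ 3 := by
            apply mul_le_mul_of_nonneg_left _ hx0.le
            linarith
        _ = x ^ 4 := by ring
    linarith
  · have e1 : 8 * x ^ (3 / 2 : ℝ) * (1 / x ^ 4) / (1 / (2 * x)) ^ 2 = 32 * x ^ (-(1 / 2) : ℝ) := by
      have e2 : x ^ (-(1 / 2) : ℝ) = x ^ (3 / 2 : ℝ) / x ^ 2 := by
        rw [← Real.rpow_natCast x 2, ← Real.rpow_sub hx0]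
        norm_num
      rw [e2]
      field_simp
      norm_num
    rw [e1]
    exact hexp
  · have e1 : Real.exp (-((1 - 2 * ε) * x)) = Real.exp (-(2 * ε * x)) *
        Real.exp (-((1 - 4 * ε) * x)) := by
      rw [← Real.exp_add]
      congr 1
      ring
    have e2 : 0 < Real.exp (-((1 - 4 * ε) * x)) := Real.exp_pos _
    rw [e1, mul_div_mul_right _ _ e2.ne']
    calc 8 * (Real.exp (-(2 * ε * x)) / ε) ≤ 8 * (ε ^ 2 / 16 / ε) := by gcongr
      _ = ε / 2 := by field_simp; norm_num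

open Classical in
theorem scale_final (hE : Thin E) (hM : Model μ E a) {ε Lam v0 : ℝ} (hε : 0 < ε)
    (hε1 : ε < 1 / 100) (hv0 : 0 ≤ v0) (hLam : 0 < Lam) :
    ∀ᶠ x : ℝ in atTop, ∀ z p0 q k1 k2 : ℕ, GoodScale ε Lam v0 x z p0 q k1 k2 →
      ∀ lam : ℝ, 1 / Real.log x ^ 2 ≤ lam → lam ≤ Lam →
      ∀ Q : ℝ, Q = ∏ p ∈ EP E (x ^ 8) (Real.exp (x / 3)), (1 - 1 / (p : ℝ)) → 1 / (2 * x) ≤ 1 - Q →
      (1 + 50 * ε) * (eg / 2) * lam * (Real.log (1 / (1 - Q)) / Q) ≤ 1 - 5 * ε →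
      ∀ c : ℕ, c < q →
      (∀ K : ℝ, (1 + 30 * ε) * (eg / 2) * (lam * x) * DQ E q x ≤ K →
        ε ≤ ∑ k ∈ (Finset.Ico k1 k2).filter
          (fun k => ((TT E q c k ⌊lam * x ^ 2⌋₊).card : ℝ) ≤ K), Wt q x k) →
      1 - ε ≤ μ.real {ω | ∃ k ∈ Finset.Ico k1 k2, ∃ T : Finset ℕ, TT E q c k ⌊lam * x ^ 2⌋₊ ⊆ T ∧
        ∀ i ∈ T, ∃ p ∈ EP E (x ^ 8) (Real.exp (x / 3)), k * q + c + i ≡ a p ω [MOD p]} := by
  filter_upwards [r6d_num hε hLam, DQ_le (lam := Lam) (v0 := v0) hE hε hε1,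
    GoodScale.sizes (lam := Lam) hε hε1 hv0 hLam,
    few_common (E := E) (lam := Lam) hε hε1 hv0 hLam,
    SE_small hE (show (0 : ℝ) < 1 / 8 by norm_num)] with x hnum hDQ hsz hfc hSE
  obtain ⟨hx1, hl1, hlx, hK1, hK2, hb1, hb2, hn1, hn2, hn3, hn4⟩ := hnum
  intro z p0 q k1 k2 hG lam hlam1 hlam2 Q hQ hyx hcond c hc hrows
  have heg := eg_pos
  have hx0 : 0 < x := by linarith
  have hlog0 : 0 < Real.log x := by linarith
  have hlam0 : 0 < lam := lt_of_lt_of_le (by positivity) hlam1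
  set P := EP E (x ^ 8) (Real.exp (x / 3)) with hPd
  have hP : ∀ p ∈ P, p.Prime ∧ p ∈ E := fun p hp => by
    rw [hPd, mem_EP (Real.exp_pos _).le] at hp
    exact ⟨hp.1, hp.2.1⟩
  have hPx : ∀ p ∈ P, x ^ 8 < (p : ℝ) := fun p hp => by
    rw [hPd, mem_EP (Real.exp_pos _).le] at hp
    exact hp.2.2.1
  set V := LSieve.V P with hV
  have hQV : Q = 1 / V := by
    rw [hQ, prod_one_sub_eq fun p hp => (hP p hp).1]
  set D := DQ E q x with hD
  have hD1 : 1 ≤ D := one_le_DQ E q x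
  have hDV : D ≤ (1 + ε) ^ 4 * V := hDQ z p0 q k1 k2 hG
  have hV0 : 0 < V := LSieve.V_pos fun p hp => (hP p hp).1
  have hSEP : ∑ p ∈ P, 1 / (p : ℝ) ≤ 1 / 8 * Real.log x := by
    refine le_trans ?_ hSE
    have h1 : SE E (x ^ 8) (Real.exp (x / 3)) ≤ SE E 1 (Real.exp x) := by
      apply SE_mono
      · exact one_le_pow₀ hx1.le
      · exact Real.exp_le_exp.2 (by linarith)
    exact h1
  have hVr : V ≤ x ^ (1 / 4 : ℝ) := by
    have h1 := V_le_exp fun p hp => (hP p hp).1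
    refine h1.trans ?_
    rw [Real.rpow_def_of_pos hx0]
    apply Real.exp_le_exp.2
    linarith
  set r : ℝ := x ^ (1 / 4 : ℝ) with hr
  have hr0 : 0 < r := Real.rpow_pos_of_pos hx0 _
  have hfac : (1 + 30 * ε) * (1 + ε) ^ 4 ≤ 1 + 40 * ε := by
    have h2 : (1 + ε) ^ 2 ≤ 1 + 2.01 * ε := by nlinarith
    have h4 : (1 + ε) ^ 4 ≤ 1 + 4.1 * ε := by
      have : (1 + ε) ^ 4 = ((1 + ε) ^ 2) * ((1 + ε) ^ 2) := by ring
      rw [this]
      have h0 : 0 ≤ (1 + ε) ^ 2 := by positivity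
      nlinarith
    nlinarith
  set R : ℝ := (1 + 30 * ε) * (eg / 2) * (lam * x) * D with hR
  have hR0 : 0 ≤ R := by positivity
  have hRV : R ≤ (1 + 40 * ε) * (eg / 2) * (lam * x) * V := by
    calc R ≤ (1 + 30 * ε) * (eg / 2) * (lam * x) * ((1 + ε) ^ 4 * V) := by
          rw [hR]
          exact mul_le_mul_of_nonneg_left hDV (by positivity)
      _ = ((1 + 30 * ε) * (1 + ε) ^ 4) * ((eg / 2) * (lam * x) * V) := by ring
      _ ≤ (1 + 40 * ε) * ((eg / 2) * (lam * x) * V) :=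
          mul_le_mul_of_nonneg_right hfac (by positivity)
      _ = (1 + 40 * ε) * (eg / 2) * (lam * x) * V := by ring
  have hRr : R ≤ eg * (lam * x) * r := by
    refine hRV.trans ?_
    have h1 : (1 + 40 * ε) * (eg / 2) ≤ eg := by nlinarith
    calc (1 + 40 * ε) * (eg / 2) * (lam * x) * V ≤ eg * (lam * x) * V := by
          have h2 : 0 ≤ (lam * x) * V := by positivity
          nlinarith
      _ ≤ eg * (lam * x) * r := mul_le_mul_of_nonneg_left hVr (by positivity)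
  set K : ℕ := ⌈R⌉₊ with hK
  have hKR : R ≤ (K : ℝ) := Nat.le_ceil R
  have hKR' : (K : ℝ) ≤ R + 1 := (Nat.ceil_lt_add_one hR0).le
  have hK32 : (K : ℝ) ≤ x ^ (3 / 2 : ℝ) := by
    refine hKR'.trans (le_trans ?_ hK1)
    have h1 : eg * (lam * x) * r ≤ eg * (Lam * x) * r := by gcongr
    linarith
  set h : ℕ := ⌊lam * x ^ 2⌋₊ with hh
  have hKh : K ≤ h := by
    apply Nat.le_floor
    have h1 := hK2 lam hlam1
    linarith
  have hhH : h ≤ ⌊Lam * x ^ 2⌋₊ := by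
    apply Nat.floor_mono
    gcongr
  obtain ⟨hk1, hk1e, -, -, -, hqbig, -, -⟩ := hsz z p0 q k1 k2 hG
  have hhq : h < q := by
    have h1 : (h : ℝ) ≤ Lam * x ^ 2 := by
      refine le_trans ?_ (Nat.floor_le (by positivity : 0 ≤ Lam * x ^ 2))
      exact_mod_cast hhH
    have h2 : (h : ℝ) < (q : ℝ) := by linarith
    exact_mod_cast h2
  have hbig : ∀ p ∈ P, 2 * K ≤ p ∧ h < p := by
    intro p hp
    have h1 := hPx p hp
    constructor
    · have h2 : ((2 * K : ℕ) : ℝ) ≤ (p : ℝ) := by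
        push_cast
        linarith
      exact_mod_cast h2
    · have h3 : (h : ℝ) ≤ Lam * x ^ 2 := by
        refine le_trans ?_ (Nat.floor_le (by positivity : 0 ≤ Lam * x ^ 2))
        exact_mod_cast hhH
      have h2 : (h : ℝ) < (p : ℝ) := by linarith
      exact_mod_cast h2
  set y : ℝ := 1 - Q with hy
  have hy0 : 0 < y := lt_of_lt_of_le (by positivity) hyx
  have hQ0 : 0 < Q := by rw [hQV]; positivity
  have hy1 : y ≤ 1 := by linarith
  set s := (Finset.Ico k1 k2).filter (fun k => ((TT E q c k h).card : ℝ) ≤ (K : ℝ)) with hs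
  have hWs : ε ≤ ∑ k ∈ s, Wt q x k := hrows K hKR
  have hexT : ∀ k : ℕ, ∃ T : Finset ℕ, k ∈ s → TT E q c k h ⊆ T ∧ T ⊆ Finset.Icc 1 h ∧
      T.card = K := by
    intro k
    by_cases hk : k ∈ s
    · have h1 : TT E q c k h ⊆ Finset.Icc 1 h := by
        intro i hi
        unfold TT cols at hi
        rw [Finset.mem_filter, Finset.mem_filter] at hi
        exact hi.1.1
      have h2 : (TT E q c k h).card ≤ K := by
        have := (Finset.mem_filter.1 hk).2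
        exact_mod_cast this
      have h3 : K ≤ (Finset.Icc 1 h).card := by
        rw [Nat.card_Icc, Nat.add_sub_cancel]
        exact hKh
      obtain ⟨T, hT1, hT2, hT3⟩ := Finset.exists_subsuperset_card_eq h1 h2 h3
      exact ⟨T, fun _ => ⟨hT1, hT2, hT3⟩⟩
    · exact ⟨∅, fun h1 => absurd h1 hk⟩
  choose T hT using hexT
  have hq1 : 1 ≤ q := by omega
  have hk1pos : (0 : ℝ) < k1 := by exact_mod_cast hk1
  have hwk : ∀ k ∈ s, k1 ≤ k := fun k hk => (Finset.mem_Ico.1 (Finset.mem_filter.1 hk).1).1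
  have hinvp : ∀ p ∈ P, 1 / (p : ℝ) ^ 2 ≤ 1 / x ^ 8 * (1 / (p : ℝ)) := by
    intro p hp
    have h1 := hPx p hp
    have h2 : (0 : ℝ) < (p : ℝ) := lt_trans (by positivity) h1
    rw [div_mul_div_comm, one_mul]
    apply one_div_le_one_div_of_le (by positivity)
    nlinarith
  have hS2 : (K.choose 2 : ℝ) * (∑ p ∈ P, 1 / (p : ℝ) ^ 2) ≤ ε / 16 * y ^ 2 := by
    have h1 : (K.choose 2 : ℝ) ≤ (K : ℝ) ^ 2 / 2 := by
      rw [Nat.cast_choose_two]
      have : (0 : ℝ) ≤ (K : ℝ) := Nat.cast_nonneg K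
      nlinarith
    have h2 : (K : ℝ) ^ 2 ≤ x ^ 3 := by
      calc (K : ℝ) ^ 2 ≤ (x ^ (3 / 2 : ℝ)) ^ 2 := by gcongr
        _ = x ^ 3 := by
            rw [← Real.rpow_natCast, ← Real.rpow_mul hx0.le, ← Real.rpow_natCast]
            norm_num
    have h3 : ∑ p ∈ P, 1 / (p : ℝ) ^ 2 ≤ 1 / x ^ 8 * x := by
      calc ∑ p ∈ P, 1 / (p : ℝ) ^ 2 ≤ ∑ p ∈ P, 1 / x ^ 8 * (1 / (p : ℝ)) := Finset.sum_le_sum hinvp
        _ = 1 / x ^ 8 * ∑ p ∈ P, 1 / (p : ℝ) := by rw [Finset.mul_sum]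
        _ ≤ 1 / x ^ 8 * x := by
            apply mul_le_mul_of_nonneg_left _ (by positivity)
            have : Real.log x ≤ x := by
              have := Real.log_le_sub_one_of_pos hx0
              linarith
            linarith
    have h0 : 0 ≤ ∑ p ∈ P, 1 / (p : ℝ) ^ 2 := Finset.sum_nonneg fun p _ => by positivity
    calc (K.choose 2 : ℝ) * (∑ p ∈ P, 1 / (p : ℝ) ^ 2) ≤ (x ^ 3 / 2) * (1 / x ^ 8 * x) :=
          mul_le_mul (h1.trans (by linarith)) h3 h0 (by positivity)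
      _ = 1 / x ^ 4 / 2 := by field_simp
      _ ≤ 1 / x ^ 4 := by
          have : 0 ≤ 1 / x ^ 4 := by positivity
          linarith
      _ ≤ ε / 16 * (1 / (2 * x)) ^ 2 := hn1
      _ ≤ ε / 16 * y ^ 2 := by gcongr
  have hcom : ∀ k ∈ s, ∀ l ∈ s, k ≠ l →
      ∑ p ∈ P.filter (fun p => ∃ i ∈ Finset.Icc 1 h, ∃ j ∈ Finset.Icc 1 h,
        k * q + c + i ≡ l * q + c + j [MOD p]), 1 / (p : ℝ) ≤ 1 / x ^ 4 := by
    intro k hk l hl hkl
    refine le_trans (Finset.sum_le_sum_of_subset_of_nonneg ?_ fun p _ _ => by positivity)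
      (hfc z p0 q k1 k2 hG c k (Finset.mem_filter.1 hk).1 l (Finset.mem_filter.1 hl).1 hkl)
    intro p hp
    rw [Finset.mem_filter] at hp ⊢
    obtain ⟨hpP, i, hi, j, hj, hij⟩ := hp
    rw [Finset.mem_Icc] at hi hj
    exact ⟨hpP, i, Finset.mem_Icc.2 ⟨hi.1, hi.2.trans hhH⟩, j,
      Finset.mem_Icc.2 ⟨hj.1, hj.2.trans hhH⟩, hij⟩
  have hexpK : Real.exp (8 * K * (1 / x ^ 4) / y ^ 2) ≤ 1 + ε / 16 := by
    refine le_trans (Real.exp_le_exp.2 ?_) hn3
    have h1 : 8 * (K : ℝ) * (1 / x ^ 4) ≤ 8 * x ^ (3 / 2 : ℝ) * (1 / x ^ 4) := by gcongr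
    have h2 : (1 / (2 * x)) ^ 2 ≤ y ^ 2 := by gcongr
    exact div_le_div₀ (by positivity) h1 (by positivity) h2
  have hcore := rows_core (μ := μ) (a := a) hM (P := P) (s := s) hP (q := q) (c := c) (h := h) (K := K)
    T (fun k hk => (hT k hk).2.1) (fun k hk => (hT k hk).2.2) hhq hbig
    (w := fun k => Wt q x k) (wm := 1 / (k1 : ℝ)) (W := ∑ k ∈ s, Wt q x k) (η := ε / 16) (y := y)
    (τ := 1 / x ^ 4) (by rw [hy, hQ]) hy0 (by positivity) (by linarith)
    (fun k hk => Wt_nonneg hq1 (hk1.trans (hwk k hk)) x)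
    (fun k hk => (Wt_le_inv hq1 (hk1.trans (hwk k hk)) x).trans (by
      apply one_div_le_one_div_of_le hk1pos
      exact_mod_cast hwk k hk)) rfl (by linarith) hS2 hcom (by positivity)
    (hn2.trans (by linarith)) hexpK
  have hyK : Real.exp (-((1 - 4 * ε) * x)) ≤ y ^ K := by
    have h1 : y ^ K = Real.exp (-((K : ℝ) * Real.log (1 / y))) := by
      rw [one_div, Real.log_inv, mul_neg, neg_neg, mul_comm, ← Real.rpow_def_of_pos hy0,
        Real.rpow_natCast]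
    rw [h1]
    apply Real.exp_le_exp.2
    apply neg_le_neg
    have hL0 : 0 ≤ Real.log (1 / y) := by
      apply Real.log_nonneg
      rw [le_div_iff₀ hy0]
      linarith
    have hL1 : Real.log (1 / y) ≤ Real.log (2 * x) := by
      apply Real.log_le_log (by positivity)
      rw [div_le_iff₀ hy0]
      rw [div_le_iff₀ (by positivity)] at hyx
      linarith
    have h2 : (1 + 40 * ε) * (eg / 2) * (lam * x) * V * Real.log (1 / y) ≤ x * (1 - 5 * ε) := by
      calc (1 + 40 * ε) * (eg / 2) * (lam * x) * V * Real.log (1 / y) =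
            x * ((1 + 40 * ε) * ((eg / 2) * lam * (Real.log (1 / y) * V))) := by ring
        _ ≤ x * ((1 + 50 * ε) * ((eg / 2) * lam * (Real.log (1 / y) * V))) := by
            apply mul_le_mul_of_nonneg_left _ hx0.le
            apply mul_le_mul_of_nonneg_right (by linarith)
            positivity
        _ = x * ((1 + 50 * ε) * (eg / 2) * lam * (Real.log (1 / (1 - Q)) / Q)) := by
            rw [hQV]
            rw [div_div_eq_mul_div, div_one, ← hQV, ← hy]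
            ring
        _ ≤ x * (1 - 5 * ε) := mul_le_mul_of_nonneg_left hcond hx0.le
    calc (K : ℝ) * Real.log (1 / y) ≤ (R + 1) * Real.log (1 / y) :=
          mul_le_mul_of_nonneg_right hKR' hL0
      _ = R * Real.log (1 / y) + Real.log (1 / y) := by ring
      _ ≤ (1 + 40 * ε) * (eg / 2) * (lam * x) * V * Real.log (1 / y) + Real.log (2 * x) :=
          add_le_add (mul_le_mul_of_nonneg_right hRV hL0) hL1
      _ ≤ x * (1 - 5 * ε) + ε * x := add_le_add h2 hlx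
      _ = (1 - 4 * ε) * x := by ring
  have hfin : 8 * (1 / (k1 : ℝ) / ((∑ k ∈ s, Wt q x k) * y ^ K)) ≤ ε / 2 := by
    refine le_trans ?_ hn4
    apply mul_le_mul_of_nonneg_left _ (by norm_num)
    have h1 : 1 / (k1 : ℝ) ≤ Real.exp (-((1 - 2 * ε) * x)) := by
      rw [Real.exp_neg, ← one_div]
      exact one_div_le_one_div_of_le (Real.exp_pos _) hk1e
    exact div_le_div₀ (Real.exp_pos _).le h1 (by positivity)
      (mul_le_mul hWs hyK (Real.exp_pos _).le (by linarith))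
  have hsub : (⋃ k ∈ s, {ω | ∀ i ∈ T k, ∃ p ∈ P, k * q + c + i ≡ a p ω [MOD p]}) ⊆
      {ω | ∃ k ∈ Finset.Ico k1 k2, ∃ T : Finset ℕ, TT E q c k h ⊆ T ∧
        ∀ i ∈ T, ∃ p ∈ P, k * q + c + i ≡ a p ω [MOD p]} := by
    intro ω hω
    simp only [Set.mem_iUnion] at hω
    obtain ⟨k, hk, hkω⟩ := hω
    exact ⟨k, (Finset.mem_filter.1 hk).1, T k, (hT k hk).1, hkω⟩
  have hmono := measureReal_mono (μ := μ) hsub (measure_ne_top _ _)
  linarith

end Pool.Agent.LibThin21
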