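import Pool.Agent.LibThin21.H1
import Pool.Agent.LibThin21.R4
import Pool.Agent.LibThin21.R5
import Pool.Agent.LibThin21.R6

/-!
From the scales to long windows free of sifted elements.
-/

namespace Pool.Agent.LibThin21

open Filter Topology MeasureTheory ProbabilityTheory
open Pool.Agent.LibMaier Pool.Agent.LibCramer

variable {Ω : Type*} [MeasurableSpace Ω] {μ : Measure Ω} [IsProbabilityMeasure μ] {E : Set ℕ}
  {a : ℕ → Ω → ℕ}

lemma exists_v0 {ε : ℝ} (hε : 0 < ε) : ∃ v0 : ℝ, 0 ≤ v0 ∧ 1 - ε ≤ ∫ v in (-v0)..v0, gw v := by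
  have h1 := intervalIntegral_tendsto_integral (μ := volume) (f := gw) (l := atTop)
    (a := fun v : ℝ => -v) (b := fun v : ℝ => v) integrable_gw tendsto_neg_atTop_atBot tendsto_id
  rw [integral_gw] at h1
  obtain ⟨v0, h2, h3⟩ := ((h1.eventually_const_le (show 1 - ε < 1 by linarith)).and
    (eventually_ge_atTop 0)).exists
  exact ⟨v0, h3, h2⟩

/-- a good modulus is squarefree with prime factors at most `z` -/
lemma GoodScale.squarefree {ε lam v0 x : ℝ} {z p0 q k1 k2 : ℕ}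
    (hG : GoodScale ε lam v0 x z p0 q k1 k2) : Squarefree q := by
  have h1 : q ∣ primorial z := ⟨p0, hG.hq.symm⟩
  exact Squarefree.squarefree_of_dvd h1 (squarefree_primorial z)

lemma GoodScale.prime_le {ε lam v0 x : ℝ} {z p0 q k1 k2 : ℕ}
    (hG : GoodScale ε lam v0 x z p0 q k1 k2) {p : ℕ} (hp : p ∈ q.primeFactors) : p ≤ z := by
  have h1 : q ∣ primorial z := ⟨p0, hG.hq.symm⟩
  have h2 := Nat.prime_of_mem_primeFactors hp
  exact h2.dvd_primorial_iff.1 ((Nat.dvd_of_mem_primeFactors hp).trans h1)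

theorem window_prob (hE : Thin E) (hM : Model μ E a) {ε lam d y1 : ℝ} (hε : 0 < ε)
    (hε1 : ε < 1 / 100) (hd : 0 < d) (hdl : d < lam) (hy1 : 0 < y1) (N : ℕ) :
    ∀ᶠ x : ℝ in atTop,
      ∀ Q : ℝ, Q = ∏ p ∈ EP E (x ^ 8) (Real.exp (x / 3)), (1 - 1 / (p : ℝ)) → y1 ≤ 1 - Q →
      (1 + 50 * ε) * (eg / 2) * lam * (Real.log (1 / (1 - Q)) / Q) ≤ 1 - 5 * ε →
      1 - ε ≤ μ.real {ω | ∃ m : ℕ, N ≤ m ∧
        sifted (fun p => a p ω) ∩ Set.Ioc m (m + len d m) = ∅} := by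
  obtain ⟨v0, hv0, hgw⟩ := exists_v0 hε
  have hlam : 0 < lam := hd.trans hdl
  have hgrow : ∀ᶠ x : ℝ in atTop, d * (x + (v0 + 1)) ^ 2 ≤ lam * x ^ 2 := by
    have h1 : Tendsto (fun x : ℝ => (v0 + 1) / x) atTop (𝓝 0) :=
      tendsto_const_nhds.div_atTop tendsto_id
    have h2 : Tendsto (fun x : ℝ => d * (1 + (v0 + 1) / x) ^ 2) atTop (𝓝 (d * (1 + 0) ^ 2)) :=
      ((tendsto_const_nhds.add h1).pow 2).const_mul d
    have h3 : d * (1 + (0 : ℝ)) ^ 2 < lam := by nlinarith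
    filter_upwards [h2.eventually_le_const h3, eventually_gt_atTop (0 : ℝ)] with x hx hx0
    calc d * (x + (v0 + 1)) ^ 2 = d * (1 + (v0 + 1) / x) ^ 2 * x ^ 2 := by
          field_simp
      _ ≤ lam * x ^ 2 := by gcongr
  have hNx : ∀ᶠ x : ℝ in atTop, (N : ℝ) ≤ Real.exp (x - (v0 + 1)) := by
    have h1 : Tendsto (fun x : ℝ => Real.exp (x - (v0 + 1))) atTop atTop :=
      Real.tendsto_exp_atTop.comp (tendsto_atTop_add_const_right _ _ tendsto_id)
    exact h1.eventually_ge_atTop _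
  have hx2 : ∀ᶠ x : ℝ in atTop, x ^ 2 ≤ Real.exp (x - (v0 + 1)) := by
    have h1 : Tendsto (fun x : ℝ => Real.exp x / x ^ 2) atTop atTop :=
      Real.tendsto_exp_div_pow_atTop 2
    filter_upwards [h1.eventually_ge_atTop (Real.exp (v0 + 1)), eventually_gt_atTop (0 : ℝ)] with x hx hx0
    rw [Real.exp_sub, le_div_iff₀ (Real.exp_pos _)]
    rw [le_div_iff₀ (by positivity)] at hx
    linarith
  filter_upwards [exists_goodScale hε hε1 hv0 hlam, scale_prob hE hM hε hε1 hv0 hlam hgw hy1, hgrow,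
    hNx, hx2, eventually_ge_atTop (1 : ℝ), eventually_ge_atTop (3 * (v0 + 1) + 1),
    eventually_ge_atTop (Real.exp 1)] with x hgood hscale hgr hN hx2' hx1 hxv hxe
  intro Q hQ hyQ hcond
  obtain ⟨z, p0, q, k1, k2, hG⟩ := hgood
  have hS := hscale z p0 q k1 k2 hG Q hQ hyQ hcond
  set P := EP E (x ^ 8) (Real.exp (x / 3)) with hP
  have hx0 : 0 < x := by linarith
  have hlogx : 1 ≤ Real.log x := by
    rw [Real.le_log_iff_exp_le hx0]
    exact hxe
  have hzx : (z : ℝ) ≤ x := by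
    have h1 := hG.hzx
    have h2 : (z : ℝ) ≤ z * Real.log x := by
      have : (0 : ℝ) ≤ z := Nat.cast_nonneg z
      nlinarith
    have h3 : ε ^ 3 * x ≤ 1 * x := by
      apply mul_le_mul_of_nonneg_right _ hx0.le
      have : ε ^ 3 ≤ 1 ^ 3 := by
        apply pow_le_pow_left₀ hε.le
        linarith
      simpa using this
    linarith
  have hq1 : 1 ≤ q := by
    rcases Nat.eq_zero_or_pos q with h | h
    · exfalso
      have h1 := hG.hq
      rw [h, zero_mul] at h1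
      exact primorial_ne_zero z h1.symm
    · exact h
  have hk1q : (0 : ℝ) < (k1 : ℝ) * q := by
    rcases (mul_nonneg (Nat.cast_nonneg k1) (Nat.cast_nonneg q) :
      (0 : ℝ) ≤ (k1 : ℝ) * q).lt_or_eq with h | h
    · exact h
    · exfalso
      have h1 := hG.hl1
      rw [← h, Real.log_zero] at h1
      linarith
  have hk1 : Real.exp (x - (v0 + 1)) ≤ (k1 : ℝ) * q := by
    rw [← Real.le_log_iff_exp_le hk1q]
    exact hG.hl1
  have hk2q : (0 : ℝ) < (k2 : ℝ) * q := by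
    refine lt_of_lt_of_le hk1q ?_
    have : (k1 : ℝ) ≤ k2 := by exact_mod_cast hG.hk12
    gcongr
  have hdisj : Disjoint q.primeFactors P := by
    rw [Finset.disjoint_left]
    intro p hp hpP
    have h1 := hG.prime_le hp
    rw [hP, mem_EP (Real.exp_pos _).le] at hpP
    have h2 : (p : ℝ) ≤ z := by exact_mod_cast h1
    have h3 : x ≤ x ^ 8 := by
      calc x = x ^ 1 := (pow_one x).symm
        _ ≤ x ^ 8 := pow_le_pow_right₀ hx1 (by norm_num)
    linarith [hpP.2.2.1]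
  classical
  let R : ℕ → (P → ℕ) → Prop := fun c α => ∃ k ∈ Finset.Ico k1 k2, ∃ T : Finset ℕ,
    TT E q c k ⌊lam * x ^ 2⌋₊ ⊆ T ∧ ∀ i ∈ T, ∃ p : P, k * q + c + i ≡ α p [MOD (p : ℕ)]
  have hcb := center_bound (μ := μ) (a := a) hM hG.squarefree hdisj R (κ := ε) (by
    intro c hc _
    refine (hS c hc).trans ?_
    apply measureReal_mono _ (measure_ne_top _ _)
    rintro ω ⟨k, hk, T, hT, hcov⟩
    refine ⟨k, hk, T, hT, fun i hi => ?_⟩
    obtain ⟨p, hp, hpi⟩ := hcov i hi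
    exact ⟨⟨p, hp⟩, hpi⟩)
  refine hcb.trans ?_
  apply measureReal_mono _ (measure_ne_top _ _)
  rintro ω ⟨c, hc, hcong, -, k, hk, T, hT, hcov⟩
  rw [Finset.mem_Ico] at hk
  have hm1 : Real.exp (x - (v0 + 1)) ≤ ((k * q + c : ℕ) : ℝ) := by
    refine hk1.trans ?_
    have h1 : k1 * q ≤ k * q + c := (Nat.mul_le_mul_right q hk.1).trans (Nat.le_add_right _ _)
    exact_mod_cast h1
  have hm2 : ((k * q + c : ℕ) : ℝ) ≤ (k2 : ℝ) * q := by
    have h1 : k * q + c ≤ k2 * q := by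
      calc k * q + c ≤ k * q + q := by omega
        _ = (k + 1) * q := by ring
        _ ≤ k2 * q := Nat.mul_le_mul_right q hk.2
    exact_mod_cast h1
  have hsq : ∀ p : ℕ, (p : ℝ) ≤ Real.exp (x / 3) → p ^ 2 ≤ k * q + c := by
    intro p hp
    have h1 : (p : ℝ) ^ 2 ≤ Real.exp (x - (v0 + 1)) := by
      calc (p : ℝ) ^ 2 ≤ Real.exp (x / 3) ^ 2 := by gcongr
        _ = Real.exp (2 * x / 3) := by
            rw [← Real.exp_nat_mul]
            congr 1
            push_cast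
            ring
        _ ≤ Real.exp (x - (v0 + 1)) := by
            apply Real.exp_le_exp.2
            linarith
    have h2 : (p : ℝ) ^ 2 ≤ ((k * q + c : ℕ) : ℝ) := h1.trans hm1
    exact_mod_cast h2
  have hwin : sifted (fun p => a p ω) ∩ Set.Ioc (k * q + c) (k * q + c + ⌊lam * x ^ 2⌋₊) = ∅ := by
    apply window_empty (α := fun p => a p ω) (fun p hp => hM.zero p hp ω) hq1 (T := T) (P := P)
    · intro p hp
      rw [hP, mem_EP (Real.exp_pos _).le] at hp
      exact ⟨hp.1, hsq p hp.2.2.2⟩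
    · intro p hp
      have h1 : (p : ℝ) ≤ z := by exact_mod_cast hG.prime_le hp
      have h2 : (p : ℝ) ^ 2 ≤ x ^ 2 := by
        have : (0 : ℝ) ≤ p := Nat.cast_nonneg p
        gcongr
        linarith
      have h3 : (p : ℝ) ^ 2 ≤ ((k * q + c : ℕ) : ℝ) := (h2.trans hx2').trans hm1
      exact_mod_cast h3
    · intro p hp
      exact hcong p hp
    · exact hT
    · intro i hi
      obtain ⟨p, hp⟩ := hcov i hi
      exact ⟨p, p.2, hp⟩
  refine ⟨k * q + c, ?_, ?_⟩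
  · have h1 : (N : ℝ) ≤ ((k * q + c : ℕ) : ℝ) := hN.trans hm1
    exact_mod_cast h1
  · have hm0 : (0 : ℝ) < ((k * q + c : ℕ) : ℝ) := lt_of_lt_of_le (Real.exp_pos _) hm1
    have hlog : Real.log ((k * q + c : ℕ) : ℝ) ≤ x + (v0 + 1) :=
      (Real.log_le_log hm0 hm2).trans hG.hl4
    have hlog0 : 0 ≤ Real.log ((k * q + c : ℕ) : ℝ) := by
      have h1 : x - (v0 + 1) ≤ Real.log ((k * q + c : ℕ) : ℝ) := by
        rw [Real.le_log_iff_exp_le hm0]
        exact hm1
      linarith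
    have hlen : len d (k * q + c) ≤ ⌊lam * x ^ 2⌋₊ := by
      unfold len
      apply Nat.floor_mono
      calc d * Real.log ((k * q + c : ℕ) : ℝ) ^ 2 ≤ d * (x + (v0 + 1)) ^ 2 := by gcongr
        _ ≤ lam * x ^ 2 := hgr
    apply Set.eq_empty_of_subset_empty
    rw [← hwin]
    rintro j ⟨hj, hj1, hj2⟩
    exact ⟨hj, hj1, hj2.trans (by omega)⟩

end Pool.Agent.LibThin21
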