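import Pool.Agent.LibThin21.Defs

/-!
ROW S1. Monotonicity and additivity of `SE`, and: a thin set satisfies
`∑_{p ∈ E, p ≤ exp x} 1/p ≤ η log x` for large `x`.

Proof of `SE_small`: write `G x = SE E 1 (exp x)` (monotone). By `Thin` choose `x0 ≥ exp (exp 1)` with
`SE E (exp (x / log x)) (exp x) ≤ η / 2` for `x ≥ x0`; for such `x`, `log x ≥ exp 1`, hence
`1 ≤ x / log x ≤ x / e` and `log (x / log x) ≤ log x - 1`. Claim (induction on `n : ℕ`): for all
`1 ≤ x ≤ exp n`, `G x ≤ G x0 + (η / 2) * log x`: for `x ≤ x0` monotonicity, otherwise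
`G x ≤ G (x / log x) + η / 2` (`SE_add_le`). Finally `G x0 ≤ (η / 2) log x` for large `x`.
-/

namespace Pool.Agent.LibThin21

open Filter Topology

lemma mem_EP {E : Set ℕ} {u v : ℝ} (hv : 0 ≤ v) {p : ℕ} :
    p ∈ EP E u v ↔ p.Prime ∧ p ∈ E ∧ u < (p : ℝ) ∧ (p : ℝ) ≤ v := by
  classical
  unfold EP
  rw [Finset.mem_filter, Finset.mem_range, Nat.lt_succ_iff, Nat.le_floor_iff hv]
  tauto

lemma SE_nonneg (E : Set ℕ) (u v : ℝ) : 0 ≤ SE E u v := by
  unfold SE
  exact Finset.sum_nonneg fun p _ => by positivity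

/-- larger interval, larger sum -/
lemma SE_mono (E : Set ℕ) {u v u' v' : ℝ} (hu : u' ≤ u) (hv : v ≤ v') : SE E u v ≤ SE E u' v' := by
  classical
  unfold SE
  apply Finset.sum_le_sum_of_subset_of_nonneg
  · intro p hp
    unfold EP at hp ⊢
    rw [Finset.mem_filter, Finset.mem_range] at hp ⊢
    have := Nat.floor_le_floor hv
    exact ⟨by omega, hp.2.1, hp.2.2.1, lt_of_le_of_lt hu hp.2.2.2⟩
  · intro p _ _
    positivity

lemma SE_add_le (E : Set ℕ) (u v w : ℝ) : SE E u w ≤ SE E u v + SE E v w := by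
  classical
  unfold SE
  have hsub : EP E u w ⊆ EP E u v ∪ EP E v w := by
    intro p hp
    unfold EP at hp
    rw [Finset.mem_filter, Finset.mem_range] at hp
    rw [Finset.mem_union]
    unfold EP
    rw [Finset.mem_filter, Finset.mem_filter, Finset.mem_range, Finset.mem_range]
    by_cases h : p < ⌊v⌋₊ + 1
    · exact Or.inl ⟨h, hp.2⟩
    · right
      refine ⟨hp.1, hp.2.1, hp.2.2.1, ?_⟩
      have h1 : ⌊v⌋₊ < p := by omega
      exact Nat.lt_of_floor_lt h1
  calc ∑ p ∈ EP E u w, 1 / (p : ℝ) ≤ ∑ p ∈ EP E u v ∪ EP E v w, 1 / (p : ℝ) := by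
        apply Finset.sum_le_sum_of_subset_of_nonneg hsub
        intro p _ _
        positivity
    _ ≤ _ := by
        have := Finset.sum_union_inter (s₁ := EP E u v) (s₂ := EP E v w)
          (f := fun p : ℕ => 1 / (p : ℝ))
        have h2 : 0 ≤ ∑ p ∈ EP E u v ∩ EP E v w, 1 / (p : ℝ) :=
          Finset.sum_nonneg fun p _ => by positivity
        linarith

theorem SE_small {E : Set ℕ} (h : Thin E) {η : ℝ} (hη : 0 < η) :
    ∀ᶠ x : ℝ in atTop, SE E 1 (Real.exp x) ≤ η * Real.log x := by
  have h1 : ∀ᶠ x : ℝ in atTop, SE E (Real.exp (x / Real.log x)) (Real.exp x) < η / 2 :=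
    (tendsto_order.1 h).2 _ (by positivity)
  obtain ⟨x1, hx1⟩ := (eventually_atTop.1 h1)
  set x0 : ℝ := max x1 (Real.exp (Real.exp 1)) with hx0
  have hx01 : x1 ≤ x0 := le_max_left _ _
  have hx02 : Real.exp (Real.exp 1) ≤ x0 := le_max_right _ _
  have he1 : (1 : ℝ) ≤ Real.exp 1 := by
    have := Real.add_one_le_exp (1 : ℝ)
    linarith
  have hee : (1 : ℝ) ≤ Real.exp (Real.exp 1) := by
    have := Real.add_one_le_exp (Real.exp 1)
    linarith
  have hx0one : (1 : ℝ) ≤ x0 := hee.trans hx02
  have key : ∀ n : ℕ, ∀ x : ℝ, 1 ≤ x → x ≤ Real.exp n →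
      SE E 1 (Real.exp x) ≤ SE E 1 (Real.exp x0) + (η / 2) * Real.log x := by
    intro n
    induction n with
    | zero =>
      intro x hx hxn
      have hx' : x ≤ x0 := by
        have : x ≤ 1 := by simpa using hxn
        linarith
      have h3 : SE E 1 (Real.exp x) ≤ SE E 1 (Real.exp x0) :=
        SE_mono E le_rfl (Real.exp_le_exp.2 hx')
      have h4 : 0 ≤ (η / 2) * Real.log x := mul_nonneg (by positivity) (Real.log_nonneg hx)
      linarith
    | succ n ih =>
      intro x hx hxn
      by_cases hxx : x ≤ x0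
      · have h3 : SE E 1 (Real.exp x) ≤ SE E 1 (Real.exp x0) :=
          SE_mono E le_rfl (Real.exp_le_exp.2 hxx)
        have h4 : 0 ≤ (η / 2) * Real.log x := mul_nonneg (by positivity) (Real.log_nonneg hx)
        linarith
      · have hxx' : x0 < x := not_le.1 hxx
        have hxpos : 0 < x := by linarith
        have hlog : Real.exp 1 ≤ Real.log x := by
          rw [Real.le_log_iff_exp_le hxpos]
          linarith
        have hlogpos : 0 < Real.log x := by linarith
        have hll : 1 ≤ Real.log (Real.log x) := by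
          rw [Real.le_log_iff_exp_le hlogpos]
          exact hlog
        have h5 : 1 ≤ x / Real.log x := by
          rw [le_div_iff₀ hlogpos, one_mul]
          have := Real.log_le_sub_one_of_pos hxpos
          linarith
        have h6 : x / Real.log x ≤ Real.exp n := by
          rw [div_le_iff₀ hlogpos]
          have h7 : Real.exp ((n + 1 : ℕ) : ℝ) = Real.exp n * Real.exp 1 := by
            rw [← Real.exp_add]
            push_cast
            ring_nf
          rw [h7] at hxn
          calc x ≤ Real.exp n * Real.exp 1 := hxn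
            _ ≤ Real.exp n * Real.log x := by gcongr
        have h8 := ih (x / Real.log x) h5 h6
        have h9 : Real.log (x / Real.log x) = Real.log x - Real.log (Real.log x) :=
          Real.log_div hxpos.ne' hlogpos.ne'
        have h10 := SE_add_le E 1 (Real.exp (x / Real.log x)) (Real.exp x)
        have h11 := hx1 x (hx01.trans hxx'.le)
        rw [h9] at h8
        have h12 : (η / 2) * (Real.log x - Real.log (Real.log x)) ≤
            (η / 2) * Real.log x - η / 2 := by nlinarith
        linarith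
  have h2 : ∀ᶠ x : ℝ in atTop, SE E 1 (Real.exp x0) ≤ (η / 2) * Real.log x := by
    have : Tendsto (fun x : ℝ => (η / 2) * Real.log x) atTop atTop :=
      Tendsto.const_mul_atTop (by positivity) Real.tendsto_log_atTop
    exact this.eventually_ge_atTop _
  filter_upwards [h2, eventually_ge_atTop (1 : ℝ)] with x h3 hx
  obtain ⟨n, hn⟩ := exists_nat_ge (Real.log x)
  have hxn : x ≤ Real.exp n := by
    rw [← Real.log_le_iff_le_exp (by linarith)]
    exact hn
  have h4 := key n x hx hxn
  linarith

end Pool.Agent.LibThin21
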