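import Pool.Agent.LibThin21.S1

/-!
ROW S2. Short ranges have small sums.

`SE_poly`: with `y = 8 * log x` (so `exp y = x ^ 8`) one has `y / log y ≤ (1/4) * log x` for large `x`,
i.e. `exp (y / log y) ≤ x ^ (1/4)`; use `Thin` at `y`.
`SE_top`: `SE E (exp (x / log x)) (exp (2 x)) ≤ SE E (exp (x / log x)) (exp x) + SE E (exp x) (exp (2x))`
and `2 x / log (2 x) ≤ x`.
-/

namespace Pool.Agent.LibThin21

open Filter Topology

theorem SE_poly {E : Set ℕ} (h : Thin E) {η : ℝ} (hη : 0 < η) :
    ∀ᶠ x : ℝ in atTop, SE E (x ^ (1 / 4 : ℝ)) (x ^ 8) ≤ η := by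
  have h1 : ∀ᶠ y : ℝ in atTop, SE E (Real.exp (y / Real.log y)) (Real.exp y) ≤ η := by
    have := h.eventually (gt_mem_nhds hη)
    exact this.mono fun y hy => hy.le
  have hy : Tendsto (fun x : ℝ => 8 * Real.log x) atTop atTop :=
    Real.tendsto_log_atTop.const_mul_atTop (by norm_num)
  filter_upwards [hy.eventually h1, eventually_gt_atTop (Real.exp (Real.exp 32))] with x hx hx2
  have hx0 : 0 < x := (Real.exp_pos _).trans hx2
  have hlx : Real.exp 32 < Real.log x := by
    rw [Real.lt_log_iff_exp_lt hx0]; exact hx2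
  have hlx0 : 0 < Real.log x := (Real.exp_pos _).trans hlx
  have hll : 32 ≤ Real.log (8 * Real.log x) := by
    rw [Real.le_log_iff_exp_le (by positivity)]
    linarith
  have h2 : 8 * Real.log x / Real.log (8 * Real.log x) ≤ (1 / 4) * Real.log x := by
    rw [div_le_iff₀ (by linarith)]
    nlinarith
  have h3 : Real.exp (8 * Real.log x / Real.log (8 * Real.log x)) ≤ x ^ (1 / 4 : ℝ) := by
    rw [Real.rpow_def_of_pos hx0]
    apply Real.exp_le_exp.2
    linarith
  have h4 : Real.exp (8 * Real.log x) = x ^ 8 := by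
    rw [mul_comm, Real.exp_mul, Real.exp_log hx0]
    norm_cast
  rw [h4] at hx
  exact (SE_mono E h3 le_rfl).trans hx

theorem SE_top {E : Set ℕ} (h : Thin E) {η : ℝ} (hη : 0 < η) :
    ∀ᶠ x : ℝ in atTop, SE E (Real.exp (x / Real.log x)) (Real.exp (2 * x)) ≤ η := by
  have h1 : ∀ᶠ y : ℝ in atTop, SE E (Real.exp (y / Real.log y)) (Real.exp y) ≤ η / 2 := by
    have := h.eventually (gt_mem_nhds (half_pos hη))
    exact this.mono fun y hy => hy.le
  have hy : Tendsto (fun x : ℝ => 2 * x) atTop atTop :=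
    tendsto_id.const_mul_atTop (by norm_num)
  filter_upwards [h1, hy.eventually h1, eventually_gt_atTop (Real.exp 2)] with x hx hx2 hx3
  have hx0 : 0 < x := (Real.exp_pos _).trans hx3
  have hl : 2 ≤ Real.log (2 * x) := by
    rw [Real.le_log_iff_exp_le (by positivity)]
    linarith
  have h2 : 2 * x / Real.log (2 * x) ≤ x := by
    rw [div_le_iff₀ (by linarith)]
    nlinarith
  have h3 : SE E (Real.exp x) (Real.exp (2 * x)) ≤ η / 2 :=
    (SE_mono E (Real.exp_le_exp.2 h2) le_rfl).trans hx2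
  have h4 := SE_add_le E (Real.exp (x / Real.log x)) (Real.exp x) (Real.exp (2 * x))
  linarith

/-- in particular above any fixed power of `X = exp x` -/
theorem SE_top' {E : Set ℕ} (h : Thin E) {η δ : ℝ} (hη : 0 < η) (hδ : 0 < δ) :
    ∀ᶠ x : ℝ in atTop, SE E (Real.exp (δ * x)) (Real.exp (2 * x)) ≤ η := by
  filter_upwards [SE_top h hη, eventually_gt_atTop (Real.exp (1 / δ)), eventually_gt_atTop 0]
    with x hx hx2 hx0
  have hl : 1 / δ < Real.log x := by
    rw [Real.lt_log_iff_exp_lt hx0]; exact hx2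
  have hl0 : 0 < Real.log x := lt_trans (by positivity) hl
  have h2 : x / Real.log x ≤ δ * x := by
    rw [div_le_iff₀ hl0]
    have : 1 ≤ δ * Real.log x := by
      rw [div_lt_iff₀ hδ] at hl
      linarith
    nlinarith
  exact (SE_mono E (Real.exp_le_exp.2 h2) le_rfl).trans hx

end Pool.Agent.LibThin21
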