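import Pool.Agent.LibThin21.Defs

/-!
ROW S4. Euler product bound: for squarefree `q` and `d ∣ q`,
`∑_{e ≤ exp x, e composed of primes of E, (e, q) = d} φ(d) / e ≤ DQ E q x`.
-/

namespace Pool.Agent.LibThin21

open Filter Topology

lemma sum_inv_le_prod (P : Finset ℕ) (hP : ∀ p ∈ P, p.Prime) (S : Finset ℕ)
    (hS : ∀ e ∈ S, e ≠ 0 ∧ ∀ p : ℕ, p.Prime → p ∣ e → p ∈ P) :
    ∑ e ∈ S, 1 / (e : ℝ) ≤ LSieve.V P := by
  classical
  let f : ℕ →* ℝ :=
    { toFun := fun n => ((n : ℝ))⁻¹
      map_one' := by simp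
      map_mul' := fun a b => by push_cast; rw [mul_inv] }
  have hf : ∀ n : ℕ, f n = (n : ℝ)⁻¹ := fun n => rfl
  have h := EulerProduct.summable_and_hasSum_factoredNumbers_prod_filter_prime_geometric (f := f)
    (fun {p} hp => by
      rw [hf, norm_inv, Real.norm_natCast]
      exact inv_lt_one_of_one_lt₀ (by exact_mod_cast hp.one_lt)) P
  obtain ⟨h1, h2⟩ := h
  have hmem : ∀ e ∈ S, e ∈ Nat.factoredNumbers P := by
    intro e he
    rw [Nat.mem_factoredNumbers']
    exact (hS e he).2
  have hprod : ∏ p ∈ P with p.Prime, (1 - f p)⁻¹ = LSieve.V P := by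
    rw [Finset.filter_true_of_mem hP]
    unfold LSieve.V
    apply Finset.prod_congr rfl
    intro p hp
    have hp2 : (2 : ℝ) ≤ p := by exact_mod_cast (hP p hp).two_le
    rw [hf]
    have : (p : ℝ) ≠ 0 := by linarith
    have h3 : (p : ℝ) - 1 ≠ 0 := by linarith
    rw [show (1 - (p : ℝ)⁻¹) = ((p : ℝ) - 1) / p by field_simp]
    rw [inv_div]
  rw [← hprod]
  let T : Finset (Nat.factoredNumbers P) := S.attach.image (fun e => ⟨e.1, hmem e.1 e.2⟩)
  have hT : ∑ e ∈ S, 1 / (e : ℝ) = ∑ m ∈ T, f m := by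
    rw [Finset.sum_image]
    · rw [← Finset.sum_attach S]
      apply Finset.sum_congr rfl
      intro e _
      rw [hf, one_div]
    · intro a _ b _ hab
      have := congrArg (fun m : Nat.factoredNumbers P => (m : ℕ)) hab
      exact Subtype.ext this
  rw [hT]
  apply sum_le_hasSum T _ h2
  intro m _
  rw [hf]
  positivity

theorem Esum_le (E : Set ℕ) {q d : ℕ} (hq : Squarefree q) (hd : d ∣ q) (x : ℝ) :
    Esum E q d 0 (Real.exp x) ≤ DQ E q x := by
  classical
  have hq0 : q ≠ 0 := hq.ne_zero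
  have hd0 : d ≠ 0 := fun h => hq0 (by rw [h] at hd; exact Nat.eq_zero_of_zero_dvd hd)
  have hdpos : 0 < d := Nat.pos_of_ne_zero hd0
  have htot : 0 < d.totient := Nat.totient_pos.2 hdpos
  set F : Finset ℕ := (Finset.Icc 1 ⌊Real.exp x⌋₊).filter
    (fun e => e ∈ ESm E ∧ Nat.gcd e q = d ∧ (0 : ℝ) < (e : ℝ)) with hF
  have hEsum : Esum E q d 0 (Real.exp x) = ∑ e ∈ F, (d.totient : ℝ) / (e : ℝ) := by
    unfold Esum
    rw [hF]
  have hdvd : ∀ e ∈ F, d ∣ e := by
    intro e he
    rw [hF, Finset.mem_filter] at he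
    rw [← he.2.2.1]
    exact Nat.gcd_dvd_left e q
  have hsum : ∑ e ∈ F, (d.totient : ℝ) / (e : ℝ) =
      ((d.totient : ℝ) / d) * ∑ m ∈ F.image (fun e => e / d), 1 / (m : ℝ) := by
    rw [Finset.sum_image, Finset.mul_sum]
    · apply Finset.sum_congr rfl
      intro e he
      obtain ⟨k, hk⟩ := hdvd e he
      rw [hk, Nat.mul_div_cancel_left k hdpos]
      push_cast
      by_cases hk0 : (k : ℝ) = 0
      · rw [hk0]; simp
      · have : (d : ℝ) ≠ 0 := by exact_mod_cast hd0
        field_simp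
    · intro a ha b hb hab
      simp only at hab
      rw [← Nat.div_mul_cancel (hdvd a ha), ← Nat.div_mul_cancel (hdvd b hb), hab]
  have hEQp : ∀ p ∈ EQ E q x, p.Prime := by
    intro p hp
    unfold EQ EP at hp
    simp only [Finset.mem_filter] at hp
    exact hp.1.2.1
  have hdp : ∀ p ∈ d.primeFactors, p.Prime := fun p hp => Nat.prime_of_mem_primeFactors hp
  have hle := sum_inv_le_prod (d.primeFactors ∪ EQ E q x)
    (fun p hp => by
      rcases Finset.mem_union.1 hp with h | h
      · exact hdp p h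
      · exact hEQp p h)
    (F.image (fun e => e / d)) (by
      intro m hm
      obtain ⟨e, he, rfl⟩ := Finset.mem_image.1 hm
      have hde := hdvd e he
      have he' := he
      rw [hF, Finset.mem_filter, Finset.mem_Icc] at he'
      obtain ⟨⟨he1, he2⟩, heE, hgcd, -⟩ := he'
      have hepos : 0 < e := he1
      refine ⟨?_, ?_⟩
      · exact (Nat.div_pos (Nat.le_of_dvd hepos hde) hdpos).ne'
      · intro p hp hpm
        have hpe : p ∣ e := hpm.trans (Nat.div_dvd_of_dvd hde)
        by_cases hpq : p ∣ q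
        · apply Finset.mem_union_left
          rw [Nat.mem_primeFactors]
          refine ⟨hp, ?_, hd0⟩
          rw [← hgcd]
          exact Nat.dvd_gcd hpe hpq
        · apply Finset.mem_union_right
          unfold EQ EP
          simp only [Finset.mem_filter, Finset.mem_range]
          refine ⟨⟨?_, hp, heE.2 p hp hpe, by exact_mod_cast hp.pos⟩, hpq⟩
          have := (Nat.le_of_dvd hepos hpe).trans he2
          omega)
  have hdisj : Disjoint d.primeFactors (EQ E q x) := by
    rw [Finset.disjoint_left]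
    intro p hp hp'
    unfold EQ at hp'
    rw [Finset.mem_filter] at hp'
    exact hp'.2 ((Nat.dvd_of_mem_primeFactors hp).trans hd)
  have hV : LSieve.V (d.primeFactors ∪ EQ E q x) = (d : ℝ) / d.totient * DQ E q x := by
    unfold DQ
    rw [← LSieve.V_primeFactors d hdpos]
    unfold LSieve.V
    rw [Finset.prod_union hdisj]
  rw [hEsum, hsum]
  have htotR : (0 : ℝ) < d.totient := by exact_mod_cast htot
  have hdR : (0 : ℝ) < d := by exact_mod_cast hdpos
  calc (d.totient : ℝ) / d * ∑ m ∈ F.image (fun e => e / d), 1 / (m : ℝ)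
      ≤ (d.totient : ℝ) / d * ((d : ℝ) / d.totient * DQ E q x) := by
        apply mul_le_mul_of_nonneg_left _ (by positivity)
        rw [← hV]; exact hle
    _ = DQ E q x := by field_simp

end Pool.Agent.LibThin21
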