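import Pool.Agent.LibThin21.S1
import Pool.Agent.LibThin21.S4

/-!
ROW S6. Rankin's trick. For a thin set `E`, `Y = exp (x / log x)` and `δ > 0`, the sum of `1 / f` over the
`Y`-smooth `f ∈ (exp (δ x), exp x]` composed of primes of `E` is at most `1 / x ^ 2`.

Proof: put `K = 6 / δ`, `σ = K * log x / x`. Then `1 ≤ (f / exp (δ x)) ^ σ`, so the sum is at most
`exp (- δ σ x) * ∑ f ^ (σ - 1) ≤ x ^ (-6) * ∏_{p ∈ E, p ≤ Y} (1 - p ^ (σ - 1))⁻¹`
(Euler product over a finite set of primes for the completely multiplicative function `f ^ (σ - 1)`).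
For `p ≤ Y`: `p ^ σ ≤ exp K`, and for large `x`, `σ ≤ 1/4`, so `p ^ (σ - 1) ≤ 2 ^ (- 3/4) < 0.6` and
`(1 - t)⁻¹ ≤ exp (3 t)` for `0 ≤ t ≤ 0.6`; hence the product is at most
`exp (3 * exp K * SE E 1 (exp x)) ≤ exp (3 * exp K * η * log x) ≤ x` by `SE_small` with
`η = 1 / (3 * exp K)`. In total `≤ x ^ (-5)`.
-/

namespace Pool.Agent.LibThin21

open Filter Topology

/-- finite Euler product for `f ^ (σ - 1)` -/
lemma sum_rpow_le_prod (P : Finset ℕ) (hP : ∀ p ∈ P, p.Prime) {σ : ℝ} (hσ : σ ≤ 1 / 4)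
    (S : Finset ℕ) (hS : ∀ e ∈ S, e ≠ 0 ∧ ∀ p : ℕ, p.Prime → p ∣ e → p ∈ P) :
    ∑ e ∈ S, (e : ℝ) ^ (σ - 1) ≤ ∏ p ∈ P, (1 - (p : ℝ) ^ (σ - 1))⁻¹ := by
  let f : ℕ →* ℝ :=
    { toFun := fun n => (n : ℝ) ^ (σ - 1)
      map_one' := by rw [Nat.cast_one, Real.one_rpow]
      map_mul' := fun m n => by
        rw [Nat.cast_mul, Real.mul_rpow (Nat.cast_nonneg m) (Nat.cast_nonneg n)] }
  have hf : ∀ n : ℕ, f n = (n : ℝ) ^ (σ - 1) := fun n => rfl
  have hf0 : ∀ n : ℕ, 0 ≤ f n := fun n => Real.rpow_nonneg (Nat.cast_nonneg n) _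
  have hf1 : ∀ {p : ℕ}, p.Prime → ‖f p‖ < 1 := by
    intro p hp
    rw [Real.norm_of_nonneg (hf0 p), hf]
    exact Real.rpow_lt_one_of_one_lt_of_neg (by exact_mod_cast hp.one_lt) (by linarith)
  have h1 := (EulerProduct.summable_and_hasSum_factoredNumbers_prod_filter_prime_geometric (f := f) (fun hp => hf1 hp) P).2
  rw [Finset.filter_true_of_mem hP] at h1
  have h2 : HasSum (Set.indicator (Nat.factoredNumbers P) f) (∏ p ∈ P, (1 - f p)⁻¹) := by
    rw [← hasSum_subtype_iff_indicator]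
    exact h1
  have h3 := sum_le_hasSum S (fun i _ => Set.indicator_nonneg (fun n _ => hf0 n) i) h2
  have h4 : ∀ e ∈ S, Set.indicator (Nat.factoredNumbers P) f e = (e : ℝ) ^ (σ - 1) := by
    intro e he
    rw [Set.indicator_of_mem, hf]
    refine ⟨(hS e he).1, fun p hp => ?_⟩
    have hp' := Nat.prime_of_mem_primeFactorsList hp
    exact (hS e he).2 p hp' (Nat.dvd_of_mem_primeFactorsList hp)
  rw [Finset.sum_congr rfl h4] at h3
  exact h3

lemma s6_factor {t : ℝ} (h0 : 0 ≤ t) (h1 : t ≤ 3 / 5) : (1 - t)⁻¹ ≤ Real.exp (3 * t) := by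
  have h2 : 0 < 1 - t := by linarith
  have h3 : (1 - t)⁻¹ ≤ 1 + 3 * t := by
    rw [inv_le_iff_one_le_mul₀ h2]
    nlinarith
  linarith [Real.add_one_le_exp (3 * t)]

lemma s6_two {p : ℕ} (hp : p.Prime) {σ : ℝ} (hσ : σ ≤ 1 / 4) : (p : ℝ) ^ (σ - 1) ≤ 3 / 5 := by
  have h2 : (2 : ℝ) ≤ p := by exact_mod_cast hp.two_le
  have h1 : (p : ℝ) ^ (σ - 1) ≤ (p : ℝ) ^ (-(3 / 4) : ℝ) :=
    Real.rpow_le_rpow_of_exponent_le (by linarith) (by linarith)
  have h3 : (p : ℝ) ^ (-(3 / 4) : ℝ) ≤ (2 : ℝ) ^ (-(3 / 4) : ℝ) :=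
    Real.rpow_le_rpow_of_nonpos (by norm_num) h2 (by norm_num)
  have h4 : (2 : ℝ) ^ (-(3 / 4) : ℝ) ≤ 3 / 5 := by
    refine le_of_pow_le_pow_left₀ (n := 4) (by norm_num) (by norm_num) ?_
    rw [← Real.rpow_natCast, ← Real.rpow_mul (by norm_num)]
    have : (-(3 / 4) : ℝ) * ((4 : ℕ) : ℝ) = -((3 : ℕ) : ℝ) := by norm_num
    rw [this, Real.rpow_neg (by norm_num), Real.rpow_natCast]
    norm_num
  linarith

open Classical in
theorem rankin {E : Set ℕ} (h : Thin E) {δ : ℝ} (hδ : 0 < δ) :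
    ∀ᶠ x : ℝ in atTop,
      ∑ f ∈ (Finset.Icc 1 ⌊Real.exp x⌋₊).filter (fun f => f ∈ ESm E ∧
          (∀ p : ℕ, p.Prime → p ∣ f → (p : ℝ) ≤ Real.exp (x / Real.log x)) ∧
          Real.exp (δ * x) < (f : ℝ)), 1 / (f : ℝ) ≤ 1 / x ^ 2 := by
  set K : ℝ := 6 / δ with hK
  have hK0 : 0 < K := by positivity
  have hη : 0 < 1 / (3 * Real.exp K) := by positivity
  have hlim : Tendsto (fun x : ℝ => K * (Real.log x / x)) atTop (𝓝 (K * 0)) :=
    (Real.isLittleO_log_id_atTop.tendsto_div_nhds_zero).const_mul K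
  rw [mul_zero] at hlim
  filter_upwards [SE_small h hη, hlim.eventually (ge_mem_nhds (show (0 : ℝ) < 1 / 4 by norm_num)),
    eventually_ge_atTop (Real.exp 1)] with x hSE hσ hx
  have hx1 : 1 < x := lt_of_lt_of_le (by
    have := Real.add_one_lt_exp (one_ne_zero (α := ℝ))
    linarith) hx
  have hx0 : 0 < x := by linarith
  have hlog1 : 1 ≤ Real.log x := by
    rw [Real.le_log_iff_exp_le hx0]
    exact hx
  have hlog0 : 0 < Real.log x := by linarith
  set σ : ℝ := K * (Real.log x / x) with hσd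
  have hσ0 : 0 < σ := by positivity
  set Y : ℝ := Real.exp (x / Real.log x) with hY
  have hY0 : 0 < Y := Real.exp_pos _
  have hYx : Y ≤ Real.exp x := by
    apply Real.exp_le_exp.2
    exact div_le_self hx0.le hlog1
  set P : Finset ℕ := EP E 1 Y with hPd
  have hP : ∀ p ∈ P, p.Prime := fun p hp => ((mem_EP hY0.le).1 hp).1
  set S : Finset ℕ := (Finset.Icc 1 ⌊Real.exp x⌋₊).filter (fun f => f ∈ ESm E ∧
          (∀ p : ℕ, p.Prime → p ∣ f → (p : ℝ) ≤ Y) ∧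
          Real.exp (δ * x) < (f : ℝ)) with hSd
  have hS : ∀ e ∈ S, e ≠ 0 ∧ ∀ p : ℕ, p.Prime → p ∣ e → p ∈ P := by
    intro e he
    rw [hSd, Finset.mem_filter] at he
    refine ⟨he.2.1.1, fun p hp hpe => ?_⟩
    rw [hPd, mem_EP hY0.le]
    exact ⟨hp, he.2.1.2 p hp hpe, by exact_mod_cast hp.one_lt, he.2.2.1 p hp hpe⟩
  have h1 : ∀ f ∈ S, 1 / (f : ℝ) ≤ 1 / x ^ 6 * (f : ℝ) ^ (σ - 1) := by
    intro f hf
    rw [hSd, Finset.mem_filter] at hf
    have hf0 : (0 : ℝ) < f := lt_trans (Real.exp_pos _) hf.2.2.2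
    have e1 : x ^ 6 ≤ (f : ℝ) ^ σ := by
      have e2 : (Real.exp (δ * x)) ^ σ ≤ (f : ℝ) ^ σ :=
        Real.rpow_le_rpow (Real.exp_pos _).le hf.2.2.2.le hσ0.le
      have e3 : (Real.exp (δ * x)) ^ σ = x ^ 6 := by
        rw [← Real.exp_mul]
        have : δ * x * σ = ((6 : ℕ) : ℝ) * Real.log x := by
          rw [hσd, hK]
          field_simp
          norm_num
        rw [this, Real.exp_nat_mul, Real.exp_log hx0]
      linarith
    rw [Real.rpow_sub hf0, Real.rpow_one, div_mul_div_comm, one_mul, div_le_div_iff₀ hf0 (by positivity)]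
    have := mul_le_mul_of_nonneg_right e1 hf0.le
    linarith
  have h2 : ∑ f ∈ S, 1 / (f : ℝ) ≤ 1 / x ^ 6 * ∏ p ∈ P, (1 - (p : ℝ) ^ (σ - 1))⁻¹ := by
    refine (Finset.sum_le_sum h1).trans ?_
    rw [← Finset.mul_sum]
    exact mul_le_mul_of_nonneg_left (sum_rpow_le_prod P hP hσ S hS) (by positivity)
  have h3 : ∏ p ∈ P, (1 - (p : ℝ) ^ (σ - 1))⁻¹ ≤ ∏ p ∈ P, Real.exp (3 * (Real.exp K * (1 / (p : ℝ)))) := by
    refine Finset.prod_le_prod (fun p hp => ?_) (fun p hp => ?_)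
    · have := s6_two (hP p hp) hσ
      exact inv_nonneg.2 (by linarith)
    · have hp0 : (0 : ℝ) < p := by exact_mod_cast (hP p hp).pos
      refine (s6_factor (Real.rpow_nonneg hp0.le _) (s6_two (hP p hp) hσ)).trans ?_
      apply Real.exp_le_exp.2
      refine mul_le_mul_of_nonneg_left ?_ (by norm_num)
      rw [Real.rpow_sub hp0, Real.rpow_one, div_eq_mul_one_div]
      refine mul_le_mul_of_nonneg_right ?_ (by positivity)
      have e1 : (p : ℝ) ^ σ ≤ Y ^ σ :=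
        Real.rpow_le_rpow hp0.le ((mem_EP hY0.le).1 hp).2.2.2 hσ0.le
      have e2 : Y ^ σ = Real.exp K := by
        rw [hY, ← Real.exp_mul]
        congr 1
        rw [hσd]
        field_simp
      linarith
  have h4 : ∏ p ∈ P, Real.exp (3 * (Real.exp K * (1 / (p : ℝ)))) = Real.exp (3 * (Real.exp K * SE E 1 Y)) := by
    rw [← Real.exp_sum, SE, Finset.mul_sum, Finset.mul_sum]
  have h5 : Real.exp (3 * (Real.exp K * SE E 1 Y)) ≤ x := by
    have e1 : SE E 1 Y ≤ 1 / (3 * Real.exp K) * Real.log x := (SE_mono E le_rfl hYx).trans hSE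
    have e2 : 3 * (Real.exp K * SE E 1 Y) ≤ Real.log x := by
      have := mul_le_mul_of_nonneg_left e1 (show 0 ≤ 3 * Real.exp K by positivity)
      have e3 : 3 * Real.exp K * (1 / (3 * Real.exp K) * Real.log x) = Real.log x := by
        field_simp
      rw [e3] at this
      linarith
    calc Real.exp (3 * (Real.exp K * SE E 1 Y)) ≤ Real.exp (Real.log x) := Real.exp_le_exp.2 e2
      _ = x := Real.exp_log hx0
  have h6 : ∑ f ∈ S, 1 / (f : ℝ) ≤ 1 / x ^ 6 * x :=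
    h2.trans (mul_le_mul_of_nonneg_left ((h3.trans h4.le).trans h5) (by positivity))
  refine h6.trans ?_
  rw [div_mul_eq_mul_div, one_mul, div_le_div_iff₀ (by positivity) (by positivity), one_mul]
  calc x * x ^ 2 = x ^ 3 := by ring
    _ ≤ x ^ 6 := pow_le_pow_right₀ hx1.le (by norm_num)

end Pool.Agent.LibThin21
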