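import Pool.Agent.LibThin21.S2
import Pool.Agent.LibThin21.S3
import Pool.Agent.LibThin21.S6

/-!
ROW S5. The tail of `Esum`.

Proof. Let `Y = exp (x / log x)`. (i) `e` with a prime factor `π > Y` : `π ∈ E`, `π ∤ q` (the prime factors
of `q` are `≤ z ≤ x < Y`), `e = π e'` with `e' ∈ ESm E`, `(e', q) = d`, so this part is at most
`∑_{π ∈ EP E Y (exp x)} (1/π) * Esum E q d 0 (exp x) ≤ SE E Y (exp x) * DQ` (row S4), small by `SE_top`.
(ii) `e` is `Y`-smooth, `e = d f`, `f ∈ ESm E` is `Y`-smooth, `f > exp (ε x) / d ≥ exp (ε x / 2)` since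
`d ≤ q ≤ 4 ^ z ≤ exp (2 z) ≤ exp (ε x / 2)` (`hzx`), and `φ(d) / e ≤ 1 / f`: at most `1 / x ^ 2`
(row S6 with `δ = ε / 2`), and `DQ ≥ 1`.
-/

namespace Pool.Agent.LibThin21

open Filter Topology

/-- sizes: `q` is small, and `q ≤ k1` by far -/
lemma GoodScale.q_le {ε lam v0 : ℝ} (hε : 0 < ε) (hε1 : ε < 1 / 100) : ∀ᶠ x : ℝ in atTop,
    ∀ z p0 q k1 k2 : ℕ, GoodScale ε lam v0 x z p0 q k1 k2 →
      1 ≤ q ∧ Squarefree q ∧ (q : ℝ) ≤ Real.exp (ε ^ 2 * x) ∧ 2 ≤ z ∧ (z : ℝ) ≤ ε * x ∧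
        (∀ p : ℕ, p.Prime → p ∣ q → p ≤ z) := by
  filter_upwards [eventually_ge_atTop (Real.exp 1), eventually_ge_atTop (1 : ℝ)] with x hx hx1
  intro z p0 q k1 k2 hs
  have hlog : 1 ≤ Real.log x := by
    rw [Real.le_log_iff_exp_le (by linarith)]; exact hx
  have hdvd : q ∣ primorial z := ⟨p0, hs.hq.symm⟩
  have hzpos : 0 < primorial z := primorial_pos z
  have hqpos : 0 < q := Nat.pos_of_dvd_of_pos hdvd hzpos
  have hp0z : p0 ≤ z := hs.hp0.dvd_primorial_iff.1 ⟨q, by rw [mul_comm]; exact hs.hq.symm⟩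
  have hz2 : 2 ≤ z := hs.hp0.two_le.trans hp0z
  have hz0 : (0 : ℝ) ≤ z := Nat.cast_nonneg z
  have hzx : (z : ℝ) ≤ ε ^ 3 * x := by
    have h1 := hs.hzx
    nlinarith
  have hε3 : ε ^ 3 * x ≤ ε * x := by
    apply mul_le_mul_of_nonneg_right _ (by linarith)
    nlinarith [sq_nonneg ε, mul_pos hε hε]
  refine ⟨hqpos, (squarefree_primorial z).squarefree_of_dvd hdvd, ?_, hz2, hzx.trans hε3,
    fun p hp hpq => hp.dvd_primorial_iff.1 (hpq.trans hdvd)⟩
  have h1 : (q : ℝ) ≤ primorial z := by exact_mod_cast Nat.le_of_dvd hzpos hdvd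
  have h2 : (primorial z : ℝ) ≤ 4 ^ z := by
    exact_mod_cast (primorial_lt_four_pow z (by omega)).le
  have h3 : (4 : ℝ) ^ z ≤ Real.exp (2 * z) := by
    have h4 : (4 : ℝ) ≤ Real.exp 2 := by
      have := Real.exp_one_gt_d9
      have h5 : Real.exp 2 = Real.exp 1 * Real.exp 1 := by rw [← Real.exp_add]; norm_num
      rw [h5]; nlinarith
    calc (4 : ℝ) ^ z ≤ Real.exp 2 ^ z := pow_le_pow_left₀ (by norm_num) h4 z
      _ = Real.exp (2 * z) := by rw [← Real.exp_nat_mul, mul_comm]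
  have h4 : (2 : ℝ) * z ≤ ε ^ 2 * x := by
    have : 2 * ε ^ 3 * x ≤ ε ^ 2 * x := by
      apply mul_le_mul_of_nonneg_right _ (by linarith)
      nlinarith [sq_nonneg ε, mul_pos hε hε]
    linarith
  exact h1.trans (h2.trans (h3.trans (Real.exp_le_exp.2 h4)))

lemma one_le_DQ (E : Set ℕ) (q : ℕ) (x : ℝ) : 1 ≤ DQ E q x := by
  unfold DQ EQ
  apply LSieve.one_le_V
  intro p hp
  exact ((mem_EP (Real.exp_pos x).le).1 (Finset.mem_filter.1 hp).1).1

lemma s5_sum_le {α β : Type} (s : Finset α) (t : Finset β) (i : α → β) (hi : ∀ a ∈ s, i a ∈ t)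
    (inj : ∀ a ∈ s, ∀ b ∈ s, i a = i b → a = b) (f : α → ℝ) (g : β → ℝ)
    (hfg : ∀ a ∈ s, f a ≤ g (i a)) (hg : ∀ b ∈ t, 0 ≤ g b) : ∑ a ∈ s, f a ≤ ∑ b ∈ t, g b := by
  classical
  calc ∑ a ∈ s, f a ≤ ∑ a ∈ s, g (i a) := Finset.sum_le_sum hfg
    _ = ∑ b ∈ s.image i, g b := (Finset.sum_image (fun a ha b hb h => inj a ha b hb h)).symm
    _ ≤ ∑ b ∈ t, g b := Finset.sum_le_sum_of_subset_of_nonneg
        (fun b hb => by
          obtain ⟨a, ha, rfl⟩ := Finset.mem_image.1 hb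
          exact hi a ha)
        (fun b hb _ => hg b hb)

lemma s5_ESm_div {E : Set ℕ} {e m : ℕ} (he : e ∈ ESm E) (hm : m ∣ e) : e / m ∈ ESm E := by
  refine ⟨fun h => ?_, fun p hp hpe => he.2 p hp (hpe.trans (Nat.div_dvd_of_dvd hm))⟩
  have := Nat.div_mul_cancel hm
  rw [h, zero_mul] at this
  exact he.1 this.symm

lemma s5_floor {x : ℝ} {e m : ℕ} (he : e ∈ Finset.Icc 1 ⌊x⌋₊) (hm : m ∣ e) :
    e / m ∈ Finset.Icc 1 ⌊x⌋₊ := by
  rw [Finset.mem_Icc] at he ⊢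
  refine ⟨?_, (Nat.div_le_self e m).trans he.2⟩
  have hm0 : 0 < m := Nat.pos_of_dvd_of_pos hm (by omega)
  exact Nat.div_pos (Nat.le_of_dvd (by omega) hm) hm0

theorem Esum_tail {E : Set ℕ} (h : Thin E) {ε lam v0 : ℝ} (hε : 0 < ε) (hε1 : ε < 1 / 100) {η : ℝ}
    (hη : 0 < η) :
    ∀ᶠ x : ℝ in atTop, ∀ z p0 q k1 k2 : ℕ, GoodScale ε lam v0 x z p0 q k1 k2 → ∀ d : ℕ, d ∣ q →
      Esum E q d (Real.exp (ε * x)) (Real.exp x) ≤ η * DQ E q x := by
  classical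
  have hlog2 : ∀ᶠ x : ℝ in atTop, Real.log x ^ 2 ≤ x := by
    have h1 := (Real.isLittleO_pow_log_id_atTop (n := 2)).bound (c := 1) one_pos
    filter_upwards [h1, eventually_ge_atTop (0 : ℝ)] with x hx hx0
    simp only [id, one_mul, Real.norm_eq_abs] at hx
    rw [abs_of_nonneg (sq_nonneg _), abs_of_nonneg hx0] at hx
    exact hx
  have hinv : ∀ᶠ x : ℝ in atTop, 1 / x ^ 2 ≤ η / 2 := by
    have h1 : Tendsto (fun x : ℝ => 1 / x ^ 2) atTop (𝓝 0) := by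
      simpa using tendsto_pow_neg_atTop (𝕜 := ℝ) (n := 2) (by norm_num)
    exact h1.eventually_le_const (by linarith)
  filter_upwards [GoodScale.q_le (lam := lam) (v0 := v0) hε hε1, SE_top h (half_pos hη),
    rankin h (δ := ε / 2) (half_pos hε), hlog2, hinv, eventually_ge_atTop (Real.exp 1),
    eventually_ge_atTop (1 : ℝ)] with x hq hSE hR hl2 hi hxe hx1
  intro z p0 q k1 k2 hs d hd
  obtain ⟨hq1, hqs, hqe, hz2, hzx, hqp⟩ := hq z p0 q k1 k2 hs
  set Y := Real.exp (x / Real.log x) with hY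
  have hlog : 1 ≤ Real.log x := by
    rw [Real.le_log_iff_exp_le (by linarith)]; exact hxe
  have hxY : x ≤ Y := by
    rw [hY, ← Real.log_le_iff_le_exp (by linarith), le_div_iff₀ (by linarith)]
    nlinarith
  have hd0 : 0 < d := Nat.pos_of_dvd_of_pos hd hq1
  have hdq : d ≤ q := Nat.le_of_dvd hq1 hd
  have hDQ := one_le_DQ E q x
  -- the two parts
  unfold Esum
  rw [← Finset.sum_filter_add_sum_filter_not _ (fun e : ℕ => ∃ p : ℕ, p.Prime ∧ p ∣ e ∧ Y < (p : ℝ))]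
  have part1 : ∑ e ∈ ((Finset.Icc 1 ⌊Real.exp x⌋₊).filter
      (fun e => e ∈ ESm E ∧ Nat.gcd e q = d ∧ Real.exp (ε * x) < (e : ℝ))).filter
        (fun e : ℕ => ∃ p : ℕ, p.Prime ∧ p ∣ e ∧ Y < (p : ℝ)), (d.totient : ℝ) / (e : ℝ) ≤
      (∑ p ∈ EP E Y (Real.exp x), 1 / (p : ℝ)) *
        ∑ e ∈ (Finset.Icc 1 ⌊Real.exp x⌋₊).filter
          (fun e => e ∈ ESm E ∧ Nat.gcd e q = d ∧ 0 < (e : ℝ)), (d.totient : ℝ) / (e : ℝ) := by
    rw [Finset.sum_mul_sum, ← Finset.sum_product' (EP E Y (Real.exp x))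
      ((Finset.Icc 1 ⌊Real.exp x⌋₊).filter
          (fun e => e ∈ ESm E ∧ Nat.gcd e q = d ∧ 0 < (e : ℝ)))
      (fun p e => 1 / (p : ℝ) * ((d.totient : ℝ) / (e : ℝ)))]
    have hch : ∀ e : ℕ, ∃ p : ℕ, (∃ p : ℕ, p.Prime ∧ p ∣ e ∧ Y < (p : ℝ)) →
        (p.Prime ∧ p ∣ e ∧ Y < (p : ℝ)) := by
      intro e
      by_cases h : ∃ p : ℕ, p.Prime ∧ p ∣ e ∧ Y < (p : ℝ)
      · obtain ⟨p, hp⟩ := h
        exact ⟨p, fun _ => hp⟩
      · exact ⟨0, fun h' => absurd h' h⟩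
    choose P hP using hch
    have key : ∀ e ∈ ((Finset.Icc 1 ⌊Real.exp x⌋₊).filter
        (fun e => e ∈ ESm E ∧ Nat.gcd e q = d ∧ Real.exp (ε * x) < (e : ℝ))).filter
          (fun e : ℕ => ∃ p : ℕ, p.Prime ∧ p ∣ e ∧ Y < (p : ℝ)),
        (P e).Prime ∧ P e ∣ e ∧ Y < (P e : ℝ) ∧ e ∈ ESm E ∧ Nat.gcd e q = d ∧
          e ∈ Finset.Icc 1 ⌊Real.exp x⌋₊ := by
      intro e he
      rw [Finset.mem_filter, Finset.mem_filter] at he
      obtain ⟨⟨h1, h2, h3, h4⟩, h5⟩ := he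
      obtain ⟨h6, h7, h8⟩ := hP e h5
      exact ⟨h6, h7, h8, h2, h3, h1⟩
    apply s5_sum_le _ _ (fun e => (P e, e / P e))
    · intro e he
      obtain ⟨h6, h7, h8, h2, h3, h1⟩ := key e he
      have he1 := Finset.mem_Icc.1 h1
      rw [Finset.mem_product]
      refine ⟨(mem_EP (Real.exp_pos x).le).2 ⟨h6, h2.2 _ h6 h7, h8, ?_⟩, ?_⟩
      · have h9 : P e ≤ ⌊Real.exp x⌋₊ := (Nat.le_of_dvd (by omega) h7).trans he1.2
        exact (Nat.cast_le.2 h9).trans (Nat.floor_le (Real.exp_pos x).le)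
      · rw [Finset.mem_filter]
        refine ⟨s5_floor h1 h7, s5_ESm_div h2 h7, ?_, ?_⟩
        · have h10 : Nat.Coprime (P e) q := by
            rw [h6.coprime_iff_not_dvd]
            intro h11
            have h12 : (P e : ℝ) ≤ z := by exact_mod_cast hqp _ h6 h11
            have : ε * x ≤ x := by nlinarith
            linarith
          have h13 : e = P e * (e / P e) := (Nat.mul_div_cancel' h7).symm
          show Nat.gcd (e / P e) q = d
          rw [← h3]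
          conv_rhs => rw [h13]
          exact (Nat.Coprime.gcd_mul_left_cancel _ h10).symm
        · have := (Finset.mem_Icc.1 (s5_floor h1 h7)).1
          exact_mod_cast this
    · intro a ha b hb hab
      have h1 := (key a ha).2.1
      have h2 := (key b hb).2.1
      simp only [Prod.mk.injEq] at hab
      calc a = P a * (a / P a) := (Nat.mul_div_cancel' h1).symm
        _ = P b * (b / P b) := by rw [hab.2, hab.1]
        _ = b := Nat.mul_div_cancel' h2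
    · intro e he
      obtain ⟨h6, h7, h8, h2, h3, h1⟩ := key e he
      have h13 : (e : ℝ) = (P e : ℝ) * ((e / P e : ℕ) : ℝ) := by
        exact_mod_cast (Nat.mul_div_cancel' h7).symm
      simp only
      conv_lhs => rw [h13]
      apply le_of_eq
      rw [div_mul_div_comm, one_mul]
    · intro b _
      positivity
  have part2 : ∑ e ∈ ((Finset.Icc 1 ⌊Real.exp x⌋₊).filter
      (fun e => e ∈ ESm E ∧ Nat.gcd e q = d ∧ Real.exp (ε * x) < (e : ℝ))).filter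
        (fun e : ℕ => ¬ ∃ p : ℕ, p.Prime ∧ p ∣ e ∧ Y < (p : ℝ)), (d.totient : ℝ) / (e : ℝ) ≤
      1 / x ^ 2 := by
    refine le_trans ?_ hR
    have key : ∀ e ∈ ((Finset.Icc 1 ⌊Real.exp x⌋₊).filter
      (fun e => e ∈ ESm E ∧ Nat.gcd e q = d ∧ Real.exp (ε * x) < (e : ℝ))).filter
        (fun e : ℕ => ¬ ∃ p : ℕ, p.Prime ∧ p ∣ e ∧ Y < (p : ℝ)),
        d ∣ e ∧ e ∈ ESm E ∧ Real.exp (ε * x) < (e : ℝ) ∧
          e ∈ Finset.Icc 1 ⌊Real.exp x⌋₊ ∧ ∀ p : ℕ, p.Prime → p ∣ e → (p : ℝ) ≤ Y := by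
      intro e he
      rw [Finset.mem_filter, Finset.mem_filter] at he
      obtain ⟨⟨h1, h2, h3, h4⟩, h5⟩ := he
      refine ⟨h3 ▸ Nat.gcd_dvd_left e q, h2, h4, h1, fun p hp hpe => ?_⟩
      by_contra hcon
      exact h5 ⟨p, hp, hpe, not_le.1 hcon⟩
    apply s5_sum_le _ _ (fun e => e / d)
    · intro e he
      obtain ⟨h1, h2, h3, h4, h5⟩ := key e he
      rw [Finset.mem_filter]
      refine ⟨s5_floor h4 h1, s5_ESm_div h2 h1,
        fun p hp hpe => h5 p hp (hpe.trans (Nat.div_dvd_of_dvd h1)), ?_⟩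
      rw [Nat.cast_div h1 (by exact_mod_cast hd0.ne'), lt_div_iff₀ (by exact_mod_cast hd0)]
      have h6 : (d : ℝ) ≤ Real.exp (ε / 2 * x) := by
        refine le_trans (by exact_mod_cast hdq) (hqe.trans (Real.exp_le_exp.2 ?_))
        apply mul_le_mul_of_nonneg_right _ (by linarith)
        nlinarith
      calc Real.exp (ε / 2 * x) * d ≤ Real.exp (ε / 2 * x) * Real.exp (ε / 2 * x) := by
            apply mul_le_mul_of_nonneg_left h6 (Real.exp_pos _).le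
        _ = Real.exp (ε * x) := by rw [← Real.exp_add]; congr 1; ring
        _ < e := h3
    · intro a ha b hb hab
      have h1 := (key a ha).1
      have h2 := (key b hb).1
      have hab' : a / d = b / d := hab
      calc a = d * (a / d) := (Nat.mul_div_cancel' h1).symm
        _ = d * (b / d) := by rw [hab']
        _ = b := Nat.mul_div_cancel' h2
    · intro e he
      obtain ⟨h1, h2, h3, h4, h5⟩ := key e he
      have he0 : (0 : ℝ) < e := lt_trans (Real.exp_pos _) h3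
      have hd' : (0 : ℝ) < d := by exact_mod_cast hd0
      rw [Nat.cast_div h1 hd'.ne', one_div_div]
      apply div_le_div_of_nonneg_right _ he0.le
      exact_mod_cast Nat.totient_le d
    · intro b _
      positivity
  have hS4 := Esum_le E hqs hd x
  unfold Esum at hS4
  have hSE' : (∑ p ∈ EP E Y (Real.exp x), 1 / (p : ℝ)) ≤ η / 2 := by
    have h1 : SE E Y (Real.exp x) ≤ SE E Y (Real.exp (2 * x)) :=
      SE_mono E le_rfl (Real.exp_le_exp.2 (by linarith))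
    exact h1.trans hSE
  have hSE0 : 0 ≤ (∑ p ∈ EP E Y (Real.exp x), 1 / (p : ℝ)) := SE_nonneg E Y _
  have hDQ0 : 0 ≤ DQ E q x := by linarith
  have h1 : (∑ p ∈ EP E Y (Real.exp x), 1 / (p : ℝ)) *
        ∑ e ∈ (Finset.Icc 1 ⌊Real.exp x⌋₊).filter
          (fun e => e ∈ ESm E ∧ Nat.gcd e q = d ∧ 0 < (e : ℝ)), (d.totient : ℝ) / (e : ℝ) ≤
      η / 2 * DQ E q x := by
    apply mul_le_mul hSE' hS4 _ (by linarith)
    apply Finset.sum_nonneg
    intro e _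
    positivity
  have h2 : 1 / x ^ 2 ≤ η / 2 * DQ E q x := by nlinarith
  calc _ ≤ η / 2 * DQ E q x + η / 2 * DQ E q x := add_le_add (part1.trans h1) (part2.trans h2)
    _ = η * DQ E q x := by ring

end Pool.Agent.LibThin21
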