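import Pool.Agent.LibThin21.T2b

/-!
ROW T2. The main type: sum of `main_one` over `e ∈ ESm E`, `e ≤ exp (ε x)`, `gcd (e, q) = gcd (b, q)`, bounded by
`Esum E q d 0 (exp (ε x)) ≤ Esum E q d 0 (exp x) ≤ DQ E q x` (row S4), `d = gcd (b, q)`.
-/

namespace Pool.Agent.LibThin21

open Filter Topology
open Pool.Agent.LibMaier

lemma t2_Esum_mono (E : Set ℕ) (q d : ℕ) {v v' : ℝ} (h : v ≤ v') :
    Esum E q d 0 v ≤ Esum E q d 0 v' := by
  classical
  unfold Esum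
  refine Finset.sum_le_sum_of_subset_of_nonneg ?_ fun e _ _ => by positivity
  intro e he
  rw [Finset.mem_filter, Finset.mem_Icc] at he ⊢
  exact ⟨⟨he.1.1, he.1.2.trans (Nat.floor_mono h)⟩, he.2⟩

lemma t2_q {ε lam v0 x : ℝ} {z p0 q k1 k2 : ℕ} (g : GoodScale ε lam v0 x z p0 q k1 k2) :
    1 ≤ q ∧ Squarefree q := by
  have h1 : q ∣ primorial z := ⟨p0, g.hq.symm⟩
  have h2 : q ≠ 0 := by
    rintro rfl
    have := g.hq
    rw [zero_mul] at this
    exact (primorial_pos z).ne this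
  exact ⟨Nat.one_le_iff_ne_zero.2 h2, (squarefree_primorial z).squarefree_of_dvd h1⟩

open Classical in
theorem type_main {E : Set ℕ} {ε lam v0 : ℝ} (hε : 0 < ε) (hε1 : ε < 1 / 100) (hv0 : 0 ≤ v0)
    (hlam : 0 < lam) :
    ∀ᶠ x : ℝ in atTop, ∀ z p0 q k1 k2 : ℕ, GoodScale ε lam v0 x z p0 q k1 k2 → ∀ b : ℕ, b ≤ 2 * q →
      ∑ k ∈ (Finset.Ico k1 k2).filter (fun k => ∃ e π : ℕ, e ∈ ESm E ∧ (e : ℝ) ≤ Real.exp (ε * x) ∧
        π.Prime ∧ e < π ∧ k * q + b = e * π), Wt q x k ≤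
        (1 + 5 * ε) * DQ E q x * (q / (q.totient * x)) := by
  filter_upwards [main_one (lam := lam) hε hε1 hv0 hlam,
    GoodScale.sizes (lam := lam) hε hε1 hv0 hlam, eventually_ge_atTop (1 : ℝ)] with x hmain hsz hx1
  intro z p0 q k1 k2 g b hb
  obtain ⟨hq1, hqs⟩ := t2_q g
  have hk1 : 1 ≤ k1 := (hsz z p0 q k1 k2 g).1
  have hWt : ∀ k ∈ Finset.Ico k1 k2, 0 ≤ Wt q x k := fun k hk =>
    Wt_nonneg hq1 (hk1.trans (Finset.mem_Ico.1 hk).1) x
  set F : Finset ℕ := (Finset.Icc 1 ⌊Real.exp (ε * x)⌋₊).filter (fun e => e ∈ ESm E) with hF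
  set G : ℕ → Finset ℕ := fun e =>
    (Finset.Ico k1 k2).filter (fun k => ∃ π : ℕ, π.Prime ∧ k * q + b = e * π) with hG
  have h1 : ∑ k ∈ (Finset.Ico k1 k2).filter (fun k => ∃ e π : ℕ, e ∈ ESm E ∧
      (e : ℝ) ≤ Real.exp (ε * x) ∧ π.Prime ∧ e < π ∧ k * q + b = e * π), Wt q x k ≤
      ∑ e ∈ F, ∑ k ∈ G e, Wt q x k := by
    have e1 : ∑ e ∈ F, ∑ k ∈ G e, Wt q x k = ∑ k ∈ Finset.Ico k1 k2, ∑ e ∈ F,
        (if ∃ π : ℕ, π.Prime ∧ k * q + b = e * π then Wt q x k else 0) := by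
      rw [Finset.sum_comm]
      refine Finset.sum_congr rfl fun e _ => ?_
      rw [hG, Finset.sum_filter]
    have hnn : ∀ k ∈ Finset.Ico k1 k2, ∀ e ∈ F,
        0 ≤ (if ∃ π : ℕ, π.Prime ∧ k * q + b = e * π then Wt q x k else 0) := by
      intro k hk e _
      split_ifs
      · exact hWt k hk
      · exact le_rfl
    rw [e1]
    refine le_trans (Finset.sum_le_sum (g := fun k => ∑ e ∈ F,
        (if ∃ π : ℕ, π.Prime ∧ k * q + b = e * π then Wt q x k else 0)) ?_)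
      (Finset.sum_le_sum_of_subset_of_nonneg (Finset.filter_subset _ _) fun k hk _ =>
        Finset.sum_nonneg (hnn k hk))
    intro k hk
    rw [Finset.mem_filter] at hk
    obtain ⟨hk0, e, π, he, hee, hπ, -, h⟩ := hk
    have heF : e ∈ F := by
      rw [hF, Finset.mem_filter, Finset.mem_Icc]
      exact ⟨⟨Nat.one_le_iff_ne_zero.2 he.1, Nat.le_floor hee⟩, he⟩
    have h5 := Finset.single_le_sum (hnn k hk0) heF
    rw [if_pos ⟨π, hπ, h⟩] at h5
    exact h5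
  have h2 : ∀ e ∈ F, ∑ k ∈ G e, Wt q x k ≤
      if Nat.gcd e q = Nat.gcd b q then
        (1 + 5 * ε) * (((Nat.gcd b q).totient : ℝ) / e) * (q / (q.totient * x)) else 0 := by
    intro e he
    rw [hF, Finset.mem_filter, Finset.mem_Icc] at he
    exact hmain z p0 q k1 k2 g b e hb (by omega) ((Nat.le_floor_iff (Real.exp_pos _).le).1 he.1.2)
  have h3 : ∑ e ∈ F, (if Nat.gcd e q = Nat.gcd b q then
        (1 + 5 * ε) * (((Nat.gcd b q).totient : ℝ) / e) * (q / (q.totient * x)) else 0) =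
      (1 + 5 * ε) * Esum E q (Nat.gcd b q) 0 (Real.exp (ε * x)) * (q / (q.totient * x)) := by
    unfold Esum
    rw [← Finset.sum_filter, hF, Finset.filter_filter, Finset.mul_sum, Finset.sum_mul]
    refine Finset.sum_congr ?_ fun e _ => rfl
    ext e
    simp only [Finset.mem_filter, Finset.mem_Icc]
    constructor
    · rintro ⟨h4, h5, h6⟩
      exact ⟨h4, h5, h6, by exact_mod_cast h4.1⟩
    · rintro ⟨h4, h5, h6, -⟩
      exact ⟨h4, h5, h6⟩
  have h4 : Esum E q (Nat.gcd b q) 0 (Real.exp (ε * x)) ≤ DQ E q x := by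
    refine le_trans (t2_Esum_mono E q _ (Real.exp_le_exp.2 ?_))
      (Esum_le E hqs (Nat.gcd_dvd_right b q) x)
    nlinarith
  refine h1.trans ((Finset.sum_le_sum h2).trans ?_)
  rw [h3]
  gcongr

end Pool.Agent.LibThin21
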