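import Pool.Agent.LibThin21.Defs

/-!
ROW T2a. Unit classes `r` modulo `q` with `e r = b`.

Let `q` be squarefree. If `e * r = b` in `ZMod q` for a unit `r`, then `gcd(e, q) = gcd(b, q)`, and for
given `e, b` the number of units `r` with `e * r = b` is at most `φ(gcd(e, q))`.
Proof of the count: let `d = gcd(e, q)`, `q = d q'` with `(d, q') = 1`. Two solutions `r, r'` satisfy
`q ∣ e (r - r')`, i.e. `q' ∣ r - r'`. So `r ↦ r mod d` (a unit modulo `d`) is injective on the solutions
by the Chinese remainder theorem, and there are `φ(d)` units modulo `d`.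
-/

namespace Pool.Agent.LibThin21

lemma gcd_eq_of_mul_unit {q : ℕ} [NeZero q] {e b : ℕ} {r : ZMod q} (hr : IsUnit r)
    (h : (e : ZMod q) * r = (b : ZMod q)) : Nat.gcd e q = Nat.gcd b q := by
  have hr' : ((r.val : ℕ) : ZMod q) = r := ZMod.natCast_zmod_val r
  have hco : Nat.Coprime r.val q := by
    rw [← ZMod.isUnit_iff_coprime, hr']; exact hr
  have hmod : e * r.val ≡ b [MOD q] := by
    rw [← ZMod.natCast_eq_natCast_iff]
    push_cast
    rw [hr', h]
  rw [← hmod.gcd_eq, Nat.Coprime.gcd_mul_right_cancel e hco]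

open Classical in
theorem card_unit_solutions {q : ℕ} [NeZero q] (hq : Squarefree q) (e b : ℕ) :
    ((Finset.univ : Finset (ZMod q)).filter (fun r => IsUnit r ∧
      (e : ZMod q) * r = (b : ZMod q))).card ≤ (Nat.gcd e q).totient := by
  have hq0 : 0 < q := Nat.pos_of_ne_zero (NeZero.ne q)
  set d := Nat.gcd e q with hd
  have hd0 : 0 < d := Nat.gcd_pos_of_pos_right e hq0
  have : NeZero d := ⟨hd0.ne'⟩
  have hdq : d ∣ q := Nat.gcd_dvd_right e q
  obtain ⟨q', hq'⟩ := hdq
  have hco : Nat.Coprime d q' := by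
    have h1 : Squarefree (d * q') := hq' ▸ hq
    exact (Nat.squarefree_mul_iff.mp h1).1
  have hdq2 : d ∣ q := ⟨q', hq'⟩
  obtain ⟨e', he'⟩ : d ∣ e := Nat.gcd_dvd_left e q
  have hco2 : Nat.Coprime q' e' := by
    have h1 := Nat.coprime_div_gcd_div_gcd (m := e) (n := q) (by rw [← hd]; exact hd0)
    rw [← hd] at h1
    have h2 : e / d = e' := by rw [he']; exact Nat.mul_div_cancel_left e' hd0
    have h3 : q / d = q' := by rw [hq']; exact Nat.mul_div_cancel_left q' hd0
    rw [h2, h3] at h1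
    exact h1.symm
  have hcard : ((Finset.univ : Finset (ZMod d)ˣ).image (fun u : (ZMod d)ˣ => (u : ZMod d))).card ≤
      d.totient := by
    refine Finset.card_image_le.trans ?_
    rw [Finset.card_univ, ZMod.card_units_eq_totient]
  refine le_trans (Finset.card_le_card_of_injOn (fun r => ZMod.castHom hdq2 (ZMod d) r) ?_ ?_) hcard
  · intro r hr
    rw [Finset.coe_filter] at hr
    obtain ⟨-, hu, -⟩ := hr
    have h1 : IsUnit (ZMod.castHom hdq2 (ZMod d) r) := hu.map _
    obtain ⟨u, hu2⟩ := h1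
    rw [Finset.coe_image]
    exact ⟨u, Finset.mem_coe.mpr (Finset.mem_univ _), hu2⟩
  · intro r hr r' hr' hrr
    rw [Finset.coe_filter] at hr hr'
    obtain ⟨-, -, h1⟩ := hr
    obtain ⟨-, -, h2⟩ := hr'
    have hsub : (e : ZMod q) * (r - r') = 0 := by rw [mul_sub, h1, h2, sub_self]
    set t := r - r' with ht
    have htv : ((t.val : ℕ) : ZMod q) = t := ZMod.natCast_zmod_val t
    have hq1 : q ∣ e * t.val := by
      rw [← ZMod.natCast_eq_zero_iff]
      push_cast
      rw [htv]; exact hsub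
    have hq2 : q' ∣ t.val := by
      have h3 : d * q' ∣ d * (e' * t.val) := by
        rw [← hq', ← mul_assoc, ← he']; exact hq1
      have h4 : q' ∣ e' * t.val := Nat.dvd_of_mul_dvd_mul_left hd0 h3
      exact hco2.dvd_of_dvd_mul_left h4
    have hd2 : d ∣ t.val := by
      rw [← ZMod.natCast_eq_zero_iff]
      have h3 : ZMod.castHom hdq2 (ZMod d) t = 0 := by
        rw [ht, map_sub]
        exact sub_eq_zero.mpr hrr
      have h4 : ZMod.castHom hdq2 (ZMod d) ((t.val : ℕ) : ZMod q) = ((t.val : ℕ) : ZMod d) :=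
        map_natCast _ _
      rw [← h4, htv, h3]
    have hq3 : q ∣ t.val := (dvd_of_eq hq').trans (hco.mul_dvd_of_dvd_of_dvd hd2 hq2)
    have ht0 : t.val = 0 := Nat.eq_zero_of_dvd_of_lt hq3 (ZMod.val_lt t)
    have ht1 : t = 0 := (ZMod.val_eq_zero t).mp ht0
    exact sub_eq_zero.mp ht1

end Pool.Agent.LibThin21
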