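import Pool.Agent.LibThin21.T0
import Pool.Agent.LibThin21.T2a

/-!
ROW T2b. One value of `e` in the main type: the weight of the rows `k` for which `k q + b = e π`, `π` prime.
-/

namespace Pool.Agent.LibThin21

open Filter Topology
open Pool.Agent.LibMaier
open scoped ArithmeticFunction.vonMangoldt

/-- one row -/
lemma t2b_row {ε x V : ℝ} {q k b e π : ℕ} (hε : 0 < ε) (hq : 1 ≤ q) (hk : 1 ≤ k)
    (hb : (b : ℝ) ≤ 2 * q) (h2q : 2 * (q : ℝ) ≤ k)
    (h1 : x - V ≤ Real.log (k * q)) (h2 : Real.log ((k + 1 : ℕ) * q) ≤ x + V)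
    (hE : (1 + 2 * (q : ℝ)) * (V + 1) + 2 * q ≤ Real.log (1 + ε) * k) (he : e ≠ 0)
    (hel : Real.log e ≤ ε * x) (hπ : π.Prime) (hkb : k * q + b = e * π)
    (hc : 0 < (1 - 2 * ε) * x) (hVx : V ≤ ε * x) :
    Real.log π ≥ x - V - Real.log e ∧
    Wt q x k ≤ (1 + ε) * ((q : ℝ) / (e * ((1 - 2 * ε) * x))) * wn (x - Real.log e) π := by
  have hq' : (1 : ℝ) ≤ q := by exact_mod_cast hq
  have hk' : (1 : ℝ) ≤ k := by exact_mod_cast hk
  have he' : (0 : ℝ) < e := by exact_mod_cast Nat.pos_of_ne_zero he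
  have hπ' : (0 : ℝ) < π := by exact_mod_cast hπ.pos
  have hb0 : (0 : ℝ) ≤ b := Nat.cast_nonneg b
  have hcast : ((k * q + b : ℕ) : ℝ) = e * π := by rw [hkb]; push_cast; ring
  have hlogeq : Real.log ((k * q + b : ℕ) : ℝ) = Real.log e + Real.log π := by
    rw [hcast, Real.log_mul he'.ne' hπ'.ne']
  have hlogge : Real.log (k * q) ≤ Real.log ((k * q + b : ℕ) : ℝ) := by
    apply Real.log_le_log (by positivity)
    push_cast
    linarith
  have hlogπ : x - V - Real.log e ≤ Real.log π := by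
    rw [hlogeq] at hlogge
    linarith
  refine ⟨hlogπ, ?_⟩
  have h3 := Wt_le (q := q) (k := k) hq hk (x := x) (V := V) (y := 2 * (q : ℝ)) (a := b) hb h2q h1 h2
  refine h3.trans ?_
  have hexp : Real.exp (((1 + 2 * (q : ℝ)) * (V + 1) + 2 * q) / k) ≤ 1 + ε := by
    rw [← Real.exp_log (show (0 : ℝ) < 1 + ε by linarith)]
    apply Real.exp_le_exp.2
    rw [div_le_iff₀ (by linarith)]
    exact hE
  have hclog : (1 - 2 * ε) * x ≤ Real.log π := by
    have : (1 - 2 * ε) * x = x - ε * x - ε * x := by ring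
    linarith
  have h5 : gw (Real.log ((k * q + b : ℕ) : ℝ) - x) / ((k * q + b : ℕ) : ℝ) ≤
      wn (x - Real.log e) π / (e * ((1 - 2 * ε) * x)) := by
    rw [hlogeq, hcast]
    unfold wn
    rw [ArithmeticFunction.vonMangoldt_apply_prime hπ]
    have e1 : Real.log e + Real.log π - x = Real.log π - (x - Real.log e) := by ring
    rw [e1]
    set g := gw (Real.log π - (x - Real.log e)) with hg
    have hg0 : 0 ≤ g := gw_nonneg _
    rw [div_le_div_iff₀ (by positivity) (by positivity)]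
    calc g * (e * ((1 - 2 * ε) * x)) ≤ g * (e * Real.log π) := by gcongr
      _ = Real.log π * (g / π) * (e * π) := by field_simp
  have hg1 : 0 ≤ gw (Real.log ((k * q + b : ℕ) : ℝ) - x) / ((k * q + b : ℕ) : ℝ) :=
    div_nonneg (gw_nonneg _) (Nat.cast_nonneg _)
  calc Real.exp (((1 + 2 * (q : ℝ)) * (V + 1) + 2 * q) / k) *
        (q * (gw (Real.log ((k * q + b : ℕ) : ℝ) - x) / ((k * q + b : ℕ) : ℝ)))
      ≤ (1 + ε) * (q * (wn (x - Real.log e) π / (e * ((1 - 2 * ε) * x)))) := by gcongr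
    _ = (1 + ε) * ((q : ℝ) / (e * ((1 - 2 * ε) * x))) * wn (x - Real.log e) π := by ring

open Classical in
/-- the sum over the prime values -/
lemma t2b_sum {x' M : ℝ} {q : ℕ} [NeZero q] (hq : Squarefree q) (e b : ℕ) (P : Finset ℕ)
    (hP : ∀ π ∈ P, IsUnit (π : ZMod q) ∧ (e : ZMod q) * (π : ZMod q) = (b : ZMod q))
    (hM : 0 ≤ M)
    (hAP : ∀ a : ZMod q, IsUnit a → ∑' n : ℕ, (if (n : ZMod q) = a then wn x' n else 0) ≤ M) :
    ∑ π ∈ P, wn x' π ≤ ((Nat.gcd e q).totient : ℝ) * M := by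
  set R := (Finset.univ : Finset (ZMod q)).filter (fun r => IsUnit r ∧
      (e : ZMod q) * r = (b : ZMod q)) with hR
  have h1 : ∑ π ∈ P, wn x' π = ∑ r ∈ R, ∑ π ∈ P.filter (fun π : ℕ => (π : ZMod q) = r), wn x' π := by
    rw [Finset.sum_fiberwise_of_maps_to]
    intro π hπ
    rw [hR, Finset.mem_filter]
    exact ⟨Finset.mem_univ _, hP π hπ⟩
  rw [h1]
  have h2 : ∀ r ∈ R, ∑ π ∈ P.filter (fun π : ℕ => (π : ZMod q) = r), wn x' π ≤ M := by
    intro r hr
    rw [hR, Finset.mem_filter] at hr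
    refine le_trans ?_ (hAP r hr.2.1)
    have hs : Summable fun n : ℕ => (if (n : ZMod q) = r then wn x' n else 0) := by
      apply Summable.of_nonneg_of_le _ _ (summable_wn x')
      · intro n
        split_ifs
        · exact wn_nonneg x' n
        · exact le_rfl
      · intro n
        split_ifs
        · exact le_rfl
        · exact wn_nonneg x' n
    have h6 := hs.sum_le_tsum (P.filter (fun π : ℕ => (π : ZMod q) = r)) (by
      intro n _
      split_ifs
      · exact wn_nonneg x' n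
      · exact le_rfl)
    refine le_trans (le_of_eq ?_) h6
    refine Finset.sum_congr rfl fun π hπ => ?_
    rw [Finset.mem_filter] at hπ
    rw [if_pos hπ.2]
  calc ∑ r ∈ R, ∑ π ∈ P.filter (fun π : ℕ => (π : ZMod q) = r), wn x' π ≤ ∑ r ∈ R, M :=
        Finset.sum_le_sum h2
    _ = (R.card : ℝ) * M := by rw [Finset.sum_const, nsmul_eq_mul]
    _ ≤ _ := by
        apply mul_le_mul_of_nonneg_right _ hM
        exact_mod_cast card_unit_solutions hq e b

lemma t2b_growth {ε V : ℝ} (hε : 0 < ε) (hε1 : ε < 1 / 100) (hV : 0 ≤ V) :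
    ∀ᶠ x : ℝ in atTop, (3 * V + 5) * Real.exp (ε ^ 2 * x) ≤
      min (Real.log (1 + ε)) 1 * Real.exp ((1 - 2 * ε) * x) ∧
      ε * x < Real.exp ((1 - 2 * ε) * x) ∧ 1 ≤ x := by
  have hm : 0 < min (Real.log (1 + ε)) 1 := lt_min (Real.log_pos (by linarith)) one_pos
  have h1 : Tendsto (fun x : ℝ => Real.exp (1 / 2 * x)) atTop atTop :=
    Real.tendsto_exp_atTop.comp (tendsto_id.const_mul_atTop (by norm_num))
  filter_upwards [h1.eventually_ge_atTop ((3 * V + 5) / min (Real.log (1 + ε)) 1),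
    eventually_ge_atTop 1] with x hx hx1
  rw [div_le_iff₀ hm] at hx
  refine ⟨?_, ?_, hx1⟩
  · have h2 : Real.exp (1 / 2 * x) * Real.exp (ε ^ 2 * x) ≤ Real.exp ((1 - 2 * ε) * x) := by
      rw [← Real.exp_add]
      apply Real.exp_le_exp.2
      have h3 : (1 - 2 * ε) * x - (1 / 2 * x + ε ^ 2 * x) = (1 / 2 - 2 * ε - ε ^ 2) * x := by ring
      have h4 : 0 ≤ (1 / 2 - 2 * ε - ε ^ 2) * x := by
        apply mul_nonneg _ (by linarith)
        nlinarith
      linarith
    calc (3 * V + 5) * Real.exp (ε ^ 2 * x)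
        ≤ (Real.exp (1 / 2 * x) * min (Real.log (1 + ε)) 1) * Real.exp (ε ^ 2 * x) := by gcongr
      _ = min (Real.log (1 + ε)) 1 * (Real.exp (1 / 2 * x) * Real.exp (ε ^ 2 * x)) := by ring
      _ ≤ _ := by gcongr
  · have h2 := Real.add_one_le_exp ((1 - 2 * ε) * x)
    have h3 : ε * x ≤ (1 - 2 * ε) * x := mul_le_mul_of_nonneg_right (by linarith) (by linarith)
    linarith

open Classical in
theorem main_one {ε lam v0 : ℝ} (hε : 0 < ε) (hε1 : ε < 1 / 100) (hv0 : 0 ≤ v0) (hlam : 0 < lam) :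
    ∀ᶠ x : ℝ in atTop, ∀ z p0 q k1 k2 : ℕ, GoodScale ε lam v0 x z p0 q k1 k2 → ∀ b e : ℕ,
      b ≤ 2 * q → e ≠ 0 → (e : ℝ) ≤ Real.exp (ε * x) →
      ∑ k ∈ (Finset.Ico k1 k2).filter (fun k => ∃ π : ℕ, π.Prime ∧ k * q + b = e * π), Wt q x k ≤
        if Nat.gcd e q = Nat.gcd b q then
          (1 + 5 * ε) * (((Nat.gcd b q).totient : ℝ) / e) * (q / (q.totient * x)) else 0 := by
  filter_upwards [GoodScale.sizes hε hε1 hv0 hlam, GoodScale.q_le (lam := lam) (v0 := v0) hε hε1,
    t2b_growth (V := v0 + 1) hε hε1 (by linarith)] with x hsz hql hgr z p0 q k1 k2 hs b e hb he hex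
  obtain ⟨hk1, hk1big, -, -, -, -, hVx, -⟩ := hsz z p0 q k1 k2 hs
  obtain ⟨hq1, hqsf, hqe, -, hzx, hpz⟩ := hql z p0 q k1 k2 hs
  obtain ⟨hg1, hg2, hx1⟩ := hgr
  haveI : NeZero q := ⟨by omega⟩
  have hq' : (1 : ℝ) ≤ q := by exact_mod_cast hq1
  have he' : (0 : ℝ) < e := by exact_mod_cast Nat.pos_of_ne_zero he
  have hel : Real.log e ≤ ε * x := by
    rw [Real.log_le_iff_le_exp he']
    exact hex
  have hel0 : 0 ≤ Real.log e := Real.log_nonneg (by exact_mod_cast Nat.one_le_iff_ne_zero.2 he)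
  have hc : 0 < (1 - 2 * ε) * x := mul_pos (by linarith) (by linarith)
  set F := (Finset.Ico k1 k2).filter (fun k => ∃ π : ℕ, π.Prime ∧ k * q + b = e * π) with hF
  have hφ : (0 : ℝ) < q.totient := by exact_mod_cast Nat.totient_pos.2 hq1
  -- the row facts
  have hrow : ∀ k ∈ F, ∀ π : ℕ, π.Prime → k * q + b = e * π →
      Real.log π ≥ x - (v0 + 1) - Real.log e ∧
      Wt q x k ≤ (1 + ε) * ((q : ℝ) / (e * ((1 - 2 * ε) * x))) * wn (x - Real.log e) π := by
    intro k hk π hπ hkb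
    rw [hF, Finset.mem_filter, Finset.mem_Ico] at hk
    obtain ⟨⟨hk3, hk4⟩, -⟩ := hk
    have hkR : (k1 : ℝ) ≤ k := by exact_mod_cast hk3
    have hk1R : (1 : ℝ) ≤ k1 := by exact_mod_cast hk1
    have hk2R : ((k + 1 : ℕ) : ℝ) ≤ k2 := by exact_mod_cast hk4
    have hkbig : Real.exp ((1 - 2 * ε) * x) ≤ k := hk1big.trans hkR
    have hmain : (3 * (v0 + 1) + 5) * (q : ℝ) ≤ min (Real.log (1 + ε)) 1 * k := by
      have hm : 0 < min (Real.log (1 + ε)) 1 := lt_min (Real.log_pos (by linarith)) one_pos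
      calc (3 * (v0 + 1) + 5) * (q : ℝ) ≤ (3 * (v0 + 1) + 5) * Real.exp (ε ^ 2 * x) := by gcongr
        _ ≤ min (Real.log (1 + ε)) 1 * Real.exp ((1 - 2 * ε) * x) := hg1
        _ ≤ _ := by gcongr
    have hmin1 : min (Real.log (1 + ε)) 1 * (k : ℝ) ≤ k := by
      have := mul_le_mul_of_nonneg_right (min_le_right (Real.log (1 + ε)) 1)
        (show (0 : ℝ) ≤ k by linarith)
      linarith
    have hmin2 : min (Real.log (1 + ε)) 1 * (k : ℝ) ≤ Real.log (1 + ε) * k :=
      mul_le_mul_of_nonneg_right (min_le_left _ _) (by linarith)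
    refine t2b_row hε hq1 (by omega) (by exact_mod_cast hb) ?_ ?_ ?_ ?_ he hel hπ hkb hc (by linarith)
    · nlinarith
    · refine hs.hl1.trans (Real.log_le_log (by positivity) ?_)
      gcongr
    · refine le_trans (Real.log_le_log (by positivity) ?_) hs.hl4
      gcongr
    · nlinarith
  -- the primes are units
  have hunit : ∀ k ∈ F, ∀ π : ℕ, π.Prime → k * q + b = e * π →
      IsUnit (π : ZMod q) ∧ (e : ZMod q) * (π : ZMod q) = (b : ZMod q) := by
    intro k hk π hπ hkb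
    have h1 := (hrow k hk π hπ hkb).1
    have h2 : Real.exp ((1 - 2 * ε) * x) ≤ π := by
      rw [← Real.le_log_iff_exp_le (by exact_mod_cast hπ.pos)]
      have : (1 - 2 * ε) * x = x - ε * x - ε * x := by ring
      linarith
    have h3 : (z : ℝ) < π := by linarith
    have h4 : z < π := by exact_mod_cast h3
    constructor
    · rw [ZMod.isUnit_iff_coprime]
      rw [Nat.Prime.coprime_iff_not_dvd hπ]
      intro h5
      have := hpz π hπ h5
      omega
    · have h5 : ((k * q + b : ℕ) : ZMod q) = ((e * π : ℕ) : ZMod q) := by rw [hkb]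
      push_cast at h5
      rw [ZMod.natCast_self, mul_zero, zero_add] at h5
      exact h5.symm
  by_cases hgcd : Nat.gcd e q = Nat.gcd b q
  · rw [if_pos hgcd]
    -- choose the primes
    choose! f hf using (show ∀ k ∈ F, ∃ π : ℕ, π.Prime ∧ k * q + b = e * π from fun k hk => by
      rw [hF, Finset.mem_filter] at hk
      exact hk.2)
    have hinj : Set.InjOn f (F : Set ℕ) := by
      intro k hk k' hk' h
      have h1 := (hf k hk).2
      have h2 := (hf k' hk').2
      rw [← h, ← h1] at h2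
      have h3 : k' * q = k * q := by omega
      exact (Nat.eq_of_mul_eq_mul_right hq1 h3).symm
    set x' := x - Real.log e with hx'
    set C : ℝ := (1 + ε) * ((q : ℝ) / (e * ((1 - 2 * ε) * x))) with hC
    have hC0 : 0 ≤ C := by positivity
    have h1 : ∑ k ∈ F, Wt q x k ≤ C * ∑ π ∈ F.image f, wn x' π := by
      rw [Finset.sum_image hinj, Finset.mul_sum]
      exact Finset.sum_le_sum fun k hk => (hrow k hk (f k) (hf k hk).1 (hf k hk).2).2
    have h2 : ∑ π ∈ F.image f, wn x' π ≤ ((Nat.gcd e q).totient : ℝ) * ((1 + ε) / q.totient) := by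
      refine t2b_sum hqsf e b _ ?_ (by positivity) ?_
      · intro π hπ
        obtain ⟨k, hk, rfl⟩ := Finset.mem_image.1 hπ
        exact hunit k hk (f k) (hf k hk).1 (hf k hk).2
      · intro a ha
        refine hs.hAP x' ?_ ?_ a ha
        · have : (1 - ε) * x = x - ε * x := by ring
          linarith
        · linarith
    rw [← hgcd]
    calc ∑ k ∈ F, Wt q x k ≤ C * ∑ π ∈ F.image f, wn x' π := h1
      _ ≤ C * (((Nat.gcd e q).totient : ℝ) * ((1 + ε) / q.totient)) := by gcongr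
      _ = ((1 + ε) ^ 2 / (1 - 2 * ε)) * ((((Nat.gcd e q).totient : ℝ) / e) * (q / (q.totient * x))) := by
          rw [hC]
          have : (1 - 2 * ε) ≠ 0 := by linarith
          have : x ≠ 0 := by linarith
          field_simp
      _ ≤ (1 + 5 * ε) * ((((Nat.gcd e q).totient : ℝ) / e) * (q / (q.totient * x))) := by
          apply mul_le_mul_of_nonneg_right _ (by positivity)
          rw [div_le_iff₀ (by linarith)]
          nlinarith
      _ = _ := by ring
  · rw [if_neg hgcd]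
    have hempty : F = ∅ := by
      rw [Finset.eq_empty_iff_forall_notMem]
      intro k hk
      have hk' := hk
      rw [hF, Finset.mem_filter] at hk'
      obtain ⟨-, π, hπ, hkb⟩ := hk'
      have h1 := hunit k hk π hπ hkb
      exact hgcd (gcd_eq_of_mul_unit h1.1 h1.2)
    rw [hempty, Finset.sum_empty]

end Pool.Agent.LibThin21
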