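import Pool.Agent.LibThin21.T3a

/-!
ROW T3. Type (I'): sum of `bt_one` over `e ∈ ESm E`, `exp (ε x) < e` (and `e < π` gives
`e ^ 2 ≤ k2 q + 2 q`, so `e ≤ exp x`), bounded with `Esum_tail` (row S5, `η = ε / (500 exp (2 v0 + 3))`).
-/

namespace Pool.Agent.LibThin21

open Filter Topology
open Pool.Agent.LibMaier

open Classical in
theorem type_tail {E : Set ℕ} (h : Thin E) {ε lam v0 : ℝ} (hε : 0 < ε) (hε1 : ε < 1 / 100)
    (hv0 : 0 ≤ v0) (hlam : 0 < lam) :
    ∀ᶠ x : ℝ in atTop, ∀ z p0 q k1 k2 : ℕ, GoodScale ε lam v0 x z p0 q k1 k2 → ∀ b : ℕ, b ≤ 2 * q →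
      ∑ k ∈ (Finset.Ico k1 k2).filter (fun k => ∃ e π : ℕ, e ∈ ESm E ∧ Real.exp (ε * x) < (e : ℝ) ∧
        π.Prime ∧ e < π ∧ k * q + b = e * π), Wt q x k ≤
        ε * DQ E q x * (q / (q.totient * x)) := by
  have hc : (0 : ℝ) < 500 * Real.exp (2 * v0 + 3) := by positivity
  have hη : 0 < ε / (500 * Real.exp (2 * v0 + 3)) := by positivity
  filter_upwards [bt_one hε hε1 hv0 hlam, GoodScale.sizes hε hε1 hv0 hlam,
    GoodScale.q_le (lam := lam) (v0 := v0) hε hε1, Esum_tail (lam := lam) (v0 := v0) h hε hε1 hη,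
    eventually_ge_atTop (2 : ℝ)] with x h1 h2 h3 h4 hx2
  intro z p0 q k1 k2 hg b hb
  obtain ⟨hk1, -, -, hk2, -, -, hve, -⟩ := h2 z p0 q k1 k2 hg
  obtain ⟨hq1, hqsq, hqle, -, -, -⟩ := h3 z p0 q k1 k2 hg
  have hx0 : (0 : ℝ) < x := by linarith
  have hphi : (0 : ℝ) < (q.totient : ℝ) := by exact_mod_cast Nat.totient_pos.2 (by omega)
  have hq0 : (0 : ℝ) < (q : ℝ) := by exact_mod_cast (by omega : 0 < q)
  have hfac : (0 : ℝ) ≤ (q : ℝ) / (q.totient * x) := by positivity
  set d := Nat.gcd b q with hd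
  have hdq : d ∣ q := Nat.gcd_dvd_right _ _
  set S' : Finset ℕ := (Finset.Icc 1 ⌊Real.exp x⌋₊).filter
    (fun e => e ∈ ESm E ∧ Real.exp (ε * x) < (e : ℝ)) with hS'
  have hWt : ∀ k ∈ Finset.Ico k1 k2, 0 ≤ Wt q x k := by
    intro k hk
    exact Wt_nonneg hq1 (by rw [Finset.mem_Ico] at hk; omega) x
  -- the bound for `e`
  have hele : ∀ k ∈ Finset.Ico k1 k2, ∀ e π : ℕ, e < π → k * q + b = e * π →
      (e : ℝ) ≤ Real.exp x := by
    intro k hk e π heπ hke
    rw [Finset.mem_Ico] at hk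
    have a1 : e * e ≤ k2 * q + 2 * q := by
      calc e * e ≤ e * π := Nat.mul_le_mul_left _ heπ.le
        _ = k * q + b := hke.symm
        _ ≤ k2 * q + 2 * q := Nat.add_le_add (Nat.mul_le_mul_right _ hk.2.le) hb
    have a2 : (e : ℝ) * e ≤ k2 * q + 2 * q := by exact_mod_cast a1
    have a3 : (k2 : ℝ) * q ≤ Real.exp (2 * x - 1) :=
      hk2.trans (Real.exp_le_exp.2 (by nlinarith))
    have a4 : (q : ℝ) ≤ Real.exp (2 * x - 2) :=
      hqle.trans (Real.exp_le_exp.2 (by nlinarith [mul_pos hε hε]))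
    have e1 : (2 : ℝ) ≤ Real.exp 1 := by
      have := Real.add_one_le_exp (1 : ℝ); linarith
    have a5 : 2 * Real.exp (2 * x - 1) ≤ Real.exp (2 * x) := by
      have : Real.exp (2 * x) = Real.exp (2 * x - 1) * Real.exp 1 := by
        rw [← Real.exp_add]; ring_nf
      rw [this]
      nlinarith [Real.exp_pos (2 * x - 1)]
    have a6 : 2 * Real.exp (2 * x - 2) ≤ Real.exp (2 * x - 1) := by
      have : Real.exp (2 * x - 1) = Real.exp (2 * x - 2) * Real.exp 1 := by
        rw [← Real.exp_add]; ring_nf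
      rw [this]
      nlinarith [Real.exp_pos (2 * x - 2)]
    have a7 : (e : ℝ) * e ≤ Real.exp x * Real.exp x := by
      rw [← Real.exp_add]
      have : Real.exp (x + x) = Real.exp (2 * x) := by ring_nf
      rw [this]
      linarith
    exact abs_le_of_sq_le_sq' (by nlinarith) (Real.exp_pos x).le |>.2
  have hmain : ∑ k ∈ (Finset.Ico k1 k2).filter (fun k => ∃ e π : ℕ, e ∈ ESm E ∧
        Real.exp (ε * x) < (e : ℝ) ∧ π.Prime ∧ e < π ∧ k * q + b = e * π), Wt q x k ≤
      ∑ e ∈ S', ∑ k ∈ (Finset.Ico k1 k2).filter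
        (fun k => ∃ π : ℕ, π.Prime ∧ e < π ∧ k * q + b = e * π), Wt q x k := by
    simp_rw [Finset.sum_filter (s := Finset.Ico k1 k2)]
    rw [Finset.sum_comm]
    apply Finset.sum_le_sum
    intro k hk
    split_ifs with hex
    · obtain ⟨e, π, he, hee, hπ, heπ, hke⟩ := hex
      have heS : e ∈ S' := by
        rw [hS', Finset.mem_filter, Finset.mem_Icc]
        exact ⟨⟨Nat.one_le_iff_ne_zero.2 he.1, Nat.le_floor (hele k hk e π heπ hke)⟩, he, hee⟩
      have hex' : ∃ π : ℕ, π.Prime ∧ e < π ∧ k * q + b = e * π := ⟨π, hπ, heπ, hke⟩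
      have := Finset.single_le_sum (f := fun e => if ∃ π : ℕ, π.Prime ∧ e < π ∧
          k * q + b = e * π then Wt q x k else 0) (s := S') (fun i _ => by
            split_ifs
            · exact hWt k hk
            · exact le_rfl) heS
      simp only [hex', if_true] at this
      exact this
    · apply Finset.sum_nonneg
      intro i _
      split_ifs
      · exact hWt k hk
      · exact le_rfl
  refine hmain.trans ?_
  have hstep : ∑ e ∈ S', ∑ k ∈ (Finset.Ico k1 k2).filter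
        (fun k => ∃ π : ℕ, π.Prime ∧ e < π ∧ k * q + b = e * π), Wt q x k ≤
      ∑ e ∈ S', if Nat.gcd e q = d then
        (500 * Real.exp (2 * v0 + 3)) * ((d.totient : ℝ) / e) * (q / (q.totient * x)) else 0 := by
    apply Finset.sum_le_sum
    intro e he
    rw [hS', Finset.mem_filter, Finset.mem_Icc] at he
    exact h1 z p0 q k1 k2 hg b e hb (by omega)
  refine hstep.trans ?_
  rw [← Finset.sum_filter]
  have hfil : S'.filter (fun e => Nat.gcd e q = d) = (Finset.Icc 1 ⌊Real.exp x⌋₊).filter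
      (fun e => e ∈ ESm E ∧ Nat.gcd e q = d ∧ Real.exp (ε * x) < (e : ℝ)) := by
    ext e
    simp only [hS', Finset.mem_filter]
    tauto
  rw [hfil]
  have hsum : ∑ e ∈ (Finset.Icc 1 ⌊Real.exp x⌋₊).filter
      (fun e => e ∈ ESm E ∧ Nat.gcd e q = d ∧ Real.exp (ε * x) < (e : ℝ)),
        (500 * Real.exp (2 * v0 + 3)) * ((d.totient : ℝ) / e) * (q / (q.totient * x)) =
      (500 * Real.exp (2 * v0 + 3)) * Esum E q d (Real.exp (ε * x)) (Real.exp x) *
        (q / (q.totient * x)) := by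
    unfold Esum
    rw [Finset.mul_sum, Finset.sum_mul]
  rw [hsum]
  have h5 := h4 z p0 q k1 k2 hg d hdq
  have h6 : (500 * Real.exp (2 * v0 + 3)) * Esum E q d (Real.exp (ε * x)) (Real.exp x) ≤
      ε * DQ E q x := by
    calc (500 * Real.exp (2 * v0 + 3)) * Esum E q d (Real.exp (ε * x)) (Real.exp x)
        ≤ (500 * Real.exp (2 * v0 + 3)) *
          (ε / (500 * Real.exp (2 * v0 + 3)) * DQ E q x) := mul_le_mul_of_nonneg_left h5 hc.le
      _ = ε * DQ E q x := by field_simp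
  exact mul_le_mul_of_nonneg_right h6 hfac

end Pool.Agent.LibThin21
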