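import Pool.Agent.LibThin21.T0
import Pool.Agent.LibThin21.T2a

/-!
ROW T3a. One value of `e` in type (I'), by Brun-Titchmarsh (`LSieve.brun_titchmarsh`).

Let `g = gcd (e, q)`. If some `k` in the filter exists then `gcd (b, q) = g` (the prime `π > z` is a unit mod
`q`). The primes `π = (k q + b) / e` are all `≡ ρ` modulo `q' = q / g` (`e π ≡ b mod q`, so
`(e/g) π ≡ b/g mod q'`), lie in an interval of length `k2 q / e + 1 ≤ q' X` with
`X = ⌊k2 g / e⌋ + 2`, and are `> e`, hence `≥ exp (x/3)`. Since `e ^ 2 ≤ k2 q + 2 q`, `X ≥ exp (x/3)`. With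
`M = ⌊exp (x/7)⌋`: `#P * log M ≤ 18 (q'/φ(q')) X`, `log M ≥ x/8`, `X ≤ 3 k2 g / e`, and
`q'/φ(q') * g = (q/φ(q)) φ(g)` (`q` squarefree). So `#k ≤ 432 (k2/x) (q/φ(q)) φ(g)/e`, and
`Wt ≤ 1/k1`, `k2 ≤ exp (2 v0 + 3) k1`.
-/

namespace Pool.Agent.LibThin21

open Filter Topology
open Pool.Agent.LibMaier

/-- the combinatorial core: one value of `e`, primes in a progression -/
lemma t3a_core {q k1 k2 b e z : ℕ} {x : ℝ} (hq1 : 1 ≤ q) (hqsf : Squarefree q)
    (hz : ∀ p : ℕ, p.Prime → p ∣ q → p ≤ z) (hb : b ≤ 2 * q) (he : e ≠ 0) (hx : 0 < x)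
    (hk2 : 1 ≤ k2) (hzx : (z : ℝ) < Real.exp (x / 7)) (h1 : Real.exp (2 * x / 7) ≤ (k1 : ℝ) * q)
    (h2 : 3 * (q : ℝ) * Real.exp (4 * x / 7) < k2)
    (hM : Real.exp (x / 8) ≤ Real.exp (x / 7) - 1)
    (P : Finset ℕ) (hP : ∀ k ∈ P, k1 ≤ k ∧ k < k2 ∧ ∃ π : ℕ, π.Prime ∧ e < π ∧ k * q + b = e * π)
    (hne : P.Nonempty) : Nat.gcd e q = Nat.gcd b q ∧
      (P.card : ℝ) ≤ 432 * (k2 / x) * ((q : ℝ) / q.totient) *
        (((Nat.gcd b q).totient : ℝ) / e) := by
  classical
  have hqR : (1 : ℝ) ≤ q := by exact_mod_cast hq1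
  have he1 : 1 ≤ e := Nat.pos_of_ne_zero he
  have heR : (1 : ℝ) ≤ e := by exact_mod_cast he1
  have hk2R : (1 : ℝ) ≤ k2 := by exact_mod_cast hk2
  -- the primes are large
  have hbig : ∀ k ∈ P, ∀ π : ℕ, π.Prime → e < π → k * q + b = e * π →
      Real.exp (x / 7) < (π : ℝ) := by
    intro k hk π hπ heπ hkπ
    obtain ⟨hk1, -, -⟩ := hP k hk
    have e1 : (k1 : ℝ) * q ≤ (e : ℝ) * π := by
      have : k1 * q ≤ e * π := by rw [← hkπ]; nlinarith
      exact_mod_cast this
    have e2 : (e : ℝ) < π := by exact_mod_cast heπ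
    have hπ0 : (0 : ℝ) < π := by exact_mod_cast hπ.pos
    have e3 : Real.exp (x / 7) ^ 2 < (π : ℝ) ^ 2 := by
      have e4 : Real.exp (x / 7) ^ 2 = Real.exp (2 * x / 7) := by
        rw [← Real.exp_nat_mul]
        congr 1
        push_cast
        ring
      rw [e4]
      nlinarith
    exact lt_of_pow_lt_pow_left₀ 2 hπ0.le e3
  have hgcd : ∀ k ∈ P, Nat.gcd e q = Nat.gcd b q := by
    intro k hk
    obtain ⟨-, -, π, hπ, heπ, hkπ⟩ := hP k hk
    have hcop : Nat.Coprime π q := by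
      rw [Nat.Prime.coprime_iff_not_dvd hπ]
      intro hdvd
      have e1 := hz π hπ hdvd
      have e2 : (π : ℝ) ≤ z := by exact_mod_cast e1
      have e3 := hbig k hk π hπ heπ hkπ
      linarith
    have e4 : Nat.gcd (k * q + b) q = Nat.gcd b q := by
      rw [Nat.gcd_comm, Nat.gcd_comm b q, Nat.gcd_mul_right_add_right]
    rw [← e4, hkπ, mul_comm, Nat.Coprime.gcd_mul_left_cancel e hcop]
  obtain ⟨k0, hk0⟩ := hne
  have hg := hgcd k0 hk0
  refine ⟨hg, ?_⟩
  obtain ⟨hk01, hk02, π0, hπ0, heπ0, hkπ0⟩ := hP k0 hk0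
  set g : ℕ := Nat.gcd b q with hgdef
  have hg0 : 0 < g := Nat.gcd_pos_of_pos_right _ hq1
  have hgR : (1 : ℝ) ≤ g := by exact_mod_cast hg0
  have hgq : g ∣ q := Nat.gcd_dvd_right b q
  set q' : ℕ := q / g with hq'
  have hqq : g * q' = q := Nat.mul_div_cancel' hgq
  have hq'1 : 1 ≤ q' := by
    rcases Nat.eq_zero_or_pos q' with h0 | h0
    · rw [h0, mul_zero] at hqq
      omega
    · exact h0
  -- the quotients
  have hquot : ∀ k ∈ P, ((k * q + b) / e).Prime ∧ e < (k * q + b) / e ∧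
      k * q + b = e * ((k * q + b) / e) := by
    intro k hk
    obtain ⟨-, -, π, hπ, heπ, hkπ⟩ := hP k hk
    have : (k * q + b) / e = π := by
      rw [hkπ, Nat.mul_div_cancel_left _ he1]
    rw [this]
    exact ⟨hπ, heπ, hkπ⟩
  set R : Finset ℕ := P.image (fun k => (k * q + b) / e) with hR
  have hRc : R.card = P.card := by
    refine Finset.card_image_of_injOn ?_
    intro k hk l hl hkl
    have hkl' : (k * q + b) / e = (l * q + b) / e := hkl
    have e1 := (hquot k hk).2.2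
    have e2 := (hquot l hl).2.2
    rw [hkl', ← e2] at e1
    have e3 : k * q = l * q := by omega
    exact Nat.eq_of_mul_eq_mul_right hq1 e3
  set X : ℕ := ⌊(k2 : ℝ) * g / e⌋₊ + 2 with hX
  have hX1 : (k2 : ℝ) * g / e + 1 < X := by
    have := Nat.lt_floor_add_one ((k2 : ℝ) * g / e)
    rw [hX]
    push_cast
    linarith
  have hX2 : (X : ℝ) ≤ (k2 : ℝ) * g / e + 2 := by
    have := Nat.floor_le (show (0 : ℝ) ≤ (k2 : ℝ) * g / e by positivity)
    rw [hX]
    push_cast
    linarith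
  -- the size of `e`
  have he2 : (e : ℝ) ^ 2 ≤ 3 * k2 * q := by
    have e1 : e * e ≤ 3 * k2 * q := by
      have e2 : e * e ≤ e * π0 := Nat.mul_le_mul_left _ heπ0.le
      have e3 : k0 * q ≤ k2 * q := Nat.mul_le_mul_right _ hk02.le
      nlinarith
    have : ((e * e : ℕ) : ℝ) ≤ ((3 * k2 * q : ℕ) : ℝ) := by exact_mod_cast e1
    push_cast at this
    nlinarith
  have hk2e : (k2 : ℝ) / e ≤ (k2 : ℝ) * g / e := by
    gcongr
    nlinarith
  have hexp1 : 1 ≤ Real.exp (4 * x / 7) := Real.one_le_exp (by positivity)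
  have hXsq : Real.exp (4 * x / 7) < ((k2 : ℝ) / e) ^ 2 := by
    rw [div_pow, lt_div_iff₀ (by positivity)]
    have e1 : Real.exp (4 * x / 7) * (e : ℝ) ^ 2 ≤ Real.exp (4 * x / 7) * (3 * k2 * q) :=
      mul_le_mul_of_nonneg_left he2 (Real.exp_pos _).le
    have e2 : (3 * (q : ℝ) * Real.exp (4 * x / 7)) * k2 < k2 * k2 :=
      mul_lt_mul_of_pos_right h2 (by linarith)
    nlinarith
  have hk2e1 : 1 ≤ (k2 : ℝ) / e := by
    have e1 : (1 : ℝ) ^ 2 ≤ ((k2 : ℝ) / e) ^ 2 := by
      rw [one_pow]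
      linarith
    exact (pow_le_pow_iff_left₀ zero_le_one (by positivity) two_ne_zero).1 e1
  set M : ℕ := ⌊Real.exp (x / 7)⌋₊ with hMdef
  have hM1 : (M : ℝ) ≤ Real.exp (x / 7) := Nat.floor_le (Real.exp_pos _).le
  have hM2 : Real.exp (x / 8) ≤ M := by
    have := Nat.lt_floor_add_one (Real.exp (x / 7))
    rw [hMdef]
    linarith
  have hMX : M ^ 2 < X := by
    have e1 : Real.exp (2 * x / 7) < (k2 : ℝ) / e := by
      have e2 : Real.exp (2 * x / 7) ^ 2 < ((k2 : ℝ) / e) ^ 2 := by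
        have e4 : Real.exp (2 * x / 7) ^ 2 = Real.exp (4 * x / 7) := by
          rw [← Real.exp_nat_mul]
          congr 1
          push_cast
          ring
        rw [e4]
        exact hXsq
      exact lt_of_pow_lt_pow_left₀ 2 (by positivity) e2
    have e3 : (M : ℝ) ^ 2 ≤ Real.exp (2 * x / 7) := by
      have e4 : Real.exp (x / 7) ^ 2 = Real.exp (2 * x / 7) := by
        rw [← Real.exp_nat_mul]
        congr 1
        push_cast
        ring
      rw [← e4]
      exact pow_le_pow_left₀ (Nat.cast_nonneg _) hM1 2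
    have e5 : ((M ^ 2 : ℕ) : ℝ) < X := by
      push_cast
      linarith
    exact_mod_cast e5
  have hBT := LSieve.brun_titchmarsh R (by
      intro π hπ
      obtain ⟨k, hk, rfl⟩ := Finset.mem_image.1 hπ
      exact (hquot k hk).1) M X q' π0 ((k1 * q + b) / e) hMX (by
      intro π hπ
      obtain ⟨k, hk, rfl⟩ := Finset.mem_image.1 hπ
      have e1 := hbig k hk _ (hquot k hk).1 (hquot k hk).2.1 (hquot k hk).2.2
      have e2 : (M : ℝ) < (((k * q + b) / e : ℕ) : ℝ) := by linarith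
      exact_mod_cast e2) hq'1 (by
      intro π hπ
      obtain ⟨k, hk, rfl⟩ := Finset.mem_image.1 hπ
      have e1 := (hquot k hk).2.2
      have e2 : e * ((k * q + b) / e) ≡ e * π0 [MOD q] := by
        rw [← e1, ← hkπ0]
        exact Nat.ModEq.add_right b ((Nat.modEq_zero_iff_dvd.2 (Dvd.intro_left k rfl)).trans
          (Nat.modEq_zero_iff_dvd.2 (Dvd.intro_left k0 rfl)).symm)
      have e3 := Nat.ModEq.cancel_left_div_gcd hq1 e2
      rw [Nat.gcd_comm, hg] at e3
      exact e3) (by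
      intro π hπ
      obtain ⟨k, hk, rfl⟩ := Finset.mem_image.1 hπ
      obtain ⟨hkk1, hkk2, -⟩ := hP k hk
      constructor
      · exact Nat.div_le_div_right (by nlinarith)
      · set π := (k * q + b) / e with hπdef
        have e1 : k * q + b = e * π := (hquot k hk).2.2
        have e2 : k1 * q + b < e * ((k1 * q + b) / e + 1) := Nat.lt_mul_div_succ _ he1
        set A := (k1 * q + b) / e with hA
        have e3 : (e : ℝ) * π < k2 * q + b := by
          have : e * π < k2 * q + b := by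
            rw [← e1]
            have : k * q < k2 * q := Nat.mul_lt_mul_of_pos_right hkk2 hq1
            omega
          exact_mod_cast this
        have e4 : (k1 : ℝ) * q + b < e * (A + 1) := by exact_mod_cast e2
        have e5 : (k2 : ℝ) * g + e ≤ e * X := by
          have := mul_le_mul_of_nonneg_left hX1.le (show (0 : ℝ) ≤ e by positivity)
          have e6 : (e : ℝ) * ((k2 : ℝ) * g / e + 1) = k2 * g + e := by
            field_simp
          linarith
        have e7 : ((k2 : ℝ) * g + e) * q' ≤ e * X * q' :=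
          mul_le_mul_of_nonneg_right e5 (Nat.cast_nonneg _)
        have e8 : (k2 : ℝ) * g * q' = k2 * q := by
          rw [← hqq]
          push_cast
          ring
        have e9 : (e : ℝ) ≤ e * q' := by
          have : (1 : ℝ) ≤ q' := by exact_mod_cast hq'1
          nlinarith
        have e10 : (0 : ℝ) ≤ (k1 : ℝ) * q := by positivity
        have e11 : (e : ℝ) * π < e * (A + q' * X) := by nlinarith
        have e12 : (π : ℝ) < A + q' * X := lt_of_mul_lt_mul_left e11 (by positivity)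
        exact_mod_cast e12)
  rw [hRc] at hBT
  have hlogM : x / 8 ≤ Real.log M := by
    rw [Real.le_log_iff_exp_le (by have := Real.exp_pos (x / 8); linarith)]
    exact hM2
  have hcopq : Nat.Coprime g q' := by
    have : Squarefree (g * q') := by rw [hqq]; exact hqsf
    exact Nat.coprime_of_squarefree_mul this
  have hφ : q.totient = g.totient * q'.totient := by
    rw [← hqq]
    exact Nat.totient_mul hcopq
  have hφg : (0 : ℝ) < g.totient := by exact_mod_cast Nat.totient_pos.2 hg0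
  have hφq' : (0 : ℝ) < q'.totient := by exact_mod_cast Nat.totient_pos.2 hq'1
  have hX3 : (X : ℝ) ≤ 3 * (k2 * g / e) := by linarith
  have f1 : (P.card : ℝ) * (x / 8) ≤ 18 * (q' / q'.totient) * (3 * (k2 * g / e)) := by
    calc (P.card : ℝ) * (x / 8) ≤ P.card * Real.log M :=
          mul_le_mul_of_nonneg_left hlogM (Nat.cast_nonneg _)
      _ ≤ 18 * (q' / q'.totient) * X := hBT
      _ ≤ _ := mul_le_mul_of_nonneg_left hX3 (by positivity)
  have f2 : 18 * ((q' : ℝ) / q'.totient) * (3 * (k2 * g / e)) =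
      54 * k2 * ((q : ℝ) / q.totient) * ((g.totient : ℝ) / e) := by
    rw [hφ, ← hqq]
    push_cast
    field_simp
    ring
  rw [f2] at f1
  have f3 : 432 * (k2 / x) * ((q : ℝ) / q.totient) * ((g.totient : ℝ) / e) =
      (54 * k2 * ((q : ℝ) / q.totient) * ((g.totient : ℝ) / e)) / (x / 8) := by
    field_simp
    ring
  rw [f3, le_div_iff₀ (by positivity)]
  exact f1

open Classical in
theorem bt_one {ε lam v0 : ℝ} (hε : 0 < ε) (hε1 : ε < 1 / 100) (hv0 : 0 ≤ v0) (hlam : 0 < lam) :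
    ∀ᶠ x : ℝ in atTop, ∀ z p0 q k1 k2 : ℕ, GoodScale ε lam v0 x z p0 q k1 k2 → ∀ b e : ℕ,
      b ≤ 2 * q → e ≠ 0 →
      ∑ k ∈ (Finset.Ico k1 k2).filter (fun k => ∃ π : ℕ, π.Prime ∧ e < π ∧ k * q + b = e * π),
        Wt q x k ≤
        if Nat.gcd e q = Nat.gcd b q then
          (500 * Real.exp (2 * v0 + 3)) * (((Nat.gcd b q).totient : ℝ) / e) * (q / (q.totient * x))
        else 0 := by
  have l1 : ∀ᶠ x : ℝ in atTop, x < Real.exp (x / 7) := by
    have t := (Real.tendsto_pow_mul_exp_neg_atTop_nhds_zero 1).comp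
        (tendsto_id.const_mul_atTop (show (0 : ℝ) < 1 / 7 by norm_num))
    filter_upwards [t.eventually_lt_const (show (0 : ℝ) < 1 / 7 by norm_num)] with x h1
    simp only [Function.comp_apply, id, pow_one] at h1
    have h2 : Real.exp (-(1 / 7 * x)) * Real.exp (x / 7) = 1 := by
      rw [← Real.exp_add]
      have : -(1 / 7 * x) + x / 7 = 0 := by ring
      rw [this, Real.exp_zero]
    have h3 := Real.exp_pos (x / 7)
    nlinarith
  have l2 : ∀ᶠ x : ℝ in atTop, 3 ≤ Real.exp (x / 100) := by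
    filter_upwards [eventually_ge_atTop 200] with x hx
    have := Real.add_one_le_exp (x / 100)
    linarith
  have l3 : ∀ᶠ x : ℝ in atTop, Real.exp (x / 8) ≤ Real.exp (x / 7) - 1 := by
    filter_upwards [eventually_ge_atTop 56] with x hx
    have h1 : x / 7 = x / 8 + x / 56 := by ring
    rw [h1, Real.exp_add]
    have h2 := Real.add_one_le_exp (x / 56)
    have h3 : (1 : ℝ) ≤ Real.exp (x / 8) := Real.one_le_exp (by positivity)
    nlinarith
  filter_upwards [GoodScale.q_le hε hε1, GoodScale.sizes hε hε1 hv0 hlam, l1, l2, l3,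
    eventually_gt_atTop 1] with x hQ hsz hx1 hx2 hx3 hx z p0 q k1 k2 hs b e hb he
  obtain ⟨hq1, hqsf, hq2, -, hz, hzp⟩ := hQ z p0 q k1 k2 hs
  obtain ⟨hk1, hk1e, hk1q, -, hk2, -, hv, -⟩ := hsz z p0 q k1 k2 hs
  have hx0 : 0 < x := by linarith
  have hqR : (1 : ℝ) ≤ q := by exact_mod_cast hq1
  have hφ : (0 : ℝ) < q.totient := by exact_mod_cast Nat.totient_pos.2 hq1
  have heR : (0 : ℝ) < e := by exact_mod_cast Nat.pos_of_ne_zero he
  have hk1R : (0 : ℝ) < k1 := by exact_mod_cast hk1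
  set P := (Finset.Ico k1 k2).filter (fun k => ∃ π : ℕ, π.Prime ∧ e < π ∧ k * q + b = e * π)
    with hPdef
  rcases P.eq_empty_or_nonempty with h0 | hne
  · rw [h0, Finset.sum_empty]
    split_ifs
    · positivity
    · exact le_rfl
  have hk12 : k1 ≤ k2 := hs.hk12
  have h12R : (k1 : ℝ) ≤ k2 := by exact_mod_cast hk12
  have hcore := t3a_core (x := x) (k1 := k1) (k2 := k2) hq1 hqsf hzp hb he hx0 (hk1.trans hk12) (by
      have : ε * x ≤ x := by nlinarith
      linarith) (by
      refine le_trans (Real.exp_le_exp.2 ?_) hk1q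
      nlinarith) (by
      have e1 : 3 * (q : ℝ) * Real.exp (4 * x / 7) ≤
          Real.exp (x / 100) * Real.exp (ε ^ 2 * x) * Real.exp (4 * x / 7) := by
        refine mul_le_mul_of_nonneg_right ?_ (Real.exp_pos _).le
        exact mul_le_mul hx2 hq2 (by linarith) (Real.exp_pos _).le
      rw [← Real.exp_add, ← Real.exp_add] at e1
      have e2 : Real.exp (x / 100 + ε ^ 2 * x + 4 * x / 7) < Real.exp ((1 - 2 * ε) * x) := by
        refine Real.exp_lt_exp.2 ?_
        have : ε ^ 2 ≤ ε := by nlinarith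
        nlinarith
      linarith) hx3 P (by
      intro k hk
      obtain ⟨h1, h2⟩ := Finset.mem_filter.1 hk
      obtain ⟨h3, h4⟩ := Finset.mem_Ico.1 h1
      exact ⟨h3, h4, h2⟩) hne
  rw [if_pos hcore.1]
  have hW : ∑ k ∈ P, Wt q x k ≤ P.card * (1 / k1) := by
    rw [← nsmul_eq_mul]
    refine Finset.sum_le_card_nsmul _ _ _ fun k hk => ?_
    have hk' := (Finset.mem_Ico.1 (Finset.mem_filter.1 hk).1).1
    refine (Wt_le_inv hq1 (hk1.trans hk') x).trans ?_
    have : (k1 : ℝ) ≤ k := by exact_mod_cast hk'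
    gcongr
  refine hW.trans ?_
  have h3 : (P.card : ℝ) * (1 / k1) ≤ 432 * (k2 / x) * ((q : ℝ) / q.totient) *
      (((Nat.gcd b q).totient : ℝ) / e) * (1 / k1) :=
    mul_le_mul_of_nonneg_right hcore.2 (by positivity)
  refine h3.trans ?_
  have h4 : 432 * ((k2 : ℝ) / x) * ((q : ℝ) / q.totient) *
      (((Nat.gcd b q).totient : ℝ) / e) * (1 / k1) = (432 * (k2 / k1)) *
      (((Nat.gcd b q).totient : ℝ) / e) * (q / (q.totient * x)) := by
    field_simp
  rw [h4]
  have h5 : (k2 : ℝ) / k1 ≤ Real.exp (2 * v0 + 3) := by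
    rw [div_le_iff₀ hk1R]
    exact hk2
  have h6 : 432 * ((k2 : ℝ) / k1) ≤ 500 * Real.exp (2 * v0 + 3) := by
    have := Real.exp_pos (2 * v0 + 3)
    linarith
  gcongr

end Pool.Agent.LibThin21
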