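import Pool.Agent.LibThin21.T4a
import Pool.Agent.LibThin21.S2

/-!
ROW T4. Type (IIa): `k q + b` is free of primes outside `E` up to its square root and has a prime
factor `π ∈ E`, `exp (x / log x) < π`, `π ^ 2 ≤ k q + b`.

Sum `sieve_count` over `π ∈ EP E (exp (x / log x)) (exp (2 x))` with `π ^ 2 ≤ k2 q + 2 q ≤ exp (x + v0 + 2)`:
`M = ⌊exp (x/7)⌋`, `M ^ 2 < (k2 - k1)/π + 1` (if `k1 < k2`... note `k2 - k1 ≥ k1 * (exp (2 v0) - 1) ` could be
small when `v0 = 0`; enlarge the interval: the filter over `Ico k1 k2` is contained in the one over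
`Ico 0 (k1 + k2)`, apply `sieve_count` there), `p ^ 2 ≤ k q + b` for `p ≤ M`, so the count is
`≤ 18 * 8 / x * (q/φ(q)) DQ * 3 k2 / π`. With `Wt ≤ 1 / k1`, `k2 ≤ exp (2 v0 + 3) k1` the total is
`≤ C * SE E (exp (x/log x)) (exp (2x)) * DQ * q/(φ(q) x)`; `SE_top` makes it `≤ ε ...`.
-/

namespace Pool.Agent.LibThin21

open Filter Topology
open Pool.Agent.LibMaier

open Classical in
/-- One prime `π`. -/
lemma t4_one {E : Set ℕ} {ε lam v0 x : ℝ} (hε : 0 < ε) (hε1 : ε < 1 / 100)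
    {z p0 q k1 k2 b π M : ℕ} (G : GoodScale ε lam v0 x z p0 q k1 k2)
    (hx : 100 ≤ x) (hk1 : 1 ≤ k1) (hk1e : Real.exp ((1 - 2 * ε) * x) ≤ k1)
    (hk2 : (k2 : ℝ) ≤ Real.exp (2 * v0 + 3) * k1) (hv : v0 + 2 ≤ ε * x)
    (hM : M = ⌊Real.exp (x / 7)⌋₊) (hM8 : Real.exp (x / 8) ≤ Real.exp (x / 7) - 1)
    (hπ : π.Prime) (hπE : π ∈ E) (hzπ : (z : ℝ) < π)
    (hπ2 : (π : ℝ) ^ 2 ≤ Real.exp (x + v0 + 2)) :
    ∑ k ∈ (Finset.Ico k1 k2).filter (fun k => π ∣ k * q + b ∧ ∀ p : ℕ, p.Prime → p ∉ E → p ≤ M →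
        ¬ p ∣ k * q + b), Wt q x k ≤
      288 * (1 + Real.exp (2 * v0 + 3)) * (DQ E q x * (q / (q.totient * x))) * (1 / π) := by
  have hx0 : 0 < x := by linarith
  have hqp : q * p0 = primorial z := G.hq
  have hq1 : 1 ≤ q := by
    rcases Nat.eq_zero_or_pos q with h | h
    · rw [h, zero_mul] at hqp
      exact absurd hqp.symm (primorial_pos z).ne'
    · exact h
  have hπq : ¬ π ∣ q := by
    intro hd
    have h1 : π ∣ primorial z := hqp ▸ (hd.mul_right p0)
    have h2 := (hπ.dvd_primorial_iff).1 h1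
    have h3 : (π : ℝ) ≤ z := by exact_mod_cast h2
    linarith
  have hπ0 : (0 : ℝ) < π := by exact_mod_cast hπ.pos
  have hk10 : (0 : ℝ) < k1 := by exact_mod_cast hk1
  have hMle : (M : ℝ) ≤ Real.exp (x / 7) := by
    rw [hM]
    exact Nat.floor_le (Real.exp_pos _).le
  have hMge : Real.exp (x / 8) ≤ M := by
    have := Nat.lt_floor_add_one (Real.exp (x / 7))
    rw [← hM] at this
    linarith
  have hMx : (M : ℝ) ≤ Real.exp x := hMle.trans (Real.exp_le_exp.2 (by linarith))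
  have hπle : (π : ℝ) ≤ Real.exp ((1 + ε) * x / 2) := by
    have h1 : Real.exp (x + v0 + 2) ≤ Real.exp ((1 + ε) * x / 2) ^ 2 := by
      rw [← Real.exp_nat_mul]
      apply Real.exp_le_exp.2
      push_cast
      linarith
    exact (abs_le_of_sq_le_sq' (hπ2.trans h1) (Real.exp_pos _).le).2
  have hMπ : (M : ℝ) ^ 2 * π ≤ k1 := by
    have h1 : (M : ℝ) ^ 2 ≤ Real.exp (2 * x / 7) := by
      have h2 : Real.exp (2 * x / 7) = Real.exp (x / 7) ^ 2 := by
        rw [← Real.exp_nat_mul]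
        congr 1
        push_cast
        ring
      rw [h2]
      exact pow_le_pow_left₀ (Nat.cast_nonneg _) hMle 2
    calc (M : ℝ) ^ 2 * π ≤ Real.exp (2 * x / 7) * Real.exp ((1 + ε) * x / 2) :=
          mul_le_mul h1 hπle hπ0.le (Real.exp_pos _).le
      _ = Real.exp (2 * x / 7 + (1 + ε) * x / 2) := (Real.exp_add _ _).symm
      _ ≤ Real.exp ((1 - 2 * ε) * x) := by
          apply Real.exp_le_exp.2
          nlinarith
      _ ≤ k1 := hk1e
  have hMX : M ^ 2 < (k1 + k2 - 0) / π + 1 := by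
    have h1 : M ^ 2 * π ≤ k1 + k2 := by
      have : ((M ^ 2 * π : ℕ) : ℝ) ≤ ((k1 + k2 : ℕ) : ℝ) := by
        push_cast
        have : (0 : ℝ) ≤ k2 := Nat.cast_nonneg _
        linarith
      exact_mod_cast this
    have h2 : M ^ 2 ≤ (k1 + k2) / π := (Nat.le_div_iff_mul_le hπ.pos).2 h1
    rw [Nat.sub_zero]
    omega
  have hsv := sieve_count (E := E) (q := q) (π := π) (b := b) (k1 := 0) (k2 := k1 + k2) (M := M)
    (x := x) hq1 hπ hπE hπq hMx hMX
  set F := (Finset.Ico k1 k2).filter (fun k => π ∣ k * q + b ∧ ∀ p : ℕ, p.Prime → p ∉ E → p ≤ M →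
        ¬ p ∣ k * q + b) with hF
  set F' := (Finset.Ico 0 (k1 + k2)).filter (fun k => π ∣ k * q + b ∧
    ∀ p : ℕ, p.Prime → p ∉ E → p ≤ M → ¬ p ∣ k * q + b) with hF'
  have hFF : F ⊆ F' := by
    apply Finset.filter_subset_filter
    intro k hk
    have := Finset.mem_Ico.1 hk
    exact Finset.mem_Ico.2 ⟨by omega, by omega⟩
  have hcardF : (F.card : ℝ) ≤ F'.card := by exact_mod_cast Finset.card_le_card hFF
  have hlogM : x / 8 ≤ Real.log M := by
    rw [Real.le_log_iff_exp_le (lt_of_lt_of_le (Real.exp_pos _) hMge)]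
    exact hMge
  have hDQ : 0 ≤ DQ E q x := by
    apply le_of_lt
    apply LSieve.V_pos
    intro p hp
    unfold EQ EP at hp
    exact (Finset.mem_filter.1 (Finset.mem_filter.1 hp).1).2.1
  have hφ : (0 : ℝ) < q.totient := by exact_mod_cast Nat.totient_pos.2 hq1
  have hA : 0 ≤ 18 * ((q : ℝ) / q.totient) * DQ E q x := by positivity
  set K : ℝ := 1 + Real.exp (2 * v0 + 3) with hK
  have hK0 : 0 < K := by positivity
  have hkk : ((k1 : ℝ) + k2) ≤ K * k1 := by
    rw [hK]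
    linarith
  have hπk : (π : ℝ) ≤ k1 := by
    have h1 : (1 : ℝ) ≤ (M : ℝ) ^ 2 := by
      have h2 : (1 : ℝ) ≤ M := by
        have h3 : (1 : ℝ) ≤ Real.exp (x / 8) := Real.one_le_exp (by positivity)
        linarith
      nlinarith
    nlinarith
  have hNle : (((k1 + k2 - 0) / π + 1 : ℕ) : ℝ) ≤ 2 * (K * k1) / π := by
    rw [Nat.sub_zero]
    have h1 : (((k1 + k2) / π : ℕ) : ℝ) ≤ ((k1 + k2 : ℕ) : ℝ) / π := Nat.cast_div_le
    push_cast at h1 ⊢
    have h2 : 1 ≤ ((k1 : ℝ) + k2) / π := by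
      rw [one_le_div hπ0]
      have : (0 : ℝ) ≤ k2 := Nat.cast_nonneg _
      linarith
    have h3 : ((k1 : ℝ) + k2) / π ≤ (K * k1) / π := div_le_div_of_nonneg_right hkk hπ0.le
    have h4 : 2 * (K * k1) / π = 2 * ((K * k1) / π) := by ring
    linarith
  have hcnt : (F.card : ℝ) * (x / 8) ≤ 18 * ((q : ℝ) / q.totient) * DQ E q x *
      (2 * (K * k1) / π) := by
    calc (F.card : ℝ) * (x / 8) ≤ F'.card * Real.log M :=
          mul_le_mul hcardF hlogM (by positivity) (Nat.cast_nonneg _)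
      _ ≤ _ := hsv
      _ ≤ _ := mul_le_mul_of_nonneg_left hNle hA
  have hsum : ∑ k ∈ F, Wt q x k ≤ F.card * (1 / k1) := by
    rw [← nsmul_eq_mul, ← Finset.sum_const]
    refine Finset.sum_le_sum fun k hk => ?_
    have hk' := Finset.mem_Ico.1 (Finset.mem_filter.1 hk).1
    refine (Wt_le_inv hq1 (by omega) x).trans ?_
    apply one_div_le_one_div_of_le hk10
    exact_mod_cast hk'.1
  refine hsum.trans ?_
  have h8 : (F.card : ℝ) * (1 / k1) = (F.card : ℝ) * (x / 8) * (8 / (x * k1)) := by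
    field_simp
  rw [h8]
  calc (F.card : ℝ) * (x / 8) * (8 / (x * k1)) ≤
      18 * ((q : ℝ) / q.totient) * DQ E q x * (2 * (K * k1) / π) * (8 / (x * k1)) :=
        mul_le_mul_of_nonneg_right hcnt (by positivity)
    _ = 288 * K * (DQ E q x * (q / (q.totient * x))) * (1 / π) := by
        field_simp
        ring

open Classical in
theorem type_IIa {E : Set ℕ} (h : Thin E) {ε lam v0 : ℝ} (hε : 0 < ε) (hε1 : ε < 1 / 100)
    (hv0 : 0 ≤ v0) (hlam : 0 < lam) :
    ∀ᶠ x : ℝ in atTop, ∀ z p0 q k1 k2 : ℕ, GoodScale ε lam v0 x z p0 q k1 k2 → ∀ b : ℕ, b ≤ 2 * q →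
      ∑ k ∈ (Finset.Ico k1 k2).filter (fun k =>
        (∀ p : ℕ, p.Prime → p ∉ E → p ^ 2 ≤ k * q + b → ¬ p ∣ k * q + b) ∧
        ∃ π : ℕ, π.Prime ∧ π ∈ E ∧ Real.exp (x / Real.log x) < (π : ℝ) ∧ π ^ 2 ≤ k * q + b ∧
          π ∣ k * q + b), Wt q x k ≤
        ε * DQ E q x * (q / (q.totient * x)) := by
  set C : ℝ := 288 * (1 + Real.exp (2 * v0 + 3)) with hC
  have hC0 : 0 < C := by positivity
  have hbig : ∀ᶠ x : ℝ in atTop, x < Real.exp (x / Real.log x) := by
    have h1 := (Real.isLittleO_pow_log_id_atTop (n := 2)).bound (by norm_num : (0 : ℝ) < 1 / 2)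
    filter_upwards [h1, eventually_ge_atTop (100 : ℝ)] with x h2 h3
    have hx0 : 0 < x := by linarith
    have hlog : 0 < Real.log x := Real.log_pos (by linarith)
    rw [← Real.log_lt_iff_lt_exp hx0, lt_div_iff₀ hlog]
    rw [Real.norm_of_nonneg (by positivity), id, Real.norm_of_nonneg hx0.le] at h2
    nlinarith
  have hM8 : ∀ᶠ x : ℝ in atTop, Real.exp (x / 8) ≤ Real.exp (x / 7) - 1 := by
    filter_upwards [eventually_ge_atTop (100 : ℝ)] with x h3
    have h4 : Real.exp (x / 7) = Real.exp (x / 8) * Real.exp (x / 56) := by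
      rw [← Real.exp_add]
      congr 1
      ring
    have h5 : 1 + x / 56 ≤ Real.exp (x / 56) := by
      have := Real.add_one_le_exp (x / 56)
      linarith
    have h6 : (1 : ℝ) ≤ Real.exp (x / 8) := Real.one_le_exp (by linarith)
    rw [h4]
    nlinarith
  filter_upwards [GoodScale.sizes hε hε1 hv0 hlam, SE_top h (η := ε / C) (by positivity), hbig, hM8,
    eventually_ge_atTop (100 : ℝ)] with x hsz hSE hbig hM8 hx100 z p0 q k1 k2 G b hb
  obtain ⟨hk1, hk1e, h1, h2, h3, h4, h5, h6⟩ := hsz z p0 q k1 k2 G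
  have hx0 : 0 < x := by linarith
  have hqp : q * p0 = primorial z := G.hq
  have hq1 : 1 ≤ q := by
    rcases Nat.eq_zero_or_pos q with h | h
    · rw [h, zero_mul] at hqp
      exact absurd hqp.symm (primorial_pos z).ne'
    · exact h
  have hφ : (0 : ℝ) < q.totient := by exact_mod_cast Nat.totient_pos.2 hq1
  have hlog1 : 1 ≤ Real.log x := by
    rw [Real.le_log_iff_exp_le hx0]
    have := Real.exp_one_lt_d9
    linarith
  have hzx : (z : ℝ) ≤ x := by
    have h7 := G.hzx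
    have h8 : (z : ℝ) ≤ z * Real.log x := le_mul_of_one_le_right (Nat.cast_nonneg _) hlog1
    have h9 : ε ^ 3 * x ≤ 1 * x := by
      apply mul_le_mul_of_nonneg_right _ hx0.le
      have : ε ^ 3 ≤ 1 ^ 3 := pow_le_pow_left₀ hε.le (by linarith) 3
      linarith
    linarith
  have hDQ : 0 ≤ DQ E q x := by
    apply le_of_lt
    apply LSieve.V_pos
    intro p hp
    unfold EQ EP at hp
    exact (Finset.mem_filter.1 (Finset.mem_filter.1 hp).1).2.1
  set M := ⌊Real.exp (x / 7)⌋₊ with hM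
  have hMle : (M : ℝ) ≤ Real.exp (x / 7) := Nat.floor_le (Real.exp_pos _).le
  set P := (EP E (Real.exp (x / Real.log x)) (Real.exp (2 * x))).filter
    (fun π : ℕ => ((π : ℕ) : ℝ) ^ 2 ≤ Real.exp (x + v0 + 2)) with hP
  set F := (Finset.Ico k1 k2).filter (fun k =>
        (∀ p : ℕ, p.Prime → p ∉ E → p ^ 2 ≤ k * q + b → ¬ p ∣ k * q + b) ∧
        ∃ π : ℕ, π.Prime ∧ π ∈ E ∧ Real.exp (x / Real.log x) < (π : ℝ) ∧ π ^ 2 ≤ k * q + b ∧
          π ∣ k * q + b) with hF
  set f : ℕ → ℕ → Prop := fun π k => π ∣ k * q + b ∧ ∀ p : ℕ, p.Prime → p ∉ E → p ≤ M →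
        ¬ p ∣ k * q + b with hf
  have hqR : (1 : ℝ) ≤ q := by exact_mod_cast hq1
  have hmem : ∀ k ∈ F, ∃ π ∈ P, f π k := by
    intro k hk
    obtain ⟨hk1', hk2', π, hπ, hπE, hπx, hπm, hπd⟩ := Finset.mem_filter.1 hk
    obtain ⟨hka, hkb⟩ := Finset.mem_Ico.1 hk1'
    have hm : ((k * q + b : ℕ) : ℝ) ≤ Real.exp (x + v0 + 2) := by
      have h7 : k * q + b ≤ 2 * (k2 * q) := by
        have : k + 1 ≤ k2 := hkb
        have h8 : (k + 1) * q ≤ k2 * q := Nat.mul_le_mul_right q this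
        have h9 : 1 * q ≤ k2 * q := Nat.mul_le_mul_right q (by omega)
        nlinarith
      have h8 : ((k * q + b : ℕ) : ℝ) ≤ 2 * ((k2 : ℝ) * q) := by exact_mod_cast h7
      have h9 : Real.exp (x + v0 + 2) = Real.exp (x + (v0 + 1)) * Real.exp 1 := by
        rw [← Real.exp_add]
        congr 1
        ring
      have h10 : (2 : ℝ) ≤ Real.exp 1 := by
        have := Real.add_one_le_exp (1 : ℝ)
        linarith
      rw [h9]
      have h11 := Real.exp_pos (x + (v0 + 1))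
      nlinarith
    have hπ2 : (π : ℝ) ^ 2 ≤ Real.exp (x + v0 + 2) := by
      refine le_trans ?_ hm
      exact_mod_cast hπm
    have hπ1 : (1 : ℝ) ≤ π := by exact_mod_cast hπ.one_lt.le
    have hπle : (π : ℝ) ≤ Real.exp (2 * x) := by
      have h7 : (π : ℝ) ≤ (π : ℝ) ^ 2 := by nlinarith
      refine h7.trans (hπ2.trans (Real.exp_le_exp.2 ?_))
      nlinarith
    refine ⟨π, Finset.mem_filter.2 ⟨(mem_EP (Real.exp_pos _).le).2 ⟨hπ, hπE, hπx, hπle⟩, hπ2⟩,
      hπd, fun p hp hpE hpM => hk2' p hp hpE ?_⟩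
    have h7 : ((p ^ 2 : ℕ) : ℝ) ≤ ((k * q + b : ℕ) : ℝ) := by
      have h8 : (p : ℝ) ≤ Real.exp (x / 7) := (Nat.cast_le.2 hpM).trans hMle
      have h9 : (p : ℝ) ^ 2 ≤ Real.exp (x / 7) ^ 2 := pow_le_pow_left₀ (Nat.cast_nonneg _) h8 2
      have h10 : Real.exp (x / 7) ^ 2 ≤ Real.exp (x - (v0 + 1)) := by
        rw [← Real.exp_nat_mul]
        apply Real.exp_le_exp.2
        push_cast
        nlinarith
      have h11 : (k1 : ℝ) * q ≤ k * q := by
        apply mul_le_mul_of_nonneg_right _ (by linarith)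
        exact_mod_cast hka
      push_cast
      have h12 : (0 : ℝ) ≤ b := Nat.cast_nonneg _
      linarith
    exact_mod_cast h7
  have hWn : ∀ k ∈ Finset.Ico k1 k2, 0 ≤ Wt q x k := fun k hk =>
    Wt_nonneg hq1 (by have := Finset.mem_Ico.1 hk; omega) x
  have hstep : ∑ k ∈ F, Wt q x k ≤ ∑ π ∈ P, ∑ k ∈ (Finset.Ico k1 k2).filter (fun k => f π k),
      Wt q x k := by
    calc ∑ k ∈ F, Wt q x k ≤ ∑ k ∈ F, ∑ π ∈ P, (if f π k then Wt q x k else 0) := by
          refine Finset.sum_le_sum fun k hk => ?_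
          obtain ⟨π, hπP, hfk⟩ := hmem k hk
          have h7 := Finset.single_le_sum (f := fun π => if f π k then Wt q x k else 0)
            (fun π _ => by
              show (0 : ℝ) ≤ if f π k then Wt q x k else 0
              split_ifs
              · exact hWn k (Finset.mem_filter.1 hk).1
              · exact le_rfl) hπP
          simpa [hfk] using h7
      _ ≤ ∑ k ∈ Finset.Ico k1 k2, ∑ π ∈ P, (if f π k then Wt q x k else 0) := by
          apply Finset.sum_le_sum_of_subset_of_nonneg (Finset.filter_subset _ _)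
          intro k hk _
          refine Finset.sum_nonneg fun π _ => ?_
          split_ifs
          · exact hWn k hk
          · exact le_rfl
      _ = ∑ π ∈ P, ∑ k ∈ Finset.Ico k1 k2, (if f π k then Wt q x k else 0) := Finset.sum_comm
      _ = _ := by
          refine Finset.sum_congr rfl fun π _ => ?_
          rw [Finset.sum_filter]
  refine hstep.trans ?_
  have hterm : ∀ π ∈ P, ∑ k ∈ (Finset.Ico k1 k2).filter (fun k => f π k), Wt q x k ≤
      C * (DQ E q x * (q / (q.totient * x))) * (1 / π) := by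
    intro π hπ
    obtain ⟨hπ1, hπ2⟩ := Finset.mem_filter.1 hπ
    obtain ⟨hπp, hπE, hπx, -⟩ := (mem_EP (Real.exp_pos _).le).1 hπ1
    exact t4_one hε hε1 G hx100 hk1 hk1e h3 h5 hM hM8 hπp hπE (by linarith) hπ2
  refine (Finset.sum_le_sum hterm).trans ?_
  rw [← Finset.mul_sum]
  have hSE2 : ∑ π ∈ P, 1 / (π : ℝ) ≤ ε / C := by
    refine le_trans ?_ hSE
    unfold SE
    apply Finset.sum_le_sum_of_subset_of_nonneg (Finset.filter_subset _ _)
    intro i _ _
    positivity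
  have hA : 0 ≤ C * (DQ E q x * (q / (q.totient * x))) := by positivity
  calc C * (DQ E q x * (q / (q.totient * x))) * ∑ π ∈ P, 1 / (π : ℝ) ≤
      C * (DQ E q x * (q / (q.totient * x))) * (ε / C) := mul_le_mul_of_nonneg_left hSE2 hA
    _ = ε * DQ E q x * (q / (q.totient * x)) := by
        field_simp

end Pool.Agent.LibThin21
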