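import Pool.Agent.LibThin21.T0
import Pool.Agent.LibThin21.S6

/-!
ROW T5. Type (IIb): `m = k q + b` composed of primes of `E`, all `≤ Y = exp (x / log x)`.

Let `d = gcd (b, q)` (`= gcd (m, q)`), `q = d q'`, `m = d m'`, `m' = k q' + b / d` is coprime to `q'`
(`gcd (m, q) = d` and `q` squarefree... indeed `gcd (m', q') = 1` because `d * gcd (m', q')` divides `m` and `q`).
`m' ≥ exp (x - v0 - 1) / q ≥ exp (x/2)` is `Y`-smooth, so it has a divisor `f` with
`exp (x/4) < f ≤ exp (x/4) * Y ≤ exp (x/2)` (multiply prime factors one by one). `f` is in `ESm E`, `Y`-smooth and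
coprime to `q'`; the number of `k ∈ [k1, k2)` with `f ∣ k q' + b/d` is `≤ k2 / f + 1`. So the total weight is
`≤ (1/k1) ∑_f (k2 / f + 1) ≤ exp (2 v0 + 3) / x ^ 2 + exp (x/2) / k1` by `rankin` (row S6, `δ = 1/4`), and
`DQ ≥ 1`, `q / φ(q) ≥ 1`.
-/

namespace Pool.Agent.LibThin21

open Filter Topology
open Pool.Agent.LibMaier

/-- a smooth number has a divisor in every multiplicative window of length `Y` -/
lemma exists_divisor {Y u : ℝ} (hY : 1 ≤ Y) (hu : 1 ≤ u) {m : ℕ} (hm : u < (m : ℝ))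
    (hs : ∀ p : ℕ, p.Prime → p ∣ m → (p : ℝ) ≤ Y) :
    ∃ f : ℕ, f ∣ m ∧ u < (f : ℝ) ∧ (f : ℝ) ≤ u * Y := by
  classical
  have hex : ∃ f : ℕ, f ∣ m ∧ u < (f : ℝ) := ⟨m, dvd_rfl, hm⟩
  obtain ⟨h1, h2⟩ := Nat.find_spec hex
  refine ⟨Nat.find hex, h1, h2, ?_⟩
  set f := Nat.find hex with hf
  have hf1 : f ≠ 1 := by
    intro h
    rw [h] at h2
    simp only [Nat.cast_one] at h2
    linarith
  have hf0 : f ≠ 0 := by
    intro h
    rw [h] at h2
    simp only [Nat.cast_zero] at h2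
    linarith
  set p := f.minFac with hp
  have hpp : p.Prime := Nat.minFac_prime hf1
  have hpf : p ∣ f := Nat.minFac_dvd f
  have hlt : f / p < f := Nat.div_lt_self (Nat.pos_of_ne_zero hf0) hpp.one_lt
  have h3 := Nat.find_min hex hlt
  have h4 : ¬ u < ((f / p : ℕ) : ℝ) := fun h => h3 ⟨(Nat.div_dvd_of_dvd hpf).trans h1, h⟩
  push Not at h4
  have h5 : (f : ℝ) = ((f / p : ℕ) : ℝ) * p := by
    rw [← Nat.cast_mul, Nat.div_mul_cancel hpf]
  rw [h5]
  exact mul_le_mul h4 (hs p hpp (hpf.trans h1)) (Nat.cast_nonneg _) (by linarith)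

lemma t5_count {f q' c k1 k2 : ℕ} (hf : 0 < f) (hcop : Nat.Coprime f q') :
    (((Finset.Ico k1 k2).filter (fun k => f ∣ k * q' + c)).card : ℝ) ≤ k2 / f + 1 := by
  have h1 : ((Finset.Ico k1 k2).filter (fun k => f ∣ k * q' + c)).card ≤
      (Finset.range (k2 / f + 1)).card := by
    refine Finset.card_le_card_of_injOn (fun k => k / f) ?_ ?_
    · intro k hk
      have hk1 := (Finset.mem_filter.1 hk).1
      have hk2 := (Finset.mem_Ico.1 hk1).2
      refine Finset.mem_coe.2 (Finset.mem_range.2 ?_)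
      exact Nat.lt_succ_of_le (Nat.div_le_div_right hk2.le)
    · intro k hk l hl hkl
      have hk1 := (Finset.mem_filter.1 hk).2
      have hl1 := (Finset.mem_filter.1 hl).2
      have h2 : k * q' + c ≡ l * q' + c [MOD f] :=
        (Nat.modEq_zero_iff_dvd.2 hk1).trans (Nat.modEq_zero_iff_dvd.2 hl1).symm
      have h3 : k * q' ≡ l * q' [MOD f] := Nat.ModEq.add_right_cancel' c h2
      have h4 : k ≡ l [MOD f] := Nat.ModEq.cancel_right_of_coprime hcop h3
      have h5 : k % f = l % f := h4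
      have hkl' : k / f = l / f := hkl
      rw [← Nat.div_add_mod k f, ← Nat.div_add_mod l f, hkl', h5]
  rw [Finset.card_range] at h1
  have h2 : (((Finset.Ico k1 k2).filter (fun k => f ∣ k * q' + c)).card : ℝ) ≤
      ((k2 / f : ℕ) : ℝ) + 1 := by exact_mod_cast h1
  have h3 : ((k2 / f : ℕ) : ℝ) ≤ (k2 : ℝ) / f := Nat.cast_div_le
  linarith

open Classical in
theorem type_IIb {E : Set ℕ} (h : Thin E) {ε lam v0 : ℝ} (hε : 0 < ε) (hε1 : ε < 1 / 100)
    (hv0 : 0 ≤ v0) (hlam : 0 < lam) :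
    ∀ᶠ x : ℝ in atTop, ∀ z p0 q k1 k2 : ℕ, GoodScale ε lam v0 x z p0 q k1 k2 → ∀ b : ℕ, b ≤ 2 * q →
      ∑ k ∈ (Finset.Ico k1 k2).filter (fun k => k * q + b ∈ ESm E ∧
        ∀ p : ℕ, p.Prime → p ∣ k * q + b → (p : ℝ) ≤ Real.exp (x / Real.log x)), Wt q x k ≤
        ε * DQ E q x * (q / (q.totient * x)) := by
  have hlim : ∀ᶠ x : ℝ in atTop, Real.exp (2 * v0 + 3) * (1 / x ^ 2) +
      Real.exp (x / 2 - (1 - 2 * ε) * x) ≤ ε / x := by
    have t1 : Tendsto (fun x : ℝ => Real.exp (2 * v0 + 3) * (1 / x)) atTop (𝓝 0) := by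
      have := (tendsto_inv_atTop_zero (𝕜 := ℝ)).const_mul (Real.exp (2 * v0 + 3))
      rw [mul_zero] at this
      simpa using this
    have t2 : Tendsto (fun x : ℝ => x * Real.exp (-(1 / 4 * x))) atTop (𝓝 0) := by
      have h1 := (Real.tendsto_pow_mul_exp_neg_atTop_nhds_zero 1).comp
        (tendsto_id.const_mul_atTop (show (0 : ℝ) < 1 / 4 by norm_num))
      have h2 := h1.const_mul 4
      rw [mul_zero] at h2
      refine h2.congr fun x => ?_
      simp only [Function.comp_apply, id, pow_one]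
      ring
    filter_upwards [t1.eventually_le_const (show 0 < ε / 2 by linarith),
      t2.eventually_le_const (show 0 < ε / 2 by linarith), eventually_gt_atTop 0] with x h1 h2 hx
    rw [le_div_iff₀ hx, add_mul]
    have e1 : Real.exp (2 * v0 + 3) * (1 / x ^ 2) * x = Real.exp (2 * v0 + 3) * (1 / x) := by
      field_simp
    have e2 : Real.exp (x / 2 - (1 - 2 * ε) * x) * x ≤ x * Real.exp (-(1 / 4 * x)) := by
      rw [mul_comm]
      refine mul_le_mul_of_nonneg_left (Real.exp_le_exp.2 ?_) hx.le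
      nlinarith
    rw [e1]
    linarith
  filter_upwards [rankin h (show (0 : ℝ) < 1 / 4 by norm_num), GoodScale.q_le hε hε1,
    GoodScale.sizes hε hε1 hv0 hlam, hlim, eventually_gt_atTop (Real.exp 4),
    eventually_gt_atTop 1] with x hR hQ hsz hl hx4 hx1 z p0 q k1 k2 hs b hb
  obtain ⟨hq1, hqsf, hq2, -, -, -⟩ := hQ z p0 q k1 k2 hs
  obtain ⟨hk1, hk1e, -, -, hk2, -, -, -⟩ := hsz z p0 q k1 k2 hs
  have hx0 : 0 < x := by linarith
  have hlog4 : 4 < Real.log x := (Real.lt_log_iff_exp_lt hx0).2 hx4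
  have hk1R : (1 : ℝ) ≤ k1 := by exact_mod_cast hk1
  have hk1p : (0 : ℝ) < k1 := by linarith
  set Y : ℝ := Real.exp (x / Real.log x) with hY
  have hY1 : 1 ≤ Y := Real.one_le_exp (by positivity)
  have hYx : Real.exp (x / 4) * Y ≤ Real.exp (x / 2) := by
    rw [hY, ← Real.exp_add]
    refine Real.exp_le_exp.2 ?_
    have : x / Real.log x ≤ x / 4 := by gcongr
    linarith
  set d : ℕ := Nat.gcd b q with hd
  have hd0 : 0 < d := Nat.gcd_pos_of_pos_right _ hq1
  set q' : ℕ := q / d with hq'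
  set c : ℕ := b / d with hc
  have hdq : d * q' = q := Nat.mul_div_cancel' (Nat.gcd_dvd_right b q)
  have hdb : d * c = b := Nat.mul_div_cancel' (Nat.gcd_dvd_left b q)
  set FS : Finset ℕ := (Finset.Icc 1 ⌊Real.exp (x / 2)⌋₊).filter (fun f => f ∈ ESm E ∧
          (∀ p : ℕ, p.Prime → p ∣ f → (p : ℝ) ≤ Y) ∧
          Real.exp (x / 4) < (f : ℝ)) with hFS
  have hkey : ∀ k ∈ (Finset.Ico k1 k2).filter (fun k => k * q + b ∈ ESm E ∧
        ∀ p : ℕ, p.Prime → p ∣ k * q + b → (p : ℝ) ≤ Y),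
      ∃ f ∈ FS, Nat.Coprime f q' ∧ f ∣ k * q' + c := by
    intro k hk
    obtain ⟨hkI, hkE, hkY⟩ := Finset.mem_filter.1 hk
    have hkk := Finset.mem_Ico.1 hkI
    have hm : k * q + b = d * (k * q' + c) := by
      rw [mul_add, hdb, mul_left_comm, hdq]
    have hdvd : k * q' + c ∣ k * q + b := ⟨d, by rw [hm, mul_comm]⟩
    have hq'1 : 1 ≤ q' := by
      rcases Nat.eq_zero_or_pos q' with h0 | h0
      · rw [h0, mul_zero] at hdq
        omega
      · exact h0
    have hbig : Real.exp (x / 4) < ((k * q' + c : ℕ) : ℝ) := by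
      have e1 : Real.exp (x / 4) < Real.exp ((1 - 2 * ε) * x) := Real.exp_lt_exp.2 (by nlinarith)
      have e2 : (k1 : ℝ) ≤ ((k * q' + c : ℕ) : ℝ) := by
        have : k1 ≤ k * q' + c := by nlinarith [hkk.1]
        exact_mod_cast this
      linarith
    obtain ⟨f, hf1, hf2, hf3⟩ := exists_divisor hY1 (Real.one_le_exp (by positivity)) hbig
      (fun p hp hpm => hkY p hp (hpm.trans hdvd))
    have hf0 : f ≠ 0 := by
      intro h0
      rw [h0, Nat.cast_zero] at hf2
      have := Real.exp_pos (x / 4)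
      linarith
    refine ⟨f, Finset.mem_filter.2 ⟨Finset.mem_Icc.2 ⟨Nat.pos_of_ne_zero hf0,
      Nat.le_floor (hf3.trans hYx)⟩, ⟨hf0, fun p hp hpf => hkE.2 p hp (hpf.trans
      (hf1.trans hdvd))⟩, fun p hp hpf => hkY p hp (hpf.trans (hf1.trans hdvd)), hf2⟩, ?_, hf1⟩
    refine Nat.Coprime.coprime_dvd_left hf1 ?_
    rw [Nat.coprime_iff_gcd_eq_one]
    by_contra hne
    obtain ⟨p, hp, hpg⟩ := Nat.exists_prime_and_dvd hne
    have h1 : p ∣ k * q' + c := hpg.trans (Nat.gcd_dvd_left _ _)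
    have h2 : p ∣ q' := hpg.trans (Nat.gcd_dvd_right _ _)
    have h3 : p ∣ c := (Nat.dvd_add_right (h2.mul_left k)).1 h1
    have h4 : d * p ∣ b := by rw [← hdb]; exact mul_dvd_mul_left d h3
    have h5 : d * p ∣ q := by rw [← hdq]; exact mul_dvd_mul_left d h2
    have h6 : d * p ∣ d := Nat.dvd_gcd h4 h5
    have h7 := Nat.le_of_dvd hd0 h6
    have h8 := hp.two_le
    nlinarith
  have hW0 : ∀ k ∈ Finset.Ico k1 k2, 0 ≤ Wt q x k := fun k hk =>
    Wt_nonneg hq1 (hk1.trans (Finset.mem_Ico.1 hk).1) x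
  have hW1 : ∀ k ∈ Finset.Ico k1 k2, Wt q x k ≤ 1 / k1 := by
    intro k hk
    have hkk := (Finset.mem_Ico.1 hk).1
    refine (Wt_le_inv hq1 (hk1.trans hkk) x).trans ?_
    have : (k1 : ℝ) ≤ k := by exact_mod_cast hkk
    gcongr
  have step1 : ∑ k ∈ (Finset.Ico k1 k2).filter (fun k => k * q + b ∈ ESm E ∧
        ∀ p : ℕ, p.Prime → p ∣ k * q + b → (p : ℝ) ≤ Y), Wt q x k ≤
      ∑ f ∈ FS, (if Nat.Coprime f q' then
        ((k2 : ℝ) / f + 1) * (1 / k1) else 0) := by
    have e1 : ∑ k ∈ (Finset.Ico k1 k2).filter (fun k => k * q + b ∈ ESm E ∧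
        ∀ p : ℕ, p.Prime → p ∣ k * q + b → (p : ℝ) ≤ Y), Wt q x k ≤
        ∑ k ∈ Finset.Ico k1 k2, ∑ f ∈ FS,
          (if Nat.Coprime f q' ∧ f ∣ k * q' + c then 1 / (k1 : ℝ) else 0) := by
      refine le_trans (Finset.sum_le_sum (g := fun k => ∑ f ∈ FS,
          (if Nat.Coprime f q' ∧ f ∣ k * q' + c then 1 / (k1 : ℝ) else 0)) ?_)
        (Finset.sum_le_sum_of_subset_of_nonneg (Finset.filter_subset _ _) ?_)
      · intro k hk
        obtain ⟨f, hf, hf2⟩ := hkey k hk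
        refine (hW1 k (Finset.mem_filter.1 hk).1).trans ?_
        have := Finset.single_le_sum (f := fun f => (if Nat.Coprime f q' ∧ f ∣ k * q' + c then
          1 / (k1 : ℝ) else 0)) (fun i _ => by split_ifs <;> positivity) hf
        rw [if_pos hf2] at this
        exact this
      · intro k _ _
        exact Finset.sum_nonneg fun i _ => by split_ifs <;> positivity
    refine e1.trans ?_
    rw [Finset.sum_comm]
    refine Finset.sum_le_sum fun f hf => ?_
    have hf0 : 0 < f := (Finset.mem_Icc.1 (Finset.mem_filter.1 hf).1).1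
    by_cases hcop : Nat.Coprime f q'
    · rw [if_pos hcop]
      have e2 : ∀ k ∈ Finset.Ico k1 k2, (if Nat.Coprime f q' ∧ f ∣ k * q' + c then
          1 / (k1 : ℝ) else 0) = if f ∣ k * q' + c then 1 / (k1 : ℝ) else 0 := by
        intro k _
        by_cases hk : f ∣ k * q' + c
        · rw [if_pos hk, if_pos ⟨hcop, hk⟩]
        · rw [if_neg hk, if_neg (fun h => hk h.2)]
      rw [Finset.sum_congr rfl e2, ← Finset.sum_filter, Finset.sum_const, nsmul_eq_mul]
      exact mul_le_mul_of_nonneg_right (t5_count hf0 hcop) (by positivity)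
    · rw [if_neg hcop]
      refine (Finset.sum_eq_zero fun k _ => ?_).le
      exact if_neg (fun h => hcop h.1)
  have step2 : ∑ f ∈ FS, (if Nat.Coprime f q' then ((k2 : ℝ) / f + 1) * (1 / k1) else 0) ≤
      (k2 / k1) * ∑ f ∈ FS, 1 / (f : ℝ) + Real.exp (x / 2) / k1 := by
    have e1 : ∀ f ∈ FS, (if Nat.Coprime f q' then ((k2 : ℝ) / f + 1) * (1 / k1) else 0) ≤
        (k2 / k1) * (1 / (f : ℝ)) + 1 / k1 := by
      intro f _
      have e2 : ((k2 : ℝ) / f + 1) * (1 / k1) = (k2 / k1) * (1 / (f : ℝ)) + 1 / k1 := by ring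
      split_ifs
      · exact e2.le
      · positivity
    refine (Finset.sum_le_sum e1).trans ?_
    rw [Finset.sum_add_distrib, ← Finset.mul_sum, Finset.sum_const, nsmul_eq_mul]
    have e3 : (FS.card : ℝ) ≤ Real.exp (x / 2) := by
      have h1 : FS.card ≤ ⌊Real.exp (x / 2)⌋₊ := by
        refine (Finset.card_filter_le _ _).trans ?_
        rw [Nat.card_Icc]
        omega
      have h2 : (FS.card : ℝ) ≤ (⌊Real.exp (x / 2)⌋₊ : ℝ) := by exact_mod_cast h1
      exact h2.trans (Nat.floor_le (Real.exp_pos _).le)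
    have e4 : (FS.card : ℝ) * (1 / k1) ≤ Real.exp (x / 2) / k1 := by
      rw [mul_one_div]
      gcongr
    linarith
  have step3 : ∑ f ∈ FS, 1 / (f : ℝ) ≤ 1 / x ^ 2 := by
    refine le_trans (Finset.sum_le_sum_of_subset_of_nonneg ?_ ?_) hR
    · intro f hf
      obtain ⟨h1, h2, h3, h4⟩ := Finset.mem_filter.1 hf
      obtain ⟨h5, h6⟩ := Finset.mem_Icc.1 h1
      refine Finset.mem_filter.2 ⟨Finset.mem_Icc.2 ⟨h5, h6.trans (Nat.floor_le_floor
        (Real.exp_le_exp.2 (by linarith)))⟩, h2, h3, ?_⟩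
      have e : 1 / 4 * x = x / 4 := by ring
      rw [e]
      exact h4
    · intro f _ _
      positivity
  have step4 : (k2 : ℝ) / k1 ≤ Real.exp (2 * v0 + 3) := by
    rw [div_le_iff₀ hk1p]
    exact hk2
  have step5 : Real.exp (x / 2) / k1 ≤ Real.exp (x / 2 - (1 - 2 * ε) * x) := by
    rw [Real.exp_sub]
    gcongr
  have step6 : (k2 / k1 : ℝ) * ∑ f ∈ FS, 1 / (f : ℝ) ≤ Real.exp (2 * v0 + 3) * (1 / x ^ 2) :=
    mul_le_mul step4 step3 (Finset.sum_nonneg fun f _ => by positivity) (Real.exp_pos _).le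
  have hφ : 0 < (q.totient : ℝ) := by exact_mod_cast Nat.totient_pos.2 hq1
  have hφq : (q.totient : ℝ) ≤ q := by exact_mod_cast Nat.totient_le q
  have step7 : ε / x ≤ ε * DQ E q x * (q / (q.totient * x)) := by
    have h1 := one_le_DQ E q x
    have h2 : 1 / x ≤ (q : ℝ) / (q.totient * x) := by
      rw [div_le_div_iff₀ hx0 (by positivity)]
      nlinarith
    have h3 : ε * (1 / x) ≤ ε * DQ E q x * (q / (q.totient * x)) := by
      refine mul_le_mul ?_ h2 (by positivity) (by positivity)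
      nlinarith
    have h4 : ε / x = ε * (1 / x) := by ring
    rw [h4]
    exact h3
  linarith

end Pool.Agent.LibThin21
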