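import Pool.Agent.LibThin21.T1
import Pool.Agent.LibThin21.T2
import Pool.Agent.LibThin21.T3
import Pool.Agent.LibThin21.T4
import Pool.Agent.LibThin21.T5

/-!
ROW T6. Average number of survivors per row.

`∑_k Wt_k #TT(k) = ∑_{i ∈ cols} ∑_{k : i ∈ TT(k)} Wt_k`; by `classify` (with `m = k q + (c + i)`,
`u = exp (ε x)`, `Y = exp (x / log x)`) the inner filter is contained in the union of the four filters of
`type_main`, `type_tail`, `type_IIa`, `type_IIb` with `b = c + i ≤ 2 q`. Total per column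
`≤ (1 + 8 ε) DQ q/(φ(q) x)`; then `hcols`.
-/

namespace Pool.Agent.LibThin21

open Filter Topology
open Pool.Agent.LibMaier

theorem TT_sum {E : Set ℕ} (h : Thin E) {ε lam v0 : ℝ} (hε : 0 < ε) (hε1 : ε < 1 / 100)
    (hv0 : 0 ≤ v0) (hlam : 0 < lam) :
    ∀ᶠ x : ℝ in atTop, ∀ z p0 q k1 k2 : ℕ, GoodScale ε lam v0 x z p0 q k1 k2 → ∀ c : ℕ, c < q →
      ∑ k ∈ Finset.Ico k1 k2, Wt q x k * ((TT E q c k ⌊lam * x ^ 2⌋₊).card : ℝ) ≤
        (1 + 20 * ε) * (eg / 2) * (lam * x) * DQ E q x := by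
  classical
  filter_upwards [type_main (E := E) (lam := lam) hε hε1 hv0 hlam,
    type_tail (lam := lam) h hε hε1 hv0 hlam,
    type_IIa (lam := lam) h hε hε1 hv0 hlam, type_IIb (lam := lam) h hε hε1 hv0 hlam,
    GoodScale.sizes (lam := lam) hε hε1 hv0 hlam,
    eventually_gt_atTop (0 : ℝ)] with x h1 h2 h3 h4 hsz hx0 z p0 q k1 k2 hs c hc
  have h1' := h1 z p0 q k1 k2 hs
  have h2' := h2 z p0 q k1 k2 hs
  have h3' := h3 z p0 q k1 k2 hs
  have h4' := h4 z p0 q k1 k2 hs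
  obtain ⟨hk1, -, -, -, -, hqbig, -, -⟩ := hsz z p0 q k1 k2 hs
  have hlx : 0 < lam * x ^ 2 := by positivity
  have hq2 : 2 ≤ q := by
    have : (1 : ℝ) < q := by linarith
    have : 1 < q := by exact_mod_cast this
    omega
  have hq1 : 1 ≤ q := by omega
  have hhq : ⌊lam * x ^ 2⌋₊ ≤ q := by
    have : (⌊lam * x ^ 2⌋₊ : ℝ) ≤ q := (Nat.floor_le hlx.le).trans (by linarith)
    exact_mod_cast this
  set D : ℝ := DQ E q x with hD
  have hD1 : 1 ≤ D := one_le_DQ E q x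
  set w : ℝ := (q : ℝ) / (q.totient * x) with hw
  have htot : (0 : ℝ) < q.totient := by exact_mod_cast Nat.totient_pos.2 (by omega)
  have hw0 : 0 ≤ w := by rw [hw]; positivity
  have hcol : ∀ i ∈ cols q ⌊lam * x ^ 2⌋₊,
      ∑ k ∈ (Finset.Ico k1 k2).filter (fun k => i ∈ TT E q c k ⌊lam * x ^ 2⌋₊), Wt q x k ≤
        (1 + 8 * ε) * D * w := by
    intro i hi
    have hib : i ≤ ⌊lam * x ^ 2⌋₊ := by
      unfold cols at hi
      rw [Finset.mem_filter, Finset.mem_Icc] at hi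
      exact hi.1.2
    have hb : c + i ≤ 2 * q := by omega
    set F1 := (Finset.Ico k1 k2).filter (fun k => ∃ e π : ℕ, e ∈ ESm E ∧
      (e : ℝ) ≤ Real.exp (ε * x) ∧ π.Prime ∧ e < π ∧ k * q + (c + i) = e * π) with hF1
    set F2 := (Finset.Ico k1 k2).filter (fun k => ∃ e π : ℕ, e ∈ ESm E ∧
      Real.exp (ε * x) < (e : ℝ) ∧ π.Prime ∧ e < π ∧ k * q + (c + i) = e * π) with hF2
    set F3 := (Finset.Ico k1 k2).filter (fun k =>
        (∀ p : ℕ, p.Prime → p ∉ E → p ^ 2 ≤ k * q + (c + i) → ¬ p ∣ k * q + (c + i)) ∧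
        ∃ π : ℕ, π.Prime ∧ π ∈ E ∧ Real.exp (x / Real.log x) < (π : ℝ) ∧
          π ^ 2 ≤ k * q + (c + i) ∧ π ∣ k * q + (c + i)) with hF3
    set F4 := (Finset.Ico k1 k2).filter (fun k => k * q + (c + i) ∈ ESm E ∧
        ∀ p : ℕ, p.Prime → p ∣ k * q + (c + i) → (p : ℝ) ≤ Real.exp (x / Real.log x)) with hF4
    have hsub : (Finset.Ico k1 k2).filter (fun k => i ∈ TT E q c k ⌊lam * x ^ 2⌋₊) ⊆
        ((F1 ∪ F2) ∪ F3) ∪ F4 := by
      intro k hk
      rw [Finset.mem_filter] at hk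
      obtain ⟨hkI, hkT⟩ := hk
      unfold TT at hkT
      rw [Finset.mem_filter] at hkT
      have hkT2 : ∀ p : ℕ, p.Prime → p ∉ E → p ^ 2 ≤ k * q + (c + i) → ¬ p ∣ k * q + (c + i) := by
        intro p hp hpE hpm
        rw [← add_assoc] at hpm ⊢
        exact hkT.2 p hp hpE hpm
      have hk1' : k1 ≤ k := (Finset.mem_Ico.1 hkI).1
      have hm2 : 2 ≤ k * q + (c + i) := by
        have : 1 * 2 ≤ k * q := Nat.mul_le_mul (by omega) hq2
        omega
      rcases classify hm2 (Real.exp (ε * x)) (Real.exp (x / Real.log x)) hkT2 with hA | hA | hA | hA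
      · apply Finset.mem_union_left; apply Finset.mem_union_left; apply Finset.mem_union_left
        rw [hF1, Finset.mem_filter]; exact ⟨hkI, hA⟩
      · apply Finset.mem_union_left; apply Finset.mem_union_left; apply Finset.mem_union_right
        rw [hF2, Finset.mem_filter]; exact ⟨hkI, hA⟩
      · apply Finset.mem_union_left; apply Finset.mem_union_right
        rw [hF3, Finset.mem_filter]; exact ⟨hkI, hkT2, hA⟩
      · apply Finset.mem_union_right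
        rw [hF4, Finset.mem_filter]; exact ⟨hkI, hA⟩
    have hnn : ∀ k ∈ Finset.Ico k1 k2, 0 ≤ Wt q x k := fun k hk =>
      Wt_nonneg hq1 (hk1.trans (Finset.mem_Ico.1 hk).1) x
    have hnn1 : ∀ (F : Finset ℕ), F ⊆ Finset.Ico k1 k2 → 0 ≤ ∑ k ∈ F, Wt q x k := fun F hF =>
      Finset.sum_nonneg (fun k hk => hnn k (hF hk))
    have hun : ∀ A B : Finset ℕ, A ⊆ Finset.Ico k1 k2 → B ⊆ Finset.Ico k1 k2 →
        ∑ k ∈ A ∪ B, Wt q x k ≤ ∑ k ∈ A, Wt q x k + ∑ k ∈ B, Wt q x k := by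
      intro A B hA hB
      rw [← Finset.sum_union_inter]
      have := hnn1 (A ∩ B) (Finset.inter_subset_left.trans hA)
      linarith
    have hs1 : F1 ⊆ Finset.Ico k1 k2 := Finset.filter_subset _ _
    have hs2 : F2 ⊆ Finset.Ico k1 k2 := Finset.filter_subset _ _
    have hs3 : F3 ⊆ Finset.Ico k1 k2 := Finset.filter_subset _ _
    have hs4 : F4 ⊆ Finset.Ico k1 k2 := Finset.filter_subset _ _
    have hs12 : F1 ∪ F2 ⊆ Finset.Ico k1 k2 := Finset.union_subset hs1 hs2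
    have hs123 : (F1 ∪ F2) ∪ F3 ⊆ Finset.Ico k1 k2 := Finset.union_subset hs12 hs3
    have hs1234 : ((F1 ∪ F2) ∪ F3) ∪ F4 ⊆ Finset.Ico k1 k2 := Finset.union_subset hs123 hs4
    have e1 := h1' (c + i) hb
    have e2 := h2' (c + i) hb
    have e3 := h3' (c + i) hb
    have e4 := h4' (c + i) hb
    calc ∑ k ∈ (Finset.Ico k1 k2).filter (fun k => i ∈ TT E q c k ⌊lam * x ^ 2⌋₊), Wt q x k
        ≤ ∑ k ∈ ((F1 ∪ F2) ∪ F3) ∪ F4, Wt q x k :=
          Finset.sum_le_sum_of_subset_of_nonneg hsub (fun k hk _ => hnn k (hs1234 hk))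
      _ ≤ (1 + 5 * ε) * D * w + ε * D * w + ε * D * w + ε * D * w := by
          have a1 := hun _ _ hs123 hs4
          have a2 := hun _ _ hs12 hs3
          have a3 := hun _ _ hs1 hs2
          linarith
      _ = (1 + 8 * ε) * D * w := by ring
  have hswap : ∑ k ∈ Finset.Ico k1 k2, Wt q x k * ((TT E q c k ⌊lam * x ^ 2⌋₊).card : ℝ) =
      ∑ i ∈ cols q ⌊lam * x ^ 2⌋₊,
        ∑ k ∈ (Finset.Ico k1 k2).filter (fun k => i ∈ TT E q c k ⌊lam * x ^ 2⌋₊), Wt q x k := by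
    have : ∀ k ∈ Finset.Ico k1 k2, Wt q x k * ((TT E q c k ⌊lam * x ^ 2⌋₊).card : ℝ) =
        ∑ i ∈ cols q ⌊lam * x ^ 2⌋₊,
          if i ∈ TT E q c k ⌊lam * x ^ 2⌋₊ then Wt q x k else 0 := by
      intro k _
      rw [← Finset.sum_filter]
      have hfil : (cols q ⌊lam * x ^ 2⌋₊).filter (fun i => i ∈ TT E q c k ⌊lam * x ^ 2⌋₊) =
          TT E q c k ⌊lam * x ^ 2⌋₊ := by
        ext i
        rw [Finset.mem_filter]
        constructor
        · exact fun hi => hi.2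
        · intro hi
          refine ⟨?_, hi⟩
          unfold TT at hi
          exact (Finset.mem_filter.1 hi).1
      rw [hfil, Finset.sum_const, nsmul_eq_mul, mul_comm]
    rw [Finset.sum_congr rfl this, Finset.sum_comm]
    apply Finset.sum_congr rfl
    intro i _
    rw [Finset.sum_filter]
  rw [hswap]
  have hc1 : ∑ i ∈ cols q ⌊lam * x ^ 2⌋₊,
        ∑ k ∈ (Finset.Ico k1 k2).filter (fun k => i ∈ TT E q c k ⌊lam * x ^ 2⌋₊), Wt q x k ≤
      ((cols q ⌊lam * x ^ 2⌋₊).card : ℝ) * ((1 + 8 * ε) * D * w) := by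
    calc _ ≤ ∑ _i ∈ cols q ⌊lam * x ^ 2⌋₊, (1 + 8 * ε) * D * w := Finset.sum_le_sum hcol
      _ = _ := by rw [Finset.sum_const, nsmul_eq_mul]
  refine hc1.trans ?_
  have hcc := hs.hcols
  have hwe : w = ((q : ℝ) / q.totient) * (1 / x) := by
    rw [hw]; field_simp
  have key : ((cols q ⌊lam * x ^ 2⌋₊).card : ℝ) * ((1 + 8 * ε) * D * w) ≤
      (1 + 8 * ε) * D * ((1 + ε) ^ 4 * (eg / 2) * (lam * x)) := by
    have e1 : ((cols q ⌊lam * x ^ 2⌋₊).card : ℝ) * ((1 + 8 * ε) * D * w) =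
        (1 + 8 * ε) * D * (((cols q ⌊lam * x ^ 2⌋₊).card : ℝ) * ((q : ℝ) / (q.totient : ℝ)) *
          (1 / x)) := by rw [hwe]; ring
    rw [e1]
    apply mul_le_mul_of_nonneg_left _ (by positivity)
    calc ((cols q ⌊lam * x ^ 2⌋₊).card : ℝ) * ((q : ℝ) / (q.totient : ℝ)) * (1 / x)
        ≤ ((1 + ε) ^ 4 * (eg / 2) * (lam * x ^ 2)) * (1 / x) :=
          mul_le_mul_of_nonneg_right hcc (by positivity)
      _ = (1 + ε) ^ 4 * (eg / 2) * (lam * x) := by field_simp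
  refine key.trans ?_
  have hfin : (1 + 8 * ε) * (1 + ε) ^ 4 ≤ 1 + 20 * ε := by
    have h2 : (1 + ε) ^ 2 ≤ 1 + 2.01 * ε := by nlinarith
    have h4 : (1 + ε) ^ 4 ≤ 1 + 4.1 * ε := by
      have : (1 + ε) ^ 4 = ((1 + ε) ^ 2) * ((1 + ε) ^ 2) := by ring
      rw [this]
      have h0 : 0 ≤ (1 + ε) ^ 2 := by positivity
      nlinarith
    nlinarith
  have heg := eg_pos
  have hpos : 0 ≤ (eg / 2) * (lam * x) * D := by positivity
  calc (1 + 8 * ε) * D * ((1 + ε) ^ 4 * (eg / 2) * (lam * x))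
      = ((1 + 8 * ε) * (1 + ε) ^ 4) * ((eg / 2) * (lam * x) * D) := by ring
    _ ≤ (1 + 20 * ε) * ((eg / 2) * (lam * x) * D) := mul_le_mul_of_nonneg_right hfin hpos
    _ = (1 + 20 * ε) * (eg / 2) * (lam * x) * D := by ring

end Pool.Agent.LibThin21
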